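import Mathlib

set_option autoImplicit false

/-! Fourier analysis on the cube `ι → Bool` (uniform measure). -/

namespace Pool.FEI

open Finset

section base

variable {ι : Type} [Fintype ι] [DecidableEq ι]

/-- expectation of `g` over the uniform cube -/
noncomputable def E (g : (ι → Bool) → ℝ) : ℝ := (∑ x, g x) / 2 ^ Fintype.card ι

/-- the character `chi S` -/
noncomputable def chi (S : Finset ι) (x : ι → Bool) : ℝ := ∏ k ∈ S, (if x k then (-1 : ℝ) else 1)

/-- Fourier coefficient -/
noncomputable def coef (g : (ι → Bool) → ℝ) (S : Finset ι) : ℝ := E (fun x => g x * chi S x)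

/-- merge: coordinates in `R` from `x`, the others from `z` -/
def mrg (R : Finset ι) (x z : ι → Bool) : ι → Bool := fun i => if i ∈ R then x i else z i

/-- restriction: free coordinates `R`, the others fixed as in `z` -/
def res (g : (ι → Bool) → ℝ) (R : Finset ι) (z : ι → Bool) : (ι → Bool) → ℝ := fun x => g (mrg R x z)

/-- spectral entropy (natural logarithm) -/
noncomputable def ent (g : (ι → Bool) → ℝ) : ℝ := ∑ T : Finset ι, Real.negMulLog ((coef g T) ^ 2)

/-- weighted spectral mass on levels at least two -/
noncomputable def KK (g : (ι → Bool) → ℝ) : ℝ :=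
  ∑ T ∈ (univ : Finset (Finset ι)).filter (fun T => 2 ≤ T.card), Real.sqrt (T.card) * (coef g T) ^ 2

/-- all subfunctions on each coordinate set are pairwise comparable -/
def Nested (g : (ι → Bool) → ℝ) : Prop :=
  ∀ (R : Finset ι) (z z' : ι → Bool),
    (∀ x, g (mrg R x z) ≤ g (mrg R x z')) ∨ (∀ x, g (mrg R x z') ≤ g (mrg R x z))

/-- the function takes values `1` and `-1` only -/
def PM (g : (ι → Bool) → ℝ) : Prop := ∀ x, g x = 1 ∨ g x = -1

/-- the loss of a bipartition `(A, Aᶜ)` -/
noncomputable def loss (g : (ι → Bool) → ℝ) (A : Finset ι) : ℝ :=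
  ent g - E (fun y => ent (res g A y)) - E (fun x => ent (res g Aᶜ x))

end base

end Pool.FEI
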