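import Pool.Agent.FEI.JDefs
set_option autoImplicit false
set_option linter.unusedSectionVars false
set_option linter.unusedVariables false

/-! The block lemma: `min (dA g A) (dA g Aᶜ) ≤ 400 * drop g A`. -/

namespace Pool.FEI
open Finset
variable {ι : Type} [Fintype ι] [DecidableEq ι]

theorem E_swap (F : (ι → Bool) → (ι → Bool) → ℝ) :
    E (fun x => E (fun y => F x y)) = E (fun y => E (fun x => F x y)) := by
  unfold E
  rw [← Finset.sum_div, ← Finset.sum_div, Finset.sum_comm]

/-- a 0/1 valued kernel with its row means, column means and mean -/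
structure Sys (B : (ι → Bool) → (ι → Bool) → ℝ) (p q : (ι → Bool) → ℝ) (β : ℝ) : Prop where
  hB : ∀ x y, B x y = 0 ∨ B x y = 1
  hp : ∀ x, p x = E (fun y => B x y)
  hq : ∀ y, q y = E (fun x => B x y)
  hβ : β = E p

theorem Sys.hβ' {B : (ι → Bool) → (ι → Bool) → ℝ} {p q : (ι → Bool) → ℝ} {β : ℝ} (h : Sys B p q β) :
    β = E q := by
  rw [h.hβ, E_congr h.hp, E_swap, E_congr h.hq]

theorem Sys.swap {B : (ι → Bool) → (ι → Bool) → ℝ} {p q : (ι → Bool) → ℝ} {β : ℝ} (h : Sys B p q β) :
    Sys (fun x y => B y x) q p β :=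
  ⟨fun x y => h.hB y x, h.hq, h.hp, h.hβ'⟩

theorem Sys.compl {B : (ι → Bool) → (ι → Bool) → ℝ} {p q : (ι → Bool) → ℝ} {β : ℝ} (h : Sys B p q β) :
    Sys (fun x y => 1 - B x y) (fun x => 1 - p x) (fun y => 1 - q y) (1 - β) := by
  refine ⟨fun x y => ?_, fun x => ?_, fun y => ?_, ?_⟩
  · rcases h.hB x y with h1 | h1 <;> rw [h1] <;> norm_num
  · show 1 - p x = E (fun y => 1 - B x y)
    rw [E_sub (fun _ => 1), E_const, h.hp]
  · show 1 - q y = E (fun x => 1 - B x y)
    rw [E_sub (fun _ => 1), E_const, h.hq]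
  · rw [E_sub (fun _ => 1), E_const, h.hβ]

section sys
variable {B : (ι → Bool) → (ι → Bool) → ℝ} {p q : (ι → Bool) → ℝ} {β : ℝ}

theorem Sys.B0 (h : Sys B p q β) (x y : ι → Bool) : 0 ≤ B x y := by
  rcases h.hB x y with h1 | h1 <;> rw [h1] <;> norm_num
theorem Sys.B1 (h : Sys B p q β) (x y : ι → Bool) : B x y ≤ 1 := by
  rcases h.hB x y with h1 | h1 <;> rw [h1] <;> norm_num
theorem Sys.p0 (h : Sys B p q β) (x : ι → Bool) : 0 ≤ p x := by
  rw [h.hp]; exact E_nonneg fun y => h.B0 x y
theorem Sys.p1 (h : Sys B p q β) (x : ι → Bool) : p x ≤ 1 := by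
  rw [h.hp]
  calc E (fun y => B x y) ≤ E (fun _ : ι → Bool => (1 : ℝ)) := E_mono fun y => h.B1 x y
    _ = 1 := E_const 1
theorem Sys.q0 (h : Sys B p q β) (x : ι → Bool) : 0 ≤ q x := h.swap.p0 x
theorem Sys.q1 (h : Sys B p q β) (x : ι → Bool) : q x ≤ 1 := h.swap.p1 x
theorem Sys.β0 (h : Sys B p q β) : 0 ≤ β := by
  rw [h.hβ]; exact E_nonneg h.p0

/-- the interaction part -/
noncomputable def ee (B : (ι → Bool) → (ι → Bool) → ℝ) (p q : (ι → Bool) → ℝ) (β : ℝ) (x y : ι → Bool) : ℝ :=
  B x y - p x - q y + β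

noncomputable def kx (B : (ι → Bool) → (ι → Bool) → ℝ) (p q : (ι → Bool) → ℝ) (β : ℝ) (x : ι → Bool) : ℝ :=
  E (fun y => ee B p q β x y ^ 2)

noncomputable def kap (p q : (ι → Bool) → ℝ) (β : ℝ) : ℝ :=
  β - E (fun x => p x ^ 2) - E (fun y => q y ^ 2) + β ^ 2

theorem kx_nonneg (B : (ι → Bool) → (ι → Bool) → ℝ) (p q : (ι → Bool) → ℝ) (β : ℝ) (x : ι → Bool) :
    0 ≤ kx B p q β x := E_nonneg fun y => sq_nonneg _

theorem Sys.E_ee (h : Sys B p q β) (x : ι → Bool) : E (fun y => ee B p q β x y) = 0 := by
  have h1 : ∀ y, ee B p q β x y = (B x y - q y) - (p x - β) := fun y => by unfold ee; ring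
  rw [E_congr h1, E_sub (fun y => B x y - q y) (fun _ => p x - β), E_sub (fun y => B x y) q, E_const,
    ← h.hp, ← h.hβ']
  ring

theorem Sys.E_ee' (h : Sys B p q β) (y : ι → Bool) : E (fun x => ee B p q β x y) = 0 := by
  have h1 := h.swap.E_ee y
  rw [← h1]
  apply E_congr
  intro x
  unfold ee
  ring

theorem Sys.kx_eq (h : Sys B p q β) (x : ι → Bool) :
    kx B p q β x = p x - p x ^ 2 + 2 * β * p x + E (fun y => q y ^ 2) - β ^ 2 - 2 * E (fun y => B x y * q y) := by
  unfold kx
  have hsq : ∀ y, B x y ^ 2 = B x y := fun y => by rcases h.hB x y with h1 | h1 <;> rw [h1] <;> norm_num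
  have h1 : ∀ y, ee B p q β x y ^ 2 = ((1 - 2 * p x + 2 * β) * B x y + q y ^ 2)
      - (2 * (B x y * q y) + ((2 * β - 2 * p x) * q y - (p x - β) ^ 2)) := by
    intro y
    unfold ee
    have := hsq y
    nlinarith [this]
  rw [E_congr h1, E_sub (fun y => (1 - 2 * p x + 2 * β) * B x y + q y ^ 2)
      (fun y => 2 * (B x y * q y) + ((2 * β - 2 * p x) * q y - (p x - β) ^ 2)),
    E_add (fun y => (1 - 2 * p x + 2 * β) * B x y) (fun y => q y ^ 2),
    E_add (fun y => 2 * (B x y * q y)) (fun y => (2 * β - 2 * p x) * q y - (p x - β) ^ 2),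
    E_sub (fun y => (2 * β - 2 * p x) * q y) (fun _ => (p x - β) ^ 2), E_const, E_mul_left, E_mul_left, E_mul_left,
    ← h.hp, ← h.hβ']
  ring

theorem Sys.E_Bq (h : Sys B p q β) : E (fun x => E (fun y => B x y * q y)) = E (fun y => q y ^ 2) := by
  rw [E_swap]
  apply E_congr
  intro y
  rw [E_mul_right, ← h.hq]
  ring

theorem Sys.E_kx (h : Sys B p q β) : E (fun x => kx B p q β x) = kap p q β := by
  rw [E_congr h.kx_eq]
  have h1 : ∀ x, p x - p x ^ 2 + 2 * β * p x + E (fun y => q y ^ 2) - β ^ 2 - 2 * E (fun y => B x y * q y)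
      = ((1 + 2 * β) * p x + (E (fun y => q y ^ 2) - β ^ 2)) - (p x ^ 2 + 2 * E (fun y => B x y * q y)) :=
    fun x => by ring
  rw [E_congr h1, E_sub (fun x => (1 + 2 * β) * p x + (E (fun y => q y ^ 2) - β ^ 2))
      (fun x => p x ^ 2 + 2 * E (fun y => B x y * q y)),
    E_add (fun x => (1 + 2 * β) * p x) (fun _ => E (fun y => q y ^ 2) - β ^ 2),
    E_add (fun x => p x ^ 2) (fun x => 2 * E (fun y => B x y * q y)), E_const, E_mul_left, E_mul_left, h.E_Bq, ← h.hβ]
  unfold kap
  ring

theorem Sys.kap_nonneg (h : Sys B p q β) : 0 ≤ kap p q β := by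
  rw [← h.E_kx]; exact E_nonneg fun x => kx_nonneg _ _ _ _ _

theorem kap_swap (p q : (ι → Bool) → ℝ) (β : ℝ) : kap q p β = kap p q β := by
  unfold kap; ring

theorem Sys.E_alt (h : Sys B p q β) (x y : ι → Bool) :
    E (fun x' => E (fun y' => (B x y - B x y' - B x' y + B x' y') ^ 2))
      = ee B p q β x y ^ 2 + kx (fun x y => B y x) q p β y + kx B p q β x + kap p q β := by
  set e := ee B p q β with he
  have h1 : ∀ x' y', (B x y - B x y' - B x' y + B x' y') ^ 2
      = ((e x y - e x' y) ^ 2 + (e x y' ^ 2 + e x' y' ^ 2))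
        - ((2 * (e x y - e x' y)) * e x y' - ((2 * (e x y - e x' y)) * e x' y' - 2 * (e x y' * e x' y'))) := by
    intro x' y'
    simp only [he, ee]
    ring
  have h2 : ∀ x', E (fun y' => (B x y - B x y' - B x' y + B x' y') ^ 2)
      = (e x y - e x' y) ^ 2 + kx B p q β x + kx B p q β x' - 2 * E (fun y' => e x y' * e x' y') := by
    intro x'
    rw [E_congr (h1 x'), E_sub (fun y' => (e x y - e x' y) ^ 2 + (e x y' ^ 2 + e x' y' ^ 2))
        (fun y' => (2 * (e x y - e x' y)) * e x y' - ((2 * (e x y - e x' y)) * e x' y' - 2 * (e x y' * e x' y'))),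
      E_add (fun _ => (e x y - e x' y) ^ 2) (fun y' => e x y' ^ 2 + e x' y' ^ 2), E_const,
      E_add (fun y' => e x y' ^ 2) (fun y' => e x' y' ^ 2),
      E_sub (fun y' => (2 * (e x y - e x' y)) * e x y') (fun y' => (2 * (e x y - e x' y)) * e x' y' - 2 * (e x y' * e x' y')),
      E_sub (fun y' => (2 * (e x y - e x' y)) * e x' y') (fun y' => 2 * (e x y' * e x' y')),
      E_mul_left, E_mul_left, E_mul_left, h.E_ee x, h.E_ee x']
    unfold kx
    ring
  have h3 : E (fun x' => E (fun y' => e x y' * e x' y')) = 0 := by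
    rw [E_swap]
    have : ∀ y', E (fun x' => e x y' * e x' y') = 0 := by
      intro y'
      rw [E_mul_left, h.E_ee' y', mul_zero]
    rw [E_congr this, E_const]
  have h4 : ∀ x', (e x y - e x' y) ^ 2 + kx B p q β x + kx B p q β x' - 2 * E (fun y' => e x y' * e x' y')
      = ((e x y ^ 2 + kx B p q β x) + (e x' y ^ 2 + kx B p q β x'))
        - (2 * e x y * e x' y + 2 * E (fun y' => e x y' * e x' y')) := fun x' => by ring
  rw [E_congr h2, E_congr h4, E_sub (fun x' => (e x y ^ 2 + kx B p q β x) + (e x' y ^ 2 + kx B p q β x'))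
      (fun x' => 2 * e x y * e x' y + 2 * E (fun y' => e x y' * e x' y')),
    E_add (fun _ => e x y ^ 2 + kx B p q β x) (fun x' => e x' y ^ 2 + kx B p q β x'), E_const,
    E_add (fun x' => e x' y ^ 2) (fun x' => kx B p q β x'), h.E_kx,
    E_add (fun x' => 2 * e x y * e x' y) (fun x' => 2 * E (fun y' => e x y' * e x' y')), E_mul_left, E_mul_left, h3,
    h.E_ee' y]
  have h5 : kx (fun x y => B y x) q p β y = E (fun x' => e x' y ^ 2) := by
    unfold kx
    apply E_congr
    intro x'
    simp only [he, ee]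
    ring
  rw [h5]
  ring

theorem Sys.E_E_alt (h : Sys B p q β) :
    E (fun x => E (fun y => E (fun x' => E (fun y' => (B x y - B x y' - B x' y + B x' y') ^ 2)))) = 4 * kap p q β := by
  have h1 : ∀ x, E (fun y => E (fun x' => E (fun y' => (B x y - B x y' - B x' y + B x' y') ^ 2)))
      = kx B p q β x + (kx B p q β x + 2 * kap p q β) := by
    intro x
    rw [E_congr (h.E_alt x)]
    have h2 : ∀ y, ee B p q β x y ^ 2 + kx (fun x y => B y x) q p β y + kx B p q β x + kap p q β
        = ee B p q β x y ^ 2 + (kx (fun x y => B y x) q p β y + (kx B p q β x + kap p q β)) := fun y => by ring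
    rw [E_congr h2, E_add (fun y => ee B p q β x y ^ 2)
      (fun y => kx (fun x y => B y x) q p β y + (kx B p q β x + kap p q β)),
      E_add (fun y => kx (fun x y => B y x) q p β y) (fun _ => kx B p q β x + kap p q β), E_const, h.swap.E_kx, kap_swap]
    unfold kx
    ring
  rw [E_congr h1, E_add (fun x => kx B p q β x) (fun x => kx B p q β x + 2 * kap p q β),
    E_add (fun x => kx B p q β x) (fun _ => 2 * kap p q β), E_const, h.E_kx]
  ring

/-- the distance to functions of the row variable -/
noncomputable def aa (p : (ι → Bool) → ℝ) : ℝ := E (fun x => min (p x) (1 - p x))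

theorem Sys.star (h : Sys B p q β) : aa p * aa q ≤ 4 * kap p q β := by
  rw [← h.E_E_alt]
  have h1 : aa p * aa q = E (fun x => E (fun y => min (p x) (1 - p x) * min (q y) (1 - q y))) := by
    have : ∀ x, E (fun y => min (p x) (1 - p x) * min (q y) (1 - q y)) = min (p x) (1 - p x) * aa q := fun x => by
      rw [E_mul_left]; rfl
    rw [E_congr this, E_mul_right]; rfl
  rw [h1]
  apply E_mono
  intro x
  apply E_mono
  intro y
  have h2 : E (fun x' => E (fun y' => (B x y - B x y') ^ 2 * (B x y - B x' y) ^ 2))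
      ≤ E (fun x' => E (fun y' => (B x y - B x y' - B x' y + B x' y') ^ 2)) := by
    apply E_mono
    intro x'
    apply E_mono
    intro y'
    rcases h.hB x y with h1 | h1 <;> rcases h.hB x y' with h2 | h2 <;> rcases h.hB x' y with h3 | h3 <;>
      rcases h.hB x' y' with h4 | h4 <;> rw [h1, h2, h3, h4] <;> norm_num
  refine le_trans ?_ h2
  have h3 : ∀ x', E (fun y' => (B x y - B x y') ^ 2 * (B x y - B x' y) ^ 2)
      = (B x y + p x - 2 * B x y * p x) * (B x y - B x' y) ^ 2 := by
    intro x'
    rw [E_mul_right]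
    congr 1
    have h4 : ∀ y', (B x y - B x y') ^ 2 = B x y + (1 - 2 * B x y) * B x y' := by
      intro y'
      rcases h.hB x y with h1 | h1 <;> rcases h.hB x y' with h2 | h2 <;> rw [h1, h2] <;> norm_num
    rw [E_congr h4, E_add (fun _ => B x y) (fun y' => (1 - 2 * B x y) * B x y'), E_const, E_mul_left, ← h.hp]
    ring
  have h5 : E (fun x' => (B x y - B x' y) ^ 2) = B x y + q y - 2 * B x y * q y := by
    have h4 : ∀ x', (B x y - B x' y) ^ 2 = B x y + (1 - 2 * B x y) * B x' y := by
      intro x'
      rcases h.hB x y with h1 | h1 <;> rcases h.hB x' y with h2 | h2 <;> rw [h1, h2] <;> norm_num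
    rw [E_congr h4, E_add (fun _ => B x y) (fun x' => (1 - 2 * B x y) * B x' y), E_const, E_mul_left, ← h.hq]
    ring
  rw [E_congr h3, E_mul_left, h5]
  have a0 := h.p0 x
  have a1 := h.p1 x
  have b0 := h.q0 y
  have b1 := h.q1 y
  have c1 : min (p x) (1 - p x) ≤ B x y + p x - 2 * B x y * p x := by
    rcases h.hB x y with h1 | h1 <;> rw [h1]
    · refine (min_le_left _ _).trans (le_of_eq (by ring))
    · refine (min_le_right _ _).trans (le_of_eq (by ring))
  have c2 : min (q y) (1 - q y) ≤ B x y + q y - 2 * B x y * q y := by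
    rcases h.hB x y with h1 | h1 <;> rw [h1]
    · refine (min_le_left _ _).trans (le_of_eq (by ring))
    · refine (min_le_right _ _).trans (le_of_eq (by ring))
  have d1 : 0 ≤ min (p x) (1 - p x) := le_min a0 (by linarith)
  have d2 : 0 ≤ min (q y) (1 - q y) := le_min b0 (by linarith)
  exact mul_le_mul c1 c2 d2 (d1.trans c1)

/-- indicator of the rows with mean at least one half -/
noncomputable def uu (p : (ι → Bool) → ℝ) (x : ι → Bool) : ℝ := if 1 / 2 ≤ p x then 1 else 0

theorem uu_nonneg (p : (ι → Bool) → ℝ) (x : ι → Bool) : 0 ≤ uu p x := by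
  unfold uu; split_ifs <;> norm_num

theorem uu_le (p : (ι → Bool) → ℝ) (h0 : ∀ x, 0 ≤ p x) (x : ι → Bool) : uu p x ≤ 2 * (p x * uu p x) := by
  unfold uu
  split_ifs with h
  · linarith
  · simp

theorem Sys.rowdist (h : Sys B p q β) (x x' : ι → Bool) :
    (p x - p x') ^ 2 ≤ (2 * kx B p q β x + 2 * kx B p q β x') + (uu p x + uu p x') := by
  have k0 := kx_nonneg B p q β x
  have k1 := kx_nonneg B p q β x'
  have a0 := h.p0 x
  have a1 := h.p1 x
  have b0 := h.p0 x'
  have b1 := h.p1 x'
  by_cases hU : 1 / 2 ≤ p x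
  · have : uu p x = 1 := by unfold uu; rw [if_pos hU]
    have := uu_nonneg p x'
    nlinarith
  by_cases hU' : 1 / 2 ≤ p x'
  · have : uu p x' = 1 := by unfold uu; rw [if_pos hU']
    have := uu_nonneg p x
    nlinarith
  have e1 : uu p x = 0 := by unfold uu; rw [if_neg hU]
  have e2 : uu p x' = 0 := by unfold uu; rw [if_neg hU']
  rw [e1, e2]
  push Not at hU hU'
  -- the variance of the difference of the rows
  have hD : ∀ y, |B x y - B x' y| ≤ (B x y - B x' y) ^ 2 := by
    intro y
    rcases h.hB x y with h1 | h1 <;> rcases h.hB x' y with h2 | h2 <;> rw [h1, h2] <;> norm_num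
  have hm : E (fun y => B x y - B x' y) = p x - p x' := by
    rw [E_sub (fun y => B x y) (fun y => B x' y), ← h.hp, ← h.hp]
  have hV : E (fun y => (ee B p q β x y - ee B p q β x' y) ^ 2)
      = E (fun y => (B x y - B x' y) ^ 2) - (p x - p x') ^ 2 := by
    have h1 : ∀ y, (ee B p q β x y - ee B p q β x' y) ^ 2
        = ((B x y - B x' y) ^ 2 + (p x - p x') ^ 2) - (2 * (p x - p x')) * (B x y - B x' y) := by
      intro y; unfold ee; ring
    rw [E_congr h1, E_sub (fun y => (B x y - B x' y) ^ 2 + (p x - p x') ^ 2)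
      (fun y => (2 * (p x - p x')) * (B x y - B x' y)),
      E_add (fun y => (B x y - B x' y) ^ 2) (fun _ => (p x - p x') ^ 2), E_const, E_mul_left, hm]
    ring
  have hV2 : E (fun y => (ee B p q β x y - ee B p q β x' y) ^ 2) ≤ 2 * kx B p q β x + 2 * kx B p q β x' := by
    have h1 : ∀ y, (ee B p q β x y - ee B p q β x' y) ^ 2 ≤ 2 * ee B p q β x y ^ 2 + 2 * ee B p q β x' y ^ 2 := by
      intro y; nlinarith [sq_nonneg (ee B p q β x y + ee B p q β x' y)]
    refine (E_mono h1).trans (le_of_eq ?_)
    rw [E_add (fun y => 2 * ee B p q β x y ^ 2) (fun y => 2 * ee B p q β x' y ^ 2), E_mul_left, E_mul_left]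
    rfl
  have hA : |p x - p x'| ≤ E (fun y => (B x y - B x' y) ^ 2) := by
    rw [abs_le]
    constructor
    · have : E (fun y => (-1) * (B x y - B x' y)) ≤ E (fun y => (B x y - B x' y) ^ 2) := by
        apply E_mono; intro y
        refine le_trans ?_ (hD y)
        have := neg_abs_le (B x y - B x' y)
        linarith
      rw [E_mul_left, hm] at this
      linarith
    · rw [← hm]
      apply E_mono; intro y
      exact (le_abs_self _).trans (hD y)
  have h2 : |p x - p x'| ≤ 1 / 2 := by rw [abs_le]; constructor <;> linarith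
  have h3 : (p x - p x') ^ 2 = |p x - p x'| ^ 2 := (sq_abs _).symm
  have h4 := abs_nonneg (p x - p x')
  nlinarith

theorem Sys.partA (h : Sys B p q β) :
    E (fun x => p x ^ 2) - β ^ 2 ≤ 2 * kap p q β + 2 * E (fun x => p x * uu p x) := by
  have h1 : E (fun x => E (fun x' => (p x - p x') ^ 2)) = 2 * (E (fun x => p x ^ 2) - β ^ 2) := by
    have e1 : ∀ x, E (fun x' => (p x - p x') ^ 2) = (p x ^ 2 + E (fun x => p x ^ 2)) - 2 * β * p x := by
      intro x
      have : ∀ x', (p x - p x') ^ 2 = (p x ^ 2 + p x' ^ 2) - (2 * p x) * p x' := fun x' => by ring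
      rw [E_congr this, E_sub (fun x' => p x ^ 2 + p x' ^ 2) (fun x' => (2 * p x) * p x'),
        E_add (fun _ => p x ^ 2) (fun x' => p x' ^ 2), E_const, E_mul_left, ← h.hβ]
      ring
    rw [E_congr e1, E_sub (fun x => p x ^ 2 + E (fun x => p x ^ 2)) (fun x => 2 * β * p x),
      E_add (fun x => p x ^ 2) (fun _ => E (fun x => p x ^ 2)), E_const, E_mul_left, ← h.hβ]
    ring
  have h2 : E (fun x => E (fun x' => (2 * kx B p q β x + 2 * kx B p q β x') + (uu p x + uu p x')))
      = 4 * kap p q β + 2 * E (uu p) := by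
    have e1 : ∀ x, E (fun x' => (2 * kx B p q β x + 2 * kx B p q β x') + (uu p x + uu p x'))
        = 2 * kx B p q β x + (uu p x + (2 * kap p q β + E (uu p))) := by
      intro x
      rw [E_add (fun x' => 2 * kx B p q β x + 2 * kx B p q β x') (fun x' => uu p x + uu p x'),
        E_add (fun _ => 2 * kx B p q β x) (fun x' => 2 * kx B p q β x'), E_add (fun _ => uu p x) (uu p), E_const, E_const,
        E_mul_left, h.E_kx]
      ring
    rw [E_congr e1, E_add (fun x => 2 * kx B p q β x) (fun x => uu p x + (2 * kap p q β + E (uu p))),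
      E_add (uu p) (fun _ => 2 * kap p q β + E (uu p)), E_const, E_mul_left, h.E_kx]
    ring
  have h3 : E (fun x => E (fun x' => (p x - p x') ^ 2))
      ≤ E (fun x => E (fun x' => (2 * kx B p q β x + 2 * kx B p q β x') + (uu p x + uu p x'))) :=
    E_mono fun x => E_mono fun x' => h.rowdist x x'
  have h4 : E (uu p) ≤ 2 * E (fun x => p x * uu p x) := by
    rw [← E_mul_left]
    exact E_mono fun x => uu_le p h.p0 x
  rw [h1, h2] at h3
  linarith

/-- the information part -/
noncomputable def SS (p q : (ι → Bool) → ℝ) (β : ℝ) : ℝ :=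
  E (fun x => Real.negMulLog (p x)) + E (fun y => Real.negMulLog (q y)) - Real.negMulLog β

theorem Sys.SS_eq (h : Sys B p q β) : E (fun x => E (fun y => (B x y * Real.log β + p x * q y / β)
        - (B x y * Real.log (p x) + (B x y * Real.log (q y) + B x y)))) = SS p q β := by
  have hβ0 := h.β0
  have e1 : ∀ x, E (fun y => (B x y * Real.log β + p x * q y / β)
      - (B x y * Real.log (p x) + (B x y * Real.log (q y) + B x y)))
      = (p x * Real.log β + p x * (β / β)) - ((-1) * Real.negMulLog (p x)
        + (E (fun y => B x y * Real.log (q y)) + p x)) := by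
    intro x
    rw [E_sub (fun y => B x y * Real.log β + p x * q y / β)
        (fun y => B x y * Real.log (p x) + (B x y * Real.log (q y) + B x y)),
      E_add (fun y => B x y * Real.log β) (fun y => p x * q y / β),
      E_add (fun y => B x y * Real.log (p x)) (fun y => B x y * Real.log (q y) + B x y),
      E_add (fun y => B x y * Real.log (q y)) (fun y => B x y), E_mul_right, E_mul_right, ← h.hp]
    have e2 : ∀ y, p x * q y / β = (p x / β) * q y := fun y => by ring
    rw [E_congr e2, E_mul_left, ← h.hβ', Real.negMulLog]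
    ring
  rw [E_congr e1, E_sub (fun x => p x * Real.log β + p x * (β / β)) (fun x => (-1) * Real.negMulLog (p x)
        + (E (fun y => B x y * Real.log (q y)) + p x)),
    E_add (fun x => p x * Real.log β) (fun x => p x * (β / β)),
    E_add (fun x => (-1) * Real.negMulLog (p x)) (fun x => E (fun y => B x y * Real.log (q y)) + p x),
    E_add (fun x => E (fun y => B x y * Real.log (q y))) p, E_mul_right, E_mul_right, E_mul_left, ← h.hβ, E_swap]
  have e3 : ∀ y, E (fun x => B x y * Real.log (q y)) = (-1) * Real.negMulLog (q y) := by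
    intro y
    rw [E_mul_right, ← h.hq, Real.negMulLog]
    ring
  rw [E_congr e3, E_mul_left]
  unfold SS
  rw [Real.negMulLog]
  by_cases hb : β = 0
  · rw [hb]; simp only [Real.log_zero, mul_zero, zero_mul, div_zero, neg_zero]; ring
  · rw [div_self hb]; ring

theorem Sys.partC (h : Sys B p q β) (hβ8 : β ≤ 1 / 8) :
    3 / 20 * (E (fun x => p x * uu p x) * E (fun y => q y * uu q y) / β) ≤ SS p q β := by
  have hβ0 := h.β0
  have key : ∀ x y, 3 / 20 * ((p x * uu p x) * (q y * uu q y) / β) ≤
      ((B x y * Real.log β + p x * q y / β) - (B x y * Real.log (p x) + (B x y * Real.log (q y) + B x y))) := by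
    intro x y
    have a0 := h.p0 x
    have b0 := h.q0 y
    have hr : 0 ≤ p x * q y / β := div_nonneg (mul_nonneg a0 b0) hβ0
    have hu : (p x * uu p x) * (q y * uu q y) / β ≤ p x * q y / β := by
      apply div_le_div_of_nonneg_right _ hβ0
      have u1 : uu p x ≤ 1 := by unfold uu; split_ifs <;> norm_num
      have u2 : uu q y ≤ 1 := by unfold uu; split_ifs <;> norm_num
      exact mul_le_mul (mul_le_of_le_one_right a0 u1) (mul_le_of_le_one_right b0 u2)
        (mul_nonneg b0 (uu_nonneg _ _)) a0
    rcases h.hB x y with h1 | h1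
    · rw [h1]
      simp only [zero_mul, add_zero, sub_zero, zero_add]
      linarith
    · have hp : 0 < p x := by
        rw [h.hp]
        exact E_pos_of _ (fun y => h.B0 x y) y (by rw [h1]; norm_num)
      have hq : 0 < q y := by
        rw [h.hq]
        exact E_pos_of _ (fun x => h.B0 x y) x (by rw [h1]; norm_num)
      have hβ : 0 < β := by
        rw [h.hβ]
        exact E_pos_of _ h.p0 x hp
      rw [h1]
      simp only [one_mul]
      have hlog : Real.log (p x * q y / β) = Real.log (p x) + Real.log (q y) - Real.log β := by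
        rw [Real.log_div (by positivity) hβ.ne', Real.log_mul hp.ne' hq.ne']
      have hpos : 0 < p x * q y / β := by positivity
      by_cases hU : 1 / 2 ≤ p x ∧ 1 / 2 ≤ q y
      · have e1 : uu p x = 1 := by unfold uu; rw [if_pos hU.1]
        have e2 : uu q y = 1 := by unfold uu; rw [if_pos hU.2]
        rw [e1, e2, mul_one, mul_one]
        set r := p x * q y / β with hrdef
        have hr2 : 2 ≤ r := by
          rw [hrdef, le_div_iff₀ hβ]
          nlinarith [hU.1, hU.2]
        have h5 : Real.log r ≤ Real.log 2 + (r / 2 - 1) := by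
          have h6 := Real.log_le_sub_one_of_pos (x := r / 2) (by positivity)
          rw [Real.log_div hpos.ne' (by norm_num)] at h6
          linarith
        have h7 := Real.log_two_lt_d9
        linarith
      · have e0 : uu p x * uu q y = 0 := by
          rw [not_and_or] at hU
          rcases hU with h2 | h2
          · have : uu p x = 0 := by unfold uu; rw [if_neg h2]
            rw [this, zero_mul]
          · have : uu q y = 0 := by unfold uu; rw [if_neg h2]
            rw [this, mul_zero]
        have e3 : (p x * uu p x) * (q y * uu q y) / β = 0 := by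
          have : (p x * uu p x) * (q y * uu q y) = p x * q y * (uu p x * uu q y) := by ring
          rw [this, e0, mul_zero, zero_div]
        rw [e3]
        have h6 := Real.log_le_sub_one_of_pos hpos
        linarith
  have hE := E_mono (fun x => E_mono (key x))
  have l1 : E (fun x => E (fun y => 3 / 20 * ((p x * uu p x) * (q y * uu q y) / β)))
      = 3 / 20 * (E (fun x => p x * uu p x) * E (fun y => q y * uu q y) / β) := by
    have e1 : ∀ x, E (fun y => 3 / 20 * ((p x * uu p x) * (q y * uu q y) / β))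
        = (p x * uu p x) * (3 / 20 * E (fun y => q y * uu q y) / β) := by
      intro x
      have : ∀ y, 3 / 20 * ((p x * uu p x) * (q y * uu q y) / β) = (3 / 20 * (p x * uu p x) / β) * (q y * uu q y) :=
        fun y => by ring
      rw [E_congr this, E_mul_left]
      ring
    rw [E_congr e1, E_mul_right]
    ring
  rw [l1, h.SS_eq] at hE
  exact hE

theorem Sys.aa_le (h : Sys B p q β) : aa p ≤ 2 * (β - E (fun x => p x ^ 2)) := by
  have h1 : ∀ x, min (p x) (1 - p x) ≤ 2 * p x - 2 * p x ^ 2 := by
    intro x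
    have a0 := h.p0 x
    have a1 := h.p1 x
    rcases le_total (p x) (1 / 2) with h2 | h2
    · refine (min_le_left _ _).trans ?_
      nlinarith
    · refine (min_le_right _ _).trans ?_
      nlinarith
  refine (E_mono h1).trans (le_of_eq ?_)
  rw [E_sub (fun x => 2 * p x) (fun x => 2 * p x ^ 2), E_mul_left, E_mul_left, ← h.hβ]
  ring

theorem Sys.aa_ge (h : Sys B p q β) : β - E (fun x => p x ^ 2) ≤ aa p := by
  have h1 : ∀ x, p x - p x ^ 2 ≤ min (p x) (1 - p x) := by
    intro x
    have a0 := h.p0 x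
    have a1 := h.p1 x
    apply le_min <;> nlinarith
  have h2 := E_mono h1
  rw [E_sub p (fun x => p x ^ 2), ← h.hβ] at h2
  exact h2

theorem Sys.aa0 (h : Sys B p q β) : 0 ≤ aa p :=
  E_nonneg fun x => le_min (h.p0 x) (by linarith [h.p1 x])

theorem Sys.var_nonneg (h : Sys B p q β) : 0 ≤ E (fun x => p x ^ 2) - β ^ 2 := by
  have h1 : 0 ≤ E (fun x => (p x - β) ^ 2) := E_nonneg fun x => sq_nonneg _
  have h2 : ∀ x, (p x - β) ^ 2 = (p x ^ 2 + β ^ 2) - (2 * β) * p x := fun x => by ring
  rw [E_congr h2, E_sub (fun x => p x ^ 2 + β ^ 2) (fun x => (2 * β) * p x), E_add (fun x => p x ^ 2) (fun _ => β ^ 2),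
    E_const, E_mul_left, ← h.hβ] at h1
  linarith

theorem Sys.uP (h : Sys B p q β) : 0 ≤ E (fun x => p x * uu p x) :=
  E_nonneg fun x => mul_nonneg (h.p0 x) (uu_nonneg _ _)

theorem Sys.small (h : Sys B p q β) (hβ8 : β ≤ 1 / 8) :
    min (aa p) (aa q) ≤ 200 * SS p q β + 100 * kap p q β ∧ 0 ≤ SS p q β := by
  have hβ0 := h.β0
  have hk := h.kap_nonneg
  have hA := h.partA
  have hB := h.swap.partA
  rw [kap_swap] at hB
  have hC := h.partC hβ8
  have hu := h.uP
  have hw := h.swap.uP
  have a1 := h.aa_le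
  have a2 := h.swap.aa_le
  have v1 := h.var_nonneg
  have v2 := h.swap.var_nonneg
  have hkd : kap p q β = β - E (fun x => p x ^ 2) - E (fun y => q y ^ 2) + β ^ 2 := rfl
  set P2 := E (fun x => p x ^ 2) with hP2
  set Q2 := E (fun x => q x ^ 2) with hQ2
  set u := E (fun x => p x * uu p x) with hudef
  set w := E (fun y => q y * uu q y) with hwdef
  set k := kap p q β with hkk
  set S := SS p q β with hSS
  have hS0 : 0 ≤ S := le_trans (by positivity) hC
  refine ⟨?_, hS0⟩
  by_cases hbig : β / 16 < k
  · -- large interaction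
    rcases le_total (P2 - β ^ 2) (Q2 - β ^ 2) with h1 | h1
    · refine (min_le_right _ _).trans ?_
      nlinarith
    · refine (min_le_left _ _).trans ?_
      nlinarith
  · push Not at hbig
    by_cases hb0 : β = 0
    · refine (min_le_left _ _).trans ?_
      have : aa p ≤ 0 := by
        rw [hb0] at a1 v1
        nlinarith
      linarith
    · have hβ : 0 < β := lt_of_le_of_ne hβ0 (Ne.symm hb0)
      have huw : 9 / 32 * β ≤ u + w := by nlinarith
      have hC2 : 3 / 20 * (u * w) ≤ S * β := by
        have h1 : 3 / 20 * (u * w / β) * β ≤ S * β := mul_le_mul_of_nonneg_right hC hβ0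
        have h2 : 3 / 20 * (u * w / β) * β = 3 / 20 * (u * w) := by field_simp
        linarith
      rcases le_total (9 / 64 * β) u with h1 | h1
      · -- w small
        have h2 : w ≤ 48 * S := by
          by_contra hc
          push Not at hc
          have h3 : 3 / 20 * (9 / 64 * β * w) ≤ S * β := by
            refine le_trans ?_ hC2
            have := mul_le_mul_of_nonneg_right h1 hw
            linarith
          have h4 : S * β < w / 48 * β := by
            apply mul_lt_mul_of_pos_right _ hβ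
            linarith
          nlinarith
        refine (min_le_left _ _).trans ?_
        nlinarith
      · have hw1 : 9 / 64 * β ≤ w := by linarith
        have h2 : u ≤ 48 * S := by
          by_contra hc
          push Not at hc
          have h3 : 3 / 20 * (9 / 64 * β * u) ≤ S * β := by
            refine le_trans ?_ hC2
            have := mul_le_mul_of_nonneg_right hw1 hu
            linarith
          have h4 : S * β < u / 48 * β := by
            apply mul_lt_mul_of_pos_right _ hβ
            linarith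
          nlinarith
        refine (min_le_right _ _).trans ?_
        nlinarith

theorem Sys.SS_nonneg (h : Sys B p q β) : 0 ≤ SS p q β := by
  have hβ0 := h.β0
  have key : ∀ x y, 0 ≤
      ((B x y * Real.log β + p x * q y / β) - (B x y * Real.log (p x) + (B x y * Real.log (q y) + B x y))) := by
    intro x y
    have a0 := h.p0 x
    have b0 := h.q0 y
    have hr : 0 ≤ p x * q y / β := div_nonneg (mul_nonneg a0 b0) hβ0
    rcases h.hB x y with h1 | h1
    · rw [h1]
      simp only [zero_mul, add_zero, sub_zero, zero_add]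
      linarith
    · have hp : 0 < p x := by
        rw [h.hp]
        exact E_pos_of _ (fun y => h.B0 x y) y (by rw [h1]; norm_num)
      have hq : 0 < q y := by
        rw [h.hq]
        exact E_pos_of _ (fun x => h.B0 x y) x (by rw [h1]; norm_num)
      have hβ : 0 < β := by
        rw [h.hβ]
        exact E_pos_of _ h.p0 x hp
      rw [h1]
      simp only [one_mul]
      have hlog : Real.log (p x * q y / β) = Real.log (p x) + Real.log (q y) - Real.log β := by
        rw [Real.log_div (by positivity) hβ.ne', Real.log_mul hp.ne' hq.ne']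
      have hpos : 0 < p x * q y / β := by positivity
      have h6 := Real.log_le_sub_one_of_pos hpos
      linarith
  have hE : 0 ≤ E (fun x => E (fun y => (B x y * Real.log β + p x * q y / β)
        - (B x y * Real.log (p x) + (B x y * Real.log (q y) + B x y)))) :=
    E_nonneg fun x => E_nonneg fun y => key x y
  rw [h.SS_eq] at hE
  exact hE

theorem Sys.big (h : Sys B p q β) (hβ8 : 1 / 8 ≤ β) (hβ2 : β ≤ 1 / 2) :
    min (aa p) (aa q) ≤ 100 * kap p q β := by
  have hk := h.kap_nonneg
  have hs := h.star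
  have a1 := h.aa_ge
  have a2 := h.swap.aa_ge
  have n1 := h.aa0
  have n2 := h.swap.aa0
  have hkd : kap p q β = β - E (fun x => p x ^ 2) - E (fun y => q y ^ 2) + β ^ 2 := rfl
  have hsum : 7 / 64 ≤ aa p + aa q := by nlinarith
  rcases le_total (7 / 128) (aa p) with h1 | h1
  · refine (min_le_right _ _).trans ?_
    nlinarith [mul_le_mul_of_nonneg_right h1 n2]
  · refine (min_le_left _ _).trans ?_
    have h2 : 7 / 128 ≤ aa q := by linarith
    nlinarith [mul_le_mul_of_nonneg_left h2 n1]

theorem Sys.half (h : Sys B p q β) (hβ2 : β ≤ 1 / 2) :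
    min (aa p) (aa q) ≤ 200 * SS p q β + 100 * kap p q β := by
  rcases le_total β (1 / 8) with h1 | h1
  · exact (h.small h1).1
  · have := h.big h1 hβ2
    have := h.SS_nonneg
    linarith

theorem Sys.all (h : Sys B p q β) :
    min (aa p) (aa q) ≤ 200 * (SS p q β + SS (fun x => 1 - p x) (fun y => 1 - q y) (1 - β)) + 100 * kap p q β := by
  have s1 := h.SS_nonneg
  have s2 := h.compl.SS_nonneg
  rcases le_total β (1 / 2) with h1 | h1
  · have := h.half h1
    linarith
  · have h2 := h.compl.half (by linarith)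
    have e1 : aa (fun x => 1 - p x) = aa p := by
      unfold aa
      apply E_congr
      intro x
      rw [min_comm]
      congr 1
      ring
    have e2 : aa (fun x => 1 - q x) = aa q := by
      unfold aa
      apply E_congr
      intro x
      rw [min_comm]
      congr 1
      ring
    have e3 : kap (fun x => 1 - p x) (fun y => 1 - q y) (1 - β) = kap p q β := by
      unfold kap
      have f1 : ∀ x, (1 - p x) ^ 2 = (1 + p x ^ 2) - 2 * p x := fun x => by ring
      have f2 : ∀ x, (1 - q x) ^ 2 = (1 + q x ^ 2) - 2 * q x := fun x => by ring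
      rw [E_congr f1, E_congr f2, E_sub (fun x => 1 + p x ^ 2) (fun x => 2 * p x),
        E_sub (fun x => 1 + q x ^ 2) (fun x => 2 * q x), E_add (fun _ => 1) (fun x => p x ^ 2),
        E_add (fun _ => 1) (fun x => q x ^ 2), E_const, E_mul_left, E_mul_left, ← h.hβ, ← h.hβ']
      ring
    rw [e1, e2, e3] at h2
    linarith

end sys

theorem mrg_compl_swap (A : Finset ι) (x y : ι → Bool) : mrg Aᶜ y x = mrg A x y := by
  ext i
  unfold mrg
  by_cases h : i ∈ A <;> simp [h]

theorem block (g : (ι → Bool) → ℝ) (hg : PM g) (A : Finset ι) : min (dA g A) (dA g Aᶜ) ≤ 400 * drop g A := by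
  set B : (ι → Bool) → (ι → Bool) → ℝ := fun x y => (1 - g (mrg A x y)) / 2 with hBdef
  set p : (ι → Bool) → ℝ := fun x => (1 - E (res g Aᶜ x)) / 2 with hpdef
  set q : (ι → Bool) → ℝ := fun y => (1 - E (res g A y)) / 2 with hqdef
  have hhalf : ∀ F : (ι → Bool) → ℝ, E (fun x => (1 - F x) / 2) = (1 - E F) / 2 := by
    intro F
    have : ∀ x, (1 - F x) / 2 = 1 / 2 - 1 / 2 * F x := fun x => by ring
    rw [E_congr this, E_sub (fun _ => 1 / 2) (fun x => 1 / 2 * F x), E_const, E_mul_left]
    ring
  have hS : Sys B p q ((1 - E g) / 2) := by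
    refine ⟨fun x y => ?_, fun x => ?_, fun y => ?_, ?_⟩
    · rcases hg (mrg A x y) with h | h
      · left; simp only [hBdef, h]; norm_num
      · right; simp only [hBdef, h]; norm_num
    · simp only [hpdef, hBdef]
      rw [hhalf (fun y => g (mrg A x y))]
      congr 2
      apply E_congr
      intro y
      unfold res
      rw [mrg_compl_swap]
    · simp only [hqdef, hBdef]
      rw [hhalf (fun x => g (mrg A x y))]
      rfl
    · simp only [hpdef]
      rw [hhalf (fun x => E (res g Aᶜ x)), E_E_res]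
  have hall := hS.all
  have k0 := hS.kap_nonneg
  have s1 := hS.SS_nonneg
  have s2 := hS.compl.SS_nonneg
  have habs : ∀ m : ℝ, min ((1 - m) / 2) (1 - (1 - m) / 2) = (1 - |m|) / 2 := by
    intro m
    rcases le_total 0 m with h | h
    · rw [abs_of_nonneg h, min_eq_left (by linarith)]
    · rw [abs_of_nonpos h, min_eq_right (by linarith)]; ring
  have d1 : dA g A = aa p := by
    unfold dA aa
    simp only [hpdef]
    rw [E_congr (fun x => habs (E (res g Aᶜ x))), hhalf (fun x => |E (res g Aᶜ x)|)]
  have d2 : dA g Aᶜ = aa q := by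
    unfold dA aa
    simp only [hqdef]
    rw [E_congr (fun x => habs (E (res g A x))), hhalf (fun x => |E (res g A x)|), compl_compl]
  have hF : ∀ m : ℝ, Fp m = (Real.negMulLog ((1 - m) / 2) + Real.negMulLog (1 - (1 - m) / 2))
      + (4 * ((1 - m) / 2) - 4 * ((1 - m) / 2) ^ 2) := by
    intro m
    unfold Fp
    have : 1 - (1 - m) / 2 = (1 + m) / 2 := by ring
    rw [this]
    ring
  have d3 : drop g A = SS p q ((1 - E g) / 2) + SS (fun x => 1 - p x) (fun y => 1 - q y) (1 - (1 - E g) / 2)
      + 4 * kap p q ((1 - E g) / 2) := by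
    unfold drop
    rw [E_congr (fun y => hF (E (res g A y))), E_congr (fun x => hF (E (res g Aᶜ x))), hF (E g)]
    rw [E_add (fun y => Real.negMulLog ((1 - E (res g A y)) / 2) + Real.negMulLog (1 - (1 - E (res g A y)) / 2))
        (fun y => 4 * ((1 - E (res g A y)) / 2) - 4 * ((1 - E (res g A y)) / 2) ^ 2),
      E_add (fun x => Real.negMulLog ((1 - E (res g Aᶜ x)) / 2) + Real.negMulLog (1 - (1 - E (res g Aᶜ x)) / 2))
        (fun x => 4 * ((1 - E (res g Aᶜ x)) / 2) - 4 * ((1 - E (res g Aᶜ x)) / 2) ^ 2),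
      E_add (fun y => Real.negMulLog ((1 - E (res g A y)) / 2)) (fun y => Real.negMulLog (1 - (1 - E (res g A y)) / 2)),
      E_add (fun x => Real.negMulLog ((1 - E (res g Aᶜ x)) / 2)) (fun x => Real.negMulLog (1 - (1 - E (res g Aᶜ x)) / 2)),
      E_sub (fun y => 4 * ((1 - E (res g A y)) / 2)) (fun y => 4 * ((1 - E (res g A y)) / 2) ^ 2),
      E_sub (fun x => 4 * ((1 - E (res g Aᶜ x)) / 2)) (fun x => 4 * ((1 - E (res g Aᶜ x)) / 2) ^ 2),
      E_mul_left, E_mul_left, E_mul_left, E_mul_left, hhalf (fun y => E (res g A y)), hhalf (fun y => E (res g Aᶜ y)),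
      E_E_res, E_E_res]
    unfold SS kap
    simp only [hpdef, hqdef]
    ring
  rw [d1, d2, d3]
  linarith

end Pool.FEI
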