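import Pool.Agent.FEI.JDefs
set_option autoImplicit false
set_option linter.unusedSectionVars false
set_option linter.unusedVariables false
namespace Pool.FEI
open Finset
section cube
variable {ι : Type} [Fintype ι] [DecidableEq ι]

/-! ### Box defs (put in BoxDefs.lean, final) -/
/-- normalised counting measure -/
noncomputable def mu (S : Finset (ι → Bool)) : ℝ := (S.card : ℝ) / 2 ^ Fintype.card ι
/-- the box generated by points -/
noncomputable def Box {k : ℕ} (Z : Fin k → (ι → Bool) → ℝ) (t : Fin k → (ι → Bool)) : Finset (ι → Bool) :=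
  univ.filter (fun x => ∀ i, Z i (t i) ≤ Z i x)
/-- the approximant -/
noncomputable def Gx {N k : ℕ} (Z : Fin N → Fin k → (ι → Bool) → ℝ) (S : Finset (Fin N))
    (t : Fin N → Fin k → (ι → Bool)) : (ι → Bool) → ℝ :=
  fun x => ∑ s ∈ S, if x ∈ Box (Z s) (t s) then 1 else 0
/-- weight of a tuple of points -/
noncomputable def wt {N k : ℕ} (P : (ι → Bool) → ℝ) (t : Fin N → Fin k → (ι → Bool)) : ℝ :=
  ∏ s, ∏ i, (P (t s i) / 2 ^ Fintype.card ι)
/-- the prior -/
noncomputable def Qs {N k : ℕ} (P : (ι → Bool) → ℝ) (Z : Fin N → Fin k → (ι → Bool) → ℝ) (v : Finset ι) : ℝ :=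
  ∑ S : Finset (Fin N), ∑ t : Fin N → Fin k → (ι → Bool),
    (1 / 2 ^ N) * wt P t * ((coef (Gx Z S t) v) ^ 2 / E (fun x => (Gx Z S t x) ^ 2))

end cube
end Pool.FEI
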