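import Pool.Agent.FEI.BoxDefs
set_option autoImplicit false
set_option linter.unusedSectionVars false
set_option linter.unusedVariables false
namespace Pool.FEI
open Finset
section cube
variable {ι : Type} [Fintype ι] [DecidableEq ι]
/-! ### M6  BoxPrior.lean -/

theorem wt_nonneg {N k : ℕ} (P : (ι → Bool) → ℝ) (hP : ∀ x, 0 ≤ P x) (t : Fin N → Fin k → (ι → Bool)) :
    0 ≤ wt P t := by
  unfold wt
  exact Finset.prod_nonneg fun s _ => Finset.prod_nonneg fun i _ => div_nonneg (hP _) (by positivity)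

theorem E_sq_nonneg (g : (ι → Bool) → ℝ) : 0 ≤ E (fun x => (g x) ^ 2) := E_nonneg fun x => sq_nonneg _

theorem Qs_nonneg {N k : ℕ} (P : (ι → Bool) → ℝ) (hP : ∀ x, 0 ≤ P x) (Z : Fin N → Fin k → (ι → Bool) → ℝ)
    (v : Finset ι) : 0 ≤ Qs P Z v := by
  unfold Qs
  refine Finset.sum_nonneg fun S _ => Finset.sum_nonneg fun t _ => ?_
  have h1 := wt_nonneg P hP t
  have h2 := E_sq_nonneg (Gx Z S t)
  positivity

theorem wt_sum_pi {N k : ℕ} (P : (ι → Bool) → ℝ) (F : Fin N → Fin k → Finset (ι → Bool)) :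
    ∑ t ∈ Fintype.piFinset (fun s => Fintype.piFinset (fun i => F s i)), wt P t
      = ∏ s, ∏ i, ((∑ x ∈ F s i, P x) / 2 ^ Fintype.card ι) := by
  unfold wt
  have h1 : ∀ s, ∏ i, ((∑ x ∈ F s i, P x) / 2 ^ Fintype.card ι)
      = ∑ u ∈ Fintype.piFinset (fun i => F s i), ∏ i, (P (u i) / 2 ^ Fintype.card ι) := by
    intro s
    have h2 : ∀ i, (∑ x ∈ F s i, P x) / 2 ^ Fintype.card ι = ∑ x ∈ F s i, P x / 2 ^ Fintype.card ι :=
      fun i => Finset.sum_div _ _ _
    simp only [h2]
    exact Finset.prod_univ_sum (fun i => F s i) (fun _ x => P x / 2 ^ Fintype.card ι)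
  simp only [h1]
  exact (Finset.prod_univ_sum (fun s => Fintype.piFinset (fun i => F s i))
    (fun _ u => ∏ i, (P (u i) / 2 ^ Fintype.card ι))).symm

theorem wt_sum {N k : ℕ} (P : (ι → Bool) → ℝ) (hP1 : E P = 1) :
    ∑ t : Fin N → Fin k → (ι → Bool), wt P t = 1 := by
  have h := wt_sum_pi (N := N) (k := k) P (fun _ _ => univ)
  simp only [Fintype.piFinset_univ] at h
  rw [h]
  have : (∑ x, P x) / 2 ^ Fintype.card ι = 1 := hP1
  simp only [this, Finset.prod_const_one]

theorem Qs_sum {N k : ℕ} (P : (ι → Bool) → ℝ) (hP : ∀ x, 0 ≤ P x) (hP1 : E P = 1)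
    (Z : Fin N → Fin k → (ι → Bool) → ℝ) : ∑ v, Qs P Z v ≤ 1 := by
  unfold Qs
  rw [Finset.sum_comm]
  have h1 : ∀ S : Finset (Fin N), ∑ v, ∑ t : Fin N → Fin k → (ι → Bool),
      (1 / 2 ^ N : ℝ) * wt P t * ((coef (Gx Z S t) v) ^ 2 / E (fun x => (Gx Z S t x) ^ 2)) ≤ 1 / 2 ^ N := by
    intro S
    rw [Finset.sum_comm]
    have h2 : ∀ t : Fin N → Fin k → (ι → Bool), ∑ v,
        (1 / 2 ^ N : ℝ) * wt P t * ((coef (Gx Z S t) v) ^ 2 / E (fun x => (Gx Z S t x) ^ 2))
        ≤ (1 / 2 ^ N) * wt P t := by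
      intro t
      rw [← Finset.mul_sum, ← Finset.sum_div, parseval]
      have h3 := wt_nonneg P hP t
      have h4 := E_sq_nonneg (Gx Z S t)
      have h5 : E (fun x => (Gx Z S t x) ^ 2) / E (fun x => (Gx Z S t x) ^ 2) ≤ 1 := div_self_le_one _
      calc (1 / 2 ^ N : ℝ) * wt P t * (E (fun x => (Gx Z S t x) ^ 2) / E (fun x => (Gx Z S t x) ^ 2))
          ≤ (1 / 2 ^ N : ℝ) * wt P t * 1 := mul_le_mul_of_nonneg_left h5 (by positivity)
        _ = _ := mul_one _
    refine (Finset.sum_le_sum fun t _ => h2 t).trans ?_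
    rw [← Finset.mul_sum, wt_sum P hP1, mul_one]
  refine (Finset.sum_le_sum fun S _ => h1 S).trans ?_
  rw [Finset.sum_const, Finset.card_univ, Fintype.card_finset, Fintype.card_fin, nsmul_eq_mul]
  push_cast
  rw [mul_one_div_cancel (by positivity)]

theorem disj_sum_le_one {N : ℕ} (U : Fin N → Finset (ι → Bool))
    (hdisj : ∀ s s', s ≠ s' → Disjoint (U s) (U s')) (x : ι → Bool) :
    ∑ s, (if x ∈ U s then (1 : ℝ) else 0) ≤ 1 := by
  by_cases h : ∃ s0, x ∈ U s0
  · obtain ⟨s0, h0⟩ := h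
    rw [Finset.sum_eq_single s0]
    · rw [if_pos h0]
    · intro s _ hs
      rw [if_neg]
      intro hx
      exact Finset.disjoint_left.mp (hdisj s s0 hs) hx h0
    · intro h; exact absurd (Finset.mem_univ _) h
  · push Not at h
    rw [Finset.sum_eq_zero]
    · norm_num
    · intro s _
      rw [if_neg (h s)]

theorem E_ind (U : Finset (ι → Bool)) : E (fun x => if x ∈ U then (1 : ℝ) else 0) = mu U := by
  unfold E mu
  rw [Finset.sum_ite_mem, Finset.univ_inter, Finset.sum_const, nsmul_eq_mul, mul_one]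

theorem coef_sq_le (g : (ι → Bool) → ℝ) (v : Finset ι) : (coef g v) ^ 2 ≤ E (fun x => (g x) ^ 2) := by
  rw [← parseval]
  exact Finset.single_le_sum (f := fun v => (coef g v) ^ 2) (fun v _ => sq_nonneg _) (Finset.mem_univ v)

theorem coef_fsub (g h : (ι → Bool) → ℝ) (S : Finset ι) : coef (fun x => g x - h x) S = coef g S - coef h S := by
  unfold coef
  rw [← E_sub]
  apply E_congr
  intro x
  ring

theorem prior_step {N k : ℕ} (P : (ι → Bool) → ℝ) (hP : ∀ x, 0 ≤ P x) (hP1 : E P = 1)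
    (Z : Fin N → Fin k → (ι → Bool) → ℝ) (U : Fin N → Finset (ι → Bool))
    (hdisj : ∀ s s', s ≠ s' → Disjoint (U s) (U s'))
    (hbox : ∀ s (t : Fin k → (ι → Bool)), (∀ i, t i ∈ U s) → Box (Z s) t ⊆ U s)
    (m : ℝ) (hm : 0 < m) (hUm : ∑ s, mu (U s) = m)
    (S : Finset (Fin N)) (Es : Fin N → Fin k → Finset (ι → Bool)) (τ π0 : ℝ) (hτ : 0 ≤ τ)
    (hE1 : ∀ s ∈ S, ∀ i, ∀ x ∈ Es s i, x ∈ U s ∧ mu ((U s).filter (fun x' => Z s i x' < Z s i x)) ≤ τ)
    (hπ : ∀ s ∈ S, ∀ i, π0 ≤ (∑ x ∈ Es s i, P x) / 2 ^ Fintype.card ι) (hπ0 : 0 < π0) (hπ1 : π0 ≤ 1) :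
    ∃ ρ : Finset ι → ℝ, (∀ v, 0 ≤ ρ v) ∧ ∑ v, ρ v ≤ ∑ s ∈ Sᶜ, mu (U s) + N * k * τ ∧
      ∀ v, 4 * ρ v ≤ (coef (fun x => ∑ s, if x ∈ U s then (1 : ℝ) else 0) v) ^ 2 →
        (coef (fun x => ∑ s, if x ∈ U s then (1 : ℝ) else 0) v) ^ 2
          ≤ 4 * (2 ^ N / π0 ^ (N * k)) * (m * Qs P Z v) := by
  classical
  set B : (ι → Bool) → ℝ := fun x => ∑ s, if x ∈ U s then (1 : ℝ) else 0 with hB
  set T : Finset (Fin N → Fin k → (ι → Bool)) :=
    Fintype.piFinset (fun s => Fintype.piFinset (fun i => if s ∈ S then Es s i else univ)) with hT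
  set w : ℝ := ∑ t ∈ T, wt P t with hw
  have hwge : π0 ^ (N * k) ≤ w := by
    rw [hw, hT, wt_sum_pi]
    have h1 : π0 ^ (N * k) = ∏ s : Fin N, ∏ i : Fin k, π0 := by
      simp only [Finset.prod_const, Finset.card_univ, Fintype.card_fin]
      rw [← pow_mul, mul_comm]
    rw [h1]
    apply Finset.prod_le_prod
    · intro s _
      exact Finset.prod_nonneg fun i _ => hπ0.le
    · intro s _
      apply Finset.prod_le_prod
      · intro i _; exact hπ0.le
      · intro i _
        by_cases hs : s ∈ S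
        · simp only [if_pos hs]
          exact hπ s hs i
        · simp only [if_neg hs]
          have : (∑ x, P x) / 2 ^ Fintype.card ι = 1 := hP1
          rw [this]; exact hπ1
  have hπpow : 0 < π0 ^ (N * k) := by positivity
  have hw0 : 0 < w := lt_of_lt_of_le hπpow hwge
  have hTmem : ∀ t ∈ T, ∀ s ∈ S, ∀ i, t s i ∈ Es s i := by
    intro t ht s hs i
    rw [hT, Fintype.mem_piFinset] at ht
    have := ht s
    rw [Fintype.mem_piFinset] at this
    have := this i
    rwa [if_pos hs] at this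
  have hBoxU : ∀ t ∈ T, ∀ s ∈ S, Box (Z s) (t s) ⊆ U s := by
    intro t ht s hs
    exact hbox s (t s) (fun i => (hE1 s hs i _ (hTmem t ht s hs i)).1)
  have hB1 : ∀ x, B x ≤ 1 := disj_sum_le_one U hdisj
  have hBnn : ∀ x, 0 ≤ B x := fun x => Finset.sum_nonneg fun s _ => by split_ifs <;> norm_num
  have hGnn : ∀ t x, 0 ≤ Gx Z S t x := fun t x => Finset.sum_nonneg fun s _ => by split_ifs <;> norm_num
  have hGB : ∀ t ∈ T, ∀ x, Gx Z S t x ≤ B x := by
    intro t ht x
    simp only [Gx, hB]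
    refine le_trans ?_ (Finset.sum_le_sum_of_subset_of_nonneg (Finset.subset_univ S) ?_)
    · apply Finset.sum_le_sum
      intro s hs
      by_cases h : x ∈ Box (Z s) (t s)
      · rw [if_pos h, if_pos (hBoxU t ht s hs h)]
      · rw [if_neg h]
        split_ifs <;> norm_num
    · intro s _ _
      split_ifs <;> norm_num
  have hEB : E B = m := by
    rw [← hUm]
    simp only [hB]
    rw [E_sum]
    apply Finset.sum_congr rfl
    intro s _
    exact E_ind (U s)
  have hEG : ∀ t ∈ T, E (fun x => (Gx Z S t x) ^ 2) ≤ m := by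
    intro t ht
    rw [← hEB]
    apply E_mono
    intro x
    have h1 := hGB t ht x
    have h2 := hB1 x
    have h3 := hGnn t x
    nlinarith
  -- the remainder
  have hEr : ∀ t ∈ T, E (fun x => (B x - Gx Z S t x) ^ 2) ≤ ∑ s ∈ Sᶜ, mu (U s) + N * k * τ := by
    intro t ht
    have h1 : E (fun x => (B x - Gx Z S t x) ^ 2) ≤ E (fun x => B x - Gx Z S t x) := by
      apply E_mono
      intro x
      have h1 := hGB t ht x
      have h2 := hB1 x
      have h3 := hGnn t x
      nlinarith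
    refine h1.trans ?_
    rw [E_sub, hEB, ← hUm]
    have h2 : E (fun x => Gx Z S t x) = ∑ s ∈ S, mu (Box (Z s) (t s)) := by
      simp only [Gx]
      rw [E_sum]
      apply Finset.sum_congr rfl
      intro s _
      exact E_ind _
    have h2' : E (Gx Z S t) = ∑ s ∈ S, mu (Box (Z s) (t s)) := h2
    rw [h2, ← Finset.sum_add_sum_compl S (fun s => mu (U s))]
    have h3 : ∀ s ∈ S, mu (U s) ≤ mu (Box (Z s) (t s)) + k * τ := by
      intro s hs
      have h4 : U s ⊆ Box (Z s) (t s) ∪ univ.biUnion (fun i => (U s).filter (fun x' => Z s i x' < Z s i (t s i))) := by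
        intro x hx
        rw [Finset.mem_union]
        by_cases h : ∀ i, Z s i (t s i) ≤ Z s i x
        · left
          unfold Box
          rw [Finset.mem_filter]
          exact ⟨Finset.mem_univ _, h⟩
        · right
          push Not at h
          obtain ⟨i, hi⟩ := h
          rw [Finset.mem_biUnion]
          refine ⟨i, Finset.mem_univ _, ?_⟩
          rw [Finset.mem_filter]
          exact ⟨hx, hi⟩
      have h5 := Finset.card_le_card h4
      have h6 := h5.trans (Finset.card_union_le _ _)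
      have h7 : ((univ.biUnion (fun i => (U s).filter (fun x' => Z s i x' < Z s i (t s i)))).card : ℝ)
          ≤ ∑ i : Fin k, (((U s).filter (fun x' => Z s i x' < Z s i (t s i))).card : ℝ) := by
        exact_mod_cast Finset.card_biUnion_le
      have h8 : ∀ i : Fin k, (((U s).filter (fun x' => Z s i x' < Z s i (t s i))).card : ℝ)
          ≤ τ * 2 ^ Fintype.card ι := by
        intro i
        have := (hE1 s hs i _ (hTmem t ht s hs i)).2
        unfold mu at this
        rwa [div_le_iff₀ (by positivity)] at this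
      have h9 : ∑ i : Fin k, (((U s).filter (fun x' => Z s i x' < Z s i (t s i))).card : ℝ)
          ≤ k * (τ * 2 ^ Fintype.card ι) := by
        refine (Finset.sum_le_sum fun i _ => h8 i).trans ?_
        rw [Finset.sum_const, Finset.card_univ, Fintype.card_fin, nsmul_eq_mul]
      have h10 : ((U s).card : ℝ) ≤ ((Box (Z s) (t s)).card : ℝ) + k * (τ * 2 ^ Fintype.card ι) := by
        have : ((U s).card : ℝ) ≤ ((Box (Z s) (t s)).card : ℝ)
            + ((univ.biUnion (fun i => (U s).filter (fun x' => Z s i x' < Z s i (t s i)))).card : ℝ) := by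
          exact_mod_cast h6
        linarith
      unfold mu
      rw [div_le_iff₀ (by positivity), add_mul, div_mul_cancel₀ _ (by positivity)]
      linarith
    have h4 := Finset.sum_le_sum h3
    rw [Finset.sum_add_distrib, Finset.sum_const, nsmul_eq_mul] at h4
    have h5 : ((S.card : ℕ) : ℝ) ≤ N := by
      have := Finset.card_le_univ S
      rw [Fintype.card_fin] at this
      exact_mod_cast this
    have h6 : (S.card : ℝ) * (k * τ) ≤ N * (k * τ) := mul_le_mul_of_nonneg_right h5 (by positivity)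
    linarith
  set ρ : Finset ι → ℝ := fun v => (∑ t ∈ T, wt P t * (coef (fun x => B x - Gx Z S t x) v) ^ 2) / w with hρ
  refine ⟨ρ, ?_, ?_, ?_⟩
  · intro v
    simp only [hρ]
    apply div_nonneg _ hw0.le
    exact Finset.sum_nonneg fun t _ => mul_nonneg (wt_nonneg P hP t) (sq_nonneg _)
  · simp only [hρ]
    rw [← Finset.sum_div, div_le_iff₀ hw0, Finset.sum_comm]
    have h1 : ∀ t ∈ T, ∑ v, wt P t * (coef (fun x => B x - Gx Z S t x) v) ^ 2
        ≤ wt P t * (∑ s ∈ Sᶜ, mu (U s) + N * k * τ) := by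
      intro t ht
      rw [← Finset.mul_sum, parseval]
      exact mul_le_mul_of_nonneg_left (hEr t ht) (wt_nonneg P hP t)
    refine (Finset.sum_le_sum h1).trans ?_
    rw [← Finset.sum_mul, ← hw, mul_comm]
  · intro v hv
    have hcoefG : ∀ t ∈ T, (coef (Gx Z S t) v) ^ 2 ≤ m * ((coef (Gx Z S t) v) ^ 2 / E (fun x => (Gx Z S t x) ^ 2)) := by
      intro t ht
      rcases (E_sq_nonneg (Gx Z S t)).eq_or_lt with h | h
      · have h1 := coef_sq_le (Gx Z S t) v
        rw [← h] at h1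
        rw [← h, div_zero, mul_zero]
        exact h1
      · have h1 := hEG t ht
        have h2 : (coef (Gx Z S t) v) ^ 2 = E (fun x => (Gx Z S t x) ^ 2)
            * ((coef (Gx Z S t) v) ^ 2 / E (fun x => (Gx Z S t x) ^ 2)) := by
          field_simp
        calc (coef (Gx Z S t) v) ^ 2 = E (fun x => (Gx Z S t x) ^ 2)
            * ((coef (Gx Z S t) v) ^ 2 / E (fun x => (Gx Z S t x) ^ 2)) := h2
          _ ≤ _ := mul_le_mul_of_nonneg_right h1 (by positivity)
    have hsumG : ∑ t ∈ T, wt P t * (coef (Gx Z S t) v) ^ 2 ≤ m * (2 ^ N * Qs P Z v) := by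
      have h1 : ∑ t ∈ T, wt P t * (coef (Gx Z S t) v) ^ 2
          ≤ ∑ t ∈ T, m * (wt P t * ((coef (Gx Z S t) v) ^ 2 / E (fun x => (Gx Z S t x) ^ 2))) := by
        apply Finset.sum_le_sum
        intro t ht
        have := mul_le_mul_of_nonneg_left (hcoefG t ht) (wt_nonneg P hP t)
        linarith
      refine h1.trans ?_
      rw [← Finset.mul_sum]
      apply mul_le_mul_of_nonneg_left _ hm.le
      have h2 : ∑ t ∈ T, wt P t * ((coef (Gx Z S t) v) ^ 2 / E (fun x => (Gx Z S t x) ^ 2))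
          ≤ ∑ t, wt P t * ((coef (Gx Z S t) v) ^ 2 / E (fun x => (Gx Z S t x) ^ 2)) := by
        apply Finset.sum_le_sum_of_subset_of_nonneg (Finset.subset_univ _)
        intro t _ _
        have h3 := wt_nonneg P hP t
        have h4 := E_sq_nonneg (Gx Z S t)
        positivity
      refine h2.trans ?_
      have h5 : (∑ t : Fin N → Fin k → (ι → Bool),
          (1 / 2 ^ N : ℝ) * wt P t * ((coef (Gx Z S t) v) ^ 2 / E (fun x => (Gx Z S t x) ^ 2))) ≤ Qs P Z v := by
        unfold Qs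
        refine Finset.single_le_sum (f := fun S : Finset (Fin N) => ∑ t : Fin N → Fin k → (ι → Bool),
          (1 / 2 ^ N : ℝ) * wt P t * ((coef (Gx Z S t) v) ^ 2 / E (fun x => (Gx Z S t x) ^ 2))) ?_ (Finset.mem_univ S)
        intro S' _
        refine Finset.sum_nonneg fun t _ => ?_
        have h3 := wt_nonneg P hP t
        have h4 := E_sq_nonneg (Gx Z S' t)
        positivity
      have h6 : (∑ t : Fin N → Fin k → (ι → Bool),
          (1 / 2 ^ N : ℝ) * wt P t * ((coef (Gx Z S t) v) ^ 2 / E (fun x => (Gx Z S t x) ^ 2)))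
          = (1 / 2 ^ N) * ∑ t, wt P t * ((coef (Gx Z S t) v) ^ 2 / E (fun x => (Gx Z S t x) ^ 2)) := by
        rw [Finset.mul_sum]
        apply Finset.sum_congr rfl
        intro t _
        ring
      rw [h6] at h5
      have h7 : (0 : ℝ) < 2 ^ N := by positivity
      rw [one_div, inv_mul_le_iff₀ h7] at h5
      exact h5
    have hcB : ∀ t, (coef B v) ^ 2 ≤ 2 * (coef (Gx Z S t) v) ^ 2 + 2 * (coef (fun x => B x - Gx Z S t x) v) ^ 2 := by
      intro t
      have h1 : coef (fun x => B x - Gx Z S t x) v = coef B v - coef (Gx Z S t) v := coef_fsub B (Gx Z S t) v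
      rw [h1]
      nlinarith [sq_nonneg (coef B v - 2 * coef (Gx Z S t) v)]
    have h1 : w * (coef B v) ^ 2 ≤ 2 * ∑ t ∈ T, wt P t * (coef (Gx Z S t) v) ^ 2 + 2 * (w * ρ v) := by
      have e1 : w * ρ v = ∑ t ∈ T, wt P t * (coef (fun x => B x - Gx Z S t x) v) ^ 2 := by
        simp only [hρ]
        field_simp
      rw [e1, hw, Finset.sum_mul, Finset.mul_sum, Finset.mul_sum, ← Finset.sum_add_distrib]
      apply Finset.sum_le_sum
      intro t _
      have := mul_le_mul_of_nonneg_left (hcB t) (wt_nonneg P hP t)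
      linarith
    have h2 : w * (4 * ρ v) ≤ w * (coef B v) ^ 2 := mul_le_mul_of_nonneg_left hv hw0.le
    have h3 : w * (coef B v) ^ 2 ≤ 4 * (m * (2 ^ N * Qs P Z v)) := by linarith
    have hQ := Qs_nonneg P hP Z v
    have h4 : π0 ^ (N * k) * (coef B v) ^ 2 ≤ w * (coef B v) ^ 2 := mul_le_mul_of_nonneg_right hwge (sq_nonneg _)
    have h5 : (coef B v) ^ 2 ≤ 4 * (m * (2 ^ N * Qs P Z v)) / π0 ^ (N * k) := by
      rw [le_div_iff₀ hπpow]
      linarith
    refine h5.trans (le_of_eq ?_)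
    ring

end cube
end Pool.FEI
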