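import Pool.Agent.FEI.Fourier
set_option autoImplicit false
set_option linter.unusedSectionVars false
set_option linter.unusedVariables false
namespace Pool.FEI
open Finset
variable {ι : Type} [Fintype ι] [DecidableEq ι]

/-! ## Bridge.lean (helper47): linear threshold functions are nested, and the translation to base two -/

/-- the linear form splits along a merge -/
theorem linear_mrg (a : ι → ℝ) (R : Finset ι) (x z : ι → Bool) :
    ∑ i, a i * (if mrg R x z i then (-1 : ℝ) else 1)
      = ∑ i ∈ R, a i * (if x i then (-1 : ℝ) else 1)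
        + ∑ i ∈ Rᶜ, a i * (if z i then (-1 : ℝ) else 1) := by
  rw [← Finset.sum_add_sum_compl R]
  congr 1
  · apply Finset.sum_congr rfl
    intro i hi
    unfold mrg
    simp [hi]
  · apply Finset.sum_congr rfl
    intro i hi
    have : i ∉ R := by simpa using hi
    unfold mrg
    simp [this]

/-- a linear threshold function is nested -/
theorem nested_of_threshold (a : ι → ℝ) (θ : ℝ) (g : (ι → Bool) → ℝ)
    (hg : ∀ x, g x = if ∑ i, a i * (if x i then (-1 : ℝ) else 1) < θ then (-1 : ℝ) else 1) :
    Nested g := by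
  intro R z z'
  have key : ∀ w w' : ι → Bool,
      ∑ i ∈ Rᶜ, a i * (if w i then (-1 : ℝ) else 1) ≤ ∑ i ∈ Rᶜ, a i * (if w' i then (-1 : ℝ) else 1) →
      ∀ x, g (mrg R x w) ≤ g (mrg R x w') := by
    intro w w' h x
    rw [hg, hg, linear_mrg, linear_mrg]
    split_ifs with h1 h2 h2
    · exact le_refl _
    · norm_num
    · exact absurd (lt_of_le_of_lt (by linarith) h2) h1
    · exact le_refl _
  rcases le_total (∑ i ∈ Rᶜ, a i * (if z i then (-1 : ℝ) else 1))
    (∑ i ∈ Rᶜ, a i * (if z' i then (-1 : ℝ) else 1)) with h | h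
  · exact Or.inl (key z z' h)
  · exact Or.inr (key z' z h)

theorem PM_of_bool (f : (ι → Bool) → Bool) : PM (fun x => if f x then (-1 : ℝ) else 1) := by
  intro x
  by_cases h : f x
  · right; simp [h]
  · left; simp [h]

/-- the summand in base two -/
theorem logb_term (t : ℝ) : t ^ 2 * Real.logb 2 (1 / t ^ 2) = Real.negMulLog (t ^ 2) / Real.log 2 := by
  unfold Real.negMulLog Real.logb
  rw [one_div, Real.log_inv]
  ring

/-- translation of an entropy bound for the function `f` into the form used in the problem file -/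
theorem bridge (n : ℕ) (f : (Fin n → Bool) → Bool) (fhat : Finset (Fin n) → ℝ)
    (hfhat : ∀ S : Finset (Fin n),
      fhat S = (∑ x : Fin n → Bool, (if f x then (-1 : ℝ) else 1) *
        ∏ k ∈ S, (if x k then (-1 : ℝ) else 1)) / (2 : ℝ) ^ n)
    (B : ℝ) (U : Finset (Fin n) → ℝ)
    (hent : ent (fun x => if f x then (-1 : ℝ) else 1)
      ≤ B * ∑ S, U S * (coef (fun x => if f x then (-1 : ℝ) else 1) S) ^ 2) :
    ∑ S : Finset (Fin n), fhat S ^ 2 * Real.logb 2 (1 / fhat S ^ 2)
      ≤ (B / Real.log 2) * ∑ S : Finset (Fin n), U S * fhat S ^ 2 := by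
  have hc : ∀ S, coef (fun x => if f x then (-1 : ℝ) else 1) S = fhat S := by
    intro S
    rw [hfhat S]
    unfold coef E chi
    rw [Fintype.card_fin]
  have h1 : ∑ S : Finset (Fin n), fhat S ^ 2 * Real.logb 2 (1 / fhat S ^ 2)
      = ent (fun x => if f x then (-1 : ℝ) else 1) / Real.log 2 := by
    unfold ent
    rw [Finset.sum_div]
    apply Finset.sum_congr rfl
    intro S _
    rw [logb_term, hc]
  rw [h1, div_mul_eq_mul_div]
  apply div_le_div_of_nonneg_right _ (Real.log_nonneg (by norm_num))
  simp only [hc] at hent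
  exact hent

end Pool.FEI
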