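import Mathlib
set_option autoImplicit false
set_option linter.unusedSectionVars false
set_option linter.unusedVariables false

namespace Pool.FEI
open Finset

/-! ## Entropy numbers of Hoelder curves: the chain lemma -/

/-- pointwise Gibbs bound -/
theorem gibbs_point (n : ℕ) (u κ K : ℕ → ℝ) (Q s : ℝ) (hQ : 0 < Q)
    (hu0 : ∀ j ∈ range n, 0 ≤ u j) (hu : ∀ j ∈ range n, u j ≤ κ j * Q)
    (hK : ∀ j ∈ range n, 1 ≤ K j) (hsum : ∑ j ∈ range n, κ j / K j ≤ 1)
    (hs0 : 0 ≤ s) (hs : s ≤ ∑ j ∈ range n, u j) :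
    s * Real.log (s / Q) ≤ ∑ j ∈ range n, u j * Real.log (K j) := by
  have hR : 0 ≤ ∑ j ∈ range n, u j * Real.log (K j) :=
    Finset.sum_nonneg fun j hj => mul_nonneg (hu0 j hj) (Real.log_nonneg (hK j hj))
  rcases le_or_gt s Q with h | h
  · have : Real.log (s / Q) ≤ 0 := Real.log_nonpos (by positivity) ((div_le_one hQ).mpr h)
    nlinarith
  · set U := ∑ j ∈ range n, u j with hU
    have hspos : 0 < s := lt_trans hQ h
    have hUpos : 0 < U := lt_of_lt_of_le hspos hs
    have h1 : s * Real.log (s / Q) ≤ U * Real.log (U / Q) := by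
      have h2 : 0 ≤ Real.log (s / Q) := Real.log_nonneg ((one_le_div hQ).mpr h.le)
      have h3 : Real.log (s / Q) ≤ Real.log (U / Q) :=
        Real.log_le_log (by positivity) (div_le_div_of_nonneg_right hs hQ.le)
      exact mul_le_mul hs h3 h2 hUpos.le
    refine h1.trans ?_
    have h4 : U * Real.log (U / Q) = ∑ j ∈ range n, u j * Real.log (U / Q) := by
      rw [hU, Finset.sum_mul]
    rw [h4]
    have h5 : ∀ j ∈ range n, u j * Real.log (U / Q) ≤ u j * Real.log (K j) + ((U / Q) * (u j / K j) - u j) := by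
      intro j hj
      have hKj : 0 < K j := lt_of_lt_of_le one_pos (hK j hj)
      have h6 : Real.log ((U / Q) / K j) ≤ (U / Q) / K j - 1 := Real.log_le_sub_one_of_pos (by positivity)
      rw [Real.log_div (by positivity) hKj.ne'] at h6
      have h7 := mul_le_mul_of_nonneg_left h6 (hu0 j hj)
      have h8 : u j * ((U / Q) / K j - 1) = (U / Q) * (u j / K j) - u j := by ring
      rw [h8] at h7
      linarith [h7]
    refine (Finset.sum_le_sum h5).trans ?_
    rw [Finset.sum_add_distrib, Finset.sum_sub_distrib, ← Finset.mul_sum]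
    have h9 : ∑ j ∈ range n, u j / K j ≤ Q := by
      have h10 : ∀ j ∈ range n, u j / K j ≤ Q * (κ j / K j) := by
        intro j hj
        have hKj : 0 < K j := lt_of_lt_of_le one_pos (hK j hj)
        rw [mul_div_assoc', div_le_div_iff_of_pos_right hKj]
        linarith [hu j hj]
      refine (Finset.sum_le_sum h10).trans ?_
      rw [← Finset.mul_sum]
      nlinarith
    have h11 : U / Q * ∑ j ∈ range n, u j / K j ≤ U := by
      have := mul_le_mul_of_nonneg_left h9 (by positivity : 0 ≤ U / Q)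
      rwa [div_mul_cancel₀ _ hQ.ne'] at this
    linarith

theorem sum_geo (J : ℕ) : ∑ j ∈ range J, ((j : ℝ) + 1) * (2 / 3 : ℝ) ^ j = 9 - (9 + 3 * J) * (2 / 3 : ℝ) ^ J := by
  induction J with
  | zero => simp
  | succ J ih =>
    rw [Finset.sum_range_succ, ih, pow_succ]
    push_cast
    ring

theorem sum_half (J : ℕ) : ∑ j ∈ range J, (1 / 2 : ℝ) ^ (j + 1) ≤ 1 := by
  have : ∑ j ∈ range J, (1 / 2 : ℝ) ^ (j + 1) = 1 - (1 / 2 : ℝ) ^ J := by
    induction J with
    | zero => simp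
    | succ J ih => rw [Finset.sum_range_succ, ih]; ring
  rw [this]
  have : (0 : ℝ) < (1 / 2 : ℝ) ^ J := by positivity
  linarith

theorem sum_lam (J : ℕ) : ∑ j ∈ range J, (1 / 4 : ℝ) * (3 / 4 : ℝ) ^ j ≤ 1 := by
  have : ∑ j ∈ range J, (1 / 4 : ℝ) * (3 / 4 : ℝ) ^ j = 1 - (3 / 4 : ℝ) ^ J := by
    induction J with
    | zero => simp
    | succ J ih => rw [Finset.sum_range_succ, ih]; ring
  rw [this]
  have : (0 : ℝ) < (3 / 4 : ℝ) ^ J := by positivity
  linarith

section chain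
variable {Y V : Type} [Fintype Y] [Fintype V] [Nonempty Y]

open Classical in
/-- representative of a cell -/
noncomputable def rep (cell : ℕ → Y → ℕ) (j c : ℕ) : Y :=
  if h : ∃ y, cell j y = c then h.choose else Classical.arbitrary Y

/-- representative of the cell of `y` -/
noncomputable def rho (cell : ℕ → Y → ℕ) (j : ℕ) (y : Y) : Y := rep cell j (cell j y)

theorem cell_rep (cell : ℕ → Y → ℕ) (j : ℕ) (y : Y) : cell j (rep cell j (cell j y)) = cell j y := by
  have h : ∃ z, cell j z = cell j y := ⟨y, rfl⟩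
  unfold rep
  rw [dif_pos h]
  exact h.choose_spec

theorem cell_rho (cell : ℕ → Y → ℕ) (j : ℕ) (y : Y) : cell j (rho cell j y) = cell j y := cell_rep cell j y

/-- chain differences -/
noncomputable def dif (a : Y → V → ℝ) (cell : ℕ → Y → ℕ) : ℕ → Y → V → ℝ
  | 0, y, v => a (rho cell 0 y) v
  | (j + 1), y, v => a (rho cell (j + 1) y) v - a (rho cell j y) v

theorem dif_sum (a : Y → V → ℝ) (cell : ℕ → Y → ℕ) (J : ℕ) (y : Y) (v : V) :
    ∑ j ∈ range (J + 1), dif a cell j y v = a (rho cell J y) v := by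
  induction J with
  | zero => simp [dif]
  | succ J ih => rw [Finset.sum_range_succ, ih]; simp [dif]

theorem dif_cell (a : Y → V → ℝ) (cell : ℕ → Y → ℕ)
    (hnest : ∀ j y z, cell (j + 1) y = cell (j + 1) z → cell j y = cell j z)
    (j : ℕ) (y z : Y) (h : cell j y = cell j z) (v : V) :
    dif a cell j y v = dif a cell j z v := by
  cases j with
  | zero => simp only [dif, rho, h]
  | succ j =>
    have h2 : cell j y = cell j z := hnest j y z h
    simp only [dif, rho, h, h2]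

theorem dif_norm (a : Y → V → ℝ) (cell : ℕ → Y → ℕ)
    (hnest : ∀ j y z, cell (j + 1) y = cell (j + 1) z → cell j y = cell j z)
    (hdist : ∀ j y z, cell j y = cell j z → ∑ v, (a y v - a z v) ^ 2 ≤ (1 / 2 : ℝ) ^ j)
    (hn : ∀ y, ∑ v, (a y v) ^ 2 ≤ 1)
    (j : ℕ) (y : Y) : ∑ v, (dif a cell j y v) ^ 2 ≤ 2 * (1 / 2 : ℝ) ^ j := by
  cases j with
  | zero =>
    simp only [dif]
    have := hn (rho cell 0 y)
    norm_num
    linarith
  | succ j =>
    simp only [dif]
    have h1 : cell j (rho cell (j + 1) y) = cell j (rho cell j y) :=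
      (hnest j _ _ (cell_rho cell (j + 1) y)).trans (cell_rho cell j y).symm
    refine (hdist j _ _ h1).trans (le_of_eq ?_)
    rw [pow_succ]
    ring

theorem exists_scale (a : Y → V → ℝ) (cell : ℕ → Y → ℕ)
    (hdist : ∀ j y z, cell j y = cell j z → ∑ v, (a y v - a z v) ^ 2 ≤ (1 / 2 : ℝ) ^ j) :
    ∃ J : ℕ, ∀ y v, a (rho cell J y) v = a y v := by
  have h1 : ∀ p : Y × Y, ∃ J : ℕ, 0 < ∑ v, (a p.1 v - a p.2 v) ^ 2 →
      (1 / 2 : ℝ) ^ J < ∑ v, (a p.1 v - a p.2 v) ^ 2 := by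
    intro p
    by_cases h : 0 < ∑ v, (a p.1 v - a p.2 v) ^ 2
    · obtain ⟨J, hJ⟩ := exists_pow_lt_of_lt_one h (by norm_num : (1 / 2 : ℝ) < 1)
      exact ⟨J, fun _ => hJ⟩
    · exact ⟨0, fun h' => absurd h' h⟩
  choose N hN using h1
  refine ⟨Finset.univ.sup N, fun y v => ?_⟩
  set J := Finset.univ.sup N
  have h0 : 0 ≤ ∑ v, (a (rho cell J y) v - a y v) ^ 2 := Finset.sum_nonneg fun v _ => sq_nonneg _
  have h2 : ∑ v, (a (rho cell J y) v - a y v) ^ 2 = 0 := by
    by_contra hne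
    have hpos : 0 < ∑ v, (a (rho cell J y) v - a y v) ^ 2 := lt_of_le_of_ne h0 (Ne.symm hne)
    have h3 := hN (rho cell J y, y) hpos
    have h4 := hdist J _ _ (cell_rho cell J y)
    have h5 : (1 / 2 : ℝ) ^ J ≤ (1 / 2 : ℝ) ^ (N (rho cell J y, y)) :=
      pow_le_pow_of_le_one (by norm_num) (by norm_num) (Finset.le_sup (Finset.mem_univ _))
    simp only at h3
    linarith
  have h7 := (Finset.sum_eq_zero_iff_of_nonneg (fun v _ => sq_nonneg (a (rho cell J y) v - a y v))).mp h2 v (Finset.mem_univ v)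
  have h8 : a (rho cell J y) v - a y v = 0 := pow_eq_zero_iff two_ne_zero |>.mp h7
  linarith

/-- the chain lemma for a family in the unit ball -/
theorem chainB (a : Y → V → ℝ) (cell : ℕ → Y → ℕ) (L : ℕ) (hL : 1 ≤ L)
    (hlt : ∀ j y, cell j y < L ^ j)
    (hnest : ∀ j y z, cell (j + 1) y = cell (j + 1) z → cell j y = cell j z)
    (hdist : ∀ j y z, cell j y = cell j z → ∑ v, (a y v - a z v) ^ 2 ≤ (1 / 2 : ℝ) ^ j)
    (hn : ∀ y, ∑ v, (a y v) ^ 2 ≤ 1) :
    ∃ Q : V → ℝ, (∀ v, 0 ≤ Q v) ∧ ∑ v, Q v ≤ 1 ∧ (∀ y v, Q v = 0 → a y v = 0) ∧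
      ∀ y, ∑ v, (a y v) ^ 2 * Real.log ((a y v) ^ 2 / Q v) ≤ 288 * (1 + Real.log L) := by
  have hLr : (1 : ℝ) ≤ L := by exact_mod_cast hL
  have hL0 : (0 : ℝ) < L := by linarith
  have hlogL : 0 ≤ Real.log L := Real.log_nonneg hLr
  obtain ⟨J, hJ⟩ := exists_scale a cell hdist
  set n := J + 1 with hn'
  set Q : V → ℝ := fun v => ∑ j ∈ range n, ∑ c ∈ range (L ^ j), (1 / (4 * (L : ℝ) ^ j) : ℝ) * (dif a cell j (rep cell j c) v) ^ 2 with hQ
  have hQ0 : ∀ v, 0 ≤ Q v := fun v =>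
    Finset.sum_nonneg fun j _ => Finset.sum_nonneg fun c _ => by positivity
  have hsumQ : ∑ v, Q v ≤ 1 := by
    have e1 : ∑ v, Q v = ∑ j ∈ range n, ∑ c ∈ range (L ^ j), (1 / (4 * (L : ℝ) ^ j) : ℝ) * ∑ v, (dif a cell j (rep cell j c) v) ^ 2 := by
      simp only [hQ]
      rw [Finset.sum_comm]
      apply Finset.sum_congr rfl
      intro j _
      rw [Finset.sum_comm]
      apply Finset.sum_congr rfl
      intro c _
      rw [Finset.mul_sum]
    rw [e1]
    have e2 : ∀ j ∈ range n, ∑ c ∈ range (L ^ j), (1 / (4 * (L : ℝ) ^ j) : ℝ) * ∑ v, (dif a cell j (rep cell j c) v) ^ 2 ≤ (1 / 2 : ℝ) ^ (j + 1) := by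
      intro j _
      have e3 : ∀ c ∈ range (L ^ j), (1 / (4 * (L : ℝ) ^ j) : ℝ) * ∑ v, (dif a cell j (rep cell j c) v) ^ 2
          ≤ (1 / (4 * (L : ℝ) ^ j) : ℝ) * (2 * (1 / 2 : ℝ) ^ j) := fun c _ =>
        mul_le_mul_of_nonneg_left (dif_norm a cell hnest hdist hn j _) (by positivity)
      refine (Finset.sum_le_sum e3).trans (le_of_eq ?_)
      rw [Finset.sum_const, Finset.card_range, nsmul_eq_mul]
      push_cast
      rw [pow_succ, one_div_pow]
      have hp0 : (L : ℝ) ^ j ≠ 0 := by positivity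
      field_simp
      norm_num
    exact (Finset.sum_le_sum e2).trans (sum_half n)
  have hQge : ∀ j ∈ range n, ∀ y v, (dif a cell j y v) ^ 2 ≤ 4 * (L : ℝ) ^ j * Q v := by
    intro j hj y v
    have g1 : (1 / (4 * (L : ℝ) ^ j) : ℝ) * (dif a cell j (rep cell j (cell j y)) v) ^ 2 ≤ Q v := by
      simp only [hQ]
      refine le_trans ?_ (Finset.single_le_sum (f := fun j => ∑ c ∈ range (L ^ j), (1 / (4 * (L : ℝ) ^ j) : ℝ) * (dif a cell j (rep cell j c) v) ^ 2)
        (fun j _ => Finset.sum_nonneg fun c _ => by positivity) hj)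
      exact Finset.single_le_sum (f := fun c => (1 / (4 * (L : ℝ) ^ j) : ℝ) * (dif a cell j (rep cell j c) v) ^ 2)
        (fun c _ => by positivity) (Finset.mem_range.mpr (hlt j y))
    rw [dif_cell a cell hnest j (rep cell j (cell j y)) y (cell_rep cell j y) v] at g1
    have hp : (0 : ℝ) < 4 * (L : ℝ) ^ j := by positivity
    rw [one_div, inv_mul_le_iff₀ hp] at g1
    linarith
  have hays : ∀ y v, a y v = ∑ j ∈ range n, dif a cell j y v := by
    intro y v
    rw [hn', dif_sum, hJ]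
  have hK1 : ∀ j : ℕ, (1 : ℝ) ≤ 32 * ((8 / 3) * (L : ℝ)) ^ j := by
    intro j
    have h1 : (1 : ℝ) ≤ (8 / 3) * (L : ℝ) := by linarith
    have : (1 : ℝ) ≤ ((8 / 3) * (L : ℝ)) ^ j := one_le_pow₀ h1
    linarith
  refine ⟨Q, hQ0, hsumQ, ?_, ?_⟩
  · intro y v hv
    rw [hays]
    apply Finset.sum_eq_zero
    intro j hj
    have := hQge j hj y v
    rw [hv, mul_zero] at this
    exact pow_eq_zero_iff two_ne_zero |>.mp (le_antisymm this (sq_nonneg _))
  · intro y
    -- pointwise bound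
    have hpt : ∀ v, (a y v) ^ 2 * Real.log ((a y v) ^ 2 / Q v)
        ≤ ∑ j ∈ range n, ((dif a cell j y v) ^ 2 / ((1 / 4) * (3 / 4) ^ j)) * Real.log (32 * ((8 / 3) * (L : ℝ)) ^ j) := by
      intro v
      rcases (hQ0 v).eq_or_lt with hq | hq
      · have hz : a y v = 0 := by
          rw [hays]
          apply Finset.sum_eq_zero
          intro j hj
          have := hQge j hj y v
          rw [← hq, mul_zero] at this
          exact pow_eq_zero_iff two_ne_zero |>.mp (le_antisymm this (sq_nonneg _))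
        rw [hz]
        simp only [ne_eq, OfNat.ofNat_ne_zero, not_false_eq_true, zero_pow, zero_div, zero_mul]
        apply Finset.sum_nonneg
        intro j _
        exact mul_nonneg (by positivity) (Real.log_nonneg (hK1 j))
      · apply gibbs_point n (fun j => (dif a cell j y v) ^ 2 / ((1 / 4) * (3 / 4) ^ j)) (fun j => 16 * ((4 / 3) * (L : ℝ)) ^ j)
          (fun j => 32 * ((8 / 3) * (L : ℝ)) ^ j) (Q v) _ hq
        · intro j _; positivity
        · intro j hj
          have := hQge j hj y v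
          rw [div_le_iff₀ (by positivity)]
          have e : (16 * ((4 / 3) * (L : ℝ)) ^ j * Q v) * (1 / 4 * (3 / 4) ^ j) = 4 * (L : ℝ) ^ j * Q v := by
            have : ((4 / 3) * (L : ℝ)) ^ j * (3 / 4) ^ j = (L : ℝ) ^ j := by rw [← mul_pow]; congr 1; ring
            calc (16 * ((4 / 3) * (L : ℝ)) ^ j * Q v) * (1 / 4 * (3 / 4) ^ j) = 4 * (((4 / 3) * (L : ℝ)) ^ j * (3 / 4) ^ j) * Q v := by ring
              _ = _ := by rw [this]
          rw [e]
          exact this
        · intro j _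
          exact hK1 j
        · have : ∀ j ∈ range n, (16 * ((4 / 3) * (L : ℝ)) ^ j) / (32 * ((8 / 3) * (L : ℝ)) ^ j) = (1 / 2 : ℝ) ^ (j + 1) := by
            intro j _
            have e : ((8 / 3) * (L : ℝ)) ^ j = ((4 / 3) * (L : ℝ)) ^ j * 2 ^ j := by rw [← mul_pow]; congr 1; ring
            rw [e, pow_succ, one_div_pow]
            have : ((4 / 3) * (L : ℝ)) ^ j ≠ 0 := by positivity
            field_simp
            norm_num
          rw [Finset.sum_congr rfl this]
          exact sum_half n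
        · positivity
        · -- Cauchy-Schwarz
          rw [hays y v]
          have hs := Finset.sq_sum_div_le_sum_sq_div (range n) (fun j => dif a cell j y v)
            (g := fun j => (1 / 4 : ℝ) * (3 / 4) ^ j) (fun j _ => by positivity)
          refine le_trans ?_ hs
          have hl : 0 < ∑ j ∈ range n, (1 / 4 : ℝ) * (3 / 4) ^ j :=
            Finset.sum_pos (fun j _ => by positivity) ⟨0, by simp [hn']⟩
          rw [le_div_iff₀ hl]
          have := sum_lam n
          nlinarith [sq_nonneg (∑ j ∈ range n, dif a cell j y v)]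
    refine (Finset.sum_le_sum fun v _ => hpt v).trans ?_
    rw [Finset.sum_comm]
    have hj : ∀ j ∈ range n, ∑ v, ((dif a cell j y v) ^ 2 / ((1 / 4) * (3 / 4) ^ j)) * Real.log (32 * ((8 / 3) * (L : ℝ)) ^ j)
        ≤ 32 * (1 + Real.log L) * (((j : ℝ) + 1) * (2 / 3 : ℝ) ^ j) := by
      intro j _
      rw [← Finset.sum_mul, ← Finset.sum_div]
      have hlog : Real.log (32 * ((8 / 3) * (L : ℝ)) ^ j) ≤ 4 * (1 + Real.log L) * ((j : ℝ) + 1) := by
        rw [Real.log_mul (by norm_num) (by positivity), Real.log_pow, Real.log_mul (by norm_num) hL0.ne']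
        have l1 : Real.log 32 ≤ 4 := by
          have : (32 : ℝ) = 2 ^ 5 := by norm_num
          rw [this, Real.log_pow]
          have := Real.log_two_lt_d9
          push_cast
          linarith
        have l2 : Real.log (8 / 3) ≤ 4 := by
          have : Real.log (8 / 3) ≤ 8 / 3 - 1 := Real.log_le_sub_one_of_pos (by norm_num)
          linarith
        have l3 : (j : ℝ) * Real.log (8 / 3) ≤ j * 4 := mul_le_mul_of_nonneg_left l2 (Nat.cast_nonneg j)
        have l4 : 0 ≤ (j : ℝ) * Real.log L := mul_nonneg (Nat.cast_nonneg j) hlogL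
        nlinarith
      have hlog0 : 0 ≤ Real.log (32 * ((8 / 3) * (L : ℝ)) ^ j) := Real.log_nonneg (hK1 j)
      have hnm : (∑ v, (dif a cell j y v) ^ 2) / ((1 / 4) * (3 / 4) ^ j) ≤ 8 * (2 / 3 : ℝ) ^ j := by
        rw [div_le_iff₀ (by positivity)]
        refine (dif_norm a cell hnest hdist hn j y).trans (le_of_eq ?_)
        have : (2 / 3 : ℝ) ^ j * (3 / 4) ^ j = (1 / 2) ^ j := by rw [← mul_pow]; norm_num
        calc 2 * (1 / 2 : ℝ) ^ j = 2 * ((2 / 3 : ℝ) ^ j * (3 / 4) ^ j) := by rw [this]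
          _ = _ := by ring
      calc (∑ v, (dif a cell j y v) ^ 2) / ((1 / 4) * (3 / 4) ^ j) * Real.log (32 * ((8 / 3) * (L : ℝ)) ^ j)
          ≤ 8 * (2 / 3 : ℝ) ^ j * (4 * (1 + Real.log L) * ((j : ℝ) + 1)) := mul_le_mul hnm hlog hlog0 (by positivity)
        _ = _ := by ring
    refine (Finset.sum_le_sum hj).trans ?_
    rw [← Finset.mul_sum, sum_geo]
    have : 0 ≤ (9 + 3 * (n : ℝ)) * (2 / 3) ^ n := by positivity
    nlinarith

end chain

section cells
variable {Y : Type} [Fintype Y] [DecidableEq Y]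

/-- iterating the doubling property -/
theorem cells_exist (d : Y → Y → ℝ) (L : ℕ)
    (hD : ∀ (r : ℝ) (Z : Finset Y), (∀ z ∈ Z, ∀ z' ∈ Z, d z z' ≤ r) →
      ∃ κ : Y → Fin L, ∀ z ∈ Z, ∀ z' ∈ Z, κ z = κ z' → d z z' ≤ r / 2)
    (Z : Finset Y) (r : ℝ) (hZ : ∀ z ∈ Z, ∀ z' ∈ Z, d z z' ≤ r) :
    ∃ cell : ℕ → Y → ℕ, (∀ j y, cell j y < L ^ j) ∧
      (∀ j y z, cell (j + 1) y = cell (j + 1) z → cell j y = cell j z) ∧
      ∀ j, ∀ y ∈ Z, ∀ z ∈ Z, cell j y = cell j z → d y z ≤ r * (1 / 2) ^ j := by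
  classical
  let S : ℕ → Type := fun j => {c : Y → ℕ // (∀ y, c y < L ^ j) ∧ ∀ y ∈ Z, ∀ z ∈ Z, c y = c z → d y z ≤ r * (1 / 2) ^ j}
  have step : ∀ j (s : S j), ∃ s' : S (j + 1), ∀ y z, s'.1 y = s'.1 z → s.1 y = s.1 z := by
    intro j s
    obtain ⟨c, hc1, hc2⟩ := s
    have hk : ∀ e : ℕ, ∃ κ : Y → Fin L, ∀ z ∈ Z.filter (fun z => c z = e), ∀ z' ∈ Z.filter (fun z => c z = e),
        κ z = κ z' → d z z' ≤ r * (1 / 2) ^ j / 2 := by
      intro e
      apply hD
      intro z hz z' hz'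
      rw [Finset.mem_filter] at hz hz'
      exact hc2 z hz.1 z' hz'.1 (by rw [hz.2, hz'.2])
    choose κ hκ using hk
    have hdiv : ∀ y z : Y, L * c y + (κ (c y) y : ℕ) = L * c z + (κ (c z) z : ℕ) → c y = c z ∧ (κ (c y) y : ℕ) = (κ (c z) z : ℕ) := by
      intro y z h
      have hL : 0 < L := lt_of_le_of_lt (Nat.zero_le _) (κ (c y) y).2
      have h1 : (L * c y + (κ (c y) y : ℕ)) / L = c y := by
        rw [Nat.mul_add_div hL, Nat.div_eq_of_lt (κ (c y) y).2, add_zero]
      have h2 : (L * c z + (κ (c z) z : ℕ)) / L = c z := by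
        rw [Nat.mul_add_div hL, Nat.div_eq_of_lt (κ (c z) z).2, add_zero]
      have h3 : c y = c z := by rw [← h1, ← h2, h]
      refine ⟨h3, ?_⟩
      rw [h3] at h
      rw [h3]
      omega
    refine ⟨⟨fun y => L * c y + (κ (c y) y : ℕ), ?_, ?_⟩, ?_⟩
    · intro y
      have h1 := hc1 y
      have h2 := (κ (c y) y).2
      calc L * c y + (κ (c y) y : ℕ) < L * c y + L := by omega
        _ = L * (c y + 1) := by ring
        _ ≤ L * L ^ j := Nat.mul_le_mul_left L h1
        _ = L ^ (j + 1) := by ring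
    · intro y hy z hz h
      obtain ⟨h1, h2⟩ := hdiv y z h
      have h3 := hκ (c y) y (Finset.mem_filter.mpr ⟨hy, rfl⟩) z (Finset.mem_filter.mpr ⟨hz, h1.symm⟩)
        (by rw [← h1] at h2; exact Fin.ext h2)
      refine h3.trans (le_of_eq ?_)
      rw [pow_succ]; ring
    · intro y z h
      exact (hdiv y z h).1
  choose nxt hnxt using step
  let s0 : S 0 := ⟨fun _ => 0, fun _ => by simp, fun y hy z hz _ => by simpa using hZ y hy z hz⟩
  let seq : (j : ℕ) → S j := fun j => Nat.rec s0 (fun j s => nxt j s) j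
  refine ⟨fun j => (seq j).1, fun j => (seq j).2.1, ?_, fun j => (seq j).2.2⟩
  intro j y z h
  exact hnxt j (seq j) y z h

end cells

section classes
variable {Y V : Type} [Fintype Y] [Fintype V] [DecidableEq Y]

theorem class_lemma (a : Y → V → ℝ) (m : Y → ℝ) (d : Y → Y → ℝ) (L : ℕ) (hL : 1 ≤ L)
    (hD : ∀ (r : ℝ) (Z : Finset Y), (∀ z ∈ Z, ∀ z' ∈ Z, d z z' ≤ r) →
      ∃ κ : Y → Fin L, ∀ z ∈ Z, ∀ z' ∈ Z, κ z = κ z' → d z z' ≤ r / 2)
    (hn : ∀ y, ∑ v, (a y v) ^ 2 = m y) (hd : ∀ y z, ∑ v, (a y v - a z v) ^ 2 ≤ d y z)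
    (hdm : ∀ y z, d y z ≤ m y + m z) (k : ℕ) :
    ∃ Q : V → ℝ, (∀ v, 0 ≤ Q v) ∧ ∑ v, Q v ≤ 1 ∧
      ∀ y, (1 / 2 : ℝ) ^ (k + 1) < m y → m y ≤ (1 / 2 : ℝ) ^ k →
        (∀ v, Q v = 0 → a y v = 0) ∧
        ∑ v, (a y v) ^ 2 * Real.log ((a y v) ^ 2 / (m y * Q v)) ≤ 1154 * (1 + Real.log L) * m y := by
  classical
  have hLr : (1 : ℝ) ≤ L := by exact_mod_cast hL
  have hlogL : 0 ≤ Real.log L := Real.log_nonneg hLr
  set M : ℝ := (1 / 2 : ℝ) ^ k with hM
  have hMpos : 0 < M := by positivity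
  have hM2 : 0 < 2 * M := by positivity
  by_cases hne : Nonempty {y : Y // (1 / 2 : ℝ) ^ (k + 1) < m y ∧ m y ≤ M}
  · obtain ⟨cell, hc1, hc2, hc3⟩ := cells_exist d L hD (univ.filter (fun y => (1 / 2 : ℝ) ^ (k + 1) < m y ∧ m y ≤ M)) (2 * M) (by
      intro y hy z hz
      rw [Finset.mem_filter] at hy hz
      have := hdm y z
      linarith [hy.2.2, hz.2.2])
    obtain ⟨Q, hQ0, hQ1, hQ2, hQ3⟩ := chainB (Y := {y : Y // (1 / 2 : ℝ) ^ (k + 1) < m y ∧ m y ≤ M})
      (fun y v => a y.1 v / Real.sqrt (2 * M)) (fun j y => cell j y.1) L hL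
      (fun j y => hc1 j y.1) (fun j y z h => hc2 j y.1 z.1 h)
      (fun j y z h => by
        simp only [← sub_div, div_pow, Real.sq_sqrt hM2.le]
        rw [← Finset.sum_div, div_le_iff₀ hM2]
        have h1 := hc3 j y.1 (Finset.mem_filter.mpr ⟨Finset.mem_univ _, y.2⟩) z.1 (Finset.mem_filter.mpr ⟨Finset.mem_univ _, z.2⟩) h
        refine (hd _ _).trans (h1.trans (le_of_eq ?_))
        rw [one_div_pow]; ring)
      (fun y => by
        simp only [div_pow, Real.sq_sqrt hM2.le]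
        rw [← Finset.sum_div, hn, div_le_one hM2]
        linarith [y.2.2])
    have hsM : Real.sqrt (2 * M) ≠ 0 := (Real.sqrt_pos.mpr hM2).ne'
    refine ⟨Q, hQ0, hQ1, fun y hy1 hy2 => ⟨fun v hv => ?_, ?_⟩⟩
    · have := hQ2 ⟨y, hy1, hy2⟩ v hv
      simp only [div_eq_zero_iff, hsM, or_false] at this
      exact this
    · have hmpos : 0 < m y := lt_trans (by positivity) hy1
      have h3 := hQ3 ⟨y, hy1, hy2⟩
      simp only [div_pow, Real.sq_sqrt hM2.le] at h3
      have hpt : ∀ v, (a y v) ^ 2 * Real.log ((a y v) ^ 2 / (m y * Q v))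
          = (2 * M) * ((a y v) ^ 2 / (2 * M) * Real.log ((a y v) ^ 2 / (2 * M) / Q v)) + (a y v) ^ 2 * Real.log ((2 * M) / m y) := by
        intro v
        by_cases hav : a y v = 0
        · simp [hav]
        · have hQv : Q v ≠ 0 := fun h => by
            have := hQ2 ⟨y, hy1, hy2⟩ v h
            simp only [div_eq_zero_iff, hsM, or_false] at this
            exact hav this
          have ha2 : (a y v) ^ 2 ≠ 0 := pow_ne_zero 2 hav
          rw [Real.log_div ha2 (mul_ne_zero hmpos.ne' hQv), Real.log_mul hmpos.ne' hQv,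
            Real.log_div (div_ne_zero ha2 hM2.ne') hQv, Real.log_div ha2 hM2.ne',
            Real.log_div hM2.ne' hmpos.ne']
          field_simp
          ring
      simp only [hpt]
      rw [Finset.sum_add_distrib, ← Finset.mul_sum, ← Finset.sum_mul, hn]
      have h6 : M ≤ 2 * m y := by
        have : (1 / 2 : ℝ) ^ (k + 1) = M / 2 := by rw [pow_succ, hM]; ring
        linarith
      have h4 : Real.log ((2 * M) / m y) ≤ 2 := by
        have h5 : (2 * M) / m y ≤ 4 := by
          rw [div_le_iff₀ hmpos]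
          linarith
        have h7 : Real.log ((2 * M) / m y) ≤ Real.log 4 := Real.log_le_log (by positivity) h5
        have h8 : Real.log 4 ≤ 2 := by
          have : (4 : ℝ) = 2 ^ 2 := by norm_num
          rw [this, Real.log_pow]
          have := Real.log_two_lt_d9
          push_cast
          linarith
        linarith
      have hΛ : 1 ≤ 1 + Real.log L := by linarith
      calc 2 * M * ∑ v, (a y v) ^ 2 / (2 * M) * Real.log ((a y v) ^ 2 / (2 * M) / Q v) + m y * Real.log (2 * M / m y)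
          ≤ 2 * M * (288 * (1 + Real.log L)) + m y * 2 := by
            apply add_le_add
            · exact mul_le_mul_of_nonneg_left h3 hM2.le
            · exact mul_le_mul_of_nonneg_left h4 hmpos.le
        _ ≤ 1154 * (1 + Real.log L) * m y := by nlinarith
  · refine ⟨fun _ => 0, fun _ => le_rfl, by simp, fun y hy1 hy2 => ?_⟩
    exact absurd ⟨⟨y, hy1, hy2⟩⟩ hne

theorem sum_wk (K : ℕ) : ∑ k ∈ range K, 1 / (((k : ℝ) + 1) * (k + 2)) ≤ 1 := by
  have : ∑ k ∈ range K, 1 / (((k : ℝ) + 1) * (k + 2)) = 1 - 1 / ((K : ℝ) + 1) := by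
    induction K with
    | zero => simp
    | succ K ih =>
      rw [Finset.sum_range_succ, ih]
      push_cast
      have h1 : (K : ℝ) + 1 ≠ 0 := by positivity
      have h2 : (K : ℝ) + 2 ≠ 0 := by positivity
      have h3 : (K : ℝ) + 1 + 1 ≠ 0 := by positivity
      field_simp
      ring
  rw [this]
  have : (0 : ℝ) < 1 / ((K : ℝ) + 1) := by positivity
  linarith

/-- the profile function -/
noncomputable def psi (m : ℝ) : ℝ := m * Real.sqrt (1 + Real.log (1 / m))

theorem log_le_of_class (k : ℕ) (m : ℝ) (hm : 0 < m) (hk : m ≤ (1 / 2 : ℝ) ^ k) :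
    Real.log (((k : ℝ) + 1) * (k + 2)) ≤ 6 * Real.sqrt (1 + Real.log (1 / m)) := by
  have hm1 : m ≤ 1 := hk.trans (pow_le_one₀ (by norm_num) (by norm_num))
  have hL : 0 ≤ Real.log (1 / m) := Real.log_nonneg (one_le_one_div hm hm1)
  set L := Real.log (1 / m) with hLdef
  have hkL : (k : ℝ) * Real.log 2 ≤ L := by
    have h1 : Real.log m ≤ Real.log ((1 / 2 : ℝ) ^ k) := Real.log_le_log hm hk
    rw [Real.log_pow, one_div, Real.log_inv] at h1
    have h2 : L = - Real.log m := by rw [hLdef, one_div, Real.log_inv]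
    rw [h2]
    linarith
  have hk2 : (k : ℝ) + 2 ≤ 2 * (1 + L) := by
    have := Real.log_two_gt_d9
    have hk0 : (0 : ℝ) ≤ k := Nat.cast_nonneg k
    nlinarith
  have hx : (0 : ℝ) < (k : ℝ) + 2 := by positivity
  have h3 : Real.log (((k : ℝ) + 1) * (k + 2)) ≤ 2 * Real.log ((k : ℝ) + 2) := by
    rw [Real.log_mul (by positivity) (by positivity)]
    have : Real.log ((k : ℝ) + 1) ≤ Real.log ((k : ℝ) + 2) := Real.log_le_log (by positivity) (by linarith)
    linarith
  have h4 : Real.log ((k : ℝ) + 2) ≤ 2 * Real.sqrt ((k : ℝ) + 2) := by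
    have h5 : Real.log (Real.sqrt ((k : ℝ) + 2)) = Real.log ((k : ℝ) + 2) / 2 := Real.log_sqrt hx.le
    have h6 := Real.log_le_sub_one_of_pos (Real.sqrt_pos.mpr hx)
    linarith
  have h7 : Real.sqrt ((k : ℝ) + 2) ≤ 3 / 2 * Real.sqrt (1 + L) := by
    have h8 : (3 / 2 : ℝ) * Real.sqrt (1 + L) = Real.sqrt ((3 / 2) ^ 2 * (1 + L)) := by
      rw [Real.sqrt_mul (by norm_num), Real.sqrt_sq (by norm_num)]
    rw [h8]
    apply Real.sqrt_le_sqrt
    nlinarith
  linarith

/-- the chain lemma -/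
theorem chain (a : Y → V → ℝ) (m : Y → ℝ) (h0 : ∀ y, 0 ≤ m y) (h1 : ∀ y, m y ≤ 1)
    (d : Y → Y → ℝ) (L : ℕ) (hL : 1 ≤ L)
    (hD : ∀ (r : ℝ) (Z : Finset Y), (∀ z ∈ Z, ∀ z' ∈ Z, d z z' ≤ r) →
      ∃ κ : Y → Fin L, ∀ z ∈ Z, ∀ z' ∈ Z, κ z = κ z' → d z z' ≤ r / 2)
    (hn : ∀ y, ∑ v, (a y v) ^ 2 = m y) (hd : ∀ y z, ∑ v, (a y v - a z v) ^ 2 ≤ d y z)
    (hdm : ∀ y z, d y z ≤ m y + m z) :
    ∃ Q : V → ℝ, (∀ v, 0 ≤ Q v) ∧ ∑ v, Q v ≤ 1 ∧ (∀ y v, Q v = 0 → a y v = 0) ∧
      ∀ y, ∑ v, (a y v) ^ 2 * Real.log ((a y v) ^ 2 / (m y * Q v)) ≤ 1160 * (1 + Real.log L) * psi (m y) := by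
  classical
  have hLr : (1 : ℝ) ≤ L := by exact_mod_cast hL
  have hlogL : 0 ≤ Real.log L := Real.log_nonneg hLr
  choose q hq0 hq1 hq2 using class_lemma a m d L hL hD hn hd hdm
  have hk : ∀ y, ∃ k : ℕ, 0 < m y → (1 / 2 : ℝ) ^ (k + 1) < m y ∧ m y ≤ (1 / 2 : ℝ) ^ k := by
    intro y
    by_cases h : 0 < m y
    · obtain ⟨k, hk1, hk2⟩ := exists_nat_pow_near_of_lt_one h (h1 y) (by norm_num : (0 : ℝ) < 1 / 2) (by norm_num)
      exact ⟨k, fun _ => ⟨hk1, hk2⟩⟩
    · exact ⟨0, fun h' => absurd h' h⟩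
  choose κ hκ using hk
  set K := Finset.univ.sup κ + 1 with hK
  have hκK : ∀ y, κ y ∈ range K := fun y =>
    Finset.mem_range.mpr (Nat.lt_succ_of_le (Finset.le_sup (Finset.mem_univ y)))
  set Q : V → ℝ := fun v => ∑ k ∈ range K, 1 / (((k : ℝ) + 1) * (k + 2)) * q k v with hQ
  have hQ0 : ∀ v, 0 ≤ Q v := fun v => Finset.sum_nonneg fun k _ => mul_nonneg (by positivity) (hq0 k v)
  have hQge : ∀ y v, 1 / (((κ y : ℝ) + 1) * (κ y + 2)) * q (κ y) v ≤ Q v := fun y v =>
    Finset.single_le_sum (f := fun k : ℕ => 1 / (((k : ℝ) + 1) * (k + 2)) * q k v)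
      (fun k _ => mul_nonneg (by positivity) (hq0 k v)) (hκK y)
  have ha0 : ∀ y, m y = 0 → ∀ v, a y v = 0 := by
    intro y hy v
    have h2 := hn y
    rw [hy] at h2
    have h3 := (Finset.sum_eq_zero_iff_of_nonneg (fun v _ => sq_nonneg (a y v))).mp h2 v (Finset.mem_univ v)
    exact pow_eq_zero_iff two_ne_zero |>.mp h3
  refine ⟨Q, hQ0, ?_, ?_, ?_⟩
  · have e1 : ∑ v, Q v = ∑ k ∈ range K, 1 / (((k : ℝ) + 1) * (k + 2)) * ∑ v, q k v := by
      simp only [hQ]
      rw [Finset.sum_comm]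
      apply Finset.sum_congr rfl
      intro k _
      rw [Finset.mul_sum]
    rw [e1]
    refine (Finset.sum_le_sum fun k _ => ?_).trans (sum_wk K)
    have : (0 : ℝ) ≤ 1 / (((k : ℝ) + 1) * (k + 2)) := by positivity
    nlinarith [hq1 k]
  · intro y v hv
    rcases (h0 y).eq_or_lt with h | h
    · exact ha0 y h.symm v
    · obtain ⟨hk1, hk2⟩ := hκ y h
      apply (hq2 (κ y) y hk1 hk2).1
      have h3 := hQge y v
      rw [hv] at h3
      have h4 : 0 < 1 / (((κ y : ℝ) + 1) * (κ y + 2)) := by positivity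
      have h5 := hq0 (κ y) v
      nlinarith
  · intro y
    rcases (h0 y).eq_or_lt with h | h
    · have : ∀ v, (a y v) ^ 2 * Real.log ((a y v) ^ 2 / (m y * Q v)) = 0 := by
        intro v
        rw [ha0 y h.symm v]; simp
      simp only [this]
      simp [psi, ← h]
    · obtain ⟨hk1, hk2⟩ := hκ y h
      obtain ⟨hs, hb⟩ := hq2 (κ y) y hk1 hk2
      set w : ℝ := ((κ y : ℝ) + 1) * (κ y + 2) with hw
      have hwpos : 0 < w := by positivity
      have hpt : ∀ v, (a y v) ^ 2 * Real.log ((a y v) ^ 2 / (m y * Q v))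
          ≤ (a y v) ^ 2 * Real.log ((a y v) ^ 2 / (m y * q (κ y) v)) + (a y v) ^ 2 * Real.log w := by
        intro v
        by_cases hav : a y v = 0
        · simp [hav]
        · have hqv : 0 < q (κ y) v := lt_of_le_of_ne (hq0 _ v) (fun h' => hav (hs v h'.symm))
          have hge := hQge y v
          have hQv : 0 < Q v := lt_of_lt_of_le (by positivity) hge
          have ha2 : 0 < (a y v) ^ 2 := by positivity
          rw [← mul_add]
          apply mul_le_mul_of_nonneg_left _ ha2.le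
          rw [← Real.log_mul (by positivity) hwpos.ne']
          apply Real.log_le_log (by positivity)
          rw [div_mul_eq_mul_div, div_le_div_iff₀ (by positivity) (by positivity)]
          have h6 : q (κ y) v ≤ w * Q v := by
            rw [one_div, inv_mul_le_iff₀ hwpos] at hge
            exact hge
          have h7 : 0 ≤ (a y v) ^ 2 * m y := by positivity
          nlinarith
      refine (Finset.sum_le_sum fun v _ => hpt v).trans ?_
      rw [Finset.sum_add_distrib, ← Finset.sum_mul, hn]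
      have h8 := log_le_of_class (κ y) (m y) h hk2
      have hL : 0 ≤ Real.log (1 / m y) := Real.log_nonneg (one_le_one_div h (h1 y))
      have h9 : 1 ≤ Real.sqrt (1 + Real.log (1 / m y)) := by
        rw [Real.one_le_sqrt]; linarith
      have h10 : m y * Real.log w ≤ m y * (6 * Real.sqrt (1 + Real.log (1 / m y))) :=
        mul_le_mul_of_nonneg_left h8 h.le
      unfold psi
      have h11 : m y * 1 ≤ m y * Real.sqrt (1 + Real.log (1 / m y)) := mul_le_mul_of_nonneg_left h9 h.le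
      have h12 : 0 ≤ m y * Real.sqrt (1 + Real.log (1 / m y)) := by positivity
      have h13 : 1154 * (1 + Real.log L) * m y ≤ 1154 * (1 + Real.log L) * (m y * Real.sqrt (1 + Real.log (1 / m y))) := by
        apply mul_le_mul_of_nonneg_left _ (by positivity)
        linarith
      have h14 : 0 ≤ Real.log L * (m y * Real.sqrt (1 + Real.log (1 / m y))) := mul_nonneg hlogL h12
      nlinarith

end classes

end Pool.FEI
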