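import Pool.Agent.FEI.Dict
set_option autoImplicit false
set_option linter.unusedSectionVars false
set_option linter.unusedVariables false
namespace Pool.FEI
open Finset
variable {ι : Type} [Fintype ι] [DecidableEq ι]

/-! ## Dbl.lean (owner helper47): the doubling property replaces `Nested` in the core theorem -/

/-- distance of two subfunctions on `R` -/
noncomputable def ds (g : (ι → Bool) → ℝ) (R : Finset ι) (z z' : ι → Bool) : ℝ :=
  E (fun x => |g (mrg R x z) - g (mrg R x z')|)

/-- on every coordinate set the space of subfunctions is `L`-doubling: each set of diameter `r` is a union of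
`L` sets of diameter `r / 2` -/
def Dbl (g : (ι → Bool) → ℝ) (L : ℕ) : Prop :=
  ∀ (R : Finset ι) (r : ℝ) (Z : Finset (ι → Bool)), (∀ z ∈ Z, ∀ z' ∈ Z, ds g R z z' ≤ r) →
    ∃ κ : (ι → Bool) → Fin L, ∀ z ∈ Z, ∀ z' ∈ Z, κ z = κ z' → ds g R z z' ≤ r / 2

theorem update_mrg (R : Finset ι) (i : ι) (c : Bool) (x w : ι → Bool) :
    Function.update (mrg R x w) i c = mrg (R.erase i) x (Function.update w i c) := by
  ext j
  unfold mrg
  by_cases hj : j = i
  · subst hj
    simp
  · by_cases h1 : j ∈ R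
    · simp [hj, h1]
    · simp [hj, h1]

theorem ds_sub (g : (ι → Bool) → ℝ) (i : ι) (c : Bool) (R : Finset ι) (z z' : ι → Bool) :
    ds (sub g i c) R z z' = ds g (R.erase i) (Function.update z i c) (Function.update z' i c) := by
  unfold ds sub
  simp only [update_mrg]

theorem mrg_mrg_inter (R R0 : Finset ι) (x z z0 : ι → Bool) :
    mrg R0 (mrg R x z) z0 = mrg (R ∩ R0) x (mrg R0 z z0) := by
  ext j
  unfold mrg
  by_cases h1 : j ∈ R <;> by_cases h2 : j ∈ R0 <;> simp [h1, h2]

theorem ds_res (g : (ι → Bool) → ℝ) (R0 : Finset ι) (z0 : ι → Bool) (R : Finset ι) (z z' : ι → Bool) :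
    ds (res g R0 z0) R z z' = ds g (R ∩ R0) (mrg R0 z z0) (mrg R0 z' z0) := by
  unfold ds res
  simp only [mrg_mrg_inter]

theorem Dbl_sub (g : (ι → Bool) → ℝ) (L : ℕ) (hg : Dbl g L) (i : ι) (c : Bool) : Dbl (sub g i c) L := by
  intro R r Z hZ
  obtain ⟨κ, hκ⟩ := hg (R.erase i) r (Z.image (fun z => Function.update z i c)) (by
    intro w hw w' hw'
    obtain ⟨z, hz, rfl⟩ := Finset.mem_image.mp hw
    obtain ⟨z', hz', rfl⟩ := Finset.mem_image.mp hw'
    have := hZ z hz z' hz'
    rw [ds_sub] at this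
    exact this)
  refine ⟨fun z => κ (Function.update z i c), ?_⟩
  intro z hz z' hz' h
  rw [ds_sub]
  exact hκ _ (Finset.mem_image_of_mem _ hz) _ (Finset.mem_image_of_mem _ hz') h

theorem Dbl_res (g : (ι → Bool) → ℝ) (L : ℕ) (hg : Dbl g L) (R : Finset ι) (z : ι → Bool) :
    Dbl (res g R z) L := by
  intro R1 r Z hZ
  obtain ⟨κ, hκ⟩ := hg (R1 ∩ R) r (Z.image (fun w => mrg R w z)) (by
    intro w hw w' hw'
    obtain ⟨a, ha, rfl⟩ := Finset.mem_image.mp hw
    obtain ⟨b, hb, rfl⟩ := Finset.mem_image.mp hw'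
    have := hZ a ha b hb
    rw [ds_res] at this
    exact this)
  refine ⟨fun w => κ (mrg R w z), ?_⟩
  intro a ha b hb h
  rw [ds_res]
  exact hκ _ (Finset.mem_image_of_mem _ ha) _ (Finset.mem_image_of_mem _ hb) h

theorem ds_nested (g : (ι → Bool) → ℝ) (hg : Nested g) (R : Finset ι) (z z' : ι → Bool) :
    ds g R z z' = |E (fun x => g (mrg R x z)) - E (fun x => g (mrg R x z'))| := by
  unfold ds
  rcases hg R z z' with h | h
  · have h1 : ∀ x, |g (mrg R x z) - g (mrg R x z')| = g (mrg R x z') - g (mrg R x z) := by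
      intro x
      rw [abs_sub_comm, abs_of_nonneg (by linarith [h x])]
    rw [E_congr h1, E_sub, abs_sub_comm, abs_of_nonneg]
    have := E_mono h
    linarith
  · have h1 : ∀ x, |g (mrg R x z) - g (mrg R x z')| = g (mrg R x z) - g (mrg R x z') := by
      intro x
      rw [abs_of_nonneg (by linarith [h x])]
    rw [E_congr h1, E_sub, abs_of_nonneg]
    have := E_mono h
    linarith

/-- for nested functions `ds g R z z' = |E (res g R z) - E (res g R z')|`, so a set of diameter `r` is split at its midpoint -/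
theorem Dbl_of_nested (g : (ι → Bool) → ℝ) (hg : Nested g) : Dbl g 2 := by
  intro R r Z hZ
  rcases Z.eq_empty_or_nonempty with h0 | hne
  · subst h0
    exact ⟨fun _ => 0, by simp⟩
  · obtain ⟨w, hw, hmin⟩ := Finset.exists_min_image Z (fun z => E (fun x => g (mrg R x z))) hne
    refine ⟨fun z => if E (fun x => g (mrg R x z)) ≤ E (fun x => g (mrg R x w)) + r / 2 then 0 else 1, ?_⟩
    intro z hz z' hz' h
    have h1 := hmin z hz
    have h2 := hmin z' hz'
    have h3 := hZ z hz w hw
    have h4 := hZ z' hz' w hw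
    rw [ds_nested g hg] at h3 h4 ⊢
    rw [abs_le] at h3 h4 ⊢
    simp only at h h1 h2
    by_cases c1 : E (fun x => g (mrg R x z)) ≤ E (fun x => g (mrg R x w)) + r / 2
    · by_cases c2 : E (fun x => g (mrg R x z')) ≤ E (fun x => g (mrg R x w)) + r / 2
      · constructor <;> linarith
      · rw [if_pos c1, if_neg c2] at h
        exact absurd h (by decide)
    · by_cases c2 : E (fun x => g (mrg R x z')) ≤ E (fun x => g (mrg R x w)) + r / 2
      · rw [if_neg c1, if_pos c2] at h
        exact absurd h (by decide)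
      · push Not at c1 c2
        constructor <;> linarith [h3.1, h3.2, h4.1, h4.2]

theorem chi_eq_one_or (S : Finset ι) (x : ι → Bool) : chi S x = 1 ∨ chi S x = -1 := by
  have h := chi_sq S x
  have h2 : (chi S x - 1) * (chi S x + 1) = 0 := by linarith [h, sq (chi S x)]
  rcases mul_eq_zero.mp h2 with h3 | h3
  · left; linarith
  · right; linarith

/-- multiplication by a parity -/
theorem Dbl_chi (h : (ι → Bool) → ℝ) (L : ℕ) (hh : Dbl h L) (T : Finset ι) : Dbl (fun x => chi T x * h x) (2 * L) := by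
  intro R r Z hZ
  have key : ∀ z z' : ι → Bool, chi (T \ R) z = chi (T \ R) z' →
      ds (fun x => chi T x * h x) R z z' = ds h R z z' := by
    intro z z' hzz
    unfold ds
    apply E_congr
    intro x
    beta_reduce
    rw [chi_mrg, chi_mrg, hzz, ← mul_sub, abs_mul]
    have h1 : |chi (T ∩ R) x * chi (T \ R) z'| = 1 := by
      rw [abs_mul]
      rcases chi_eq_one_or (T ∩ R) x with h2 | h2 <;> rcases chi_eq_one_or (T \ R) z' with h3 | h3 <;>
        rw [h2, h3] <;> norm_num
    rw [h1, one_mul]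
  have hpart : ∀ s : Fin 2, ∃ κ : (ι → Bool) → Fin L,
      ∀ z ∈ Z.filter (fun z => (if chi (T \ R) z = 1 then (0 : Fin 2) else 1) = s),
      ∀ z' ∈ Z.filter (fun z => (if chi (T \ R) z = 1 then (0 : Fin 2) else 1) = s),
        κ z = κ z' → ds h R z z' ≤ r / 2 := by
    intro s
    apply hh R r
    intro z hz z' hz'
    rw [Finset.mem_filter] at hz hz'
    rw [← key z z']
    · exact hZ z hz.1 z' hz'.1
    · have h1 := hz.2.trans hz'.2.symm
      rcases chi_eq_one_or (T \ R) z with h2 | h2 <;> rcases chi_eq_one_or (T \ R) z' with h3 | h3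
      · rw [h2, h3]
      · rw [h2, h3] at h1
        norm_num at h1
      · rw [h2, h3] at h1
        norm_num at h1
      · rw [h2, h3]
  choose κ hκ using hpart
  refine ⟨fun z => finProdFinEquiv ((if chi (T \ R) z = 1 then (0 : Fin 2) else 1),
    κ (if chi (T \ R) z = 1 then (0 : Fin 2) else 1) z), ?_⟩
  intro z hz z' hz' h1
  have h2 := finProdFinEquiv.injective h1
  rw [Prod.mk.injEq] at h2
  obtain ⟨h3, h4⟩ := h2
  have h5 : chi (T \ R) z = chi (T \ R) z' := by
    rcases chi_eq_one_or (T \ R) z with h6 | h6 <;> rcases chi_eq_one_or (T \ R) z' with h7 | h7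
    · rw [h6, h7]
    · rw [h6, h7] at h3
      norm_num at h3
    · rw [h6, h7] at h3
      norm_num at h3
    · rw [h6, h7]
  rw [key z z' h5]
  rw [← h3] at h4
  exact hκ _ z (Finset.mem_filter.mpr ⟨hz, rfl⟩) z' (Finset.mem_filter.mpr ⟨hz', h3.symm⟩) h4

end Pool.FEI
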