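import Pool.Agent.FEI.Fourier
set_option autoImplicit false
set_option linter.unusedSectionVars false
set_option linter.unusedVariables false
namespace Pool.FEI
open Finset
variable {ι : Type} [Fintype ι] [DecidableEq ι]

/-! ## Dict.lean (owner helper47): reduction for functions close to a dictator -/
/-- fixing one coordinate -/
def sub (g : (ι → Bool) → ℝ) (i : ι) (c : Bool) : (ι → Bool) → ℝ := fun x => g (Function.update x i c)

theorem PM_sub (g : (ι → Bool) → ℝ) (hg : PM g) (i : ι) (c : Bool) : PM (sub g i c) := fun x => hg _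

theorem nested_sub (g : (ι → Bool) → ℝ) (hg : Nested g) (i : ι) (c : Bool) : Nested (sub g i c) := by
  intro R z z'
  have key : ∀ x w : ι → Bool,
      Function.update (mrg R x w) i c = mrg (R.erase i) x (Function.update w i c) := by
    intro x w
    ext j
    unfold mrg
    by_cases hj : j = i
    · subst hj
      simp
    · by_cases h1 : j ∈ R
      · simp [hj, h1]
      · simp [hj, h1]
  unfold sub
  simp only [key]
  exact hg (R.erase i) (Function.update z i c) (Function.update z' i c)

theorem E_split (F : (ι → Bool) → ℝ) (i : ι) : E F = (E (sub F i false) + E (sub F i true)) / 2 := by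
  have h1 : ∀ x, sub F i false x + sub F i true x = F x + F (flip i x) := by
    intro x
    have h0 : F (Function.update x i (x i)) = F x := by rw [Function.update_eq_self]
    unfold sub flip
    by_cases hx : x i
    · rw [hx] at h0 ⊢
      rw [← h0]
      simp only [Bool.not_true]
      ring
    · have hx' : x i = false := by simpa using hx
      rw [hx'] at h0 ⊢
      rw [← h0]
      simp only [Bool.not_false]
  have h2 := E_congr h1
  rw [E_add, E_add, E_flip] at h2
  linarith

theorem loss_compl (g : (ι → Bool) → ℝ) (A : Finset ι) : loss g Aᶜ = loss g A := by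
  unfold loss
  rw [compl_compl]
  ring

/-! ### one variable inequalities for the entropy function -/

theorem eta_subadd (u v : ℝ) (hu : 0 ≤ u) (hv : 0 ≤ v) :
    Real.negMulLog (u + v) ≤ Real.negMulLog u + Real.negMulLog v := by
  unfold Real.negMulLog
  have h1 : u * Real.log u ≤ u * Real.log (u + v) := by
    rcases hu.eq_or_lt with h | h
    · rw [← h]; simp
    · exact mul_le_mul_of_nonneg_left (Real.log_le_log h (by linarith)) hu
  have h2 : v * Real.log v ≤ v * Real.log (u + v) := by
    rcases hv.eq_or_lt with h | h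
    · rw [← h]; simp
    · exact mul_le_mul_of_nonneg_left (Real.log_le_log h (by linarith)) hv
  nlinarith

theorem eta_mid (u v : ℝ) (hu : 0 ≤ u) (hv : 0 ≤ v) :
    (Real.negMulLog u + Real.negMulLog v) / 2 ≤ Real.negMulLog ((u + v) / 2) := by
  have h := Real.concaveOn_negMulLog.2 (Set.mem_Ici.mpr hu) (Set.mem_Ici.mpr hv)
    (by norm_num : (0 : ℝ) ≤ 1 / 2) (by norm_num : (0 : ℝ) ≤ 1 / 2) (by norm_num)
  simp only [smul_eq_mul] at h
  have e : 1 / 2 * u + 1 / 2 * v = (u + v) / 2 := by ring
  rw [e] at h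
  linarith

theorem eta_half (s : ℝ) (hs : 0 ≤ s) :
    2 * Real.negMulLog (s / 2) = Real.negMulLog s + s * Real.log 2 := by
  rcases hs.eq_or_lt with h | h
  · rw [← h]; simp [Real.negMulLog]
  · unfold Real.negMulLog
    rw [Real.log_div h.ne' (by norm_num)]
    ring

theorem eta_double (s : ℝ) (hs : 0 ≤ s) :
    Real.negMulLog (2 * s) / 2 = Real.negMulLog s - s * Real.log 2 := by
  rcases hs.eq_or_lt with h | h
  · rw [← h]; simp [Real.negMulLog]
  · unfold Real.negMulLog
    rw [Real.log_mul (by norm_num) h.ne']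
    ring

theorem eta_le_one_sub (x : ℝ) (hx : 0 ≤ x) : Real.negMulLog x ≤ 1 - x := by
  rcases hx.eq_or_lt with h | h
  · rw [← h]; simp
  · unfold Real.negMulLog
    have h1 := Real.one_sub_inv_le_log_of_pos h
    have h2 : x * (1 - x⁻¹) ≤ x * Real.log x := mul_le_mul_of_nonneg_left h1 hx
    have h3 : x * (1 - x⁻¹) = x - 1 := by field_simp
    linarith

theorem eta_sq_le (t : ℝ) (ht0 : 0 ≤ t) (ht1 : t ≤ 1) : Real.negMulLog (t ^ 2) ≤ 2 * t := by
  have h1 : Real.negMulLog (t ^ 2) = 2 * t * Real.negMulLog t := by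
    unfold Real.negMulLog
    rw [Real.log_pow]
    push_cast
    ring
  rw [h1]
  have h2 := eta_le_one_sub t ht0
  nlinarith

/-- the entropy defect of one pair of coefficients -/
noncomputable def dd (p q : ℝ) : ℝ :=
  Real.negMulLog (((p + q) / 2) ^ 2) + Real.negMulLog (((p - q) / 2) ^ 2)
    - (Real.negMulLog (p ^ 2) + Real.negMulLog (q ^ 2)) / 2

theorem dd_nonneg (p q : ℝ) : 0 ≤ dd p q := by
  unfold dd
  have h1 := eta_mid (p ^ 2) (q ^ 2) (sq_nonneg _) (sq_nonneg _)
  have h2 := eta_subadd (((p + q) / 2) ^ 2) (((p - q) / 2) ^ 2) (sq_nonneg _) (sq_nonneg _)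
  have e : ((p + q) / 2) ^ 2 + ((p - q) / 2) ^ 2 = (p ^ 2 + q ^ 2) / 2 := by ring
  rw [e] at h2
  linarith

theorem dd_le (p q : ℝ) : dd p q ≤ Real.log 2 * (p ^ 2 + q ^ 2) := by
  unfold dd
  have hs : 0 ≤ (p ^ 2 + q ^ 2) / 2 := by positivity
  have h1 := eta_mid (((p + q) / 2) ^ 2) (((p - q) / 2) ^ 2) (sq_nonneg _) (sq_nonneg _)
  have h2 := eta_subadd (p ^ 2) (q ^ 2) (sq_nonneg _) (sq_nonneg _)
  have e : ((p + q) / 2) ^ 2 + ((p - q) / 2) ^ 2 = (p ^ 2 + q ^ 2) / 2 := by ring
  rw [e] at h1
  have h3 := eta_half _ hs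
  have h4 := eta_double _ hs
  have e2 : 2 * ((p ^ 2 + q ^ 2) / 2) = p ^ 2 + q ^ 2 := by ring
  rw [e2] at h4
  linarith

/-! ### coefficients of the halves -/

theorem sub_indep (g : (ι → Bool) → ℝ) (i : ι) (c : Bool) (x : ι → Bool) :
    sub g i c (Function.update x i true) = sub g i c (Function.update x i false) := by
  unfold sub
  simp

theorem coef_sub_zero (g : (ι → Bool) → ℝ) (i : ι) (c : Bool) (T : Finset ι) (hi : i ∈ T) :
    coef (sub g i c) T = 0 :=
  coef_eq_zero_of_indep _ i (sub_indep g i c) T hi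

theorem coef_of_notMem (g : (ι → Bool) → ℝ) (i : ι) (T : Finset ι) (hi : i ∉ T) :
    coef g T = (coef (sub g i false) T + coef (sub g i true) T) / 2 := by
  unfold coef
  rw [E_split _ i]
  congr 2
  · apply E_congr
    intro x
    unfold sub
    beta_reduce
    rw [chi_indep T i hi]
  · apply E_congr
    intro x
    unfold sub
    beta_reduce
    rw [chi_indep T i hi]

theorem chi_single_update (i : ι) (x : ι → Bool) (c : Bool) :
    chi {i} (Function.update x i c) = if c then (-1 : ℝ) else 1 := by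
  unfold chi
  rw [Finset.prod_singleton]
  simp

theorem coef_insert (g : (ι → Bool) → ℝ) (i : ι) (T : Finset ι) (hi : i ∉ T) :
    coef g (insert i T) = (coef (sub g i false) T - coef (sub g i true) T) / 2 := by
  unfold coef
  rw [E_split _ i, sub_eq_add_neg]
  congr 2
  · apply E_congr
    intro x
    unfold sub
    beta_reduce
    rw [chi_insert i T hi, chi_indep T i hi, chi_single_update]
    simp
  · have : - E (fun x => sub g i true x * chi T x) = E (fun x => (-1) * (sub g i true x * chi T x)) := by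
      rw [E_mul_left]; ring
    rw [this]
    apply E_congr
    intro x
    unfold sub
    beta_reduce
    rw [chi_insert i T hi, chi_indep T i hi, chi_single_update]
    simp

theorem sum_sets_split (i : ι) (F : Finset ι → ℝ) :
    ∑ T : Finset ι, F T = ∑ T ∈ ((univ : Finset ι).erase i).powerset, (F T + F (insert i T)) := by
  rw [Finset.sum_add_distrib, ← Finset.sum_powerset_insert (Finset.notMem_erase i univ),
    Finset.insert_erase (Finset.mem_univ i), Finset.powerset_univ]

theorem mem_erase_powerset (i : ι) (T : Finset ι) (hT : T ∈ ((univ : Finset ι).erase i).powerset) :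
    i ∉ T := fun h => by
  have := Finset.mem_powerset.mp hT h
  simp at this

theorem ent_sub (g : (ι → Bool) → ℝ) (i : ι) (c : Bool) :
    ent (sub g i c) = ∑ T ∈ ((univ : Finset ι).erase i).powerset,
      Real.negMulLog ((coef (sub g i c) T) ^ 2) := by
  unfold ent
  rw [sum_sets_split i]
  apply Finset.sum_congr rfl
  intro T hT
  rw [coef_sub_zero g i c (insert i T) (Finset.mem_insert_self i T)]
  simp

/-- the entropy defect of the halving -/
theorem ent_defect (g : (ι → Bool) → ℝ) (i : ι) :
    ent g - (ent (sub g i false) + ent (sub g i true)) / 2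
      = ∑ T ∈ ((univ : Finset ι).erase i).powerset,
          dd (coef (sub g i false) T) (coef (sub g i true) T) := by
  rw [ent_sub, ent_sub, ← Finset.sum_add_distrib, Finset.sum_div]
  unfold ent
  rw [sum_sets_split i, ← Finset.sum_sub_distrib]
  apply Finset.sum_congr rfl
  intro T hT
  have hi := mem_erase_powerset i T hT
  rw [coef_of_notMem g i T hi, coef_insert g i T hi]
  unfold dd
  ring

theorem ent_ge_half (g : (ι → Bool) → ℝ) (i : ι) :
    (ent (sub g i false) + ent (sub g i true)) / 2 ≤ ent g := by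
  have h := ent_defect g i
  have h2 : 0 ≤ ∑ T ∈ ((univ : Finset ι).erase i).powerset,
      dd (coef (sub g i false) T) (coef (sub g i true) T) :=
    Finset.sum_nonneg fun T _ => dd_nonneg _ _
  linarith

theorem E_sq_PM (g : (ι → Bool) → ℝ) (hg : PM g) : E (fun x => g x ^ 2) = 1 := by
  have h : ∀ x, g x ^ 2 = 1 := by
    intro x
    rcases hg x with h | h <;> rw [h] <;> norm_num
  rw [E_congr h, E_const]

theorem sum_sub_sq (g : (ι → Bool) → ℝ) (hg : PM g) (i : ι) (c : Bool) :
    ∑ T ∈ ((univ : Finset ι).erase i).powerset.erase ∅, (coef (sub g i c) T) ^ 2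
      = 1 - (coef (sub g i c) ∅) ^ 2 := by
  have h1 := parseval (sub g i c)
  rw [E_sq_PM _ (PM_sub g hg i c), sum_sets_split i] at h1
  have h2 : ∑ T ∈ ((univ : Finset ι).erase i).powerset,
      ((coef (sub g i c) T) ^ 2 + (coef (sub g i c) (insert i T)) ^ 2)
      = ∑ T ∈ ((univ : Finset ι).erase i).powerset, (coef (sub g i c) T) ^ 2 := by
    apply Finset.sum_congr rfl
    intro T _
    rw [coef_sub_zero g i c (insert i T) (Finset.mem_insert_self i T)]
    ring
  rw [h2] at h1
  have h3 := Finset.add_sum_erase ((univ : Finset ι).erase i).powerset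
    (fun T => (coef (sub g i c) T) ^ 2) (Finset.empty_mem_powerset _)
  linarith

theorem coef_empty (g : (ι → Bool) → ℝ) : coef g ∅ = E g := by
  unfold coef
  apply E_congr
  intro x
  rw [chi_empty, mul_one]

theorem E_beta (g : (ι → Bool) → ℝ) (τ : ℝ) : E (fun x => (1 - τ * g x) / 2) = (1 - τ * E g) / 2 := by
  have h : ∀ x, (1 - τ * g x) / 2 = 1 / 2 - τ / 2 * g x := fun x => by ring
  rw [E_congr h, E_sub, E_const, E_mul_left]
  ring

/-- distances of the two halves to the constants `σ`, `-σ` -/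
theorem beta_split (g : (ι → Bool) → ℝ) (i : ι) (σ : ℝ) :
    E (fun x => (1 - σ * chi {i} x * g x) / 2)
      = (E (fun x => (1 - σ * sub g i false x) / 2) + E (fun x => (1 - (-σ) * sub g i true x) / 2)) / 2 := by
  rw [E_split _ i]
  congr 2
  · apply E_congr
    intro x
    unfold sub
    beta_reduce
    rw [chi_single_update]
    simp
  · apply E_congr
    intro x
    unfold sub
    beta_reduce
    rw [chi_single_update]
    simp

theorem ent_defect_le (g : (ι → Bool) → ℝ) (hg : PM g) (i : ι) (σ : ℝ) (hσ : σ = 1 ∨ σ = -1)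
    (β : ℝ) (hβ : β = E (fun x => (1 - σ * chi {i} x * g x) / 2)) (hβ1 : β ≤ 1 / 400) :
    ent g - (ent (sub g i false) + ent (sub g i true)) / 2 ≤ 14 * β := by
  rw [ent_defect]
  have hσ2 : σ * σ = 1 := by rcases hσ with h | h <;> rw [h] <;> norm_num
  set p := coef (sub g i false) ∅ with hp
  set q := coef (sub g i true) ∅ with hq
  obtain ⟨b0, hb0⟩ : ∃ b, b = E (fun x => (1 - σ * sub g i false x) / 2) := ⟨_, rfl⟩
  obtain ⟨b1, hb1⟩ : ∃ b, b = E (fun x => (1 - (-σ) * sub g i true x) / 2) := ⟨_, rfl⟩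
  have hbeta : β = (b0 + b1) / 2 := by rw [hβ, beta_split, ← hb0, ← hb1]
  have hb0n : 0 ≤ b0 := by
    rw [hb0]
    apply E_nonneg
    intro x
    rcases hσ with h | h <;> rcases PM_sub g hg i false x with h' | h' <;> rw [h, h'] <;> norm_num
  have hb1n : 0 ≤ b1 := by
    rw [hb1]
    apply E_nonneg
    intro x
    rcases hσ with h | h <;> rcases PM_sub g hg i true x with h' | h' <;> rw [h, h'] <;> norm_num
  have hp' : p = σ * (1 - 2 * b0) := by
    rw [hb0, E_beta, hp, coef_empty]
    have : σ * (1 - 2 * ((1 - σ * E (sub g i false)) / 2)) = (σ * σ) * E (sub g i false) := by ring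
    rw [this, hσ2, one_mul]
  have hq' : q = -σ * (1 - 2 * b1) := by
    rw [hb1, E_beta, hq, coef_empty]
    have : -σ * (1 - 2 * ((1 - -σ * E (sub g i true)) / 2)) = (σ * σ) * E (sub g i true) := by ring
    rw [this, hσ2, one_mul]
  have hp2 : p ^ 2 = (1 - 2 * b0) ^ 2 := by
    rw [hp', mul_pow, sq σ, hσ2, one_mul]
  have hq2 : q ^ 2 = (1 - 2 * b1) ^ 2 := by
    rw [hq', mul_pow, neg_sq, sq σ, hσ2, one_mul]
  have hb0l : b0 ≤ 1 / 200 := by linarith
  have hb1l : b1 ≤ 1 / 200 := by linarith
  -- the empty set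
  have hempty : dd p q ≤ 8 * β := by
    unfold dd
    have e1 : ((p + q) / 2) ^ 2 = |b1 - b0| ^ 2 := by
      rw [hp', hq', sq_abs]
      have : ((σ * (1 - 2 * b0) + -σ * (1 - 2 * b1)) / 2) ^ 2 = (σ * σ) * (b1 - b0) ^ 2 := by ring
      rw [this, hσ2, one_mul]
    have e2 : ((p - q) / 2) ^ 2 = (1 - 2 * β) ^ 2 := by
      rw [hp', hq', hbeta]
      have : ((σ * (1 - 2 * b0) - -σ * (1 - 2 * b1)) / 2) ^ 2
          = (σ * σ) * (1 - 2 * ((b0 + b1) / 2)) ^ 2 := by ring
      rw [this, hσ2, one_mul]
    have h3 : |b1 - b0| ≤ 2 * β := by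
      rw [abs_le]
      constructor <;> linarith
    have h4 : Real.negMulLog (|b1 - b0| ^ 2) ≤ 2 * |b1 - b0| :=
      eta_sq_le _ (abs_nonneg _) (by linarith)
    have h5 : Real.negMulLog ((1 - 2 * β) ^ 2) ≤ 1 - (1 - 2 * β) ^ 2 := eta_le_one_sub _ (sq_nonneg _)
    have h6 : 0 ≤ Real.negMulLog (p ^ 2) := by
      rw [hp2]
      apply Real.negMulLog_nonneg (sq_nonneg _)
      nlinarith
    have h7 : 0 ≤ Real.negMulLog (q ^ 2) := by
      rw [hq2]
      apply Real.negMulLog_nonneg (sq_nonneg _)
      nlinarith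
    rw [e1, e2]
    nlinarith [sq_nonneg β]
  have hmem : (∅ : Finset ι) ∈ ((univ : Finset ι).erase i).powerset := Finset.empty_mem_powerset _
  rw [← Finset.add_sum_erase _ _ hmem]
  have hrest : ∑ T ∈ (((univ : Finset ι).erase i).powerset).erase ∅,
      dd (coef (sub g i false) T) (coef (sub g i true) T)
      ≤ Real.log 2 * ((1 - p ^ 2) + (1 - q ^ 2)) := by
    have h1 : ∑ T ∈ (((univ : Finset ι).erase i).powerset).erase ∅,
        dd (coef (sub g i false) T) (coef (sub g i true) T)
        ≤ ∑ T ∈ (((univ : Finset ι).erase i).powerset).erase ∅,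
          Real.log 2 * ((coef (sub g i false) T) ^ 2 + (coef (sub g i true) T) ^ 2) :=
      Finset.sum_le_sum fun T _ => dd_le _ _
    refine le_trans h1 (le_of_eq ?_)
    rw [← Finset.mul_sum, Finset.sum_add_distrib, sum_sub_sq g hg i false, sum_sub_sq g hg i true]
  have hlog : Real.log 2 ≤ 0.6931471808 := Real.log_two_lt_d9.le
  have hlog0 : 0 ≤ Real.log 2 := Real.log_nonneg (by norm_num)
  have h8 : (1 - p ^ 2) + (1 - q ^ 2) ≤ 8 * β := by
    rw [hp2, hq2, hbeta]
    nlinarith [sq_nonneg b0, sq_nonneg b1]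
  have h9 : Real.log 2 * ((1 - p ^ 2) + (1 - q ^ 2)) ≤ 6 * β := by
    have hβ0 : 0 ≤ β := by linarith
    calc Real.log 2 * ((1 - p ^ 2) + (1 - q ^ 2)) ≤ Real.log 2 * (8 * β) :=
          mul_le_mul_of_nonneg_left h8 hlog0
      _ ≤ 0.6931471808 * (8 * β) := mul_le_mul_of_nonneg_right hlog (by linarith)
      _ ≤ 6 * β := by nlinarith
  linarith

theorem dict_loss_mem (g : (ι → Bool) → ℝ) (hg : PM g) (i : ι) (A : Finset ι) (hi : i ∈ A)
    (σ : ℝ) (hσ : σ = 1 ∨ σ = -1)
    (β : ℝ) (hβ : β = E (fun x => (1 - σ * chi {i} x * g x) / 2)) (hβ1 : β ≤ 1 / 400) :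
    loss g A ≤ (loss (sub g i false) A + loss (sub g i true) A) / 2 + 14 * β := by
  have hD := ent_defect_le g hg i σ hσ β hβ hβ1
  have key1 : ∀ (c : Bool) (y : ι → Bool), sub (res g A y) i c = res (sub g i c) A y := by
    intro c y
    funext x
    unfold sub res
    congr 1
    ext j
    unfold mrg
    by_cases hj : j = i
    · subst hj
      simp [hi]
    · simp [hj]
  have key2 : ∀ (c : Bool) (x : ι → Bool),
      res g Aᶜ (Function.update x i c) = res (sub g i c) Aᶜ x := by
    intro c x
    funext w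
    unfold sub res
    congr 1
    ext j
    unfold mrg
    by_cases hj : j = i
    · subst hj
      simp [hi]
    · simp [hj]
  have h1 : (E (fun y => ent (res (sub g i false) A y)) + E (fun y => ent (res (sub g i true) A y))) / 2
      ≤ E (fun y => ent (res g A y)) := by
    have h2 : ∀ y, (ent (res (sub g i false) A y) + ent (res (sub g i true) A y)) * (1 / 2)
        ≤ ent (res g A y) := by
      intro y
      have := ent_ge_half (res g A y) i
      rw [key1, key1] at this
      linarith
    have h3 := E_mono h2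
    rw [E_mul_right, E_add] at h3
    linarith
  have h4 : E (fun x => ent (res g Aᶜ x))
      = (E (fun x => ent (res (sub g i false) Aᶜ x)) + E (fun x => ent (res (sub g i true) Aᶜ x))) / 2 := by
    rw [E_split _ i]
    congr 2
    · apply E_congr
      intro x
      show ent (res g Aᶜ (Function.update x i false)) = _
      rw [key2]
    · apply E_congr
      intro x
      show ent (res g Aᶜ (Function.update x i true)) = _
      rw [key2]
  unfold loss
  rw [h4]
  linarith

theorem dict_loss (g : (ι → Bool) → ℝ) (hg : PM g) (i : ι) (A : Finset ι) (σ : ℝ) (hσ : σ = 1 ∨ σ = -1)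
    (β : ℝ) (hβ : β = E (fun x => (1 - σ * chi {i} x * g x) / 2)) (hβ1 : β ≤ 1 / 400) :
    loss g A ≤ (loss (sub g i false) A + loss (sub g i true) A) / 2 + 14 * β := by
  by_cases hi : i ∈ A
  · exact dict_loss_mem g hg i A hi σ hσ β hβ hβ1
  · have h := dict_loss_mem g hg i Aᶜ (Finset.mem_compl.mpr hi) σ hσ β hβ hβ1
    rw [loss_compl, loss_compl, loss_compl] at h
    exact h

end Pool.FEI
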