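import Pool.Agent.FEI.Hyper
set_option autoImplicit false
set_option linter.unusedSectionVars false
set_option linter.unusedVariables false

/-! Weak FKN theorem and the lower bound for `KK` near a dictator. -/

namespace Pool.FEI
open Finset
variable {ι : Type} [Fintype ι] [DecidableEq ι]

theorem fkn_low_eq : (univ : Finset (Finset ι)).filter (fun S => S.card ≤ 1) =
    insert ∅ ((univ : Finset ι).image (fun i => ({i} : Finset ι))) := by
  ext S
  simp only [mem_filter, mem_univ, true_and, mem_insert, mem_image]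
  constructor
  · intro h
    rcases Nat.lt_or_ge S.card 1 with h0 | h0
    · left; exact Finset.card_eq_zero.mp (by omega)
    · right
      obtain ⟨i, hi⟩ := Finset.card_eq_one.mp (le_antisymm h h0)
      exact ⟨i, hi.symm⟩
  · rintro (h | ⟨i, hi⟩)
    · subst h; simp
    · subst hi; simp

theorem fkn_sum_low (F : Finset ι → ℝ) :
    ∑ S ∈ (univ : Finset (Finset ι)).filter (fun S => S.card ≤ 1), F S = F ∅ + ∑ i : ι, F {i} := by
  rw [fkn_low_eq, Finset.sum_insert, Finset.sum_image]
  · intro i _ j _ h; exact Finset.singleton_injective h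
  · simp only [mem_image, mem_univ, true_and, not_exists]
    intro i h
    exact (Finset.singleton_ne_empty i) h

/-- affine function -/
noncomputable def affn (a : ℝ) (b : ι → ℝ) (R : Finset ι) (x : ι → Bool) : ℝ :=
  a + ∑ i ∈ R, b i * chi {i} x

theorem affn_insert (a : ℝ) (b : ι → ℝ) (R : Finset ι) (i : ι) (hi : i ∉ R) (x : ι → Bool) :
    affn a b (insert i R) x = affn a b R x + b i * chi {i} x := by
  unfold affn
  rw [Finset.sum_insert hi]; ring

theorem affn_indep (a : ℝ) (b : ι → ℝ) (R : Finset ι) (i : ι) (hi : i ∉ R) (x : ι → Bool) (c : Bool) :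
    affn a b R (Function.update x i c) = affn a b R x := by
  unfold affn
  congr 1
  apply Finset.sum_congr rfl
  intro j hj
  rw [chi_indep]
  rw [Finset.mem_singleton]
  intro h; exact hi (h ▸ hj)

theorem affn_pow_chi (a : ℝ) (b : ι → ℝ) (R : Finset ι) (i : ι) (hi : i ∉ R) (k : ℕ) :
    E (fun x => chi {i} x * affn a b R x ^ k) = 0 := by
  apply E_chi_mul_of_indep (fun x => affn a b R x ^ k) i
  intro x
  rw [affn_indep a b R i hi, affn_indep a b R i hi]

theorem affn_sq (a : ℝ) (b : ι → ℝ) (R : Finset ι) :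
    E (fun x => affn a b R x ^ 2) = a ^ 2 + ∑ i ∈ R, b i ^ 2 := by
  induction R using Finset.induction_on with
  | empty =>
    simp only [affn, Finset.sum_empty, add_zero]
    exact E_const _
  | insert i R hi ih =>
    have h1 : E (fun x => affn a b (insert i R) x ^ 2) =
        E (fun x => affn a b R x ^ 2) + (2 * b i) * E (fun x => chi {i} x * affn a b R x ^ 1) + b i ^ 2 := by
      rw [← E_mul_left, ← E_add, ← E_const (ι := ι) (b i ^ 2), ← E_add]
      apply E_congr
      intro x
      rw [affn_insert a b R i hi]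
      have := chi_sq ({i} : Finset ι) x
      linear_combination (b i ^ 2) * this
    rw [h1, affn_pow_chi a b R i hi, ih, Finset.sum_insert hi]
    ring

theorem affn_four (a : ℝ) (b : ι → ℝ) (R : Finset ι) :
    E (fun x => affn a b R x ^ 4) = 3 * (a ^ 2 + ∑ i ∈ R, b i ^ 2) ^ 2 - 2 * (a ^ 4 + ∑ i ∈ R, b i ^ 4) := by
  induction R using Finset.induction_on with
  | empty =>
    simp only [affn, Finset.sum_empty, add_zero]
    rw [E_const]; ring
  | insert i R hi ih =>
    have h1 : E (fun x => affn a b (insert i R) x ^ 4) =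
        E (fun x => affn a b R x ^ 4) + (4 * b i) * E (fun x => chi {i} x * affn a b R x ^ 3)
          + (6 * b i ^ 2) * E (fun x => affn a b R x ^ 2)
          + (4 * b i ^ 3) * E (fun x => chi {i} x * affn a b R x ^ 1) + b i ^ 4 := by
      rw [← E_mul_left, ← E_mul_left, ← E_mul_left, ← E_add, ← E_add, ← E_add,
        ← E_const (ι := ι) (b i ^ 4), ← E_add]
      apply E_congr
      intro x
      rw [affn_insert a b R i hi]
      have h2 := chi_sq ({i} : Finset ι) x
      have h3 : chi ({i} : Finset ι) x ^ 3 = chi {i} x := by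
        rw [pow_succ, h2, one_mul]
      have h4 : chi ({i} : Finset ι) x ^ 4 = 1 := by
        have : chi ({i} : Finset ι) x ^ 4 = (chi ({i} : Finset ι) x ^ 2) ^ 2 := by ring
        rw [this, h2, one_pow]
      linear_combination (6 * b i ^ 2 * affn a b R x ^ 2) * h2 + (4 * b i ^ 3 * affn a b R x) * h3
        + (b i ^ 4) * h4
    rw [h1, affn_pow_chi a b R i hi, affn_pow_chi a b R i hi, ih, affn_sq, Finset.sum_insert hi,
      Finset.sum_insert hi]
    ring

theorem E_one : E (fun _ : ι → Bool => (1 : ℝ)) = 1 := E_const 1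

theorem pm_sq {g : (ι → Bool) → ℝ} (hg : PM g) (x : ι → Bool) : g x ^ 2 = 1 := by
  rcases hg x with h | h <;> rw [h] <;> norm_num

theorem coef_zero_of_deg (d : Finset ι → ℝ) (hd : ∀ S, 1 < S.card → d S = 0) (S : Finset ι) (hS : 2 < S.card) :
    coef (fun x => (∑ T, d T * chi T x) ^ 2 - 1) S = 0 := by
  unfold coef
  have h1 : E (fun x => ((∑ T, d T * chi T x) ^ 2 - 1) * chi S x) =
      (∑ T, ∑ U, (d T * d U) * E (fun x => chi (symmDiff T U) x * chi S x)) - E (chi S) := by
    simp_rw [← E_mul_left]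
    simp_rw [← E_sum]
    rw [← E_sub]
    apply E_congr
    intro x
    rw [sub_mul, one_mul, sq, Finset.sum_mul_sum, Finset.sum_mul]
    congr 1
    apply Finset.sum_congr rfl
    intro T _
    rw [Finset.sum_mul]
    apply Finset.sum_congr rfl
    intro U _
    rw [← chi_mul]; ring
  rw [h1, E_chi, if_neg (by rintro rfl; simp at hS), sub_zero]
  apply Finset.sum_eq_zero
  intro T _
  apply Finset.sum_eq_zero
  intro U _
  by_cases hT : 1 < T.card
  · rw [hd T hT]; ring
  by_cases hU : 1 < U.card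
  · rw [hd U hU]; ring
  rw [E_chi_mul, if_neg, mul_zero]
  rintro rfl
  have h2 : (symmDiff T U).card ≤ T.card + U.card := by
    refine le_trans (Finset.card_le_card ?_) (Finset.card_union_le T U)
    intro i hi
    rw [Finset.mem_symmDiff] at hi
    rw [Finset.mem_union]
    tauto
  omega

theorem weak_fkn (g : (ι → Bool) → ℝ) (hg : PM g) :
    ∃ T0 : Finset ι, T0.card ≤ 1 ∧
      1 - (coef g T0) ^ 2 ≤ 164 * ∑ T ∈ (univ : Finset (Finset ι)).filter (fun T => 2 ≤ T.card), (coef g T) ^ 2 := by
  set L : Finset (Finset ι) := (univ : Finset (Finset ι)).filter (fun S => S.card ≤ 1) with hL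
  set w : ℝ := ∑ T ∈ (univ : Finset (Finset ι)).filter (fun T => 2 ≤ T.card), (coef g T) ^ 2 with hw
  have hw0 : 0 ≤ w := Finset.sum_nonneg fun T _ => sq_nonneg _
  have hLne : L.Nonempty := ⟨∅, by simp [hL]⟩
  obtain ⟨T0, hT0, hmax⟩ := Finset.exists_max_image L (fun S => (coef g S) ^ 2) hLne
  refine ⟨T0, by simpa [hL] using hT0, ?_⟩
  -- total mass
  have htot : ∑ S ∈ L, (coef g S) ^ 2 + w = 1 := by
    have h1 := parseval g
    have h2 : E (fun x => g x ^ 2) = 1 := by
      rw [← E_one (ι := ι)]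
      exact E_congr fun x => pm_sq hg x
    rw [h2] at h1
    rw [← h1, hw, hL, ← Finset.sum_filter_add_sum_filter_not univ (fun S : Finset ι => S.card ≤ 1)]
    congr 1
    apply Finset.sum_congr _ (fun _ _ => rfl)
    ext S
    simp only [mem_filter, mem_univ, true_and]
    omega
  -- the low degree part
  set d : Finset ι → ℝ := fun S => if S.card ≤ 1 then coef g S else 0 with hd
  set q : (ι → Bool) → ℝ := fun x => ∑ S, d S * chi S x with hq
  have hqc : ∀ S, coef q S = d S := fun S => coef_sum_chi d S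
  have hsumd : ∀ F : Finset ι → ℝ, (∀ S, ¬ S.card ≤ 1 → F S = 0) → ∑ S, F S = ∑ S ∈ L, F S := by
    intro F hF
    rw [hL, Finset.sum_filter]
    apply Finset.sum_congr rfl
    intro S _
    by_cases h : S.card ≤ 1
    · rw [if_pos h]
    · rw [if_neg h, hF S h]
  have hdd : ∑ S, d S ^ 2 = 1 - w := by
    rw [hsumd (fun S => d S ^ 2) (fun S hS => by simp [hd, hS])]
    rw [← htot, add_sub_cancel_right]
    apply Finset.sum_congr rfl
    intro S hS
    have : S.card ≤ 1 := by simpa [hL] using hS
    simp [hd, this]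
  have hq2 : E (fun x => q x ^ 2) = 1 - w := by
    rw [← parseval q, ← hdd]
    apply Finset.sum_congr rfl
    intro S _
    rw [hqc]
  have hqg : E (fun x => q x * g x) = 1 - w := by
    rw [← parseval2 q g, ← hdd]
    apply Finset.sum_congr rfl
    intro S _
    rw [hqc]
    by_cases h : S.card ≤ 1
    · simp only [hd, if_pos h]; ring
    · simp only [hd, if_neg h]; ring
  have hg2 : E (fun x => g x ^ 2) = 1 := by
    rw [← E_one (ι := ι)]
    exact E_congr fun x => pm_sq hg x
  have hm : E (fun x => (q x - g x) ^ 2) = w := by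
    have h1 : E (fun x => (q x - g x) ^ 2) = E (fun x => q x ^ 2) - 2 * E (fun x => q x * g x) + E (fun x => g x ^ 2) := by
      rw [← E_mul_left, ← E_sub, ← E_add]
      apply E_congr
      intro x; ring
    rw [h1, hq2, hqg, hg2]; ring
  have hp : E (fun x => (q x + g x) ^ 2) = 4 - 3 * w := by
    have h1 : E (fun x => (q x + g x) ^ 2) = E (fun x => q x ^ 2) + 2 * E (fun x => q x * g x) + E (fun x => g x ^ 2) := by
      rw [← E_mul_left, ← E_add, ← E_add]
      apply E_congr
      intro x; ring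
    rw [h1, hq2, hqg, hg2]; ring
  -- h = q^2 - 1
  set h : (ι → Bool) → ℝ := fun x => q x ^ 2 - 1 with hh
  have habs : (E (fun x => |h x|)) ^ 2 ≤ 4 * w := by
    have h1 : E (fun x => |h x|) = E (fun x => |q x - g x| * |q x + g x|) := by
      apply E_congr
      intro x
      rw [← abs_mul]
      congr 1
      simp only [hh]
      rw [← pm_sq hg x]; ring
    rw [h1]
    have h2 := E_mul_sq_le (fun x => |q x - g x|) (fun x => |q x + g x|)
    have h3 : E (fun x => |q x - g x| ^ 2) = w := by
      rw [← hm]; exact E_congr fun x => sq_abs _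
    have h4 : E (fun x => |q x + g x| ^ 2) = 4 - 3 * w := by
      rw [← hp]; exact E_congr fun x => sq_abs _
    rw [h3, h4] at h2
    nlinarith [h2, hw0]
  have hhyp : E (fun x => h x ^ 2) ≤ 324 * w := by
    have h1 := hyper2_deg h 2 (fun S hS => coef_zero_of_deg d (fun T hT => by
      simp only [hd]; rw [if_neg]; omega) S hS)
    have h9 : (9 : ℝ) ^ 2 = 81 := by norm_num
    rw [h9] at h1
    linarith
  -- fourth moment of q
  have hqa : ∀ x, q x = affn (coef g ∅) (fun i => coef g {i}) univ x := by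
    intro x
    simp only [hq]
    rw [hsumd (fun S => d S * chi S x) (fun S hS => by simp [hd, hS]), hL, fkn_sum_low]
    simp only [hd, affn, Finset.card_empty, Finset.card_singleton, le_refl, if_true, Nat.zero_le, chi_empty, mul_one]
  have hq4 : E (fun x => q x ^ 4) = 3 * (1 - w) ^ 2 - 2 * ∑ S ∈ L, (coef g S) ^ 4 := by
    have h1 : E (fun x => q x ^ 4) = E (fun x => affn (coef g ∅) (fun i => coef g {i}) univ x ^ 4) :=
      E_congr fun x => by rw [hqa x]
    rw [h1, affn_four]
    have h2 : 1 - w = coef g ∅ ^ 2 + ∑ i, coef g {i} ^ 2 := by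
      rw [← fkn_sum_low (fun S => coef g S ^ 2), ← hL, ← htot]; ring
    rw [h2, hL, fkn_sum_low (fun S => coef g S ^ 4)]
  have hh2 : E (fun x => h x ^ 2) = E (fun x => q x ^ 4) - 2 * E (fun x => q x ^ 2) + 1 := by
    rw [← E_mul_left, ← E_sub, ← E_one (ι := ι), ← E_add]
    apply E_congr
    intro x
    simp only [hh]; ring
  -- the maximum
  have hM : ∑ S ∈ L, (coef g S) ^ 4 ≤ coef g T0 ^ 2 * (1 - w) := by
    have h1 : 1 - w = ∑ S ∈ L, (coef g S) ^ 2 := by rw [← htot]; ring
    rw [h1, Finset.mul_sum]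
    apply Finset.sum_le_sum
    intro S hS
    have := hmax S hS
    have h2 : coef g S ^ 4 = coef g S ^ 2 * coef g S ^ 2 := by ring
    rw [h2]
    exact mul_le_mul_of_nonneg_right this (sq_nonneg _)
  have hM0 : 0 ≤ coef g T0 ^ 2 := sq_nonneg _
  rw [hh2, hq4, hq2] at hhyp
  nlinarith [hhyp, hM, hM0, hw0, sq_nonneg w]

theorem fkn_card_symmDiff (S T : Finset ι) : S.card ≤ (symmDiff T S).card + T.card := by
  have h : S ⊆ symmDiff T S ∪ T := by
    intro i hi
    rw [Finset.mem_union, Finset.mem_symmDiff]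
    by_cases h : i ∈ T
    · right; exact h
    · left; right; exact ⟨hi, h⟩
  exact le_trans (Finset.card_le_card h) (Finset.card_union_le _ _)

theorem KK_nonneg (g : (ι → Bool) → ℝ) : 0 ≤ KK g :=
  Finset.sum_nonneg fun T _ => mul_nonneg (Real.sqrt_nonneg _) (sq_nonneg _)

theorem sq_eq_one_iff_of_side {a : ℝ} (h : a ^ 2 = 1) : a = 1 ∨ a = -1 := by
  have h1 : (a - 1) * (a + 1) = 0 := by linear_combination h
  rcases mul_eq_zero.mp h1 with h2 | h2
  · left; linarith
  · right; linarith

theorem le_of_sq_le_sq_of_nonneg' {a c : ℝ} (h : a ^ 2 ≤ c ^ 2) (hc : 0 ≤ c) : a ≤ c := by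
  by_contra hlt
  push Not at hlt
  nlinarith

/-- if `g` is `β`-close to `σ chi T0`, `|T0| ≤ 1`, the remaining weight sits on high levels -/
theorem KK_lower (g : (ι → Bool) → ℝ) (hg : PM g) (T0 : Finset ι) (hT0 : T0.card ≤ 1) (σ : ℝ) (hσ : σ = 1 ∨ σ = -1)
    (β : ℝ) (hβ : β = E (fun x => (1 - σ * chi T0 x * g x) / 2)) (hβ1 : β ≤ 1 / 400) :
    β * Real.sqrt (1 + Real.log (1 / β)) ≤ 10 * KK g := by
  set b : (ι → Bool) → ℝ := fun x => (1 - σ * chi T0 x * g x) / 2 with hb
  have hs2 : σ ^ 2 = 1 := by rcases hσ with h | h <;> rw [h] <;> norm_num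
  have hb01 : ∀ x, b x = 0 ∨ b x = 1 := by
    intro x
    have h1 : (σ * chi T0 x * g x) ^ 2 = 1 := by
      have := chi_sq T0 x
      have h2 := pm_sq hg x
      calc (σ * chi T0 x * g x) ^ 2 = σ ^ 2 * chi T0 x ^ 2 * g x ^ 2 := by ring
        _ = 1 := by rw [hs2, this, h2]; norm_num
    rcases sq_eq_one_iff_of_side h1 with h | h
    · left; simp only [hb]; rw [h]; norm_num
    · right; simp only [hb]; rw [h]; norm_num
  have hb2 : ∀ x, b x ^ 2 = b x := by
    intro x
    rcases hb01 x with h | h <;> rw [h] <;> norm_num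
  have hβ0 : 0 ≤ β := by
    rw [hβ]
    apply E_nonneg
    intro x
    show 0 ≤ b x
    rcases hb01 x with h | h <;> rw [h] <;> norm_num
  have hbE : E b = β := hβ.symm
  have hmass : ∑ S, coef b S ^ 2 = β := by
    rw [parseval b, ← hbE]
    exact E_congr hb2
  rcases hβ0.eq_or_lt with hz | hpos
  · rw [← hz, zero_mul]
    have := KK_nonneg g
    linarith
  -- coefficients of g
  have hcoef : ∀ T, T ≠ T0 → coef g T ^ 2 = 4 * coef b (symmDiff T0 T) ^ 2 := by
    intro T hT
    have h1 : coef g T = σ * (E (chi (symmDiff T0 T)) - 2 * coef b (symmDiff T0 T)) := by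
      unfold coef
      rw [← E_mul_left, ← E_sub, ← E_mul_left]
      apply E_congr
      intro x
      rw [← chi_mul]
      simp only [hb]
      have h2 := chi_sq T0 x
      linear_combination (-(g x * chi T x)) * (σ ^ 2 * h2) - (g x * chi T x) * hs2
    have h3 : symmDiff T0 T ≠ ∅ := by
      intro h
      apply hT
      have := symmDiff_eq_bot.mp (show symmDiff T0 T = ⊥ from h)
      exact this.symm
    rw [h1, E_chi, if_neg h3, zero_sub]
    linear_combination (4 * coef b (symmDiff T0 T) ^ 2) * hs2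
  -- choice of K
  have hx : (1 : ℝ) ≤ 1 / (4 * β) := by
    rw [le_div_iff₀ (by linarith)]; linarith
  obtain ⟨K, hK1, hK2⟩ := exists_nat_pow_near hx (show (1 : ℝ) < 9 by norm_num)
  have hx100 : (100 : ℝ) ≤ 1 / (4 * β) := by
    rw [le_div_iff₀ (by linarith)]; linarith
  have hK : 2 ≤ K := by
    by_contra hlt
    have h1 : K + 1 ≤ 2 := by omega
    have h2 : (9 : ℝ) ^ (K + 1) ≤ 9 ^ 2 := pow_le_pow_right₀ (by norm_num) h1
    have h3 : (9 : ℝ) ^ 2 = 81 := by norm_num
    linarith
  -- level inequality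
  have hW0 := level_ineq b hb01 K
  set W : ℝ := ∑ T ∈ (univ : Finset (Finset ι)).filter (fun T => T.card ≤ K), (coef b T) ^ 2 with hWdef
  rw [hbE] at hW0
  have hWle : W ≤ β / 2 := by
    have h1 : (9 : ℝ) ^ K * β ^ 3 ≤ (β / 2) ^ 2 := by
      have h2 : (9 : ℝ) ^ K * (4 * β) ≤ 1 := by
        rwa [le_div_iff₀ (by linarith)] at hK1
      have h3 : (9 : ℝ) ^ K * β ^ 3 = (9 ^ K * (4 * β)) * (β / 2) ^ 2 := by ring
      rw [h3]
      nlinarith [sq_nonneg (β / 2)]
    exact le_of_sq_le_sq_of_nonneg' (le_trans hW0 h1) (by linarith)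
  have hhigh : ∑ S ∈ (univ : Finset (Finset ι)).filter (fun S => ¬ S.card ≤ K), (coef b S) ^ 2 = β - W := by
    rw [← hmass, ← Finset.sum_filter_add_sum_filter_not univ (fun S : Finset ι => S.card ≤ K)]
    ring
  -- KK lower bound
  have hKK : 4 * Real.sqrt K * (β - W) ≤ KK g := by
    rw [← hhigh, Finset.mul_sum]
    have h1 : KK g = ∑ T, if 2 ≤ T.card then Real.sqrt (T.card) * (coef g T) ^ 2 else 0 := by
      unfold KK; rw [Finset.sum_filter]
    have h2 : (∑ T : Finset ι, if 2 ≤ T.card then Real.sqrt (T.card) * (coef g T) ^ 2 else 0) =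
        ∑ S : Finset ι, if 2 ≤ (symmDiff T0 S).card then
          Real.sqrt ((symmDiff T0 S).card) * (coef g (symmDiff T0 S)) ^ 2 else 0 := by
      have hinv : Function.Involutive (fun S : Finset ι => symmDiff T0 S) := by
        intro S; exact symmDiff_symmDiff_cancel_left T0 S
      exact (Equiv.sum_comp hinv.toPerm
        (fun T : Finset ι => if 2 ≤ T.card then Real.sqrt (T.card) * (coef g T) ^ 2 else 0)).symm
    rw [h1, h2, Finset.sum_filter]
    apply Finset.sum_le_sum
    intro S _
    by_cases hS : S.card ≤ K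
    · rw [if_neg (not_not.mpr hS)]
      split_ifs
      · exact mul_nonneg (Real.sqrt_nonneg _) (sq_nonneg _)
      · exact le_refl _
    · rw [if_pos hS]
      have h3 := fkn_card_symmDiff S T0
      have h4 : K ≤ (symmDiff T0 S).card := by omega
      rw [if_pos (le_trans hK h4)]
      have h5 : symmDiff T0 S ≠ T0 := by
        intro h
        rw [h] at h4
        omega
      rw [hcoef _ h5, symmDiff_symmDiff_cancel_left]
      have h6 : Real.sqrt K ≤ Real.sqrt ((symmDiff T0 S).card) := Real.sqrt_le_sqrt (by exact_mod_cast h4)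
      nlinarith [sq_nonneg (coef b S), h6]
  have hlog : 1 + Real.log (1 / β) ≤ 400 * K := by
    have h1 : 1 / β = 4 * (1 / (4 * β)) := by field_simp
    have h2 : Real.log (1 / β) = Real.log 4 + Real.log (1 / (4 * β)) := by
      rw [h1, Real.log_mul (by norm_num) (by positivity)]
    have h3 : Real.log 4 ≤ 4 - 1 := Real.log_le_sub_one_of_pos (by norm_num)
    have h4 : Real.log (1 / (4 * β)) ≤ (K + 1 : ℕ) * Real.log 9 := by
      rw [← Real.log_pow]
      exact Real.log_le_log (by positivity) hK2.le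
    have h5 : Real.log 9 ≤ 9 - 1 := Real.log_le_sub_one_of_pos (by norm_num)
    have h6 : ((K + 1 : ℕ) : ℝ) * Real.log 9 ≤ (K + 1 : ℕ) * 8 :=
      mul_le_mul_of_nonneg_left (by linarith) (by positivity)
    have h7 : (2 : ℝ) ≤ K := by exact_mod_cast hK
    push_cast at h4 h6
    linarith
  have hsq : Real.sqrt (1 + Real.log (1 / β)) ≤ 20 * Real.sqrt K := by
    apply Real.sqrt_le_iff.mpr
    constructor
    · positivity
    · rw [mul_pow, Real.sq_sqrt (by positivity)]
      linarith
  have hsK : 0 ≤ Real.sqrt K := Real.sqrt_nonneg _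
  have hfin : 4 * Real.sqrt K * (β / 2) ≤ KK g := by
    refine le_trans ?_ hKK
    apply mul_le_mul_of_nonneg_left _ (by positivity)
    linarith
  have h8 : β * Real.sqrt (1 + Real.log (1 / β)) ≤ β * (20 * Real.sqrt K) :=
    mul_le_mul_of_nonneg_left hsq hβ0
  linarith

end Pool.FEI
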