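import Pool.Agent.FEI.Fourier
set_option autoImplicit false
set_option linter.unusedSectionVars false
set_option linter.unusedVariables false
namespace Pool.FEI
open Finset
variable {ι : Type} [Fintype ι] [DecidableEq ι]

/-! ## Recursion.lean (owner helper47) -/

/-- every squared coefficient of a `PM` function of at most one coordinate is zero or one -/
theorem coef_sq_of_card_le_one (g : (ι → Bool) → ℝ) (hg : PM g) (R : Finset ι) (hR : R.card ≤ 1)
    (h0 : ∀ T, ¬ T ⊆ R → coef g T = 0) (T : Finset ι) :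
    (coef g T) ^ 2 = 0 ∨ (coef g T) ^ 2 = 1 := by
  by_cases hT : T ⊆ R
  swap
  · left; rw [h0 T hT]; norm_num
  have hsum : ∀ x, g x = ∑ S ∈ R.powerset, coef g S * chi S x := by
    intro x
    rw [inversion g x]
    symm
    apply Finset.sum_subset (Finset.subset_univ _)
    intro S _ hS
    rw [h0 S (fun h => hS (Finset.mem_powerset.mpr h)), zero_mul]
  rcases Nat.le_one_iff_eq_zero_or_eq_one.mp hR with h | h
  · have hR0 : R = ∅ := Finset.card_eq_zero.mp h
    subst hR0
    have hT0 : T = ∅ := Finset.subset_empty.mp hT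
    subst hT0
    have h1 := hsum (fun _ => false)
    rw [Finset.powerset_empty, Finset.sum_singleton, chi_empty, mul_one] at h1
    right
    rw [← h1]
    rcases hg (fun _ => false) with h2 | h2 <;> rw [h2] <;> norm_num
  · obtain ⟨i, hi⟩ := Finset.card_eq_one.mp h
    subst hi
    have hpow : ({i} : Finset ι).powerset = {∅, {i}} := by
      ext S
      simp [Finset.mem_powerset, Finset.subset_singleton_iff]
    have h1 := hsum (fun _ => false)
    have h2 := hsum (fun _ => true)
    rw [hpow, Finset.sum_pair (Finset.singleton_ne_empty i).symm, chi_empty, mul_one] at h1 h2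
    have c1 : chi ({i} : Finset ι) (fun _ => false) = 1 := by simp [chi]
    have c2 : chi ({i} : Finset ι) (fun _ => true) = -1 := by simp [chi]
    rw [c1] at h1
    rw [c2] at h2
    have ha : coef g ∅ = (g (fun _ => false) + g (fun _ => true)) / 2 := by linarith
    have hb : coef g {i} = (g (fun _ => false) - g (fun _ => true)) / 2 := by linarith
    rcases Finset.subset_singleton_iff.mp hT with h3 | h3
    · rw [h3, ha]
      rcases hg (fun _ => false) with h4 | h4 <;> rcases hg (fun _ => true) with h5 | h5 <;>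
        rw [h4, h5] <;> norm_num
    · rw [h3, hb]
      rcases hg (fun _ => false) with h4 | h4 <;> rcases hg (fun _ => true) with h5 | h5 <;>
        rw [h4, h5] <;> norm_num

theorem ent_res_of_card_le_one (f : (ι → Bool) → ℝ) (hf : PM f) (R : Finset ι) (hR : R.card ≤ 1)
    (z : ι → Bool) : ent (res f R z) = 0 := by
  unfold ent
  apply Finset.sum_eq_zero
  intro T _
  have hg : PM (res f R z) := fun x => hf _
  rcases coef_sq_of_card_le_one (res f R z) hg R hR
    (fun T hT => coef_res_of_not_subset f R z T hT) T with h | h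
  · rw [h, Real.negMulLog_zero]
  · rw [h, Real.negMulLog_one]

theorem res_res (f : (ι → Bool) → ℝ) (R A : Finset ι) (hA : A ⊆ R) (z y : ι → Bool) :
    res (res f R z) A y = res f A (mrg R y z) := by
  funext x
  unfold res
  congr 1
  ext i
  unfold mrg
  by_cases h1 : i ∈ A
  · have h2 : i ∈ R := hA h1
    simp [h1, h2]
  · simp [h1]

theorem res_res_compl (f : (ι → Bool) → ℝ) (R A : Finset ι) (hA : A ⊆ R) (z y : ι → Bool) :
    res (res f R z) Aᶜ y = res f (R \ A) (mrg R y z) := by
  funext x
  unfold res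
  congr 1
  ext i
  unfold mrg
  by_cases h1 : i ∈ A
  · have h2 : i ∈ R := hA h1
    simp [h1, h2]
  · by_cases h2 : i ∈ R
    · simp [h1, h2]
    · simp [h2]

/-- averaged spectral mass of the restriction -/
theorem E_KK_res (f : (ι → Bool) → ℝ) (R : Finset ι) :
    E (fun z => KK (res f R z)) =
      ∑ S, (if 2 ≤ (S ∩ R).card then Real.sqrt ((S ∩ R).card) else 0) * (coef f S) ^ 2 := by
  unfold KK
  rw [E_sum]
  have h1 : ∀ T ∈ (univ : Finset (Finset ι)).filter (fun T => 2 ≤ T.card),
      E (fun z => Real.sqrt (T.card) * (coef (res f R z) T) ^ 2)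
        = ∑ S, if S ∩ R = T then Real.sqrt (T.card) * (coef f S) ^ 2 else 0 := by
    intro T _
    rw [E_mul_left]
    by_cases hT : T ⊆ R
    · rw [E_coef_res_sq f R T hT, Finset.mul_sum]
      apply Finset.sum_congr rfl
      intro S _
      split_ifs <;> simp
    · have h2 : ∀ z, (coef (res f R z) T) ^ 2 = 0 := by
        intro z
        rw [coef_res_of_not_subset f R z T hT]; norm_num
      rw [E_congr h2, E_const, mul_zero]
      symm
      apply Finset.sum_eq_zero
      intro S _
      rw [if_neg]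
      intro h3
      exact hT (h3 ▸ Finset.inter_subset_right)
  rw [Finset.sum_congr rfl h1, Finset.sum_comm]
  apply Finset.sum_congr rfl
  intro S _
  rw [Finset.sum_ite_eq]
  by_cases h : 2 ≤ (S ∩ R).card
  · rw [if_pos, if_pos h]
    simpa using h
  · rw [if_neg, if_neg h, zero_mul]
    simpa using h

/-- splitting the intersection -/
theorem card_inter_split (S R A : Finset ι) (hA : A ⊆ R) :
    (S ∩ A).card + (S ∩ (R \ A)).card = (S ∩ R).card := by
  rw [← Finset.card_union_of_disjoint]
  · congr 1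
    rw [← Finset.inter_union_distrib_left, Finset.union_sdiff_of_subset hA]
  · apply Finset.disjoint_of_subset_left Finset.inter_subset_right
    apply Finset.disjoint_of_subset_right Finset.inter_subset_right
    exact Finset.disjoint_sdiff

/-- the average product of the two parts -/
theorem sum_powerset_card_mul (S R : Finset ι) :
    ∑ A ∈ R.powerset, (((S ∩ A).card : ℝ) * ((S ∩ (R \ A)).card : ℝ))
      = 2 ^ R.card * (((S ∩ R).card : ℝ) * (((S ∩ R).card : ℝ) - 1) / 4) := by
  induction R using Finset.induction_on with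
  | empty => simp
  | insert i R hi ih =>
    rw [Finset.sum_powerset_insert hi, ← Finset.sum_add_distrib]
    have e1 : ∀ A ∈ R.powerset, (insert i R) \ A = insert i (R \ A) := by
      intro A hA
      rw [Finset.insert_sdiff_of_notMem]
      intro h
      exact hi (Finset.mem_powerset.mp hA h)
    have e2 : ∀ A ∈ R.powerset, (insert i R) \ (insert i A) = R \ A := by
      intro A hA
      ext j
      simp only [Finset.mem_sdiff, Finset.mem_insert, not_or]
      constructor
      · rintro ⟨h1 | h1, h2, h3⟩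
        · exact absurd h1 h2
        · exact ⟨h1, h3⟩
      · rintro ⟨h1, h2⟩
        exact ⟨Or.inr h1, fun h => hi (h ▸ h1), h2⟩
    by_cases hS : i ∈ S
    · have e3 : ∀ A ∈ R.powerset,
          (((S ∩ A).card : ℝ) * ((S ∩ ((insert i R) \ A)).card : ℝ))
            + (((S ∩ (insert i A)).card : ℝ) * ((S ∩ ((insert i R) \ (insert i A))).card : ℝ))
          = 2 * (((S ∩ A).card : ℝ) * ((S ∩ (R \ A)).card : ℝ)) + ((S ∩ R).card : ℝ) := by
        intro A hA
        have hA' := Finset.mem_powerset.mp hA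
        rw [e1 A hA, e2 A hA, Finset.inter_insert_of_mem hS, Finset.inter_insert_of_mem hS,
          Finset.card_insert_of_notMem, Finset.card_insert_of_notMem]
        · have := card_inter_split S R A hA'
          rw [← this]
          push_cast
          ring
        · intro h
          exact hi (hA' (Finset.mem_inter.mp h).2)
        · intro h
          exact hi (Finset.mem_sdiff.mp (Finset.mem_inter.mp h).2).1
      rw [Finset.sum_congr rfl e3, Finset.sum_add_distrib, ← Finset.mul_sum, ih,
        Finset.sum_const, Finset.card_powerset, nsmul_eq_mul, Finset.card_insert_of_notMem hi,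
        Finset.inter_insert_of_mem hS, Finset.card_insert_of_notMem]
      · push_cast
        ring
      · intro h
        exact hi (Finset.mem_inter.mp h).2
    · have e3 : ∀ A ∈ R.powerset,
          (((S ∩ A).card : ℝ) * ((S ∩ ((insert i R) \ A)).card : ℝ))
            + (((S ∩ (insert i A)).card : ℝ) * ((S ∩ ((insert i R) \ (insert i A))).card : ℝ))
          = 2 * (((S ∩ A).card : ℝ) * ((S ∩ (R \ A)).card : ℝ)) := by
        intro A hA
        rw [e1 A hA, e2 A hA, Finset.inter_insert_of_notMem hS, Finset.inter_insert_of_notMem hS]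
        ring
      rw [Finset.sum_congr rfl e3, ← Finset.mul_sum, ih, Finset.card_insert_of_notMem hi,
        Finset.inter_insert_of_notMem hS]
      ring

/-- the square root inequality -/
theorem sqrt_add_sqrt_ge (a b : ℕ) (k : ℕ) (hk : a + b = k) (hk1 : 1 ≤ k) :
    Real.sqrt k * (1 + (a : ℝ) * b / (k : ℝ) ^ 2) ≤ Real.sqrt a + Real.sqrt b := by
  have hk0 : (0 : ℝ) < k := by exact_mod_cast hk1
  have ha0 : (0 : ℝ) ≤ a := Nat.cast_nonneg a
  have hb0 : (0 : ℝ) ≤ b := Nat.cast_nonneg b
  have hab : (a : ℝ) + b = k := by exact_mod_cast hk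
  set u := Real.sqrt a with hu
  set v := Real.sqrt b with hv
  have hu0 : 0 ≤ u := Real.sqrt_nonneg _
  have hv0 : 0 ≤ v := Real.sqrt_nonneg _
  have hu2 : u ^ 2 = a := Real.sq_sqrt ha0
  have hv2 : v ^ 2 = b := Real.sq_sqrt hb0
  set s := u * v / k with hs
  have hs0 : 0 ≤ s := div_nonneg (mul_nonneg hu0 hv0) hk0.le
  have hs1 : s ≤ 1 / 2 := by
    rw [hs, div_le_iff₀ hk0]
    nlinarith [sq_nonneg (u - v)]
  have hs2 : (a : ℝ) * b / (k : ℝ) ^ 2 = s ^ 2 := by
    rw [hs, div_pow, mul_pow, hu2, hv2]
  have huv : u * v = s * k := by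
    rw [hs]; field_simp
  rw [hs2]
  apply le_of_sq_le_sq _ (by positivity)
  have e1 : (Real.sqrt k * (1 + s ^ 2)) ^ 2 = k * (1 + s ^ 2) ^ 2 := by
    rw [mul_pow, Real.sq_sqrt hk0.le]
  have e2 : (u + v) ^ 2 = k * (1 + 2 * s) := by
    have : (u + v) ^ 2 = u ^ 2 + v ^ 2 + 2 * (u * v) := by ring
    rw [this, hu2, hv2, huv, hab]; ring
  rw [e1, e2]
  apply mul_le_mul_of_nonneg_left _ hk0.le
  nlinarith [mul_nonneg hs0 hs0, mul_nonneg (mul_nonneg hs0 hs0) hs0]

theorem sum_potential (S R : Finset ι) :
    2 ^ R.card * (Real.sqrt ((S ∩ R).card)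
        + (if 2 ≤ (S ∩ R).card then Real.sqrt ((S ∩ R).card) else 0) / 8)
      ≤ ∑ A ∈ R.powerset, (Real.sqrt ((S ∩ A).card) + Real.sqrt ((S ∩ (R \ A)).card)) := by
  set k := (S ∩ R).card with hk
  have hN : (0 : ℝ) < 2 ^ R.card := by positivity
  rcases Nat.eq_zero_or_pos k with h0 | h0
  · rw [h0]
    simp only [Nat.cast_zero, Real.sqrt_zero]
    norm_num
    exact Finset.sum_nonneg fun A _ => add_nonneg (Real.sqrt_nonneg _) (Real.sqrt_nonneg _)
  · have hk0 : (0 : ℝ) < k := by exact_mod_cast h0
    have h1 : ∀ A ∈ R.powerset,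
        Real.sqrt k + (Real.sqrt k / (k : ℝ) ^ 2) * (((S ∩ A).card : ℝ) * ((S ∩ (R \ A)).card : ℝ))
          ≤ Real.sqrt ((S ∩ A).card) + Real.sqrt ((S ∩ (R \ A)).card) := by
      intro A hA
      refine le_trans (le_of_eq ?_) (sqrt_add_sqrt_ge _ _ k
        (card_inter_split S R A (Finset.mem_powerset.mp hA)) h0)
      ring
    refine le_trans ?_ (Finset.sum_le_sum h1)
    rw [Finset.sum_add_distrib, ← Finset.mul_sum, sum_powerset_card_mul, Finset.sum_const,
      Finset.card_powerset, nsmul_eq_mul, ← hk]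
    push_cast
    have h2 : (if 2 ≤ k then Real.sqrt k else 0) / 8
        ≤ Real.sqrt k / (k : ℝ) ^ 2 * ((k : ℝ) * ((k : ℝ) - 1) / 4) := by
      have e : Real.sqrt k / (k : ℝ) ^ 2 * ((k : ℝ) * ((k : ℝ) - 1) / 4)
          = Real.sqrt k * (((k : ℝ) - 1) / (4 * k)) := by
        field_simp
      rw [e]
      split_ifs with h
      · have h2' : (2 : ℝ) ≤ k := by exact_mod_cast h
        rw [div_eq_mul_inv]
        apply mul_le_mul_of_nonneg_left _ (Real.sqrt_nonneg _)
        rw [le_div_iff₀ (by positivity)]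
        linarith
      · have h3 : (1 : ℝ) ≤ k := by exact_mod_cast h0
        rw [zero_div]
        apply mul_nonneg (Real.sqrt_nonneg _)
        apply div_nonneg <;> linarith
    nlinarith [mul_le_mul_of_nonneg_left h2 hN.le]

/-- potential -/
noncomputable def UU (k : ℕ) : ℝ := 8 * ((k : ℝ) - Real.sqrt k)

theorem UU_nonneg (k : ℕ) : 0 ≤ UU k := by
  unfold UU
  rcases Nat.eq_zero_or_pos k with h | h
  · rw [h]; simp
  · have h1 : (1 : ℝ) ≤ k := by exact_mod_cast h
    have h2 : Real.sqrt (k : ℝ) ≤ k := Real.sqrt_le_iff.mpr ⟨by linarith, by nlinarith⟩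
    linarith

theorem UU_zero : UU 0 = 0 := by simp [UU]

theorem sum_UU (S R : Finset ι) :
    ∑ A ∈ R.powerset, (UU ((S ∩ A).card) + UU ((S ∩ (R \ A)).card))
      ≤ 2 ^ R.card * (UU ((S ∩ R).card)
        - (if 2 ≤ (S ∩ R).card then Real.sqrt ((S ∩ R).card) else 0)) := by
  have h1 : ∀ A ∈ R.powerset, UU ((S ∩ A).card) + UU ((S ∩ (R \ A)).card)
      = 8 * ((S ∩ R).card : ℝ) - 8 * (Real.sqrt ((S ∩ A).card) + Real.sqrt ((S ∩ (R \ A)).card)) := by
    intro A hA
    unfold UU
    rw [← card_inter_split S R A (Finset.mem_powerset.mp hA)]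
    push_cast
    ring
  rw [Finset.sum_congr rfl h1, Finset.sum_sub_distrib,
    ← Finset.mul_sum R.powerset (fun A => Real.sqrt ((S ∩ A).card) + Real.sqrt ((S ∩ (R \ A)).card)) 8,
    Finset.sum_const, Finset.card_powerset, nsmul_eq_mul]
  have h2 := sum_potential S R
  unfold UU
  push_cast
  linarith

theorem ent_split (C : ℝ) (f : (ι → Bool) → ℝ)
    (hloss : ∀ (R : Finset ι) (z : ι → Bool) (A : Finset ι), loss (res f R z) A ≤ C * KK (res f R z))
    (R A : Finset ι) (hA : A ⊆ R) :
    E (fun z => ent (res f R z)) ≤ E (fun z => ent (res f A z)) + E (fun z => ent (res f (R \ A) z))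
      + C * ∑ S, (if 2 ≤ (S ∩ R).card then Real.sqrt ((S ∩ R).card) else 0) * (coef f S) ^ 2 := by
  have h1 : ∀ z, ent (res f R z) - E (fun y => ent (res f A (mrg R y z)))
      - E (fun y => ent (res f (R \ A) (mrg R y z))) ≤ C * KK (res f R z) := by
    intro z
    have h2 := hloss R z A
    unfold loss at h2
    simp only [res_res f R A hA, res_res_compl f R A hA] at h2
    exact h2
  have h3 := E_mono h1
  rw [E_mul_left, E_KK_res, E_sub, E_sub,
    E_E_mrg (fun w => ent (res f A w)) R, E_E_mrg (fun w => ent (res f (R \ A) w)) R] at h3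
  linarith

theorem recursion_aux (C : ℝ) (hC : 0 ≤ C) (f : (ι → Bool) → ℝ) (hf : PM f)
    (hloss : ∀ (R : Finset ι) (z : ι → Bool) (A : Finset ι), loss (res f R z) A ≤ C * KK (res f R z))
    (n : ℕ) : ∀ R : Finset ι, R.card = n →
      E (fun z => ent (res f R z)) ≤ C * ∑ S, UU ((S ∩ R).card) * (coef f S) ^ 2 := by
  induction n using Nat.strong_induction_on with
  | _ n ih =>
  intro R hR
  rcases Nat.lt_or_ge n 2 with hn | hn
  · have h1 : ∀ z, ent (res f R z) = 0 := fun z => ent_res_of_card_le_one f hf R (by omega) z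
    rw [E_congr h1, E_const]
    apply mul_nonneg hC
    exact Finset.sum_nonneg fun S _ => mul_nonneg (UU_nonneg _) (sq_nonneg _)
  · set κ : Finset ι → ℝ := fun S => (if 2 ≤ (S ∩ R).card then Real.sqrt ((S ∩ R).card) else 0)
      with hκ
    have hκ0 : ∀ S, 0 ≤ κ S := by
      intro S
      rw [hκ]
      simp only
      split_ifs
      · exact Real.sqrt_nonneg _
      · exact le_refl _
    have hRne : R ≠ ∅ := by
      intro h
      rw [h, Finset.card_empty] at hR
      omega
    set P := (R.powerset.erase ∅).erase R with hP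
    have hRmem : R ∈ R.powerset.erase ∅ := by
      rw [Finset.mem_erase]
      exact ⟨hRne, Finset.mem_powerset_self R⟩
    have h0mem : (∅ : Finset ι) ∈ R.powerset := Finset.empty_mem_powerset R
    have hPcard : (P.card : ℝ) = 2 ^ n - 2 := by
      rw [hP, Finset.card_erase_of_mem hRmem, Finset.card_erase_of_mem h0mem, Finset.card_powerset, hR]
      have h4 : 4 ≤ 2 ^ n := by
        calc 4 = 2 ^ 2 := by norm_num
          _ ≤ 2 ^ n := Nat.pow_le_pow_right (by norm_num) hn
      have h5 : 2 ^ n - 1 - 1 + 2 = 2 ^ n := by omega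
      have h6 : ((2 ^ n - 1 - 1 : ℕ) : ℝ) + 2 = 2 ^ n := by exact_mod_cast h5
      linarith
    have hPsum : ∀ F : Finset ι → ℝ, ∑ A ∈ P, F A = ∑ A ∈ R.powerset, F A - F ∅ - F R := by
      intro F
      have h1 := Finset.add_sum_erase _ F hRmem
      have h2 := Finset.add_sum_erase _ F h0mem
      rw [hP]
      linarith
    have hstep : ∀ A ∈ P, E (fun z => ent (res f R z)) ≤
        C * ∑ S, (UU ((S ∩ A).card) + UU ((S ∩ (R \ A)).card) + κ S) * (coef f S) ^ 2 := by
      intro A hA
      rw [hP, Finset.mem_erase, Finset.mem_erase, Finset.mem_powerset] at hA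
      obtain ⟨hA1, hA2, hA3⟩ := hA
      have hlt : A.card < n := by
        rw [← hR]
        exact Finset.card_lt_card (Finset.ssubset_iff_subset_ne.mpr ⟨hA3, hA1⟩)
      have hApos : 0 < A.card := Finset.card_pos.mpr (Finset.nonempty_iff_ne_empty.mpr hA2)
      have hlt2 : (R \ A).card < n := by
        have := Finset.card_sdiff_add_card_eq_card hA3
        omega
      have h1 := ent_split C f hloss R A hA3
      have h2 := ih A.card hlt A rfl
      have h3 := ih (R \ A).card hlt2 (R \ A) rfl
      have h4 : C * ∑ S, (UU ((S ∩ A).card) + UU ((S ∩ (R \ A)).card) + κ S) * (coef f S) ^ 2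
          = C * ∑ S, UU ((S ∩ A).card) * (coef f S) ^ 2
            + C * ∑ S, UU ((S ∩ (R \ A)).card) * (coef f S) ^ 2
            + C * ∑ S, κ S * (coef f S) ^ 2 := by
        rw [← mul_add, ← mul_add, ← Finset.sum_add_distrib, ← Finset.sum_add_distrib]
        congr 1
        apply Finset.sum_congr rfl
        intro S _
        ring
      rw [h4]
      linarith
    have hsum := Finset.sum_le_sum hstep
    rw [Finset.sum_const, nsmul_eq_mul, hPcard, ← Finset.mul_sum, Finset.sum_comm] at hsum
    have hS : ∀ S : Finset ι, ∑ A ∈ P, (UU ((S ∩ A).card) + UU ((S ∩ (R \ A)).card) + κ S) * (coef f S) ^ 2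
        ≤ (2 ^ n - 2) * (UU ((S ∩ R).card) * (coef f S) ^ 2) := by
      intro S
      rw [← Finset.sum_mul, ← mul_assoc]
      apply mul_le_mul_of_nonneg_right _ (sq_nonneg _)
      rw [Finset.sum_add_distrib, Finset.sum_const, nsmul_eq_mul, hPcard,
        hPsum (fun A => UU ((S ∩ A).card) + UU ((S ∩ (R \ A)).card))]
      have h1 := sum_UU S R
      rw [hR] at h1
      simp only [Finset.inter_empty, Finset.card_empty, UU_zero, Finset.sdiff_empty,
        Finset.sdiff_self]
      have h2 := hκ0 S
      have h3 : κ S = (if 2 ≤ (S ∩ R).card then Real.sqrt ((S ∩ R).card) else 0) := rfl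
      rw [← h3] at h1
      nlinarith
    have hfin : (2 ^ n - 2) * E (fun z => ent (res f R z))
        ≤ (2 ^ n - 2) * (C * ∑ S, UU ((S ∩ R).card) * (coef f S) ^ 2) := by
      refine le_trans hsum ?_
      have h1 : ∑ S, ∑ A ∈ P, (UU ((S ∩ A).card) + UU ((S ∩ (R \ A)).card) + κ S) * (coef f S) ^ 2
          ≤ (2 ^ n - 2) * ∑ S, UU ((S ∩ R).card) * (coef f S) ^ 2 := by
        rw [Finset.mul_sum]
        exact Finset.sum_le_sum fun S _ => hS S
      have h2 := mul_le_mul_of_nonneg_left h1 hC
      linarith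
    have hpos : (0 : ℝ) < 2 ^ n - 2 := by
      have h4 : (2 : ℝ) ^ 2 ≤ 2 ^ n := pow_le_pow_right₀ (by norm_num) hn
      norm_num at h4
      linarith
    exact le_of_mul_le_mul_left hfin hpos

theorem recursion (C : ℝ) (hC : 0 ≤ C) (f : (ι → Bool) → ℝ) (hf : PM f)
    (hloss : ∀ (R : Finset ι) (z : ι → Bool) (A : Finset ι), loss (res f R z) A ≤ C * KK (res f R z)) :
    ent f ≤ 8 * C * ∑ S, ((S.card : ℝ) - Real.sqrt S.card) * (coef f S) ^ 2 := by
  have h1 := recursion_aux C hC f hf hloss (univ : Finset ι).card univ rfl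
  have h2 : ∀ z, ent (res f univ z) = ent f := by
    intro z
    congr 1
    funext x
    unfold res mrg
    simp
  rw [E_congr h2, E_const] at h1
  refine le_trans h1 (le_of_eq ?_)
  rw [mul_comm (8 : ℝ) C, mul_assoc]
  congr 1
  rw [Finset.mul_sum]
  apply Finset.sum_congr rfl
  intro S _
  rw [Finset.inter_univ]
  unfold UU
  ring

end Pool.FEI
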