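import Pool.Agent.FEI.Info
import Pool.Agent.FEI.Chain
import Pool.Agent.FEI.FKN
import Pool.Agent.FEI.Dict
import Pool.Agent.FEI.Dbl
import Pool.Agent.FEI.Recursion
set_option autoImplicit false
set_option linter.unusedSectionVars false
set_option linter.unusedVariables false

namespace Pool.FEI
open Finset

/-! ## properties of the profile `psi` -/

theorem psi_nonneg (m : ℝ) (h0 : 0 ≤ m) : 0 ≤ psi m := mul_nonneg h0 (Real.sqrt_nonneg _)

theorem psi_eq (m : ℝ) (h0 : 0 ≤ m) (h1 : m ≤ 1) :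
    psi m = Real.sqrt m * Real.sqrt (m + Real.negMulLog m) := by
  unfold psi
  rcases h0.eq_or_lt with h | h
  · rw [← h]; simp
  · have hL : 0 ≤ 1 + Real.log (1 / m) := by
      have := Real.log_nonneg (one_le_one_div h h1)
      linarith
    have e : m + Real.negMulLog m = m * (1 + Real.log (1 / m)) := by
      rw [Real.negMulLog, one_div, Real.log_inv]; ring
    rw [e, Real.sqrt_mul h0, ← mul_assoc, Real.mul_self_sqrt h0]

theorem le_psi (m : ℝ) (h0 : 0 ≤ m) (h1 : m ≤ 1) : m ≤ psi m := by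
  unfold psi
  rcases h0.eq_or_lt with h | h
  · rw [← h]; simp
  · have hL : 0 ≤ Real.log (1 / m) := Real.log_nonneg (one_le_one_div h h1)
    have h9 : 1 ≤ Real.sqrt (1 + Real.log (1 / m)) := by
      rw [Real.one_le_sqrt]; linarith
    nlinarith

theorem psi_le_one (m : ℝ) (h0 : 0 ≤ m) (h1 : m ≤ 1) : psi m ≤ 1 := by
  rcases h0.eq_or_lt with h | h
  · rw [← h]; simp [psi]
  · have hL : 0 ≤ Real.log (1 / m) := Real.log_nonneg (one_le_one_div h h1)
    have h2 : Real.log (1 / m) ≤ 1 / m - 1 := Real.log_le_sub_one_of_pos (by positivity)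
    have h3 : Real.sqrt (1 + Real.log (1 / m)) ≤ 1 / m := by
      rw [Real.sqrt_le_left (by positivity)]
      have h4 : 1 ≤ 1 / m := one_le_one_div h h1
      nlinarith
    unfold psi
    calc m * Real.sqrt (1 + Real.log (1 / m)) ≤ m * (1 / m) := mul_le_mul_of_nonneg_left h3 h0
      _ = 1 := by field_simp

/-- Jensen for `psi` -/
theorem psi_jensen {κ : Type} (s : Finset κ) (w m : κ → ℝ) (hw : ∀ k ∈ s, 0 ≤ w k) (hw1 : ∑ k ∈ s, w k = 1)
    (h0 : ∀ k ∈ s, 0 ≤ m k) (h1 : ∀ k ∈ s, m k ≤ 1) :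
    ∑ k ∈ s, w k * psi (m k) ≤ psi (∑ k ∈ s, w k * m k) := by
  have hM0 : 0 ≤ ∑ k ∈ s, w k * m k := Finset.sum_nonneg fun k hk => mul_nonneg (hw k hk) (h0 k hk)
  have hM1 : ∑ k ∈ s, w k * m k ≤ 1 := by
    rw [← hw1]
    exact Finset.sum_le_sum fun k hk => by nlinarith [hw k hk, h1 k hk]
  have hη0 : ∀ k ∈ s, 0 ≤ m k + Real.negMulLog (m k) := fun k hk =>
    add_nonneg (h0 k hk) (Real.negMulLog_nonneg (h0 k hk) (h1 k hk))
  have hJ : ∑ k ∈ s, w k * Real.negMulLog (m k) ≤ Real.negMulLog (∑ k ∈ s, w k * m k) := by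
    have := Real.concaveOn_negMulLog.le_map_sum (t := s) (w := w) (p := m) hw hw1 (fun k hk => h0 k hk)
    simpa [smul_eq_mul] using this
  have hCS := Finset.sum_mul_sq_le_sq_mul_sq s (fun k => Real.sqrt (w k * m k)) (fun k => Real.sqrt (w k * (m k + Real.negMulLog (m k))))
  have e1 : ∑ k ∈ s, Real.sqrt (w k * m k) * Real.sqrt (w k * (m k + Real.negMulLog (m k))) = ∑ k ∈ s, w k * psi (m k) := by
    apply Finset.sum_congr rfl
    intro k hk
    rw [psi_eq _ (h0 k hk) (h1 k hk), Real.sqrt_mul (hw k hk), Real.sqrt_mul (hw k hk)]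
    have := Real.mul_self_sqrt (hw k hk)
    calc Real.sqrt (w k) * Real.sqrt (m k) * (Real.sqrt (w k) * Real.sqrt (m k + Real.negMulLog (m k)))
        = (Real.sqrt (w k) * Real.sqrt (w k)) * (Real.sqrt (m k) * Real.sqrt (m k + Real.negMulLog (m k))) := by ring
      _ = _ := by rw [this]
  have e2 : ∑ k ∈ s, (Real.sqrt (w k * m k)) ^ 2 = ∑ k ∈ s, w k * m k :=
    Finset.sum_congr rfl fun k hk => Real.sq_sqrt (mul_nonneg (hw k hk) (h0 k hk))
  have e3 : ∑ k ∈ s, (Real.sqrt (w k * (m k + Real.negMulLog (m k)))) ^ 2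
      = ∑ k ∈ s, w k * m k + ∑ k ∈ s, w k * Real.negMulLog (m k) := by
    rw [← Finset.sum_add_distrib]
    apply Finset.sum_congr rfl
    intro k hk
    rw [Real.sq_sqrt (mul_nonneg (hw k hk) (hη0 k hk))]
    ring
  rw [e1, e2, e3] at hCS
  rw [psi_eq _ hM0 hM1, ← Real.sqrt_mul hM0]
  apply Real.le_sqrt_of_sq_le
  refine hCS.trans ?_
  apply mul_le_mul_of_nonneg_left _ hM0
  linarith

theorem psi_avg (a b : ℝ) (ha : 0 ≤ a) (ha1 : a ≤ 1) (hb : 0 ≤ b) (hb1 : b ≤ 1) :
    (psi a + psi b) / 2 ≤ psi ((a + b) / 2) := by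
  have := psi_jensen (univ : Finset Bool) (fun _ => 1 / 2) (fun k => if k then a else b)
    (fun k _ => by norm_num) (by simp) (fun k _ => by cases k <;> simp [ha, hb]) (fun k _ => by cases k <;> simp [ha1, hb1])
  simp only [Fintype.sum_bool, if_true, if_false, Bool.false_eq_true] at this
  have e1 : (psi a + psi b) / 2 = 1 / 2 * psi a + 1 / 2 * psi b := by ring
  have e2 : (a + b) / 2 = 1 / 2 * a + 1 / 2 * b := by ring
  rw [e1, e2]
  exact this

section cube
variable {ι : Type} [Fintype ι] [DecidableEq ι]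

theorem psi_E (m : (ι → Bool) → ℝ) (h0 : ∀ x, 0 ≤ m x) (h1 : ∀ x, m x ≤ 1) :
    E (fun x => psi (m x)) ≤ psi (E m) := by
  have := psi_jensen (univ : Finset (ι → Bool)) (fun _ => 1 / 2 ^ Fintype.card ι) m
    (fun k _ => by positivity) (by
      rw [Finset.sum_const, Finset.card_univ, Fintype.card_fun, Fintype.card_bool, nsmul_eq_mul]
      push_cast
      field_simp) (fun k _ => h0 k) (fun k _ => h1 k)
  rw [← Finset.mul_sum, ← Finset.mul_sum] at this
  have e1 : E (fun x => psi (m x)) = 1 / 2 ^ Fintype.card ι * ∑ x, psi (m x) := by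
    unfold E; ring
  have e2 : E m = 1 / 2 ^ Fintype.card ι * ∑ x, m x := by
    unfold E; ring
  rw [e1, e2]
  exact this

theorem coef_sub (g h : (ι → Bool) → ℝ) (S : Finset ι) : coef (fun x => g x - h x) S = coef g S - coef h S := by
  unfold coef
  rw [← E_sub]
  apply E_congr
  intro x
  ring

theorem E_le_one (b : (ι → Bool) → ℝ) (hb : ∀ x, b x ≤ 1) : E b ≤ 1 := by
  have := E_mono hb
  rwa [E_const] at this

theorem Dbl_pos (g : (ι → Bool) → ℝ) (L : ℕ) (h : Dbl g L) : 1 ≤ L := by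
  obtain ⟨κ, _⟩ := h ∅ 0 ∅ (by simp)
  exact lt_of_le_of_lt (Nat.zero_le _) (κ (fun _ => false)).2

/-- the bound for 0/1 valued functions with doubling spaces of subfunctions -/
theorem loss_b (b : (ι → Bool) → ℝ) (hb : ∀ x, b x = 0 ∨ b x = 1) (L : ℕ) (hN : Dbl b L) (A : Finset ι) :
    loss b A ≤ 2320 * (1 + Real.log L) * psi (E b) := by
  have hb0 : ∀ x, 0 ≤ b x := fun x => by rcases hb x with h | h <;> rw [h] <;> norm_num
  have hb1 : ∀ x, b x ≤ 1 := fun x => by rcases hb x with h | h <;> rw [h] <;> norm_num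
  have hbsq : ∀ x, b x ^ 2 = b x := fun x => by rcases hb x with h | h <;> rw [h] <;> norm_num
  have hL : 1 ≤ L := Dbl_pos b L hN
  have hLr : (1 : ℝ) ≤ L := by exact_mod_cast hL
  have hlogL : 0 ≤ Real.log L := Real.log_nonneg hLr
  have hch : ∀ R : Finset ι, ∃ Q : Finset ι → ℝ, (∀ v, 0 ≤ Q v) ∧ ∑ v, Q v ≤ 1 ∧
      (∀ y v, Q v = 0 → coef (res b R y) v = 0) ∧
      ∀ y, ∑ v, (coef (res b R y) v) ^ 2 * Real.log ((coef (res b R y) v) ^ 2 / (E (res b R y) * Q v))
        ≤ 1160 * (1 + Real.log L) * psi (E (res b R y)) := by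
    intro R
    apply chain (fun y v => coef (res b R y) v) (fun y => E (res b R y))
      (fun y => E_nonneg fun x => hb0 _) (fun y => E_le_one _ fun x => hb1 _) (ds b R) L hL (hN R)
    · intro y
      rw [parseval]
      exact E_congr fun x => hbsq _
    · intro y z
      have e1 : ∀ v, (coef (res b R y) v - coef (res b R z) v) ^ 2 = (coef (fun x => res b R y x - res b R z x) v) ^ 2 :=
        fun v => by rw [coef_sub]
      simp only [e1]
      rw [parseval]
      apply le_of_eq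
      apply E_congr
      intro x
      unfold res
      rcases hb (mrg R x y) with h2 | h2 <;> rcases hb (mrg R x z) with h3 | h3 <;> rw [h2, h3] <;> norm_num
    · intro y z
      rw [← E_add]
      apply E_mono
      intro x
      unfold res
      rcases hb (mrg R x y) with h2 | h2 <;> rcases hb (mrg R x z) with h3 | h3 <;> rw [h2, h3] <;> norm_num
  obtain ⟨Q, hQ0, hQ1, hQs, hQb⟩ := hch A
  obtain ⟨Q', hQ'0, hQ'1, hQ's, hQ'b⟩ := hch Aᶜ
  have H := info b hb A Q Q' hQ0 hQ1 (fun v hv y => hQs y v hv) hQ'0 hQ'1 (fun v hv y => hQ's y v hv)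
  have H1 : ∀ R : Finset ι, E (fun y => psi (E (res b R y))) ≤ psi (E b) := by
    intro R
    exact (psi_E _ (fun y => E_nonneg fun x => hb0 _) (fun y => E_le_one _ fun x => hb1 _)).trans
      (le_of_eq (congrArg psi (E_E_res b R)))
  have H2 := E_mono hQb
  have H3 := E_mono hQ'b
  rw [E_mul_left] at H2 H3
  have hΛ : 0 ≤ 1160 * (1 + Real.log L) := by positivity
  have H4 := mul_le_mul_of_nonneg_left (H1 A) hΛ
  have H5 := mul_le_mul_of_nonneg_left (H1 Aᶜ) hΛ
  linarith

/-! ## passing from 0/1 values to signs -/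

/-- remainder in the change of scale -/
noncomputable def rr (m : ℝ) : ℝ :=
  Real.negMulLog ((1 - 2 * m) ^ 2) - 4 * Real.negMulLog (m ^ 2) + 4 * Real.log 4 * m ^ 2

theorem negMulLog_le_one_sub (t : ℝ) (ht : 0 ≤ t) : Real.negMulLog t ≤ 1 - t := by
  rcases ht.eq_or_lt with h | h
  · rw [← h]; simp
  · have h1 := Real.log_le_sub_one_of_pos (x := 1 / t) (by positivity)
    rw [one_div, Real.log_inv] at h1
    have h2 := mul_le_mul_of_nonneg_left h1 h.le
    have h3 : t * (t⁻¹ - 1) = 1 - t := by field_simp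
    rw [h3] at h2
    rw [Real.negMulLog]
    linarith

theorem negMulLog_sq_le (m : ℝ) (h0 : 0 ≤ m) (h1 : m ≤ 1) : Real.negMulLog (m ^ 2) ≤ 2 * m := by
  have e : Real.negMulLog (m ^ 2) = 2 * m * Real.negMulLog m := by
    rw [Real.negMulLog, Real.negMulLog, Real.log_pow]; push_cast; ring
  rw [e]
  have := negMulLog_le_one_sub m h0
  have h3 := Real.negMulLog_nonneg h0 h1
  nlinarith

theorem log_four_le : Real.log 4 ≤ 3 / 2 := by
  have : (4 : ℝ) = 2 ^ 2 := by norm_num
  rw [this, Real.log_pow]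
  have := Real.log_two_lt_d9
  push_cast
  linarith

theorem rr_upper (m : ℝ) (h0 : 0 ≤ m) (h1 : m ≤ 1) : rr m ≤ 10 * m := by
  unfold rr
  have a1 : Real.negMulLog ((1 - 2 * m) ^ 2) ≤ 4 * m := by
    have := negMulLog_le_one_sub ((1 - 2 * m) ^ 2) (sq_nonneg _)
    nlinarith
  have a2 : 0 ≤ Real.negMulLog (m ^ 2) := Real.negMulLog_nonneg (by positivity) (pow_le_one₀ h0 h1)
  have a3 : 4 * Real.log 4 * m ^ 2 ≤ 6 * m := by
    have h4 := log_four_le
    have h5 : 0 ≤ Real.log 4 := Real.log_nonneg (by norm_num)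
    have h6 : m ^ 2 ≤ m := by nlinarith
    calc 4 * Real.log 4 * m ^ 2 ≤ 4 * (3 / 2) * m := by
          apply mul_le_mul (by linarith) h6 (by positivity) (by norm_num)
      _ = 6 * m := by ring
  linarith

theorem rr_lower (m : ℝ) (h0 : 0 ≤ m) (h1 : m ≤ 1) : - (8 * m) ≤ rr m := by
  unfold rr
  have a1 : 0 ≤ Real.negMulLog ((1 - 2 * m) ^ 2) := by
    apply Real.negMulLog_nonneg (sq_nonneg _)
    nlinarith
  have a2 := negMulLog_sq_le m h0 h1
  have a3 : 0 ≤ 4 * Real.log 4 * m ^ 2 := by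
    have h5 : 0 ≤ Real.log 4 := Real.log_nonneg (by norm_num)
    positivity
  linarith

theorem coef_affine (b : (ι → Bool) → ℝ) (σ : ℝ) (T : Finset ι) :
    coef (fun x => σ * (1 - 2 * b x)) T = σ * ((if T = ∅ then 1 else 0) - 2 * coef b T) := by
  unfold coef
  have h1 : ∀ x, σ * (1 - 2 * b x) * chi T x = σ * chi T x - (2 * σ) * (b x * chi T x) := by
    intro x; ring
  rw [E_congr h1, E_sub, E_mul_left, E_mul_left, E_chi]
  ring

theorem ent_affine (b : (ι → Bool) → ℝ) (hb : ∀ x, b x = 0 ∨ b x = 1) (σ : ℝ) (hσ : σ = 1 ∨ σ = -1) :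
    ent (fun x => σ * (1 - 2 * b x)) = 4 * ent b - 4 * Real.log 4 * E b + rr (E b) := by
  have hbsq : ∀ x, b x ^ 2 = b x := fun x => by rcases hb x with h | h <;> rw [h] <;> norm_num
  have hσ2 : σ ^ 2 = 1 := by rcases hσ with h | h <;> rw [h] <;> norm_num
  have hpt : ∀ T : Finset ι, Real.negMulLog ((coef (fun x => σ * (1 - 2 * b x)) T) ^ 2)
      = 4 * Real.negMulLog ((coef b T) ^ 2) - 4 * Real.log 4 * (coef b T) ^ 2 + (if T = ∅ then rr (E b) else 0) := by
    intro T
    rw [coef_affine, mul_pow, hσ2, one_mul]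
    split_ifs with h
    · rw [h, coef_empty]
      unfold rr
      ring
    · have e : (0 - 2 * coef b T) ^ 2 = 4 * (coef b T) ^ 2 := by ring
      rw [e]
      by_cases h0 : coef b T = 0
      · simp [h0]
      · have h2 : (coef b T) ^ 2 ≠ 0 := pow_ne_zero 2 h0
        rw [Real.negMulLog, Real.negMulLog, Real.log_mul (by norm_num) h2]
        ring
  unfold ent
  simp only [hpt]
  rw [Finset.sum_add_distrib, Finset.sum_sub_distrib, ← Finset.mul_sum, ← Finset.mul_sum, parseval, E_congr hbsq]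
  simp

/-- the bound for functions near a constant (no smallness needed) -/
theorem near (g : (ι → Bool) → ℝ) (hg : PM g) (L : ℕ) (hN : Dbl g L) (σ : ℝ) (hσ : σ = 1 ∨ σ = -1) (A : Finset ι)
    (β : ℝ) (hβ : β = E (fun x => (1 - σ * g x) / 2)) :
    loss g A ≤ 9280 * (1 + Real.log L) * psi β + 36 * β := by
  set b : (ι → Bool) → ℝ := fun x => (1 - σ * g x) / 2 with hbdef
  have hb : ∀ x, b x = 0 ∨ b x = 1 := by
    intro x
    simp only [hbdef]
    rcases hσ with h | h <;> rcases hg x with h' | h' <;> rw [h, h'] <;> norm_num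
  have hds : ∀ (R : Finset ι) (z z' : ι → Bool), ds b R z z' = (1 / 2) * ds g R z z' := by
    intro R z z'
    unfold ds
    rw [← E_mul_left]
    apply E_congr
    intro x
    simp only [hbdef]
    rcases hσ with h | h <;> rcases hg (mrg R x z) with h2 | h2 <;> rcases hg (mrg R x z') with h3 | h3 <;>
      rw [h, h2, h3] <;> norm_num
  have hNb : Dbl b L := by
    intro R r Z hZ
    obtain ⟨κ, hκ⟩ := hN R (2 * r) Z (by
      intro z hz z' hz'
      have := hZ z hz z' hz'
      rw [hds] at this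
      linarith)
    refine ⟨κ, fun z hz z' hz' h => ?_⟩
    have := hκ z hz z' hz' h
    rw [hds]
    linarith
  have hgb : ∀ x, g x = σ * (1 - 2 * b x) := by
    intro x
    simp only [hbdef]
    rcases hσ with h | h <;> rw [h] <;> ring
  have hgeq : g = fun x => σ * (1 - 2 * b x) := funext hgb
  have hres : ∀ (R : Finset ι) (y : ι → Bool), res g R y = fun x => σ * (1 - 2 * res b R y x) := by
    intro R y
    ext x
    exact hgb _
  have hb0 : ∀ x, 0 ≤ b x := fun x => by rcases hb x with h | h <;> rw [h] <;> norm_num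
  have hb1 : ∀ x, b x ≤ 1 := fun x => by rcases hb x with h | h <;> rw [h] <;> norm_num
  have hβb : β = E b := hβ
  have hβ0 : 0 ≤ β := hβb ▸ E_nonneg hb0
  have hβ1 : β ≤ 1 := hβb ▸ E_le_one _ hb1
  have eR : ∀ R : Finset ι, E (fun y => ent (res g R y))
      = 4 * E (fun y => ent (res b R y)) - 4 * Real.log 4 * β + E (fun y => rr (E (res b R y))) := by
    intro R
    have h1 : ∀ y, ent (res g R y) = (4 * ent (res b R y) - 4 * Real.log 4 * E (res b R y)) + rr (E (res b R y)) := by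
      intro y
      rw [hres, ent_affine (res b R y) (fun x => hb _) σ hσ]
    rw [E_congr h1, E_add, E_sub, E_mul_left, E_mul_left, E_E_res, hβb]
  have eg : ent g = 4 * ent b - 4 * Real.log 4 * β + rr β := by
    rw [hgeq, ent_affine b hb σ hσ, hβb]
  have hlow : ∀ R : Finset ι, - (8 * β) ≤ E (fun y => rr (E (res b R y))) := by
    intro R
    have h1 : ∀ y, (-8) * E (res b R y) ≤ rr (E (res b R y)) := by
      intro y
      have := rr_lower (E (res b R y)) (E_nonneg fun x => hb0 _) (E_le_one _ fun x => hb1 _)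
      linarith
    have h2 := E_mono h1
    rw [E_mul_left, E_E_res] at h2
    rw [hβb]
    linarith
  have hL := loss_b b hb L hNb A
  have h1 := hlow A
  have h2 := hlow Aᶜ
  have h3 := rr_upper β hβ0 hβ1
  have h4 := log_four_le
  unfold loss at hL ⊢
  rw [eg, eR A, eR Aᶜ]
  rw [hβb] at *
  nlinarith

theorem KK_ge (g : (ι → Bool) → ℝ) :
    ∑ T ∈ (univ : Finset (Finset ι)).filter (fun T => 2 ≤ T.card), (coef g T) ^ 2 ≤ KK g := by
  unfold KK
  apply Finset.sum_le_sum
  intro T hT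
  rw [Finset.mem_filter] at hT
  have h1 : (1 : ℝ) ≤ Real.sqrt T.card := by
    rw [Real.one_le_sqrt]
    have : (2 : ℝ) ≤ T.card := by exact_mod_cast hT.2
    linarith
  nlinarith [sq_nonneg (coef g T)]

/-- the core lemma -/
theorem core (g : (ι → Bool) → ℝ) (hg : PM g) (L : ℕ) (hN : Dbl g L) (A : Finset ι) :
    loss g A ≤ 400000000 * (1 + Real.log L) * KK g := by
  have hL : 1 ≤ L := Dbl_pos g L hN
  have hLr : (1 : ℝ) ≤ L := by exact_mod_cast hL
  have hlogL : 0 ≤ Real.log L := Real.log_nonneg hLr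
  set Λ : ℝ := 1 + Real.log L with hΛdef
  have hΛ : 1 ≤ Λ := by linarith
  set W := ∑ T ∈ (univ : Finset (Finset ι)).filter (fun T => 2 ≤ T.card), (coef g T) ^ 2 with hW
  have hWKK : W ≤ KK g := KK_ge g
  have hW0 : 0 ≤ W := Finset.sum_nonneg fun T _ => sq_nonneg _
  rcases le_or_gt (1 / 40000) W with hcase | hcase
  · have h1 := near g hg L hN 1 (Or.inl rfl) A _ rfl
    set β := E (fun x => (1 - 1 * g x) / 2) with hβ
    have hβ0 : 0 ≤ β := E_nonneg fun x => by rcases hg x with h | h <;> rw [h] <;> norm_num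
    have hβ1 : β ≤ 1 := E_le_one _ fun x => by rcases hg x with h | h <;> rw [h] <;> norm_num
    have h2 := psi_le_one β hβ0 hβ1
    have h3 : 9280 * Λ * psi β ≤ 9280 * Λ * 1 := mul_le_mul_of_nonneg_left h2 (by linarith)
    have h4 : 400000000 * Λ * (1 / 40000) ≤ 400000000 * Λ * KK g :=
      mul_le_mul_of_nonneg_left (hcase.trans hWKK) (by linarith)
    linarith
  · obtain ⟨T0, hT0, hw⟩ := weak_fkn g hg
    rw [← hW] at hw
    set σ : ℝ := if 0 ≤ coef g T0 then 1 else -1 with hσdef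
    have hσ : σ = 1 ∨ σ = -1 := by rw [hσdef]; split_ifs <;> simp
    have hσc : σ * coef g T0 = |coef g T0| := by
      rw [hσdef]; split_ifs with h
      · rw [abs_of_nonneg h, one_mul]
      · rw [abs_of_neg (not_le.mp h)]; ring
    set β := E (fun x => (1 - σ * chi T0 x * g x) / 2) with hβ
    have hβeq : β = (1 - |coef g T0|) / 2 := by
      have h1 : ∀ x, (1 - σ * chi T0 x * g x) / 2 = 1 / 2 - (σ / 2) * (g x * chi T0 x) := by intro x; ring
      rw [hβ, E_congr h1, E_sub, E_const, E_mul_left, ← hσc]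
      unfold coef
      ring
    have hcabs : |coef g T0| ≤ 1 := by
      have h1 : (coef g T0) ^ 2 ≤ 1 := by
        have h2 : ∑ S, (coef g S) ^ 2 = 1 := by
          rw [parseval]
          have h3 : ∀ x, g x ^ 2 = 1 := fun x => by rcases hg x with h | h <;> rw [h] <;> norm_num
          rw [E_congr h3, E_const]
        rw [← h2]
        exact Finset.single_le_sum (f := fun S => (coef g S) ^ 2) (fun S _ => sq_nonneg _) (Finset.mem_univ T0)
      rw [← sq_abs] at h1
      nlinarith [abs_nonneg (coef g T0)]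
    have hβ0 : 0 ≤ β := by rw [hβeq]; linarith
    have hβ1 : β ≤ 1 / 400 := by
      rw [hβeq]
      rw [← sq_abs] at hw
      nlinarith [abs_nonneg (coef g T0)]
    have hKK := KK_lower g hg T0 hT0 σ hσ β hβ hβ1
    have hpsi : psi β ≤ 10 * KK g := hKK
    have hβpsi : β ≤ psi β := le_psi β hβ0 (by linarith)
    have hKK0 : 0 ≤ KK g := hW0.trans hWKK
    have hΛpsi : Λ * psi β ≤ Λ * (10 * KK g) := mul_le_mul_of_nonneg_left hpsi (by linarith)
    have hΛKK : KK g ≤ Λ * KK g := by nlinarith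
    rcases Nat.lt_or_ge T0.card 1 with hc | hc
    · have hT : T0 = ∅ := Finset.card_eq_zero.mp (by omega)
      have hβ' : β = E (fun x => (1 - σ * g x) / 2) := by
        rw [hβ]
        apply E_congr
        intro x
        rw [hT, chi_empty]
        ring
      have h1 := near g hg L hN σ hσ A β hβ'
      nlinarith
    · obtain ⟨i, hi⟩ := Finset.card_eq_one.mp (le_antisymm hT0 hc)
      have hβ' : β = E (fun x => (1 - σ * chi {i} x * g x) / 2) := by rw [hβ, hi]
      have h1 := dict_loss g hg i A σ hσ β hβ' hβ1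
      have h2 := beta_split g i σ
      rw [← hβ'] at h2
      set β0 := E (fun x => (1 - σ * sub g i false x) / 2) with hβ0def
      set β1 := E (fun x => (1 - (-σ) * sub g i true x) / 2) with hβ1def
      have hσ' : -σ = 1 ∨ -σ = -1 := by rcases hσ with h | h <;> rw [h] <;> norm_num
      have h3 := near (sub g i false) (PM_sub g hg i false) L (Dbl_sub g L hN i false) σ hσ A β0 rfl
      have h4 := near (sub g i true) (PM_sub g hg i true) L (Dbl_sub g L hN i true) (-σ) hσ' A β1 rfl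
      have hrange : ∀ (τ : ℝ) (c : Bool) (x : ι → Bool), (τ = 1 ∨ τ = -1) →
          0 ≤ (1 - τ * sub g i c x) / 2 ∧ (1 - τ * sub g i c x) / 2 ≤ 1 := by
        intro τ c x hτ
        rcases hτ with h | h <;> rcases PM_sub g hg i c x with h' | h' <;> rw [h, h'] <;> norm_num
      have r0 : 0 ≤ β0 := E_nonneg fun x => (hrange σ false x hσ).1
      have r1 : β0 ≤ 1 := E_le_one _ fun x => (hrange σ false x hσ).2
      have r2 : 0 ≤ β1 := E_nonneg fun x => (hrange (-σ) true x hσ').1
      have r3 : β1 ≤ 1 := E_le_one _ fun x => (hrange (-σ) true x hσ').2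
      have h5 := psi_avg β0 β1 r0 r1 r2 r3
      rw [← h2] at h5
      have h6 : Λ * ((psi β0 + psi β1) / 2) ≤ Λ * psi β := mul_le_mul_of_nonneg_left h5 (by linarith)
      nlinarith

theorem PM_res (f : (ι → Bool) → ℝ) (hf : PM f) (R : Finset ι) (z : ι → Bool) : PM (res f R z) := fun x => hf _

/-- main theorem, natural logarithm -/
theorem main (f : (ι → Bool) → ℝ) (hf : PM f) (L : ℕ) (hN : Dbl f L) :
    ent f ≤ 8 * (400000000 * (1 + Real.log L)) * ∑ S, ((S.card : ℝ) - Real.sqrt S.card) * (coef f S) ^ 2 := by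
  have hL : 1 ≤ L := Dbl_pos f L hN
  have hLr : (1 : ℝ) ≤ L := by exact_mod_cast hL
  have hlogL : 0 ≤ Real.log L := Real.log_nonneg hLr
  exact recursion (400000000 * (1 + Real.log L)) (by positivity) f hf
    fun R z A => core (res f R z) (PM_res f hf R z) L (Dbl_res f L hN R z) A

end cube

end Pool.FEI
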