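import Pool.Agent.FEI.Core
import Pool.Agent.FEI.Bridge
set_option autoImplicit false
set_option linter.unusedSectionVars false
set_option linter.unusedVariables false

namespace Pool.FEI
open Finset

section cube
variable {ι : Type} [Fintype ι] [DecidableEq ι]

/-- from the potential to total influence minus variance -/
theorem potential_le (f : (ι → Bool) → ℝ) (hf : PM f) :
    ∑ S, ((S.card : ℝ) - Real.sqrt S.card) * (coef f S) ^ 2
      ≤ ∑ S, (S.card : ℝ) * (coef f S) ^ 2 - (1 - (coef f ∅) ^ 2) := by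
  have h1 : ∑ S, (coef f S) ^ 2 = 1 := by
    rw [parseval]
    have h3 : ∀ x, f x ^ 2 = 1 := fun x => by rcases hf x with h | h <;> rw [h] <;> norm_num
    rw [E_congr h3, E_const]
  have h2 : (coef f ∅) ^ 2 = ∑ S : Finset ι, if S = ∅ then (coef f S) ^ 2 else 0 := by
    rw [Finset.sum_ite_eq' Finset.univ ∅ (fun S => (coef f S) ^ 2)]
    simp
  have h4 : ∑ S, (S.card : ℝ) * (coef f S) ^ 2 - (1 - (coef f ∅) ^ 2)
      = ∑ S, ((S.card : ℝ) * (coef f S) ^ 2 - (coef f S) ^ 2 + if S = ∅ then (coef f S) ^ 2 else 0) := by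
    rw [Finset.sum_add_distrib, Finset.sum_sub_distrib, h1, ← h2]
    ring
  rw [h4]
  apply Finset.sum_le_sum
  intro S _
  split_ifs with h
  · subst h
    simp
  · have h5 : (1 : ℝ) ≤ S.card := by
      have : 1 ≤ S.card := Finset.card_pos.mpr (Finset.nonempty_iff_ne_empty.mpr h)
      exact_mod_cast this
    have h6 : 1 ≤ Real.sqrt S.card := Real.one_le_sqrt.mpr h5
    nlinarith [sq_nonneg (coef f S)]

end cube

end Pool.FEI
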