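import Pool.Agent.FEI.Base
set_option autoImplicit false
set_option linter.unusedSectionVars false
set_option linter.unusedVariables false

namespace Pool.FEI
open Finset
variable {ι : Type} [Fintype ι] [DecidableEq ι]

theorem E_add (f g : (ι → Bool) → ℝ) : E (fun x => f x + g x) = E f + E g := by
  unfold E; rw [Finset.sum_add_distrib, add_div]

theorem E_sub (f g : (ι → Bool) → ℝ) : E (fun x => f x - g x) = E f - E g := by
  unfold E; rw [Finset.sum_sub_distrib, sub_div]

theorem card_cube_pos : (0 : ℝ) < 2 ^ Fintype.card ι := by positivity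

theorem E_const (c : ℝ) : E (fun _ : ι → Bool => c) = c := by
  unfold E
  rw [Finset.sum_const, Finset.card_univ, Fintype.card_fun, Fintype.card_bool, nsmul_eq_mul]
  push_cast
  field_simp

theorem E_mul_left (c : ℝ) (f : (ι → Bool) → ℝ) : E (fun x => c * f x) = c * E f := by
  unfold E; rw [← Finset.mul_sum, mul_div_assoc]

theorem E_mul_right (c : ℝ) (f : (ι → Bool) → ℝ) : E (fun x => f x * c) = E f * c := by
  unfold E; rw [← Finset.sum_mul, div_mul_eq_mul_div]

theorem E_sum {κ : Type} (s : Finset κ) (f : κ → (ι → Bool) → ℝ) :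
    E (fun x => ∑ k ∈ s, f k x) = ∑ k ∈ s, E (f k) := by
  unfold E; rw [Finset.sum_comm, Finset.sum_div]

theorem E_mono {f g : (ι → Bool) → ℝ} (h : ∀ x, f x ≤ g x) : E f ≤ E g := by
  unfold E
  exact div_le_div_of_nonneg_right (Finset.sum_le_sum fun x _ => h x) (by positivity)

theorem E_nonneg {f : (ι → Bool) → ℝ} (h : ∀ x, 0 ≤ f x) : 0 ≤ E f := by
  unfold E
  exact div_nonneg (Finset.sum_nonneg fun x _ => h x) (by positivity)

theorem E_congr {f g : (ι → Bool) → ℝ} (h : ∀ x, f x = g x) : E f = E g := by
  have : f = g := funext h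
  rw [this]

theorem E_mul_sq_le (f g : (ι → Bool) → ℝ) :
    (E (fun x => f x * g x)) ^ 2 ≤ E (fun x => f x ^ 2) * E (fun x => g x ^ 2) := by
  unfold E
  rw [div_pow, div_mul_div_comm, ← sq]
  exact div_le_div_of_nonneg_right (Finset.sum_mul_sq_le_sq_mul_sq _ _ _) (by positivity)

theorem chi_empty (x : ι → Bool) : chi (∅ : Finset ι) x = 1 := by
  simp [chi]

theorem chi_sq (S : Finset ι) (x : ι → Bool) : chi S x ^ 2 = 1 := by
  unfold chi
  rw [← Finset.prod_pow]
  apply Finset.prod_eq_one
  intro i _
  split_ifs <;> norm_num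

theorem chi_insert (i : ι) (S : Finset ι) (hi : i ∉ S) (x : ι → Bool) :
    chi (insert i S) x = chi {i} x * chi S x := by
  unfold chi
  rw [Finset.prod_insert hi, Finset.prod_singleton]

theorem chi_eq_univ (S : Finset ι) (x : ι → Bool) :
    chi S x = ∏ i, if i ∈ S then (if x i then (-1 : ℝ) else 1) else 1 := by
  unfold chi
  rw [Finset.prod_ite_mem]
  simp

theorem chi_mul (S T : Finset ι) (x : ι → Bool) : chi S x * chi T x = chi (symmDiff S T) x := by
  rw [chi_eq_univ, chi_eq_univ, chi_eq_univ, ← Finset.prod_mul_distrib]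
  apply Finset.prod_congr rfl
  intro i _
  by_cases h1 : i ∈ S <;> by_cases h2 : i ∈ T <;> by_cases h3 : x i <;>
    simp [Finset.mem_symmDiff, h1, h2, h3]

/-- flipping one coordinate -/
def flip (i : ι) (x : ι → Bool) : ι → Bool := Function.update x i (!x i)

theorem flip_flip (i : ι) (x : ι → Bool) : flip i (flip i x) = x := by
  unfold flip
  ext j
  by_cases h : j = i
  · subst h; simp
  · simp [h]

theorem E_flip (i : ι) (F : (ι → Bool) → ℝ) : E (fun x => F (flip i x)) = E F := by
  unfold E
  congr 1
  exact Equiv.sum_comp (Function.Involutive.toPerm (flip i) (flip_flip i)) F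

theorem chi_flip (i : ι) (x : ι → Bool) : chi {i} (flip i x) = - chi {i} x := by
  unfold chi flip
  rw [Finset.prod_singleton, Finset.prod_singleton]
  by_cases h : x i <;> simp [h]

theorem indep_flip (F : (ι → Bool) → ℝ) (i : ι)
    (h : ∀ x, F (Function.update x i true) = F (Function.update x i false)) (x : ι → Bool) :
    F (flip i x) = F x := by
  have h0 : F (Function.update x i (x i)) = F x := by rw [Function.update_eq_self]
  unfold flip
  by_cases hx : x i
  · rw [← h0, hx]; simpa using (h x).symm
  · have hx' : x i = false := by simpa using hx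
    rw [← h0, hx']; simpa using (h x)

theorem E_chi_mul_of_indep (F : (ι → Bool) → ℝ) (i : ι)
    (h : ∀ x, F (Function.update x i true) = F (Function.update x i false)) :
    E (fun x => chi {i} x * F x) = 0 := by
  have h1 := E_flip i (fun x => chi {i} x * F x)
  have h2 : E (fun x => chi {i} (flip i x) * F (flip i x)) = E (fun x => (-1) * (chi {i} x * F x)) := by
    apply E_congr
    intro x
    rw [chi_flip, indep_flip F i h]; ring
  rw [E_mul_left] at h2
  linarith

theorem chi_indep (S : Finset ι) (i : ι) (hi : i ∉ S) (x : ι → Bool) (b : Bool) :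
    chi S (Function.update x i b) = chi S x := by
  unfold chi
  apply Finset.prod_congr rfl
  intro k hk
  have : k ≠ i := fun h => hi (h ▸ hk)
  rw [Function.update_of_ne this]

theorem coef_eq_zero_of_indep (g : (ι → Bool) → ℝ) (i : ι)
    (h : ∀ x, g (Function.update x i true) = g (Function.update x i false))
    (S : Finset ι) (hi : i ∈ S) : coef g S = 0 := by
  have h1 := E_chi_mul_of_indep (fun x => g x * chi (S.erase i) x) i (by
    intro x
    rw [h x, chi_indep _ _ (Finset.notMem_erase i S), chi_indep _ _ (Finset.notMem_erase i S)])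
  unfold coef
  rw [← h1]
  apply E_congr
  intro x
  rw [← Finset.insert_erase hi, chi_insert i _ (Finset.notMem_erase i S)]
  simp only [Finset.erase_insert_eq_erase, Finset.erase_idem]
  ring

theorem E_chi (S : Finset ι) : E (chi S) = if S = ∅ then 1 else 0 := by
  split_ifs with h
  · subst h
    have : E (chi (∅ : Finset ι)) = E (fun _ : ι → Bool => (1 : ℝ)) := E_congr fun x => chi_empty x
    rw [this, E_const]
  · obtain ⟨i, hi⟩ := Finset.nonempty_iff_ne_empty.mpr h
    have h1 := E_chi_mul_of_indep (fun x => chi (S.erase i) x) i (by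
      intro x
      rw [chi_indep _ _ (Finset.notMem_erase i S), chi_indep _ _ (Finset.notMem_erase i S)])
    rw [← h1]
    apply E_congr
    intro x
    conv_lhs => rw [← Finset.insert_erase hi, chi_insert i _ (Finset.notMem_erase i S)]

theorem E_chi_mul (S T : Finset ι) : E (fun x => chi S x * chi T x) = if S = T then 1 else 0 := by
  have : E (fun x => chi S x * chi T x) = E (chi (symmDiff S T)) := E_congr fun x => chi_mul S T x
  rw [this, E_chi]
  by_cases h : S = T
  · subst h; simp
  · rw [if_neg h, if_neg]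
    intro h'
    exact h (symmDiff_eq_bot.mp h')

theorem sum_chi_mul (x y : ι → Bool) :
    ∑ S : Finset ι, chi S y * chi S x = if x = y then (2 : ℝ) ^ Fintype.card ι else 0 := by
  have h1 : ∑ S : Finset ι, chi S y * chi S x
      = ∏ i : ι, (1 + (if y i then (-1 : ℝ) else 1) * (if x i then (-1 : ℝ) else 1)) := by
    rw [Finset.prod_one_add, Finset.powerset_univ]
    apply Finset.sum_congr rfl
    intro S _
    unfold chi
    rw [← Finset.prod_mul_distrib]
  rw [h1]
  split_ifs with h
  · subst h
    have : ∀ i : ι, (1 + (if x i then (-1 : ℝ) else 1) * (if x i then (-1 : ℝ) else 1)) = 2 := by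
      intro i; split_ifs <;> norm_num
    simp only [this]
    rw [Finset.prod_const, Finset.card_univ]
  · obtain ⟨i, hi⟩ : ∃ i, x i ≠ y i := by
      by_contra hc
      push Not at hc
      exact h (funext hc)
    apply Finset.prod_eq_zero (Finset.mem_univ i)
    cases hx : x i <;> cases hy : y i <;> simp_all

theorem inversion (g : (ι → Bool) → ℝ) (x : ι → Bool) : g x = ∑ S, coef g S * chi S x := by
  have h1 : ∀ S : Finset ι, coef g S * chi S x = (∑ y, g y * (chi S y * chi S x)) / 2 ^ Fintype.card ι := by
    intro S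
    unfold coef E
    rw [div_mul_eq_mul_div, Finset.sum_mul]
    congr 1
    apply Finset.sum_congr rfl
    intro y _
    ring
  simp only [h1]
  rw [← Finset.sum_div, Finset.sum_comm]
  simp only [← Finset.mul_sum, sum_chi_mul]
  rw [Finset.sum_eq_single x]
  · simp
  · intro y _ hy
    rw [if_neg (Ne.symm hy), mul_zero]
  · intro h; exact absurd (Finset.mem_univ x) h

theorem parseval2 (g h : (ι → Bool) → ℝ) : ∑ S, coef g S * coef h S = E (fun x => g x * h x) := by
  have h1 : ∀ x, g x * h x = ∑ S, coef h S * (g x * chi S x) := by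
    intro x
    conv_lhs => rw [inversion h x, Finset.mul_sum]
    apply Finset.sum_congr rfl
    intro S _
    ring
  rw [E_congr h1, E_sum]
  apply Finset.sum_congr rfl
  intro S _
  rw [E_mul_left]
  unfold coef
  ring

theorem parseval (g : (ι → Bool) → ℝ) : ∑ S, (coef g S) ^ 2 = E (fun x => g x ^ 2) := by
  have := parseval2 g g
  simpa [sq] using this

theorem coef_sum_chi (c : Finset ι → ℝ) (T : Finset ι) : coef (fun x => ∑ S, c S * chi S x) T = c T := by
  unfold coef
  have h1 : ∀ x, (∑ S, c S * chi S x) * chi T x = ∑ S, c S * (chi S x * chi T x) := by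
    intro x
    rw [Finset.sum_mul]
    apply Finset.sum_congr rfl
    intro S _
    ring
  rw [E_congr h1, E_sum]
  have h2 : ∀ S : Finset ι, E (fun x => c S * (chi S x * chi T x)) = if S = T then c S else 0 := by
    intro S
    rw [E_mul_left, E_chi_mul]
    split_ifs <;> simp
  simp only [h2]
  rw [Finset.sum_ite_eq' Finset.univ T c]
  simp

theorem mrg_mrg_self (R : Finset ι) (x y : ι → Bool) : mrg R (mrg R x y) (mrg R y x) = x := by
  ext i
  unfold mrg
  by_cases h : i ∈ R <;> simp [h]

theorem E_E_mrg (F : (ι → Bool) → ℝ) (R : Finset ι) :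
    E (fun z => E (fun y => F (mrg R y z))) = E F := by
  have key : ∑ z : ι → Bool, ∑ y : ι → Bool, F (mrg R y z) = 2 ^ Fintype.card ι * ∑ x, F x := by
    have e1 : ∑ z : ι → Bool, ∑ y : ι → Bool, F (mrg R y z)
        = ∑ p : (ι → Bool) × (ι → Bool), F (mrg R p.1 p.2) := by
      rw [Fintype.sum_prod_type, Finset.sum_comm]
    have e2 : ∑ p : (ι → Bool) × (ι → Bool), F (mrg R p.1 p.2)
        = ∑ p : (ι → Bool) × (ι → Bool), F p.1 := by
      have hinv : Function.Involutive (fun p : (ι → Bool) × (ι → Bool) => (mrg R p.1 p.2, mrg R p.2 p.1)) := by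
        intro p
        simp only [mrg_mrg_self]
      exact Equiv.sum_comp (Function.Involutive.toPerm _ hinv) (fun p => F p.1)
    rw [e1, e2, Fintype.sum_prod_type]
    simp only [Finset.sum_const, Finset.card_univ, Fintype.card_fun, Fintype.card_bool, nsmul_eq_mul]
    rw [← Finset.mul_sum]
    push_cast
    ring
  unfold E
  rw [← Finset.sum_div, key]
  field_simp

theorem coef_res_of_not_subset (g : (ι → Bool) → ℝ) (R : Finset ι) (z : ι → Bool) (T : Finset ι) (hT : ¬ T ⊆ R) :
    coef (res g R z) T = 0 := by
  obtain ⟨i, hiT, hiR⟩ := Finset.not_subset.mp hT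
  apply coef_eq_zero_of_indep _ i _ T hiT
  intro x
  unfold res
  congr 1
  ext j
  unfold mrg
  by_cases h : j ∈ R
  · have : j ≠ i := fun h' => hiR (h' ▸ h)
    simp [h, Function.update_of_ne this]
  · simp [h]

theorem chi_mrg (S R : Finset ι) (x z : ι → Bool) :
    chi S (mrg R x z) = chi (S ∩ R) x * chi (S \ R) z := by
  rw [chi_eq_univ, chi_eq_univ, chi_eq_univ, ← Finset.prod_mul_distrib]
  apply Finset.prod_congr rfl
  intro i _
  unfold mrg
  by_cases h1 : i ∈ S <;> by_cases h2 : i ∈ R <;> simp [h1, h2]

theorem coef_res (g : (ι → Bool) → ℝ) (R T : Finset ι) (z : ι → Bool) :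
    coef (res g R z) T = ∑ S, if S ∩ R = T then coef g S * chi (S \ R) z else 0 := by
  have h1 : ∀ x, res g R z x * chi T x
      = ∑ S, (coef g S * chi (S \ R) z) * (chi (S ∩ R) x * chi T x) := by
    intro x
    unfold res
    conv_lhs => rw [inversion g (mrg R x z), Finset.sum_mul]
    apply Finset.sum_congr rfl
    intro S _
    rw [chi_mrg]
    ring
  unfold coef
  rw [E_congr h1, E_sum]
  apply Finset.sum_congr rfl
  intro S _
  rw [E_mul_left, E_chi_mul]
  unfold coef
  split_ifs <;> simp

theorem E_coef_res_sq (g : (ι → Bool) → ℝ) (R T : Finset ι) (hT : T ⊆ R) :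
    E (fun z => (coef (res g R z) T) ^ 2) = ∑ S, if S ∩ R = T then (coef g S) ^ 2 else 0 := by
  have h1 : ∀ z, (coef (res g R z) T) ^ 2
      = ∑ S, ∑ S', (if S ∩ R = T then (if S' ∩ R = T then (coef g S * coef g S') * (chi (S \ R) z * chi (S' \ R) z) else 0) else 0) := by
    intro z
    rw [coef_res, sq, Finset.sum_mul_sum]
    apply Finset.sum_congr rfl
    intro S _
    apply Finset.sum_congr rfl
    intro S' _
    split_ifs <;> ring
  rw [E_congr h1, E_sum]
  apply Finset.sum_congr rfl
  intro S _
  rw [E_sum]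
  by_cases hS : S ∩ R = T
  · simp only [hS, if_true]
    rw [Finset.sum_eq_single S]
    · simp only [hS, if_true]
      rw [E_mul_left, E_chi_mul]
      simp [sq]
    · intro S' _ hS'
      by_cases h2 : S' ∩ R = T
      · simp only [h2, if_true]
        rw [E_mul_left, E_chi_mul, if_neg, mul_zero]
        intro h3
        apply hS'
        rw [← Finset.sdiff_union_inter S' R, ← Finset.sdiff_union_inter S R, h2, hS, h3]
      · simp only [h2, if_false]
        exact E_const 0
    · intro h; exact absurd (Finset.mem_univ S) h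
  · simp only [hS, if_false]
    apply Finset.sum_eq_zero
    intro S' _
    exact E_const 0

end Pool.FEI
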