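import Pool.Agent.FEI.JDefs
set_option autoImplicit false
set_option linter.unusedSectionVars false
set_option linter.unusedVariables false
namespace Pool.FEI
open Finset
section cube
variable {ι : Type} [Fintype ι] [DecidableEq ι]

/-! ### M10  Rows.lean : at most `w` distinct rows -/

theorem log_bound (f : (ι → Bool) → ℝ) (hf : ∀ x, f x = 0 ∨ f x = 1) (w : ℝ) (hw : 0 < w) (Q : Finset ι → ℝ)
    (hQ : ∀ v, 0 ≤ Q v) (h : ∀ v, (coef f v) ^ 2 ≤ E f * (w * Q v)) :
    ∑ v, (coef f v) ^ 2 * Real.log ((coef f v) ^ 2 / (E f * Q v)) ≤ Real.log w * E f := by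
  have hE : 0 ≤ E f := E_nonneg fun x => by rcases hf x with h | h <;> rw [h]; norm_num
  have hsum : ∑ v, (coef f v) ^ 2 = E f := by
    rw [parseval]
    apply E_congr
    intro x
    rcases hf x with h | h <;> rw [h] <;> norm_num
  rw [← hsum, Finset.mul_sum]
  apply Finset.sum_le_sum
  intro v _
  rw [hsum]
  rcases (sq_nonneg (coef f v)).eq_or_lt with h0 | h0
  · rw [← h0]; simp
  · have h1 := h v
    have h2 : 0 < E f * (w * Q v) := lt_of_lt_of_le h0 h1
    have hE' : 0 < E f := by
      rcases hE.eq_or_lt with h | h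
      · rw [← h] at h2; simp at h2
      · exact h
    have hQ' : 0 < Q v := by
      rcases (hQ v).eq_or_lt with h | h
      · rw [← h] at h2; simp at h2
      · exact h
    have h3 : (coef f v) ^ 2 / (E f * Q v) ≤ w := by
      rw [div_le_iff₀ (by positivity)]
      linarith
    have h4 := Real.log_le_log (by positivity) h3
    rw [mul_comm (Real.log w)]
    exact mul_le_mul_of_nonneg_left h4 h0.le

theorem loss_rows (b : (ι → Bool) → ℝ) (hb : ∀ x, b x = 0 ∨ b x = 1) (A : Finset ι) (w : ℕ)
    (κ : (ι → Bool) → Fin w) (hκ : ∀ x x', κ x = κ x' → ∀ y, b (mrg A x y) = b (mrg A x' y)) :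
    loss b A ≤ 2 * Real.log w * E b := by
  classical
  have hwpos : 0 < w := Fin.pos (κ (fun _ => false))
  have hw : (0 : ℝ) < w := by exact_mod_cast hwpos
  set r : Fin w → (ι → Bool) → ℝ := fun c => if h : ∃ x, κ x = c then fun u => b (mrg A h.choose u) else fun _ => 0 with hr
  have hrow : ∀ z u, b (mrg A z u) = r (κ z) u := by
    intro z u
    have h : ∃ x, κ x = κ z := ⟨z, rfl⟩
    simp only [hr]
    rw [dif_pos h]
    exact hκ z h.choose h.choose_spec.symm u
  have hr01 : ∀ c u, r c u = 0 ∨ r c u = 1 := by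
    intro c u
    simp only [hr]
    by_cases h : ∃ x, κ x = c
    · rw [dif_pos h]; exact hb _
    · rw [dif_neg h]; exact Or.inl rfl
  have hrnn : ∀ c u, 0 ≤ r c u := fun c u => by rcases hr01 c u with h | h <;> rw [h]; norm_num
  set I : Fin w → (ι → Bool) → ℝ := fun c x => if κ x = c then 1 else 0 with hI
  have hI01 : ∀ c x, I c x = 0 ∨ I c x = 1 := fun c x => by
    simp only [hI]; split_ifs
    · exact Or.inr rfl
    · exact Or.inl rfl
  have hInn : ∀ c x, 0 ≤ I c x := fun c x => by rcases hI01 c x with h | h <;> rw [h]; norm_num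
  -- generic prior
  have prior : ∀ F : Fin w → (ι → Bool) → ℝ, (∀ c x, F c x = 0 ∨ F c x = 1) →
      (∀ v, 0 ≤ (1 / (w : ℝ)) * ∑ c, (coef (F c) v) ^ 2 / E (F c)) ∧
      ∑ v, (1 / (w : ℝ)) * ∑ c, (coef (F c) v) ^ 2 / E (F c) ≤ 1 := by
    intro F hF
    have hFE : ∀ c, 0 ≤ E (F c) := fun c => E_nonneg fun x => by rcases hF c x with h | h <;> rw [h]; norm_num
    constructor
    · intro v
      apply mul_nonneg (by positivity)
      exact Finset.sum_nonneg fun c _ => div_nonneg (sq_nonneg _) (hFE c)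
    · rw [← Finset.mul_sum, Finset.sum_comm]
      have h1 : ∀ c, ∑ v, (coef (F c) v) ^ 2 / E (F c) ≤ 1 := by
        intro c
        rw [← Finset.sum_div, parseval]
        have : E (fun x => F c x ^ 2) = E (F c) := E_congr fun x => by
          rcases hF c x with h | h <;> rw [h] <;> norm_num
        rw [this]
        exact div_self_le_one _
      have h2 := Finset.sum_le_sum fun c (_ : c ∈ (univ : Finset (Fin w))) => h1 c
      rw [Finset.sum_const, Finset.card_univ, Fintype.card_fin, nsmul_eq_mul, mul_one] at h2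
      have h3 := mul_le_mul_of_nonneg_left h2 (by positivity : 0 ≤ 1 / (w : ℝ))
      rwa [one_div_mul_cancel hw.ne'] at h3
  obtain ⟨hQ0, hQ1⟩ := prior I hI01
  obtain ⟨hR0, hR1⟩ := prior r hr01
  set Q : Finset ι → ℝ := fun v => (1 / (w : ℝ)) * ∑ c, (coef (I c) v) ^ 2 / E (I c) with hQdef
  set Q' : Finset ι → ℝ := fun v => (1 / (w : ℝ)) * ∑ c, (coef (r c) v) ^ 2 / E (r c) with hQ'def
  have hwQ : ∀ v, (w : ℝ) * Q v = ∑ c, (coef (I c) v) ^ 2 / E (I c) := by
    intro v
    simp only [hQdef]
    rw [← mul_assoc, mul_one_div_cancel hw.ne', one_mul]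
  have hwQ' : ∀ v, (w : ℝ) * Q' v = ∑ c, (coef (r c) v) ^ 2 / E (r c) := by
    intro v
    simp only [hQ'def]
    rw [← mul_assoc, mul_one_div_cancel hw.ne', one_mul]
  have hres : ∀ y x, res b A y x = ∑ c, r c y * I c x := by
    intro y x
    unfold res
    rw [hrow]
    simp only [hI, mul_ite, mul_one, mul_zero]
    rw [Finset.sum_ite_eq Finset.univ (κ x) (fun c => r c y)]
    simp
  have hcoef0 : ∀ (F : (ι → Bool) → ℝ) (hF : ∀ x, F x = 0 ∨ F x = 1) v, E F = 0 → coef F v = 0 := by
    intro F hF v h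
    have h1 : ∑ v, (coef F v) ^ 2 = 0 := by
      rw [parseval, ← h]
      apply E_congr
      intro x
      rcases hF x with h | h <;> rw [h] <;> norm_num
    have h2 := (Finset.sum_eq_zero_iff_of_nonneg (fun v _ => sq_nonneg (coef F v))).mp h1 v (Finset.mem_univ v)
    exact pow_eq_zero_iff two_ne_zero |>.mp h2
  have hA : ∀ y v, (coef (res b A y) v) ^ 2 ≤ E (res b A y) * (w * Q v) := by
    intro y v
    have h1 : coef (res b A y) v = ∑ c, r c y * coef (I c) v := by
      unfold coef
      rw [← Finset.sum_congr rfl (fun c _ => E_mul_left (r c y) (fun x => I c x * chi v x)), ← E_sum]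
      apply E_congr
      intro x
      rw [hres, Finset.sum_mul]
      apply Finset.sum_congr rfl
      intro c _
      ring
    have h2 : E (res b A y) = ∑ c, r c y * E (I c) := by
      rw [E_congr (hres y), E_sum]
      apply Finset.sum_congr rfl
      intro c _
      exact E_mul_left _ _
    rw [h1, h2, hwQ]
    have hEI : ∀ c, 0 ≤ E (I c) := fun c => E_nonneg (hInn c)
    have h3 : ∑ c, r c y * coef (I c) v
        = ∑ c, (Real.sqrt (r c y * E (I c))) * (Real.sqrt ((coef (I c) v) ^ 2 / E (I c)) * (r c y * SignType.sign (coef (I c) v))) := by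
      apply Finset.sum_congr rfl
      intro c _
      rcases hr01 c y with h | h
      · rw [h]; simp
      · rw [h]
        rcases (hEI c).eq_or_lt with h0 | h0
        · have := hcoef0 (I c) (hI01 c) v h0.symm
          rw [this]; simp
        · rw [one_mul, one_mul, one_mul, ← mul_assoc, ← Real.sqrt_mul h0.le, mul_div_cancel₀ _ h0.ne', Real.sqrt_sq_eq_abs]
          exact (abs_mul_sign _).symm
    rw [h3]
    refine (Finset.sum_mul_sq_le_sq_mul_sq _ _ _).trans ?_
    apply mul_le_mul
    · apply Finset.sum_le_sum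
      intro c _
      rw [Real.sq_sqrt (mul_nonneg (hrnn c y) (hEI c))]
    · apply Finset.sum_le_sum
      intro c _
      have hq : 0 ≤ (coef (I c) v) ^ 2 / E (I c) := div_nonneg (sq_nonneg _) (hEI c)
      rw [mul_pow, Real.sq_sqrt hq]
      have h4 : (r c y * (SignType.sign (coef (I c) v) : ℝ)) ^ 2 ≤ 1 := by
        rcases hr01 c y with h | h
        · rw [h]; norm_num
        · rw [h, one_mul]
          rcases lt_trichotomy (coef (I c) v) 0 with h' | h' | h'
          · rw [sign_neg h']; norm_num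
          · rw [h']; simp
          · rw [sign_pos h']; norm_num
      calc (coef (I c) v) ^ 2 / E (I c) * (r c y * (SignType.sign (coef (I c) v) : ℝ)) ^ 2
          ≤ (coef (I c) v) ^ 2 / E (I c) * 1 := mul_le_mul_of_nonneg_left h4 hq
        _ = _ := mul_one _
    · exact Finset.sum_nonneg fun c _ => sq_nonneg _
    · exact Finset.sum_nonneg fun c _ => mul_nonneg (hrnn c y) (hEI c)
  have hresc : ∀ z, res b Aᶜ z = r (κ z) := by
    intro z
    ext u
    rw [← hrow]
    unfold res
    congr 1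
    ext i
    unfold mrg
    by_cases h : i ∈ A <;> simp [h]
  have hB : ∀ z v, (coef (res b Aᶜ z) v) ^ 2 ≤ E (res b Aᶜ z) * (w * Q' v) := by
    intro z v
    rw [hresc, hwQ']
    have hEr : ∀ c, 0 ≤ E (r c) := fun c => E_nonneg (hrnn c)
    rcases (hEr (κ z)).eq_or_lt with h0 | h0
    · rw [hcoef0 (r (κ z)) (hr01 _) v h0.symm, ← h0]; simp
    · have h1 : (coef (r (κ z)) v) ^ 2 / E (r (κ z)) ≤ ∑ c, (coef (r c) v) ^ 2 / E (r c) :=
        Finset.single_le_sum (f := fun c => (coef (r c) v) ^ 2 / E (r c))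
          (fun c _ => div_nonneg (sq_nonneg _) (hEr c)) (Finset.mem_univ (κ z))
      have h2 := mul_le_mul_of_nonneg_left h1 h0.le
      rwa [mul_div_cancel₀ _ h0.ne'] at h2
  have h01 : ∀ R y x, res b R y x = 0 ∨ res b R y x = 1 := fun R y x => hb _
  have hsupp : ∀ (R : Finset ι) (q : Finset ι → ℝ), (∀ y v, (coef (res b R y) v) ^ 2 ≤ E (res b R y) * (w * q v)) →
      ∀ v, q v = 0 → ∀ y, coef (res b R y) v = 0 := by
    intro R q h v hv y
    have h1 := h y v
    rw [hv, mul_zero, mul_zero] at h1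
    exact pow_eq_zero_iff two_ne_zero |>.mp (le_antisymm h1 (sq_nonneg _))
  have hinfo := info b hb A Q Q' hQ0 hQ1 (hsupp A Q hA) hR0 hR1 (hsupp Aᶜ Q' hB)
  refine hinfo.trans ?_
  have e1 := E_mono fun y => log_bound (res b A y) (h01 A y) w hw Q hQ0 (hA y)
  have e2 := E_mono fun y => log_bound (res b Aᶜ y) (h01 Aᶜ y) w hw Q' hR0 (hB y)
  rw [E_mul_left, E_E_res] at e1 e2
  linarith
end cube
end Pool.FEI
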