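import Pool.Agent.FEI.TransferPt
import Pool.Agent.FEI.Rows
set_option autoImplicit false
set_option linter.unusedSectionVars false
set_option linter.unusedVariables false

namespace Pool.FEI
open Finset

section cube
variable {ι : Type} [Fintype ι] [DecidableEq ι]

theorem mrg_compl (A : Finset ι) (x y : ι → Bool) : mrg Aᶜ x y = mrg A y x := by
  ext i
  unfold mrg
  by_cases h : i ∈ A <;> simp [h]

theorem GTcut_succ (k : ℕ) (g : (ι → Bool) → ℝ) (A : Finset ι) (h : GTcut k g A) : GTcut (k + 1) g A := by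
  obtain ⟨X, Y, Φ, h⟩ := h
  refine ⟨fun i => if hi : (i : ℕ) < k then X ⟨i, hi⟩ else fun _ => 0,
    fun i => if hi : (i : ℕ) < k then Y ⟨i, hi⟩ else fun _ => 0, fun s => Φ (fun i => s i.castSucc), ?_⟩
  intro x y
  rw [h x y]
  congr 1
  ext i
  simp

theorem GTcut_compl (k : ℕ) (g : (ι → Bool) → ℝ) (A : Finset ι) (h : GTcut k g A) : GTcut k g Aᶜ := by
  obtain ⟨X, Y, Φ, h⟩ := h
  refine ⟨fun i x => - Y i x, fun i y => - X i y, Φ, ?_⟩
  intro x y
  rw [mrg_compl, h y x]
  congr 1
  ext i
  simp

theorem SI_compl (b : (ι → Bool) → ℝ) (A : Finset ι) : SI b Aᶜ = SI b A := by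
  unfold SI
  rw [compl_compl]
  ring

/-- the mean of the negative part of the log likelihood ratio -/
theorem mean_neg_part (b : (ι → Bool) → ℝ) (hb : ∀ x, b x = 0 ∨ b x = 1) (A : Finset ι) (hβ : 0 < E b) :
    E (fun y => E (fun x => b (mrg A x y) * max 0 (-Real.log (E (res b A y) * (E (res b Aᶜ x) / E b)))))
      ≤ SI b A + E b := by
  have hb0 : ∀ x, 0 ≤ b x := fun x => by rcases hb x with h | h <;> rw [h] <;> norm_num
  set m : (ι → Bool) → ℝ := fun z => E (res b A z) with hm
  set m' : (ι → Bool) → ℝ := fun z => E (res b Aᶜ z) with hm'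
  set β := E b with hβdef
  have hm0 : ∀ z, 0 ≤ m z := fun z => E_nonneg fun x => hb0 _
  have hm'0 : ∀ z, 0 ≤ m' z := fun z => E_nonneg fun x => hb0 _
  have hself : ∀ (R : Finset ι) (z : ι → Bool), res b R z z = b z := by
    intro R z
    unfold res
    congr 1
    ext i
    unfold mrg
    by_cases h : i ∈ R <;> simp [h]
  have hmain : E (fun y => E (fun x => b (mrg A x y) * max 0 (-Real.log (m y * (m' x / β)))))
      = E (fun z => b z * max 0 (-Real.log (m z * (m' z / β)))) := by
    rw [← E_E_mrg (fun z => b z * max 0 (-Real.log (m z * (m' z / β)))) A]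
    apply E_congr
    intro y
    apply E_congr
    intro x
    have e1 : m (mrg A x y) = m y := by simp only [hm, res_mrg_self]
    have e2 : m' (mrg A x y) = m' x := by simp only [hm', res_compl_mrg]
    rw [e1, e2]
  have hgoal : E (fun y => E (fun x => b (mrg A x y) * max 0 (-Real.log (E (res b A y) * (E (res b Aᶜ x) / β)))))
      = E (fun z => b z * max 0 (-Real.log (m z * (m' z / β)))) := hmain
  rw [hgoal]
  have key : ∀ z, b z * max 0 (-Real.log (m z * (m' z / β)))
      ≤ b z * Real.log β - b z * Real.log (m z) - b z * Real.log (m' z) + m z * m' z / β := by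
    intro z
    rcases hb z with h | h
    · rw [h]
      simp only [zero_mul, sub_zero, zero_add]
      exact div_nonneg (mul_nonneg (hm0 z) (hm'0 z)) hβ.le
    · have h1 : 0 < m z := E_pos_of _ (fun x => hb0 _) z (by rw [hself, h]; norm_num)
      have h2 : 0 < m' z := E_pos_of _ (fun x => hb0 _) z (by rw [hself, h]; norm_num)
      have h3 : 0 < m z * m' z / β := by positivity
      rw [h, mul_div_assoc'] 
      have h4 := Real.log_le_sub_one_of_pos h3
      have h5 : Real.log (m z * m' z / β) = Real.log (m z) + Real.log (m' z) - Real.log β := by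
        rw [Real.log_div (by positivity) hβ.ne', Real.log_mul h1.ne' h2.ne']
      rw [one_mul, one_mul, one_mul, one_mul]
      apply max_le
      · linarith
      · rw [h5]; linarith
  refine (E_mono key).trans ?_
  rw [E_add, E_sub, E_sub]
  have e1 : E (fun z => b z * Real.log (m z)) = - E (fun y => Real.negMulLog (m y)) := by
    rw [← E_E_mrg (fun z => b z * Real.log (m z)) A]
    have : ∀ z, E (fun x => b (mrg A x z) * Real.log (m (mrg A x z))) = (-1) * Real.negMulLog (m z) := by
      intro z
      have h1 : ∀ x, b (mrg A x z) * Real.log (m (mrg A x z)) = res b A z x * Real.log (m z) := by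
        intro x
        simp only [hm, res_mrg_self]
        rfl
      rw [E_congr h1, E_mul_right, Real.negMulLog]
      ring
    rw [E_congr this, E_mul_left]
    ring
  have e2 : E (fun z => b z * Real.log (m' z)) = - E (fun y => Real.negMulLog (m' y)) := by
    rw [← E_E_mrg (fun z => b z * Real.log (m' z)) Aᶜ]
    have : ∀ z, E (fun x => b (mrg Aᶜ x z) * Real.log (m' (mrg Aᶜ x z))) = (-1) * Real.negMulLog (m' z) := by
      intro z
      have h1 : ∀ x, b (mrg Aᶜ x z) * Real.log (m' (mrg Aᶜ x z)) = res b Aᶜ z x * Real.log (m' z) := by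
        intro x
        simp only [hm', res_mrg_self]
        rfl
      rw [E_congr h1, E_mul_right, Real.negMulLog]
      ring
    rw [E_congr this, E_mul_left]
    ring
  have e3 : E (fun z => b z * Real.log β) = - Real.negMulLog β := by
    rw [E_mul_right, Real.negMulLog]; ring
  have e4 : E (fun z => m z * m' z / β) ≤ β := by
    have h1 : E (fun z => m z * m' z) = β * β := by
      rw [← E_E_mrg (fun z => m z * m' z) A]
      have : ∀ z, E (fun x => m (mrg A x z) * m' (mrg A x z)) = m z * β := by
        intro z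
        have h1 : ∀ x, m (mrg A x z) * m' (mrg A x z) = m z * m' x := by
          intro x
          simp only [hm, hm', res_mrg_self, res_compl_mrg]
        rw [E_congr h1, E_mul_left, E_E_res]
      rw [E_congr this, E_mul_right, E_E_res]
    have h2 : ∀ z, m z * m' z / β = (m z * m' z) * β⁻¹ := fun z => div_eq_mul_inv _ _
    rw [E_congr h2, E_mul_right, h1, mul_assoc, mul_inv_cancel₀ hβ.ne', mul_one]
  rw [e1, e2, e3]
  have hSI : SI b A = E (fun y => Real.negMulLog (m y)) + E (fun x => Real.negMulLog (m' x)) - Real.negMulLog β := rfl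
  rw [hSI]
  linarith

/-- one half of the information inequality -/
theorem side (k : ℕ) (hk : 1 ≤ k) (b : (ι → Bool) → ℝ) (hb : ∀ x, b x = 0 ∨ b x = 1) (A : Finset ι) (hβ : 0 < E b)
    (hGT : GTcut k b A) :
    ∃ Q : Finset ι → ℝ, (∀ v, 0 ≤ Q v) ∧ ∑ v, Q v ≤ 1 ∧ (∀ v, Q v = 0 → ∀ y, coef (res b A y) v = 0) ∧
      E (fun y => ∑ v, (coef (res b A y) v) ^ 2 * Real.log ((coef (res b A y) v) ^ 2 / (E (res b A y) * Q v)))
        ≤ C1 (Fintype.card (Fin k → Bool)) k * E b + C2 (Fintype.card (Fin k → Bool)) k * (SI b A + E b) := by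
  classical
  obtain ⟨X, Y, Φ, hΦ⟩ := hGT
  have hb0 : ∀ x, 0 ≤ b x := fun x => by rcases hb x with h | h <;> rw [h] <;> norm_num
  set N := Fintype.card (Fin k → Bool) with hN
  have hN1 : 1 ≤ N := Fintype.card_pos
  set e : (Fin k → Bool) ≃ Fin N := Fintype.equivFin (Fin k → Bool) with he
  set Z : Fin N → Fin k → (ι → Bool) → ℝ := fun s i x => if e.symm s i then X i x else - X i x with hZ
  set P : (ι → Bool) → ℝ := fun x => E (res b Aᶜ x) / E b with hPdef
  have hP : ∀ x, 0 ≤ P x := fun x => div_nonneg (E_nonneg fun u => hb0 _) hβ.le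
  have hP1 : E P = 1 := by
    have h1 : ∀ x, P x = E (res b Aᶜ x) * (E b)⁻¹ := fun x => div_eq_mul_inv _ _
    rw [E_congr h1, E_mul_right, E_E_res, mul_inv_cancel₀ hβ.ne']
  set L : (ι → Bool) → ℝ := fun y => E (fun x => b (mrg A x y) * max 0 (-Real.log (E (res b A y) * P x))) with hL
  have hpt : ∀ y, (∀ v, Qs P Z v = 0 → coef (res b A y) v = 0) ∧
      ∑ v, (coef (res b A y) v) ^ 2 * Real.log ((coef (res b A y) v) ^ 2 / (E (res b A y) * Qs P Z v))
        ≤ C1 N k * E (res b A y) + C2 N k * L y := by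
    intro y
    set m := E (res b A y) with hm
    have hm0 : 0 ≤ m := E_nonneg fun u => hb0 _
    have hsq : ∑ v, (coef (res b A y) v) ^ 2 = m := by
      rw [parseval, hm]
      apply E_congr
      intro x
      unfold res
      rcases hb (mrg A x y) with h | h <;> rw [h] <;> norm_num
    rcases hm0.eq_or_lt with h0 | h0
    · have hc : ∀ v, coef (res b A y) v = 0 := by
        intro v
        rw [← h0] at hsq
        have h2 := (Finset.sum_eq_zero_iff_of_nonneg (fun v _ => sq_nonneg (coef (res b A y) v))).mp hsq v (Finset.mem_univ v)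
        exact pow_eq_zero_iff two_ne_zero |>.mp h2
      refine ⟨fun v _ => hc v, ?_⟩
      have h1 : L y = 0 := by
        simp only [hL]
        have h2 : ∀ x, b (mrg A x y) * max 0 (-Real.log (E (res b A y) * P x)) = 0 := by
          intro x
          have h3 : E (res b A y) = 0 := by rw [← hm, ← h0]
          have h4 : b (mrg A x y) = 0 := by
            by_contra hne
            have h5 : 0 < res b A y x := lt_of_le_of_ne (hb0 _) (Ne.symm hne)
            have := E_pos_of (res b A y) (fun u => hb0 _) x h5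
            linarith
          rw [h4, zero_mul]
        rw [E_congr h2, E_const]
      rw [h1, ← h0, mul_zero, mul_zero, add_zero]
      apply le_of_eq
      apply Finset.sum_eq_zero
      intro v _
      rw [hc v]; simp
    · set pat : (ι → Bool) → (Fin k → Bool) := fun x i => decide (Y i y ≤ X i x) with hpat
      set U : Fin N → Finset (ι → Bool) := fun s => univ.filter (fun x => Φ (e.symm s) = 1 ∧ pat x = e.symm s) with hU
      have hUmem : ∀ s x, x ∈ U s ↔ Φ (e.symm s) = 1 ∧ pat x = e.symm s := by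
        intro s x
        rw [hU, Finset.mem_filter]
        simp
      have hval : ∀ x, b (mrg A x y) = Φ (pat x) := fun x => hΦ x y
      have hBeq : res b A y = fun x => ∑ s, if x ∈ U s then (1 : ℝ) else 0 := by
        ext x
        have h1 : ∀ s, (if x ∈ U s then (1 : ℝ) else 0) = if s = e (pat x) then (if Φ (pat x) = 1 then 1 else 0) else 0 := by
          intro s
          by_cases hs : s = e (pat x)
          · rw [if_pos hs]
            have h2 : e.symm s = pat x := by rw [hs]; simp
            by_cases h3 : Φ (pat x) = 1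
            · rw [if_pos h3, if_pos]
              rw [hUmem, h2]; exact ⟨h3, rfl⟩
            · rw [if_neg h3, if_neg]
              rw [hUmem, h2]; exact fun h => h3 h.1
          · rw [if_neg hs, if_neg]
            rw [hUmem]
            intro h
            apply hs
            rw [h.2]; simp
        simp only [h1]
        rw [Finset.sum_ite_eq' Finset.univ (e (pat x))]
        simp only [Finset.mem_univ, if_true]
        show b (mrg A x y) = _
        rw [hval]
        rcases hb (mrg A x y) with h | h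
        · rw [hval] at h
          rw [h]; norm_num
        · rw [hval] at h
          rw [h]; norm_num
      have hdisj : ∀ s s', s ≠ s' → Disjoint (U s) (U s') := by
        intro s s' hne
        rw [Finset.disjoint_left]
        intro x h1 h2
        rw [hUmem] at h1 h2
        apply hne
        apply e.symm.injective
        rw [← h1.2, ← h2.2]
      have hbox : ∀ s (t : Fin k → (ι → Bool)), (∀ i, t i ∈ U s) → Box (Z s) t ⊆ U s := by
        intro s t ht x hx
        unfold Box at hx
        rw [Finset.mem_filter] at hx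
        rw [hUmem]
        refine ⟨((hUmem s _).mp (ht ⟨0, hk⟩)).1, ?_⟩
        ext i
        have h1 := ((hUmem s _).mp (ht i)).2
        have h2 := congrFun h1 i
        have h3 := hx.2 i
        simp only [hZ] at h3
        simp only [hpat] at h2 ⊢
        by_cases h4 : e.symm s i = true
        · rw [h4] at h2 ⊢
          simp only [h4, if_true] at h3
          rw [decide_eq_true_eq] at h2 ⊢
          linarith
        · have h5 : e.symm s i = false := by simpa using h4
          rw [h5] at h2 ⊢
          simp only [h5] at h3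
          rw [decide_eq_false_iff_not] at h2 ⊢
          simp at h3
          intro h6
          apply h2
          linarith
      have hUm : ∑ s, mu (U s) = m := by
        rw [hm, hBeq, E_sum]
        apply Finset.sum_congr rfl
        intro s _
        exact (E_ind (U s)).symm
      set S : Finset (ι → Bool) := univ.filter (fun x => b (mrg A x y) = 1) with hS
      have hUS : ∀ s, U s ⊆ S := by
        intro s x hx
        rw [hUmem] at hx
        rw [hS, Finset.mem_filter]
        refine ⟨Finset.mem_univ _, ?_⟩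
        rw [hval, hx.2, hx.1]
      have hbS : ∀ x, b (mrg A x y) = if x ∈ S then (1 : ℝ) else 0 := by
        intro x
        rcases hb (mrg A x y) with h | h
        · rw [if_neg, h]
          rw [hS, Finset.mem_filter, h]; norm_num
        · rw [if_pos, h]
          rw [hS, Finset.mem_filter]; exact ⟨Finset.mem_univ _, h⟩
      have hSm : mu S = m := by
        rw [← E_ind S, hm]
        apply E_congr
        intro x
        exact (hbS x).symm
      have hPpos : ∀ s, ∀ x ∈ U s, 0 < P x := by
        intro s x hx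
        have h1 := hUS s hx
        rw [hS, Finset.mem_filter] at h1
        apply div_pos _ hβ
        apply E_pos_of (res b Aᶜ x) (fun u => hb0 _) y
        unfold res
        rw [mrg_compl, h1.2]
        norm_num
      have ht := transfer_point hN1 hk P hP hP1 Z U hdisj hbox m h0 hUm hPpos (res b A y) hBeq hsq.le S hUS hSm
      refine ⟨ht.1, ?_⟩
      have h2 : L y = (∑ x ∈ S, max 0 (-Real.log (m * P x))) / 2 ^ Fintype.card ι := by
        simp only [hL]
        unfold E
        congr 1
        rw [← Finset.sum_filter_add_sum_filter_not univ (fun x => x ∈ S)]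
        have h3 : ∑ x ∈ univ.filter (fun x => ¬ x ∈ S), b (mrg A x y) * max 0 (-Real.log (E (res b A y) * P x)) = 0 := by
          apply Finset.sum_eq_zero
          intro x hx
          rw [Finset.mem_filter] at hx
          rw [hbS, if_neg hx.2, zero_mul]
        have h4 : univ.filter (fun x => x ∈ S) = S := by ext x; simp
        unfold E at h3
        rw [h3, add_zero, h4]
        apply Finset.sum_congr rfl
        intro x hx
        rw [hbS, if_pos hx, one_mul]
        rfl
      rw [h2]
      exact ht.2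
  refine ⟨Qs P Z, Qs_nonneg P hP Z, Qs_sum P hP hP1 Z, fun v hv y => (hpt y).1 v hv, ?_⟩
  have h1 := E_mono fun y => (hpt y).2
  rw [E_add, E_mul_left, E_mul_left, E_E_res] at h1
  refine h1.trans ?_
  have h2 : E L ≤ SI b A + E b := mean_neg_part b hb A hβ
  have hC2 : 0 ≤ C2 N k := by unfold C2; positivity
  have := mul_le_mul_of_nonneg_left h2 hC2
  linarith

theorem C1_nonneg {N k : ℕ} (hN : 1 ≤ N) (hk : 1 ≤ k) : 0 ≤ C1 N k := by
  have hNr : (1 : ℝ) ≤ N := by exact_mod_cast hN
  have hkr : (1 : ℝ) ≤ k := by exact_mod_cast hk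
  have hlog2 : 0 < Real.log 2 := Real.log_pos (by norm_num)
  have hlogN : 0 ≤ Real.log (2 * N * k) := Real.log_nonneg (by nlinarith)
  unfold C1
  positivity

end cube

/-- the transfer inequality with an explicit constant -/
theorem loss_GT_explicit (k : ℕ) (ι : Type) [Fintype ι] [DecidableEq ι] (b : (ι → Bool) → ℝ)
    (hb : ∀ x, b x = 0 ∨ b x = 1) (A : Finset ι) (hGT : GTcut k b A) :
    loss b A ≤ (2 * (C1 (2 ^ (k + 1)) (k + 1) + C2 (2 ^ (k + 1)) (k + 1))) * (E b + SI b A) := by
  have hN : Fintype.card (Fin (k + 1) → Bool) = 2 ^ (k + 1) := by simp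
  have hN1 : 1 ≤ 2 ^ (k + 1) := Nat.one_le_two_pow
  have hC1 : 0 ≤ C1 (2 ^ (k + 1)) (k + 1) := C1_nonneg hN1 (by omega)
  have hC2 : 0 ≤ C2 (2 ^ (k + 1)) (k + 1) := by unfold C2; positivity
  have hb0 : ∀ x, 0 ≤ b x := fun x => by rcases hb x with h | h <;> rw [h]; norm_num
  have hβ0 : 0 ≤ E b := E_nonneg hb0
  have hSI : 0 ≤ SI b A := by
    have := marg_entropy b hb A
    unfold SI
    linarith
  rcases hβ0.eq_or_lt with h0 | h0
  · have hz : ∀ x, b x = 0 := by
      intro x
      by_contra hne
      have := E_pos_of b hb0 x (lt_of_le_of_ne (hb0 x) (Ne.symm hne))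
      linarith
    have h1 := loss_rows b hb A 1 (fun _ => 0) (fun x x' _ y => by rw [hz, hz])
    rw [← h0] at h1
    rw [mul_zero] at h1
    refine h1.trans ?_
    positivity
  · have hG := GTcut_succ k b A hGT
    obtain ⟨Q, hQ0, hQ1, hQs, hQ2⟩ := side (k + 1) (by omega) b hb A h0 hG
    obtain ⟨Q', hQ'0, hQ'1, hQ's, hQ'2⟩ := side (k + 1) (by omega) b hb Aᶜ h0 (GTcut_compl _ _ _ hG)
    have hinfo := info b hb A Q Q' hQ0 hQ1 hQs hQ'0 hQ'1 hQ's
    rw [SI_compl] at hQ'2
    rw [hN] at hQ2 hQ'2
    have h2 : 0 ≤ C1 (2 ^ (k + 1)) (k + 1) * SI b A := mul_nonneg hC1 hSI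
    linarith

theorem const_le (k : ℕ) : 2 * (C1 (2 ^ (k + 1)) (k + 1) + C2 (2 ^ (k + 1)) (k + 1)) ≤ 2064 * 16 ^ k := by
  obtain ⟨M, hM⟩ : ∃ M : ℝ, M = (2 : ℝ) ^ (k + 1) * (k + 1) := ⟨_, rfl⟩
  have hk : (0 : ℝ) ≤ k := Nat.cast_nonneg k
  have h2k : (1 : ℝ) ≤ 2 ^ (k + 1) := one_le_pow₀ (by norm_num)
  have hM1 : 1 ≤ M := by rw [hM]; nlinarith
  have hNM : (2 : ℝ) ^ (k + 1) ≤ M := by rw [hM]; nlinarith
  have hlog2 : Real.log 2 ≤ 1 := by have := Real.log_two_lt_d9; linarith
  have hlog20 : 0 ≤ Real.log 2 := Real.log_nonneg (by norm_num)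
  have hlogM : Real.log (2 * M) ≤ 2 * M := by
    have := Real.log_le_sub_one_of_pos (x := 2 * M) (by linarith)
    linarith
  have hMM : M ≤ M ^ 2 := by nlinarith
  have e1 : C1 (2 ^ (k + 1)) (k + 1) + C2 (2 ^ (k + 1)) (k + 1)
      = 2 + 16 * (2 * ((2 : ℝ) ^ (k + 1) * Real.log 2) + 2 * (M * Real.log (2 * M)) + 2 * (M * Real.log 2) + 4 * M ^ 2) + 64 * M ^ 2 := by
    unfold C1 C2
    rw [hM]
    push_cast
    have : (2 : ℝ) * 2 ^ (k + 1) * (k + 1) = 2 * (2 ^ (k + 1) * (k + 1)) := by ring
    rw [this]
  have h1 : (2 : ℝ) ^ (k + 1) * Real.log 2 ≤ M ^ 2 := by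
    have := mul_le_mul hNM hlog2 hlog20 (by linarith)
    linarith
  have h2 : M * Real.log (2 * M) ≤ 2 * M ^ 2 := by
    have := mul_le_mul_of_nonneg_left hlogM (by linarith : 0 ≤ M)
    nlinarith
  have h3 : M * Real.log 2 ≤ M ^ 2 := by
    have := mul_le_mul_of_nonneg_left hlog2 (by linarith : 0 ≤ M)
    linarith
  have h4 : 2 * (C1 (2 ^ (k + 1)) (k + 1) + C2 (2 ^ (k + 1)) (k + 1)) ≤ 516 * M ^ 2 := by
    rw [e1]
    nlinarith
  have h5 : M ≤ 2 * 4 ^ k := by
    rw [hM]
    have h6 : ((k : ℝ) + 1) ≤ 2 ^ k := by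
      have : k + 1 ≤ 2 ^ k := Nat.lt_two_pow_self
      exact_mod_cast this
    calc (2 : ℝ) ^ (k + 1) * (k + 1) ≤ (2 : ℝ) ^ (k + 1) * 2 ^ k := mul_le_mul_of_nonneg_left h6 (by positivity)
      _ = 2 * 4 ^ k := by
        rw [pow_succ, show (4 : ℝ) = 2 * 2 by norm_num, mul_pow]; ring
  have h6 : M ^ 2 ≤ (2 * 4 ^ k) ^ 2 := pow_le_pow_left₀ (by linarith) h5 2
  have h7 : ((2 : ℝ) * 4 ^ k) ^ 2 = 4 * 16 ^ k := by
    rw [mul_pow, ← pow_mul, mul_comm k 2, pow_mul]; norm_num
  rw [h7] at h6
  linarith

theorem loss_GT (k : ℕ) (ι : Type) [Fintype ι] [DecidableEq ι] (b : (ι → Bool) → ℝ)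
    (hb : ∀ x, b x = 0 ∨ b x = 1) (A : Finset ι) (hGT : GTcut k b A) : loss b A ≤ 2064 * 16 ^ k * (E b + SI b A) := by
  have hb0 : ∀ x, 0 ≤ b x := fun x => by rcases hb x with h | h <;> rw [h]; norm_num
  have hβ0 : 0 ≤ E b := E_nonneg hb0
  have hSI : 0 ≤ SI b A := by
    have := marg_entropy b hb A
    unfold SI
    linarith
  exact (loss_GT_explicit k ι b hb A hGT).trans (mul_le_mul_of_nonneg_right (const_le k) (by linarith))
end Pool.FEI
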