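import Pool.Agent.FEI.MainJ
import Pool.Agent.FEI.Transfer
import Pool.Agent.FEI.Bridge
set_option autoImplicit false
set_option linter.unusedSectionVars false
set_option linter.unusedVariables false

namespace Pool.FEI
open Finset

section cube
variable {ι : Type} [Fintype ι] [DecidableEq ι]

theorem GTcut_of_fintype (κ : Type) [Fintype κ] (g : (ι → Bool) → ℝ) (A : Finset ι)
    (X Y : κ → (ι → Bool) → ℝ) (Φ : (κ → Bool) → ℝ)
    (h : ∀ x y, g (mrg A x y) = Φ (fun i => decide (Y i y ≤ X i x))) : GTcut (Fintype.card κ) g A := by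
  classical
  set e : κ ≃ Fin (Fintype.card κ) := Fintype.equivFin κ
  refine ⟨fun j => X (e.symm j), fun j => Y (e.symm j), fun s => Φ (fun a => s (e a)), ?_⟩
  intro x y
  rw [h]
  congr 1
  ext a
  simp

theorem mrg_mrg_comm (A R : Finset ι) (x y z : ι → Bool) :
    mrg R (mrg A x y) z = mrg A (mrg R x z) (mrg R y z) := by
  ext i
  unfold mrg
  by_cases h1 : i ∈ A <;> by_cases h2 : i ∈ R <;> simp [h1, h2]

theorem GTcut_res (k : ℕ) (g : (ι → Bool) → ℝ) (A R : Finset ι) (z : ι → Bool) (h : GTcut k g A) :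
    GTcut k (res g R z) A := by
  obtain ⟨X, Y, Φ, h⟩ := h
  refine ⟨fun i x => X i (mrg R x z), fun i y => Y i (mrg R y z), Φ, ?_⟩
  intro x y
  unfold res
  rw [mrg_mrg_comm, h]

theorem GTcut_affine (k : ℕ) (g : (ι → Bool) → ℝ) (A : Finset ι) (σ : ℝ) (h : GTcut k g A) :
    GTcut k (fun x => (1 - σ * g x) / 2) A := by
  obtain ⟨X, Y, Φ, h⟩ := h
  refine ⟨X, Y, fun s => (1 - σ * Φ s) / 2, ?_⟩
  intro x y
  simp only [h x y]

/-- the sign vector -/
noncomputable def sgn (b : Bool) : ℝ := if b then (-1 : ℝ) else 1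

theorem prod_sgn_or (T : Finset ι) (x : ι → Bool) : (∏ i ∈ T, sgn (x i)) = 1 ∨ (∏ i ∈ T, sgn (x i)) = -1 := by
  classical
  induction T using Finset.induction_on with
  | empty => left; simp
  | insert i T hi ih =>
    rw [Finset.prod_insert hi]
    have h1 : sgn (x i) = 1 ∨ sgn (x i) = -1 := by
      unfold sgn; split_ifs
      · exact Or.inr rfl
      · exact Or.inl rfl
    rcases h1 with h1 | h1 <;> rcases ih with h2 | h2 <;> rw [h1, h2] <;> norm_num

theorem prod_sgn_mrg (A T : Finset ι) (x y : ι → Bool) :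
    ∏ i ∈ T, sgn (mrg A x y i) = (∏ i ∈ T.filter (fun i => i ∈ A), sgn (x i)) * ∏ i ∈ T.filter (fun i => i ∉ A), sgn (y i) := by
  rw [← Finset.prod_filter_mul_prod_filter_not T (fun i => i ∈ A)]
  congr 1
  · apply Finset.prod_congr rfl
    intro i hi
    rw [Finset.mem_filter] at hi
    unfold mrg
    rw [if_pos hi.2]
  · apply Finset.prod_congr rfl
    intro i hi
    rw [Finset.mem_filter] at hi
    unfold mrg
    rw [if_neg hi.2]

theorem sum_sgn_mrg (A : Finset ι) (a : ι → ℝ) (x y : ι → Bool) :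
    ∑ i, a i * sgn (mrg A x y i) = (∑ i ∈ A, a i * sgn (x i)) + ∑ i ∈ Aᶜ, a i * sgn (y i) := by
  rw [← Finset.sum_add_sum_compl A]
  congr 1
  · apply Finset.sum_congr rfl
    intro i hi
    unfold mrg
    rw [if_pos hi]
  · apply Finset.sum_congr rfl
    intro i hi
    unfold mrg
    rw [if_neg (Finset.mem_compl.mp hi)]

/-- a function of `k` halfspaces and `l` parities -/
theorem GTcut_of_halfspaces (k l : ℕ) (g : (ι → Bool) → ℝ) (a : Fin k → ι → ℝ) (θ : Fin k → ℝ) (T : Fin l → Finset ι)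
    (Φ : (Fin k → Bool) → (Fin l → Bool) → ℝ)
    (hg : ∀ x, g x = Φ (fun j => decide (∑ i, a j i * sgn (x i) < θ j)) (fun j => decide (∏ i ∈ T j, sgn (x i) < 0)))
    (A : Finset ι) : GTcut (k + (l + l)) g A := by
  have h := GTcut_of_fintype (Fin k ⊕ (Fin l ⊕ Fin l)) g A
    (fun j x => match j with
      | Sum.inl j => ∑ i ∈ A, a j i * sgn (x i)
      | Sum.inr (Sum.inl j) => ∏ i ∈ (T j).filter (fun i => i ∈ A), sgn (x i)
      | Sum.inr (Sum.inr j) => - ∏ i ∈ (T j).filter (fun i => i ∈ A), sgn (x i))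
    (fun j y => match j with
      | Sum.inl j => θ j - ∑ i ∈ Aᶜ, a j i * sgn (y i)
      | Sum.inr (Sum.inl j) => ∏ i ∈ (T j).filter (fun i => i ∉ A), sgn (y i)
      | Sum.inr (Sum.inr j) => - ∏ i ∈ (T j).filter (fun i => i ∉ A), sgn (y i))
    (fun s => Φ (fun j => ! s (Sum.inl j)) (fun j => ! (s (Sum.inr (Sum.inl j)) && s (Sum.inr (Sum.inr j)))))
    (by
      intro x y
      rw [hg]
      congr 1
      · ext j
        rw [sum_sgn_mrg]
        show decide _ = ! decide _
        rw [← decide_not, decide_eq_decide, not_le]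
        constructor <;> intro h <;> linarith
      · ext j
        rw [prod_sgn_mrg]
        rcases prod_sgn_or ((T j).filter (fun i => i ∈ A)) x with h1 | h1 <;>
          rcases prod_sgn_or ((T j).filter (fun i => i ∉ A)) y with h2 | h2 <;> simp only [h1, h2] <;> norm_num)
  simpa [Fintype.card_sum] using h

end cube

/-- the second main theorem, natural logarithm -/
theorem mainGT (k n : ℕ) (g : (Fin n → Bool) → ℝ) (hg : PM g) (hGT : ∀ m, GTcut k g (pre n m)) :
    ent g ≤ 4130000000 * 16 ^ k * infl g := by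
  have h := mainJ n (2064 * 16 ^ k) (by positivity) (fun g => PM g ∧ ∀ m, GTcut k g (pre n m)) (fun g h => h.1)
    (fun g R z h => ⟨fun x => h.1 _, fun m => GTcut_res k g _ R z (h.2 m)⟩) ?_ g ⟨hg, hGT⟩
  · refine h.trans (mul_le_mul_of_nonneg_right ?_ (infl_nonneg g))
    have : (1 : ℝ) ≤ 16 ^ k := one_le_pow₀ (by norm_num)
    linarith
  · intro g hP m σ hσ
    apply loss_GT k (Fin n) (fun x => (1 - σ * g x) / 2) _ (pre n m) (GTcut_affine k g _ σ (hP.2 m))
    intro x
    rcases hσ with h | h <;> rcases hP.1 x with h' | h' <;> simp only [h, h'] <;> norm_num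

end Pool.FEI
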