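import Pool.Agent.FEI.Rec
set_option autoImplicit false
set_option linter.unusedSectionVars false
set_option linter.unusedVariables false
namespace Pool.FEI
open Finset

/-- gap of the entropy function at a midpoint -/
noncomputable def eg (p q : ℝ) : ℝ :=
  Real.negMulLog ((p + q) / 2) - (Real.negMulLog p + Real.negMulLog q) / 2

theorem eg_half (p r a s : ℝ) (hp : 0 ≤ p) (hr : 0 ≤ r) (ha : 0 ≤ a) (hs : 0 ≤ s) (hap : a = 0 → p = 0)
    (hpr : 0 < p → 0 < r) (has : 0 < a → 0 < s) :
    p / 2 - r * a / (2 * s) ≤ p / 2 * ((Real.log p - Real.log r) - (Real.log a - Real.log s)) := by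
  rcases hp.eq_or_lt with h | h
  · rw [← h]
    have : 0 ≤ r * a / (2 * s) := by positivity
    simp only [zero_div, zero_mul]
    linarith
  · have ha' : 0 < a := lt_of_le_of_ne ha (fun h' => by have := hap h'.symm; linarith)
    have hr' := hpr h
    have hs' := has ha'
    have h1 := Real.log_le_sub_one_of_pos (x := r * a / (p * s)) (by positivity)
    rw [Real.log_div (by positivity) (by positivity), Real.log_mul hr'.ne' ha'.ne', Real.log_mul h.ne' hs'.ne'] at h1
    have h2 : p / 2 * (1 - r * a / (p * s)) ≤ p / 2 * ((Real.log p - Real.log r) - (Real.log a - Real.log s)) :=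
      mul_le_mul_of_nonneg_left (by linarith) (by linarith)
    refine le_trans (le_of_eq ?_) h2
    field_simp

theorem eg_point (p q a b : ℝ) (hp : 0 ≤ p) (hq : 0 ≤ q) (ha : 0 ≤ a) (hb : 0 ≤ b) (hap : a = 0 → p = 0)
    (hbq : b = 0 → q = 0) :
    p / 2 * (Real.log a - Real.log ((a + b) / 2)) + q / 2 * (Real.log b - Real.log ((a + b) / 2)) ≤ eg p q := by
  rcases (add_nonneg ha hb).eq_or_lt with h | h
  · have ha0 : a = 0 := by linarith
    have hb0 : b = 0 := by linarith
    rw [hap ha0, hbq hb0]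
    simp [eg]
  · have h1 := eg_half p ((p + q) / 2) a ((a + b) / 2) hp (by linarith) ha (by linarith) hap
      (fun h => by linarith) (fun h => by linarith)
    have h2 := eg_half q ((p + q) / 2) b ((a + b) / 2) hq (by linarith) hb (by linarith) hbq
      (fun h => by linarith) (fun h => by linarith)
    have h3 : (p + q) / 2 * a / (2 * ((a + b) / 2)) + (p + q) / 2 * b / (2 * ((a + b) / 2)) = (p + q) / 2 := by
      field_simp
    have h4 : eg p q = p / 2 * (Real.log p - Real.log ((p + q) / 2)) + q / 2 * (Real.log q - Real.log ((p + q) / 2)) := by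
      unfold eg Real.negMulLog; ring
    rw [h4]
    linarith

section cube
variable {ι : Type} [Fintype ι] [DecidableEq ι]

theorem zero_of_E_zero (F : (ι → Bool) → ℝ) (hF : ∀ x, 0 ≤ F x) (h : E F = 0) (x : ι → Bool) : F x = 0 := by
  by_contra hne
  have := E_pos_of F hF x (lt_of_le_of_ne (hF x) (Ne.symm hne))
  linarith

theorem eg_jensen (P Q : (ι → Bool) → ℝ) (hP : ∀ x, 0 ≤ P x) (hQ : ∀ x, 0 ≤ Q x) :
    eg (E P) (E Q) ≤ E (fun x => eg (P x) (Q x)) := by
  have hEP := E_nonneg hP
  have hEQ := E_nonneg hQ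
  have h1 := E_mono fun x => eg_point (P x) (Q x) (E P) (E Q) (hP x) (hQ x) hEP hEQ
    (fun h => zero_of_E_zero P hP h x) (fun h => zero_of_E_zero Q hQ h x)
  have h2 : E (fun x => P x / 2 * (Real.log (E P) - Real.log ((E P + E Q) / 2))
      + Q x / 2 * (Real.log (E Q) - Real.log ((E P + E Q) / 2))) = eg (E P) (E Q) := by
    rw [E_add, E_mul_right, E_mul_right]
    have e1 : E (fun x => P x / 2) = E P / 2 := by
      have : ∀ x, P x / 2 = P x * (1 / 2) := fun x => by ring
      rw [E_congr this, E_mul_right]; ring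
    have e2 : E (fun x => Q x / 2) = E Q / 2 := by
      have : ∀ x, Q x / 2 = Q x * (1 / 2) := fun x => by ring
      rw [E_congr this, E_mul_right]; ring
    rw [e1, e2]
    unfold eg Real.negMulLog
    ring
  linarith

/-- gap of the profile at a midpoint -/
noncomputable def fg (u v : ℝ) : ℝ := Fp ((u + v) / 2) - (Fp u + Fp v) / 2

theorem fg_eq (u v : ℝ) : fg u v = eg ((1 - u) / 2) ((1 - v) / 2) + eg ((1 + u) / 2) ((1 + v) / 2) + (u - v) ^ 2 / 4 := by
  unfold fg eg Fp
  have e1 : ((1 - u) / 2 + (1 - v) / 2) / 2 = (1 - (u + v) / 2) / 2 := by ring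
  have e2 : ((1 + u) / 2 + (1 + v) / 2) / 2 = (1 + (u + v) / 2) / 2 := by ring
  rw [e1, e2]
  ring

theorem fg_jensen (φ ψ : (ι → Bool) → ℝ) (hφ : ∀ x, |φ x| ≤ 1) (hψ : ∀ x, |ψ x| ≤ 1) :
    fg (E φ) (E ψ) ≤ E (fun x => fg (φ x) (ψ x)) := by
  have h1 := eg_jensen (fun x => (1 - φ x) / 2) (fun x => (1 - ψ x) / 2)
    (fun x => by have := (abs_le.mp (hφ x)).2; linarith) (fun x => by have := (abs_le.mp (hψ x)).2; linarith)
  have h2 := eg_jensen (fun x => (1 + φ x) / 2) (fun x => (1 + ψ x) / 2)
    (fun x => by have := (abs_le.mp (hφ x)).1; linarith) (fun x => by have := (abs_le.mp (hψ x)).1; linarith)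
  have e1 : ∀ f : (ι → Bool) → ℝ, E (fun x => (1 - f x) / 2) = (1 - E f) / 2 := by
    intro f
    have : ∀ x, (1 - f x) / 2 = 1 / 2 - f x * (1 / 2) := fun x => by ring
    rw [E_congr this, E_sub, E_const, E_mul_right]; ring
  have e2 : ∀ f : (ι → Bool) → ℝ, E (fun x => (1 + f x) / 2) = (1 + E f) / 2 := by
    intro f
    have : ∀ x, (1 + f x) / 2 = 1 / 2 + f x * (1 / 2) := fun x => by ring
    rw [E_congr this, E_add, E_const, E_mul_right]; ring
  rw [e1, e1] at h1
  rw [e2, e2] at h2
  have h3 : (E φ - E ψ) ^ 2 ≤ E (fun x => (φ x - ψ x) ^ 2) := by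
    have := E_mul_sq_le (fun x => φ x - ψ x) (fun _ => (1 : ℝ))
    simp only [mul_one, one_pow] at this
    rw [E_const, mul_one, E_sub] at this
    exact this
  have h4 : E (fun x => fg (φ x) (ψ x)) = E (fun x => eg ((1 - φ x) / 2) ((1 - ψ x) / 2))
      + E (fun x => eg ((1 + φ x) / 2) ((1 + ψ x) / 2)) + E (fun x => (φ x - ψ x) ^ 2) / 4 := by
    rw [E_congr fun x => fg_eq (φ x) (ψ x), E_add, E_add]
    congr 1
    have : ∀ x, (φ x - ψ x) ^ 2 / 4 = (φ x - ψ x) ^ 2 * (1 / 4) := fun x => by ring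
    rw [E_congr this, E_mul_right]; ring
  rw [h4, fg_eq]
  linarith

theorem res_sub_mem (g : (ι → Bool) → ℝ) (i : ι) (A : Finset ι) (hi : i ∈ A) (c : Bool) (y : ι → Bool) :
    sub (res g A y) i c = res (sub g i c) A y := by
  funext x
  unfold sub res
  congr 1
  ext j
  unfold mrg
  by_cases hj : j = i
  · subst hj
    simp [hi]
  · simp [hj]

theorem res_update_mem (g : (ι → Bool) → ℝ) (i : ι) (A : Finset ι) (hi : i ∈ A) (c : Bool) (x : ι → Bool) :
    res g Aᶜ (Function.update x i c) = res (sub g i c) Aᶜ x := by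
  funext w
  unfold sub res
  congr 1
  ext j
  unfold mrg
  by_cases hj : j = i
  · subst hj
    simp [hi]
  · simp [hj]

theorem E_split_res (g : (ι → Bool) → ℝ) (i : ι) (A : Finset ι) (hi : i ∈ A) (F : ((ι → Bool) → ℝ) → ℝ) :
    E (fun x => F (res g Aᶜ x)) = (E (fun x => F (res (sub g i false) Aᶜ x)) + E (fun x => F (res (sub g i true) Aᶜ x))) / 2 := by
  rw [E_split _ i]
  congr 2
  · apply E_congr
    intro x
    show F (res g Aᶜ (Function.update x i false)) = _
    rw [res_update_mem g i A hi]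
  · apply E_congr
    intro x
    show F (res g Aᶜ (Function.update x i true)) = _
    rw [res_update_mem g i A hi]

theorem dA_single (g : (ι → Bool) → ℝ) (hg : PM g) (i : ι) :
    dA g {i} = ((1 - |E (sub g i false)|) / 2 + (1 - |E (sub g i true)|) / 2) / 2 := by
  unfold dA
  rw [E_split_res g i {i} (Finset.mem_singleton_self i) (fun f => |E f|)]
  have h : ∀ c x, E (res (sub g i c) ({i} : Finset ι)ᶜ x) = E (sub g i c) := by
    intro c x
    apply E_congr
    intro u
    unfold res sub
    congr 1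
    ext j
    unfold mrg
    by_cases hj : j = i
    · subst hj; simp
    · simp [hj]
  simp only [h]
  rw [E_const, E_const]
  ring

theorem drop_compl (g : (ι → Bool) → ℝ) (A : Finset ι) : drop g Aᶜ = drop g A := by
  unfold drop
  rw [compl_compl]
  ring

theorem half_drop_mem (g : (ι → Bool) → ℝ) (hg : PM g) (i : ι) (A : Finset ι) (hi : i ∈ A) :
    (drop (sub g i false) A + drop (sub g i true) A) / 2 ≤ drop g A := by
  have h1 := fg_jensen (fun y => E (res (sub g i false) A y)) (fun y => E (res (sub g i true) A y))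
    (fun y => abs_E_le_one _ fun u => hg _) (fun y => abs_E_le_one _ fun u => hg _)
  rw [E_E_res, E_E_res] at h1
  have h2 : ∀ y, E (res g A y) = (E (res (sub g i false) A y) + E (res (sub g i true) A y)) / 2 := by
    intro y
    rw [E_split _ i, res_sub_mem g i A hi, res_sub_mem g i A hi]
  have h3 : E (fun y => fg (E (res (sub g i false) A y)) (E (res (sub g i true) A y)))
      = E (fun y => Fp (E (res g A y))) - (E (fun y => Fp (E (res (sub g i false) A y)))
        + E (fun y => Fp (E (res (sub g i true) A y)))) / 2 := by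
    have e : ∀ y, fg (E (res (sub g i false) A y)) (E (res (sub g i true) A y))
        = Fp (E (res g A y)) - (Fp (E (res (sub g i false) A y)) + Fp (E (res (sub g i true) A y))) * (1 / 2) := by
      intro y
      rw [h2]
      unfold fg; ring
    rw [E_congr e, E_sub, E_mul_right, E_add]
    ring
  have h4 : fg (E (sub g i false)) (E (sub g i true)) = Fp (E g) - (Fp (E (sub g i false)) + Fp (E (sub g i true))) / 2 := by
    unfold fg
    rw [← E_split g i]
  have h5 := E_split_res g i A hi (fun f => Fp (E f))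
  unfold drop
  rw [h5]
  rw [h3, h4] at h1
  linarith

theorem half_drop (g : (ι → Bool) → ℝ) (hg : PM g) (i : ι) (A : Finset ι) :
    (drop (sub g i false) A + drop (sub g i true) A) / 2 ≤ drop g A := by
  by_cases hi : i ∈ A
  · exact half_drop_mem g hg i A hi
  · have h := half_drop_mem g hg i Aᶜ (Finset.mem_compl.mpr hi)
    rw [drop_compl, drop_compl, drop_compl] at h
    exact h

theorem dd_abs (p q : ℝ) : dd p q = dd |p| |q| := by
  have h1 : ∀ a b : ℝ, dd a (-b) = dd a b := by
    intro a b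
    unfold dd
    rw [← sub_eq_add_neg, sub_neg_eq_add, neg_sq]
    ring
  have h2 : ∀ a b : ℝ, dd (-a) b = dd a b := by
    intro a b
    unfold dd
    have e1 : ((-a + b) / 2) ^ 2 = ((a - b) / 2) ^ 2 := by ring
    have e2 : ((-a - b) / 2) ^ 2 = ((a + b) / 2) ^ 2 := by ring
    rw [e1, e2, neg_sq]
    ring
  rcases abs_choice p with h | h <;> rcases abs_choice q with h' | h' <;> rw [h, h']
  · rw [h1]
  · rw [h2]
  · rw [h1, h2]

theorem ent_defect_dA (g : (ι → Bool) → ℝ) (hg : PM g) (i : ι) :
    ent g - (ent (sub g i false) + ent (sub g i true)) / 2 ≤ 600 * dA g {i} := by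
  rw [ent_defect]
  set p := coef (sub g i false) ∅ with hp
  set q := coef (sub g i true) ∅ with hq
  have hpE : p = E (sub g i false) := by rw [hp, coef_empty]
  have hqE : q = E (sub g i true) := by rw [hq, coef_empty]
  have hd := dA_single g hg i
  rw [← hpE, ← hqE] at hd
  have hp1 : |p| ≤ 1 := by rw [hpE]; exact abs_E_le_one _ fun u => hg _
  have hq1 : |q| ≤ 1 := by rw [hqE]; exact abs_E_le_one _ fun u => hg _
  set β := dA g {i} with hβ
  have hβ0 : 0 ≤ β := by rw [hd]; linarith
  have hlog : Real.log 2 ≤ 0.6931471808 := Real.log_two_lt_d9.le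
  have hlog0 : 0 ≤ Real.log 2 := Real.log_nonneg (by norm_num)
  have hmem : (∅ : Finset ι) ∈ ((univ : Finset ι).erase i).powerset := Finset.empty_mem_powerset _
  rw [← Finset.add_sum_erase _ _ hmem]
  have hrest : ∑ T ∈ (((univ : Finset ι).erase i).powerset).erase ∅,
      dd (coef (sub g i false) T) (coef (sub g i true) T)
      ≤ Real.log 2 * ((1 - p ^ 2) + (1 - q ^ 2)) := by
    have h1 : ∑ T ∈ (((univ : Finset ι).erase i).powerset).erase ∅,
        dd (coef (sub g i false) T) (coef (sub g i true) T)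
        ≤ ∑ T ∈ (((univ : Finset ι).erase i).powerset).erase ∅,
          Real.log 2 * ((coef (sub g i false) T) ^ 2 + (coef (sub g i true) T) ^ 2) :=
      Finset.sum_le_sum fun T _ => dd_le _ _
    refine le_trans h1 (le_of_eq ?_)
    rw [← Finset.mul_sum, Finset.sum_add_distrib, sum_sub_sq g hg i false, sum_sub_sq g hg i true]
  rcases le_or_gt (1 / 400) β with hc | hc
  · have h1 := dd_le p q
    have h2 : Real.log 2 * ((1 - p ^ 2) + (1 - q ^ 2)) + Real.log 2 * (p ^ 2 + q ^ 2) = 2 * Real.log 2 := by ring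
    linarith
  · set b0 := (1 - |p|) / 2 with hb0
    set b1 := (1 - |q|) / 2 with hb1
    have hb0n : 0 ≤ b0 := by rw [hb0]; linarith
    have hb1n : 0 ≤ b1 := by rw [hb1]; linarith
    have hp' : |p| = 1 - 2 * b0 := by rw [hb0]; ring
    have hq' : |q| = 1 - 2 * b1 := by rw [hb1]; ring
    have hb0l : b0 ≤ 1 / 200 := by linarith
    have hb1l : b1 ≤ 1 / 200 := by linarith
    have hempty : dd p q ≤ 8 * β := by
      rw [dd_abs]
      unfold dd
      have e1 : ((|p| + |q|) / 2) ^ 2 = (1 - 2 * β) ^ 2 := by rw [hp', hq', hd]; ring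
      have e2 : ((|p| - |q|) / 2) ^ 2 = |b1 - b0| ^ 2 := by rw [hp', hq', sq_abs]; ring
      have h3 : |b1 - b0| ≤ 2 * β := by
        rw [abs_le]
        constructor <;> linarith
      have h4 : Real.negMulLog (|b1 - b0| ^ 2) ≤ 2 * |b1 - b0| :=
        eta_sq_le _ (abs_nonneg _) (by linarith)
      have h5 : Real.negMulLog ((1 - 2 * β) ^ 2) ≤ 1 - (1 - 2 * β) ^ 2 := eta_le_one_sub _ (sq_nonneg _)
      have h6 : 0 ≤ Real.negMulLog (|p| ^ 2) := by
        apply Real.negMulLog_nonneg (sq_nonneg _)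
        nlinarith [abs_nonneg p]
      have h7 : 0 ≤ Real.negMulLog (|q| ^ 2) := by
        apply Real.negMulLog_nonneg (sq_nonneg _)
        nlinarith [abs_nonneg q]
      rw [e1, e2]
      nlinarith [sq_nonneg β]
    have h8 : (1 - p ^ 2) + (1 - q ^ 2) ≤ 8 * β := by
      rw [← sq_abs p, ← sq_abs q, hp', hq']
      nlinarith [sq_nonneg b0, sq_nonneg b1]
    have h9 : Real.log 2 * ((1 - p ^ 2) + (1 - q ^ 2)) ≤ 6 * β := by
      calc Real.log 2 * ((1 - p ^ 2) + (1 - q ^ 2)) ≤ Real.log 2 * (8 * β) :=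
            mul_le_mul_of_nonneg_left h8 hlog0
        _ ≤ 0.6931471808 * (8 * β) := mul_le_mul_of_nonneg_right hlog (by linarith)
        _ ≤ 6 * β := by nlinarith
    linarith

theorem half_loss_mem (g : (ι → Bool) → ℝ) (hg : PM g) (i : ι) (A : Finset ι) (hi : i ∈ A) :
    loss g A ≤ (loss (sub g i false) A + loss (sub g i true) A) / 2 + 600 * dA g {i} := by
  have hD := ent_defect_dA g hg i
  have h1 : (E (fun y => ent (res (sub g i false) A y)) + E (fun y => ent (res (sub g i true) A y))) / 2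
      ≤ E (fun y => ent (res g A y)) := by
    have h2 : ∀ y, (ent (res (sub g i false) A y) + ent (res (sub g i true) A y)) * (1 / 2)
        ≤ ent (res g A y) := by
      intro y
      have := ent_ge_half (res g A y) i
      rw [res_sub_mem g i A hi, res_sub_mem g i A hi] at this
      linarith
    have h3 := E_mono h2
    rw [E_mul_right, E_add] at h3
    linarith
  have h4 := E_split_res g i A hi ent
  unfold loss
  rw [h4]
  linarith

theorem half_loss (g : (ι → Bool) → ℝ) (hg : PM g) (i : ι) (A : Finset ι) :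
    loss g A ≤ (loss (sub g i false) A + loss (sub g i true) A) / 2 + 600 * dA g {i} := by
  by_cases hi : i ∈ A
  · exact half_loss_mem g hg i A hi
  · have h := half_loss_mem g hg i Aᶜ (Finset.mem_compl.mpr hi)
    rw [loss_compl, loss_compl, loss_compl] at h
    exact h
end cube
end Pool.FEI
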