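import Pool.Agent.FEI.Fourier
set_option autoImplicit false
set_option linter.unusedSectionVars false
set_option linter.unusedVariables false
namespace Pool.FEI
open Finset
variable {ι : Type} [Fintype ι] [DecidableEq ι]

/-! ## Hyper.lean -/

/-- the truncated noise sum over the subsets of `R` -/
noncomputable def nz (R : Finset ι) (c : Finset ι → ℝ) (x : ι → Bool) : ℝ :=
  ∑ S ∈ R.powerset, (1 / Real.sqrt 3) ^ S.card * c S * chi S x

theorem nz_indep (R : Finset ι) (c : Finset ι → ℝ) (i : ι) (hi : i ∉ R) (x : ι → Bool) (b : Bool) :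
    nz R c (Function.update x i b) = nz R c x := by
  unfold nz
  apply Finset.sum_congr rfl
  intro S hS
  rw [chi_indep S i (fun h => hi (Finset.mem_powerset.mp hS h))]

theorem nz_insert (R : Finset ι) (c : Finset ι → ℝ) (i : ι) (hi : i ∉ R) (x : ι → Bool) :
    nz (insert i R) c x
      = nz R c x + (1 / Real.sqrt 3) * chi {i} x * nz R (fun S => c (insert i S)) x := by
  unfold nz
  rw [Finset.sum_powerset_insert hi]
  congr 1
  rw [Finset.mul_sum]
  apply Finset.sum_congr rfl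
  intro S hS
  have hiS : i ∉ S := fun h => hi (Finset.mem_powerset.mp hS h)
  rw [chi_insert i S hiS, Finset.card_insert_of_notMem hiS, pow_succ]
  ring

theorem hyper4_aux (R : Finset ι) : ∀ c : Finset ι → ℝ,
    E (fun x => (nz R c x) ^ 4) ≤ (∑ S ∈ R.powerset, (c S) ^ 2) ^ 2 := by
  induction R using Finset.induction_on with
  | empty =>
    intro c
    have h1 : ∀ x : ι → Bool, (nz ∅ c x) ^ 4 = (c ∅) ^ 4 := by
      intro x
      unfold nz
      rw [Finset.powerset_empty, Finset.sum_singleton, chi_empty, Finset.card_empty]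
      ring
    rw [E_congr h1, E_const, Finset.powerset_empty, Finset.sum_singleton]
    apply le_of_eq
    ring
  | insert i R hi ih =>
    intro c
    obtain ⟨u, hu⟩ : ∃ u, u = nz R c := ⟨_, rfl⟩
    obtain ⟨v, hv⟩ : ∃ v, v = nz R (fun S => c (insert i S)) := ⟨_, rfl⟩
    obtain ⟨A, hA⟩ : ∃ A, A = ∑ S ∈ R.powerset, (c S) ^ 2 := ⟨_, rfl⟩
    obtain ⟨B, hB⟩ : ∃ B, B = ∑ S ∈ R.powerset, (c (insert i S)) ^ 2 := ⟨_, rfl⟩
    have hA0 : 0 ≤ A := by rw [hA]; exact Finset.sum_nonneg fun S _ => sq_nonneg _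
    have hB0 : 0 ≤ B := by rw [hB]; exact Finset.sum_nonneg fun S _ => sq_nonneg _
    have hu4 : E (fun x => (u x) ^ 4) ≤ A ^ 2 := by rw [hu, hA]; exact ih c
    have hv4 : E (fun x => (v x) ^ 4) ≤ B ^ 2 := by rw [hv, hB]; exact ih _
    have hui : ∀ x b, u (Function.update x i b) = u x := by
      intro x b; rw [hu]; exact nz_indep R c i hi x b
    have hvi : ∀ x b, v (Function.update x i b) = v x := by
      intro x b; rw [hv]; exact nz_indep R _ i hi x b
    have hρ : (1 / Real.sqrt 3) ^ 2 = 1 / 3 := by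
      rw [div_pow, Real.sq_sqrt (by norm_num)]; norm_num
    obtain ⟨ρ, hρd⟩ : ∃ ρ, ρ = 1 / Real.sqrt 3 := ⟨_, rfl⟩
    rw [← hρd] at hρ
    have hsum : ∑ S ∈ (insert i R).powerset, (c S) ^ 2 = A + B := by
      rw [Finset.sum_powerset_insert hi, hA, hB]
    rw [hsum]
    have hexp : ∀ x, (nz (insert i R) c x) ^ 4
        = (((u x) ^ 4 + 2 * ((u x) ^ 2 * (v x) ^ 2)) + 1 / 9 * (v x) ^ 4)
          + ((4 * ρ) * (chi {i} x * ((u x) ^ 3 * v x))
            + (4 / 3 * ρ) * (chi {i} x * (u x * (v x) ^ 3))) := by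
      intro x
      rw [nz_insert R c i hi x, ← hρd, ← hu, ← hv]
      have hχ := chi_sq ({i} : Finset ι) x
      have e : (u x + ρ * chi {i} x * v x) ^ 4
          = (u x) ^ 4 + 4 * ρ * chi {i} x * ((u x) ^ 3 * v x)
            + 6 * ρ ^ 2 * (chi {i} x) ^ 2 * ((u x) ^ 2 * (v x) ^ 2)
            + 4 * (ρ ^ 2 * ρ) * ((chi {i} x) ^ 2 * chi {i} x) * (u x * (v x) ^ 3)
            + (ρ ^ 2) ^ 2 * ((chi {i} x) ^ 2) ^ 2 * (v x) ^ 4 := by ring
      rw [e, hχ, hρ]
      ring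
    have hz1 : E (fun x => chi {i} x * ((u x) ^ 3 * v x)) = 0 := by
      apply E_chi_mul_of_indep (fun x => (u x) ^ 3 * v x) i
      intro x
      simp only [hui, hvi]
    have hz2 : E (fun x => chi {i} x * (u x * (v x) ^ 3)) = 0 := by
      apply E_chi_mul_of_indep (fun x => u x * (v x) ^ 3) i
      intro x
      simp only [hui, hvi]
    rw [E_congr hexp, E_add, E_add, E_add, E_add, E_mul_left, E_mul_left, E_mul_left, E_mul_left,
      hz1, hz2]
    have huv : E (fun x => (u x) ^ 2 * (v x) ^ 2) ≤ A * B := by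
      have h1 := E_mul_sq_le (fun x => (u x) ^ 2) (fun x => (v x) ^ 2)
      have e1 : ∀ x, ((u x) ^ 2) ^ 2 = (u x) ^ 4 := fun x => by ring
      have e2 : ∀ x, ((v x) ^ 2) ^ 2 = (v x) ^ 4 := fun x => by ring
      simp only [e1, e2] at h1
      have h2 : E (fun x => (u x) ^ 4) * E (fun x => (v x) ^ 4) ≤ A ^ 2 * B ^ 2 := by
        apply mul_le_mul hu4 hv4 (E_nonneg fun x => by positivity) (by positivity)
      have h3 : (E (fun x => (u x) ^ 2 * (v x) ^ 2)) ^ 2 ≤ (A * B) ^ 2 := by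
        rw [mul_pow]; exact le_trans h1 h2
      exact le_of_sq_le_sq h3 (mul_nonneg hA0 hB0)
    nlinarith [mul_nonneg hB0 hB0]

/-- (2,4)-hypercontractivity, coefficient form -/
theorem hyper4 (c : Finset ι → ℝ) :
    E (fun x => (∑ S, (1 / Real.sqrt 3) ^ S.card * c S * chi S x) ^ 4) ≤ (∑ S, (c S) ^ 2) ^ 2 := by
  have h := hyper4_aux (univ : Finset ι) c
  unfold nz at h
  rw [Finset.powerset_univ] at h
  exact h

/-- degree `k` form: fourth moment against second moment -/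
theorem hyper4_deg (h : (ι → Bool) → ℝ) (k : ℕ) (hdeg : ∀ S, k < S.card → coef h S = 0) :
    E (fun x => (h x) ^ 4) ≤ 9 ^ k * (E (fun x => (h x) ^ 2)) ^ 2 := by
  have hs3 : (0 : ℝ) < Real.sqrt 3 := Real.sqrt_pos.mpr (by norm_num)
  have h1 := hyper4 (fun S : Finset ι => (Real.sqrt 3) ^ S.card * coef h S)
  have e1 : ∀ x, (∑ S : Finset ι, (1 / Real.sqrt 3) ^ S.card * ((Real.sqrt 3) ^ S.card * coef h S) * chi S x)
      = h x := by
    intro x
    rw [inversion h x]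
    apply Finset.sum_congr rfl
    intro S _
    have : (1 / Real.sqrt 3) ^ S.card * ((Real.sqrt 3) ^ S.card * coef h S) = coef h S := by
      rw [← mul_assoc, ← mul_pow, one_div, inv_mul_cancel₀ hs3.ne', one_pow, one_mul]
    rw [this]
  simp only [e1] at h1
  refine le_trans h1 ?_
  have h2 : ∑ S : Finset ι, ((Real.sqrt 3) ^ S.card * coef h S) ^ 2 ≤ 3 ^ k * E (fun x => (h x) ^ 2) := by
    rw [← parseval h, Finset.mul_sum]
    apply Finset.sum_le_sum
    intro S _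
    rcases Nat.lt_or_ge k S.card with hS | hS
    · rw [hdeg S hS]; simp
    · have e2 : ((Real.sqrt 3) ^ S.card * coef h S) ^ 2 = 3 ^ S.card * (coef h S) ^ 2 := by
        rw [mul_pow, ← pow_mul, mul_comm S.card 2, pow_mul, Real.sq_sqrt (by norm_num)]
      rw [e2]
      exact mul_le_mul_of_nonneg_right (pow_le_pow_right₀ (by norm_num) hS) (sq_nonneg _)
  have h0 : 0 ≤ ∑ S : Finset ι, ((Real.sqrt 3) ^ S.card * coef h S) ^ 2 :=
    Finset.sum_nonneg fun S _ => sq_nonneg _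
  have h3 : (9 : ℝ) ^ k = 3 ^ k * 3 ^ k := by
    rw [← mul_pow]; norm_num
  calc (∑ S : Finset ι, ((Real.sqrt 3) ^ S.card * coef h S) ^ 2) ^ 2
      ≤ (3 ^ k * E (fun x => (h x) ^ 2)) ^ 2 := pow_le_pow_left₀ h0 h2 2
    _ = 9 ^ k * (E (fun x => (h x) ^ 2)) ^ 2 := by rw [h3]; ring

/-- degree `k` form: second moment against first moment -/
theorem hyper2_deg (h : (ι → Bool) → ℝ) (k : ℕ) (hdeg : ∀ S, k < S.card → coef h S = 0) :
    E (fun x => (h x) ^ 2) ≤ 9 ^ k * (E (fun x => |h x|)) ^ 2 := by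
  obtain ⟨a1, ha1⟩ : ∃ a, a = E (fun x => |h x|) := ⟨_, rfl⟩
  obtain ⟨a2, ha2⟩ : ∃ a, a = E (fun x => (h x) ^ 2) := ⟨_, rfl⟩
  obtain ⟨a3, ha3⟩ : ∃ a, a = E (fun x => |h x| ^ 3) := ⟨_, rfl⟩
  obtain ⟨a4, ha4⟩ : ∃ a, a = E (fun x => (h x) ^ 4) := ⟨_, rfl⟩
  have h4 := hyper4_deg h k hdeg
  rw [← ha4, ← ha2] at h4
  rw [← ha1, ← ha2]
  have p1 : 0 ≤ a1 := by rw [ha1]; exact E_nonneg fun x => abs_nonneg _
  have p2 : 0 ≤ a2 := by rw [ha2]; exact E_nonneg fun x => sq_nonneg _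
  have p3 : 0 ≤ a3 := by rw [ha3]; exact E_nonneg fun x => by positivity
  have p4 : 0 ≤ a4 := by rw [ha4]; exact E_nonneg fun x => by positivity
  have q1 : a2 ^ 2 ≤ a1 * a3 := by
    have h1 := E_mul_sq_le (fun x => Real.sqrt |h x|) (fun x => Real.sqrt |h x| * |h x|)
    have e1 : ∀ x, Real.sqrt |h x| * (Real.sqrt |h x| * |h x|) = (h x) ^ 2 := by
      intro x
      rw [← mul_assoc, Real.mul_self_sqrt (abs_nonneg _), ← sq, sq_abs]
    have e2 : ∀ x, (Real.sqrt |h x|) ^ 2 = |h x| := fun x => Real.sq_sqrt (abs_nonneg _)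
    have e3 : ∀ x, (Real.sqrt |h x| * |h x|) ^ 2 = |h x| ^ 3 := by
      intro x
      rw [mul_pow, Real.sq_sqrt (abs_nonneg _)]
      ring
    simp only [e1, e2, e3] at h1
    rw [ha2, ha1, ha3]
    exact h1
  have q2 : a3 ^ 2 ≤ a2 * a4 := by
    have h1 := E_mul_sq_le (fun x => |h x|) (fun x => (h x) ^ 2)
    have e1 : ∀ x, |h x| * (h x) ^ 2 = |h x| ^ 3 := by
      intro x
      rw [← sq_abs]; ring
    have e2 : ∀ x, |h x| ^ 2 = (h x) ^ 2 := fun x => sq_abs _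
    have e3 : ∀ x, ((h x) ^ 2) ^ 2 = (h x) ^ 4 := fun x => by ring
    simp only [e1, e2, e3] at h1
    rw [ha3, ha2, ha4]
    exact h1
  rcases p2.eq_or_lt with hz | hpos
  · rw [← hz]; positivity
  · have hN : (0 : ℝ) < 9 ^ k := by positivity
    have s1 : a2 ^ 4 ≤ a1 ^ 2 * (a2 * a4) := by
      calc a2 ^ 4 = (a2 ^ 2) ^ 2 := by ring
        _ ≤ (a1 * a3) ^ 2 := pow_le_pow_left₀ (by positivity) q1 2
        _ = a1 ^ 2 * a3 ^ 2 := by ring
        _ ≤ a1 ^ 2 * (a2 * a4) := mul_le_mul_of_nonneg_left q2 (by positivity)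
    have s2 : a1 ^ 2 * (a2 * a4) ≤ a1 ^ 2 * (a2 * (9 ^ k * a2 ^ 2)) := by
      apply mul_le_mul_of_nonneg_left _ (by positivity)
      exact mul_le_mul_of_nonneg_left h4 p2
    have s3 : a2 ^ 3 * a2 ≤ a2 ^ 3 * (9 ^ k * a1 ^ 2) := by
      calc a2 ^ 3 * a2 = a2 ^ 4 := by ring
        _ ≤ a1 ^ 2 * (a2 * (9 ^ k * a2 ^ 2)) := le_trans s1 s2
        _ = a2 ^ 3 * (9 ^ k * a1 ^ 2) := by ring
    exact le_of_mul_le_mul_left s3 (by positivity)

/-- level inequality for 0/1 valued functions -/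
theorem level_ineq (b : (ι → Bool) → ℝ) (hb : ∀ x, b x = 0 ∨ b x = 1) (k : ℕ) :
    (∑ T ∈ (univ : Finset (Finset ι)).filter (fun T => T.card ≤ k), (coef b T) ^ 2) ^ 2 ≤ 9 ^ k * (E b) ^ 3 := by
  obtain ⟨c, hc⟩ : ∃ c : Finset ι → ℝ, c = fun T => if T.card ≤ k then coef b T else 0 := ⟨_, rfl⟩
  obtain ⟨u, hu⟩ : ∃ u : (ι → Bool) → ℝ, u = fun x => ∑ S, c S * chi S x := ⟨_, rfl⟩
  obtain ⟨W, hW⟩ : ∃ W, W = ∑ T ∈ (univ : Finset (Finset ι)).filter (fun T => T.card ≤ k), (coef b T) ^ 2 :=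
    ⟨_, rfl⟩
  rw [← hW]
  have hcu : ∀ T, coef u T = c T := by
    intro T; rw [hu]; exact coef_sum_chi c T
  have hW0 : 0 ≤ W := by rw [hW]; exact Finset.sum_nonneg fun T _ => sq_nonneg _
  have hbu : E (fun x => b x * u x) = W := by
    rw [← parseval2, hW, Finset.sum_filter]
    apply Finset.sum_congr rfl
    intro T _
    rw [hcu, hc]
    simp only
    split_ifs
    · ring
    · ring
  have huu : E (fun x => (u x) ^ 2) = W := by
    rw [← parseval, hW, Finset.sum_filter]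
    apply Finset.sum_congr rfl
    intro T _
    rw [hcu, hc]
    simp only
    split_ifs
    · rfl
    · norm_num
  have hdeg : ∀ S : Finset ι, k < S.card → coef u S = 0 := by
    intro S hS
    rw [hcu, hc]
    simp only
    rw [if_neg (by omega)]
  have h4 := hyper4_deg u k hdeg
  rw [huu] at h4
  have hb2 : ∀ x, (b x) ^ 2 = b x := by
    intro x
    rcases hb x with h | h <;> rw [h] <;> norm_num
  have hEb : 0 ≤ E b := E_nonneg fun x => by rcases hb x with h | h <;> rw [h] <;> norm_num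
  have q1 : W ^ 2 ≤ E b * E (fun x => b x * (u x) ^ 2) := by
    have h1 := E_mul_sq_le b (fun x => b x * u x)
    have e1 : ∀ x, b x * (b x * u x) = b x * u x := by
      intro x
      rw [← mul_assoc, ← sq, hb2]
    have e2 : ∀ x, (b x * u x) ^ 2 = b x * (u x) ^ 2 := by
      intro x
      rw [mul_pow, hb2]
    simp only [e1, e2, hb2] at h1
    rw [hbu] at h1
    exact h1
  have q2 : (E (fun x => b x * (u x) ^ 2)) ^ 2 ≤ E b * E (fun x => (u x) ^ 4) := by
    have h1 := E_mul_sq_le b (fun x => (u x) ^ 2)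
    have e3 : ∀ x, ((u x) ^ 2) ^ 2 = (u x) ^ 4 := fun x => by ring
    simp only [hb2, e3] at h1
    exact h1
  rcases hW0.eq_or_lt with hz | hpos
  · rw [← hz]
    have h0 : (0 : ℝ) ^ 2 = 0 := by norm_num
    rw [h0]
    exact mul_nonneg (by positivity) (pow_nonneg hEb 3)
  · have s1 : W ^ 4 ≤ (E b) ^ 3 * (9 ^ k * W ^ 2) := by
      calc W ^ 4 = (W ^ 2) ^ 2 := by ring
        _ ≤ (E b * E (fun x => b x * (u x) ^ 2)) ^ 2 := pow_le_pow_left₀ (by positivity) q1 2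
        _ = (E b) ^ 2 * (E (fun x => b x * (u x) ^ 2)) ^ 2 := by ring
        _ ≤ (E b) ^ 2 * (E b * E (fun x => (u x) ^ 4)) := mul_le_mul_of_nonneg_left q2 (by positivity)
        _ ≤ (E b) ^ 2 * (E b * (9 ^ k * W ^ 2)) := by
            apply mul_le_mul_of_nonneg_left _ (by positivity)
            exact mul_le_mul_of_nonneg_left h4 hEb
        _ = (E b) ^ 3 * (9 ^ k * W ^ 2) := by ring
    have s2 : W ^ 2 * W ^ 2 ≤ W ^ 2 * (9 ^ k * (E b) ^ 3) := by
      calc W ^ 2 * W ^ 2 = W ^ 4 := by ring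
        _ ≤ (E b) ^ 3 * (9 ^ k * W ^ 2) := s1
        _ = W ^ 2 * (9 ^ k * (E b) ^ 3) := by ring
    exact le_of_mul_le_mul_left s2 (by positivity)

end Pool.FEI
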