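import Pool.Agent.FEI.Fourier
set_option autoImplicit false
set_option linter.unusedSectionVars false
set_option linter.unusedVariables false

namespace Pool.FEI
open Finset

/-! ## The information inequality -/

section abs
variable {T V W : Type} [Fintype T] [Fintype V] [Fintype W] [DecidableEq V] [DecidableEq W]

/-- subadditivity of entropy, unnormalised -/
theorem subadd (p : T → ℝ) (hp : ∀ t, 0 ≤ p t) (α : T → V) (α' : T → W)
    (hinj : Function.Injective (fun t => (α t, α' t))) :
    ∑ t, Real.negMulLog (p t) ≤ ∑ v, Real.negMulLog (∑ t ∈ univ.filter (fun t => α t = v), p t)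
      + ∑ w, Real.negMulLog (∑ t ∈ univ.filter (fun t => α' t = w), p t) - Real.negMulLog (∑ t, p t) := by
  classical
  set P : V → ℝ := fun v => ∑ t ∈ univ.filter (fun t => α t = v), p t with hP
  set P' : W → ℝ := fun w => ∑ t ∈ univ.filter (fun t => α' t = w), p t with hP'
  set β := ∑ t, p t with hβ
  have hP0 : ∀ v, 0 ≤ P v := fun v => Finset.sum_nonneg fun t _ => hp t
  have hP'0 : ∀ w, 0 ≤ P' w := fun w => Finset.sum_nonneg fun t _ => hp t
  have hβ0 : 0 ≤ β := Finset.sum_nonneg fun t _ => hp t
  have hle : ∀ t, p t ≤ P (α t) := fun t =>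
    Finset.single_le_sum (f := p) (fun t _ => hp t) (by simp)
  have hle' : ∀ t, p t ≤ P' (α' t) := fun t =>
    Finset.single_le_sum (f := p) (fun t _ => hp t) (by simp)
  have hleβ : ∀ t, p t ≤ β := fun t =>
    Finset.single_le_sum (f := p) (fun t _ => hp t) (by simp)
  have e1 : ∑ v, Real.negMulLog (P v) = - ∑ t, p t * Real.log (P (α t)) := by
    rw [← Finset.sum_fiberwise univ α, ← Finset.sum_neg_distrib]
    apply Finset.sum_congr rfl
    intro v _
    have : ∑ t ∈ univ.filter (fun t => α t = v), p t * Real.log (P (α t)) = P v * Real.log (P v) := by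
      rw [hP]
      simp only
      rw [Finset.sum_mul]
      apply Finset.sum_congr rfl
      intro t ht
      rw [Finset.mem_filter] at ht
      rw [ht.2]
    rw [this, Real.negMulLog]
    ring
  have e2 : ∑ w, Real.negMulLog (P' w) = - ∑ t, p t * Real.log (P' (α' t)) := by
    rw [← Finset.sum_fiberwise univ α', ← Finset.sum_neg_distrib]
    apply Finset.sum_congr rfl
    intro v _
    have : ∑ t ∈ univ.filter (fun t => α' t = v), p t * Real.log (P' (α' t)) = P' v * Real.log (P' v) := by
      rw [hP']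
      simp only
      rw [Finset.sum_mul]
      apply Finset.sum_congr rfl
      intro t ht
      rw [Finset.mem_filter] at ht
      rw [ht.2]
    rw [this, Real.negMulLog]
    ring
  have e3 : Real.negMulLog β = - ∑ t, p t * Real.log β := by
    rw [← Finset.sum_mul, ← hβ, Real.negMulLog]; ring
  rw [e1, e2, e3]
  rcases hβ0.eq_or_lt with h | h
  · have hz : ∀ t, p t = 0 := fun t => le_antisymm (h ▸ hleβ t) (hp t)
    simp [hz]
  · have hpt : ∀ t, Real.negMulLog (p t) + p t * Real.log (P (α t)) + p t * Real.log (P' (α' t)) - p t * Real.log β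
        ≤ P (α t) * P' (α' t) / β - p t := by
      intro t
      rcases (hp t).eq_or_lt with h0 | h0
      · rw [← h0]
        simp only [Real.negMulLog_zero, zero_mul, add_zero, sub_zero]
        exact div_nonneg (mul_nonneg (hP0 _) (hP'0 _)) hβ0
      · have q1 : 0 < P (α t) := lt_of_lt_of_le h0 (hle t)
        have q2 : 0 < P' (α' t) := lt_of_lt_of_le h0 (hle' t)
        have q3 := Real.log_le_sub_one_of_pos (x := P (α t) * P' (α' t) / (β * p t)) (by positivity)
        rw [Real.log_div (by positivity) (by positivity), Real.log_mul q1.ne' q2.ne', Real.log_mul h.ne' h0.ne'] at q3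
        have q4 := mul_le_mul_of_nonneg_left q3 h0.le
        have q5 : p t * (P (α t) * P' (α' t) / (β * p t) - 1) = P (α t) * P' (α' t) / β - p t := by
          field_simp
        rw [q5] at q4
        rw [Real.negMulLog]
        linarith
    have hs := Finset.sum_le_sum (s := univ) fun t _ => hpt t
    rw [Finset.sum_sub_distrib, Finset.sum_sub_distrib, Finset.sum_add_distrib, Finset.sum_add_distrib, ← Finset.sum_div, ← hβ] at hs
    have hprod : ∑ t, P (α t) * P' (α' t) ≤ β * β := by
      have h1 : ∑ t, P (α t) * P' (α' t) = ∑ x ∈ univ.map ⟨fun t => (α t, α' t), hinj⟩, P x.1 * P' x.2 := by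
        rw [Finset.sum_map]; rfl
      rw [h1]
      refine (Finset.sum_le_sum_of_subset_of_nonneg (Finset.subset_univ _) (fun x _ _ => mul_nonneg (hP0 _) (hP'0 _))).trans ?_
      rw [Fintype.sum_prod_type]
      have h2 : ∑ v, P v = β := Finset.sum_fiberwise univ α p
      have h3 : ∑ w, P' w = β := Finset.sum_fiberwise univ α' p
      simp only [← Finset.mul_sum]
      rw [h3, ← Finset.sum_mul, h2]
    have h4 : (∑ t, P (α t) * P' (α' t)) / β ≤ β := by
      rw [div_le_iff₀ h]; exact hprod
    linarith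

/-- Gibbs inequality, unnormalised -/
theorem gibbsQ (P Q : V → ℝ) (hP : ∀ v, 0 ≤ P v) (hQ : ∀ v, 0 ≤ Q v) (hQ1 : ∑ v, Q v ≤ 1)
    (hs : ∀ v, Q v = 0 → P v = 0) :
    ∑ v, P v * Real.log (Q v) ≤ Real.negMulLog (∑ v, P v) - ∑ v, Real.negMulLog (P v) := by
  set β := ∑ v, P v with hβ
  have hβ0 : 0 ≤ β := Finset.sum_nonneg fun t _ => hP t
  have hleβ : ∀ t, P t ≤ β := fun t =>
    Finset.single_le_sum (f := P) (fun t _ => hP t) (by simp)
  have e3 : Real.negMulLog β = - ∑ t, P t * Real.log β := by
    rw [← Finset.sum_mul, ← hβ, Real.negMulLog]; ring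
  rw [e3]
  have hpt : ∀ v, P v * Real.log (Q v) + P v * Real.log β + Real.negMulLog (P v) ≤ Q v * β - P v := by
    intro v
    rcases (hP v).eq_or_lt with h0 | h0
    · rw [← h0]
      simp only [zero_mul, Real.negMulLog_zero, add_zero, sub_zero]
      exact mul_nonneg (hQ v) hβ0
    · have hQv : 0 < Q v := lt_of_le_of_ne (hQ v) (fun h' => h0.ne' (hs v h'.symm))
      have hβp : 0 < β := lt_of_lt_of_le h0 (hleβ v)
      have q3 := Real.log_le_sub_one_of_pos (x := Q v * β / P v) (by positivity)
      rw [Real.log_div (by positivity) h0.ne', Real.log_mul hQv.ne' hβp.ne'] at q3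
      have q4 := mul_le_mul_of_nonneg_left q3 h0.le
      have q5 : P v * (Q v * β / P v - 1) = Q v * β - P v := by field_simp
      rw [q5] at q4
      rw [Real.negMulLog]
      linarith
  have hs2 := Finset.sum_le_sum (s := univ) fun t _ => hpt t
  rw [Finset.sum_sub_distrib, Finset.sum_add_distrib, Finset.sum_add_distrib, ← Finset.sum_mul, ← hβ,
    ← Finset.sum_mul] at hs2
  have hfin : (∑ v, Q v) * β ≤ 1 * β := mul_le_mul_of_nonneg_right hQ1 hβ0
  rw [← Finset.sum_mul, ← hβ]
  linarith

end abs

section cube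
variable {ι : Type} [Fintype ι] [DecidableEq ι]

theorem res_mrg_self (g : (ι → Bool) → ℝ) (A : Finset ι) (x z : ι → Bool) : res g A (mrg A x z) = res g A z := by
  ext u
  unfold res
  congr 1
  ext i
  unfold mrg
  by_cases h : i ∈ A <;> simp [h]

theorem res_compl_mrg (g : (ι → Bool) → ℝ) (A : Finset ι) (x z : ι → Bool) : res g Aᶜ (mrg A x z) = res g Aᶜ x := by
  ext u
  unfold res
  congr 1
  ext i
  unfold mrg
  by_cases h : i ∈ A <;> simp [h]

theorem E_E_res (g : (ι → Bool) → ℝ) (A : Finset ι) : E (fun z => E (res g A z)) = E g := E_E_mrg g A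

theorem E_coef_res_sq' (g : (ι → Bool) → ℝ) (R T : Finset ι) :
    E (fun z => (coef (res g R z) T) ^ 2) = ∑ S ∈ univ.filter (fun S => S ∩ R = T), (coef g S) ^ 2 := by
  rw [Finset.sum_filter]
  by_cases hT : T ⊆ R
  · exact E_coef_res_sq g R T hT
  · have h1 : ∀ z, (coef (res g R z) T) ^ 2 = 0 := fun z => by
      rw [coef_res_of_not_subset g R z T hT]; norm_num
    rw [E_congr h1, E_const]
    symm
    apply Finset.sum_eq_zero
    intro S _
    rw [if_neg]
    intro h
    exact hT (h ▸ Finset.inter_subset_right)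

theorem E_pos_of (b : (ι → Bool) → ℝ) (hb : ∀ x, 0 ≤ b x) (x : ι → Bool) (hx : 0 < b x) : 0 < E b := by
  unfold E
  apply div_pos _ card_cube_pos
  exact Finset.sum_pos' (fun y _ => hb y) ⟨x, Finset.mem_univ x, hx⟩

/-- entropy of the marginals of a 0/1 valued function -/
theorem marg_entropy (b : (ι → Bool) → ℝ) (hb : ∀ x, b x = 0 ∨ b x = 1) (A : Finset ι) :
    Real.negMulLog (E b) ≤ E (fun y => Real.negMulLog (E (res b A y)))
      + E (fun x => Real.negMulLog (E (res b Aᶜ x))) := by
  have hb0 : ∀ x, 0 ≤ b x := fun x => by rcases hb x with h | h <;> rw [h] <;> norm_num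
  set m : (ι → Bool) → ℝ := fun z => E (res b A z) with hm
  set m' : (ι → Bool) → ℝ := fun z => E (res b Aᶜ z) with hm'
  set β := E b with hβ
  have hm0 : ∀ z, 0 ≤ m z := fun z => E_nonneg fun x => hb0 _
  have hm'0 : ∀ z, 0 ≤ m' z := fun z => E_nonneg fun x => hb0 _
  have hβ0 : 0 ≤ β := E_nonneg hb0
  have hself : ∀ (R : Finset ι) (z : ι → Bool), res b R z z = b z := by
    intro R z
    unfold res
    congr 1
    ext i
    unfold mrg
    by_cases h : i ∈ R <;> simp [h]
  have key : ∀ z, b z * Real.log (m z) + b z * Real.log (m' z) - b z * Real.log β ≤ m z * m' z / β - b z := by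
    intro z
    rcases hb z with h | h
    · rw [h]
      simp only [zero_mul, add_zero, sub_zero]
      exact div_nonneg (mul_nonneg (hm0 z) (hm'0 z)) hβ0
    · have h1 : 0 < m z := E_pos_of _ (fun x => hb0 _) z (by rw [hself, h]; norm_num)
      have h2 : 0 < m' z := E_pos_of _ (fun x => hb0 _) z (by rw [hself, h]; norm_num)
      have h3 : 0 < β := E_pos_of _ hb0 z (by rw [h]; norm_num)
      rw [h]
      have h4 := Real.log_le_sub_one_of_pos (x := m z * m' z / β) (by positivity)
      rw [Real.log_div (by positivity) h3.ne', Real.log_mul h1.ne' h2.ne'] at h4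
      linarith
  have hE := E_mono key
  rw [E_sub, E_add, E_sub] at hE
  have e1 : E (fun z => b z * Real.log (m z)) = - E (fun y => Real.negMulLog (m y)) := by
    rw [← E_E_mrg (fun z => b z * Real.log (m z)) A]
    have : ∀ z, E (fun x => b (mrg A x z) * Real.log (m (mrg A x z))) = (-1) * Real.negMulLog (m z) := by
      intro z
      have h1 : ∀ x, b (mrg A x z) * Real.log (m (mrg A x z)) = res b A z x * Real.log (m z) := by
        intro x
        simp only [hm, res_mrg_self]
        rfl
      rw [E_congr h1, E_mul_right, Real.negMulLog]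
      ring
    rw [E_congr this, E_mul_left]
    ring
  have e2 : E (fun z => b z * Real.log (m' z)) = - E (fun y => Real.negMulLog (m' y)) := by
    rw [← E_E_mrg (fun z => b z * Real.log (m' z)) Aᶜ]
    have : ∀ z, E (fun x => b (mrg Aᶜ x z) * Real.log (m' (mrg Aᶜ x z))) = (-1) * Real.negMulLog (m' z) := by
      intro z
      have h1 : ∀ x, b (mrg Aᶜ x z) * Real.log (m' (mrg Aᶜ x z)) = res b Aᶜ z x * Real.log (m' z) := by
        intro x
        simp only [hm', res_mrg_self]
        rfl
      rw [E_congr h1, E_mul_right, Real.negMulLog]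
      ring
    rw [E_congr this, E_mul_left]
    ring
  have e3 : E (fun z => b z * Real.log β) = - Real.negMulLog β := by
    rw [E_mul_right, Real.negMulLog]; ring
  have e4 : E (fun z => m z * m' z / β) ≤ β := by
    have h1 : E (fun z => m z * m' z) = β * β := by
      rw [← E_E_mrg (fun z => m z * m' z) A]
      have : ∀ z, E (fun x => m (mrg A x z) * m' (mrg A x z)) = m z * β := by
        intro z
        have h1 : ∀ x, m (mrg A x z) * m' (mrg A x z) = m z * m' x := by
          intro x
          simp only [hm, hm', res_mrg_self, res_compl_mrg]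
        rw [E_congr h1, E_mul_left, E_E_res]
      rw [E_congr this, E_mul_right, E_E_res]
    have h2 : ∀ z, m z * m' z / β = (m z * m' z) * β⁻¹ := fun z => div_eq_mul_inv _ _
    rw [E_congr h2, E_mul_right, h1]
    by_cases h : β = 0
    · rw [h]; simp
    · rw [mul_assoc, mul_inv_cancel₀ h, mul_one]
  rw [e1, e2, e3] at hE
  linarith

/-- the information inequality -/
theorem info (b : (ι → Bool) → ℝ) (hb : ∀ x, b x = 0 ∨ b x = 1) (A : Finset ι) (Q Q' : Finset ι → ℝ)
    (hQ : ∀ v, 0 ≤ Q v) (hQ1 : ∑ v, Q v ≤ 1) (hQs : ∀ v, Q v = 0 → ∀ y, coef (res b A y) v = 0)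
    (hQ' : ∀ v, 0 ≤ Q' v) (hQ'1 : ∑ v, Q' v ≤ 1) (hQ's : ∀ v, Q' v = 0 → ∀ y, coef (res b Aᶜ y) v = 0) :
    loss b A ≤ E (fun y => ∑ v, (coef (res b A y) v) ^ 2 * Real.log ((coef (res b A y) v) ^ 2 / (E (res b A y) * Q v)))
      + E (fun y => ∑ v, (coef (res b Aᶜ y) v) ^ 2 * Real.log ((coef (res b Aᶜ y) v) ^ 2 / (E (res b Aᶜ y) * Q' v))) := by
  have hb0 : ∀ x, 0 ≤ b x := fun x => by rcases hb x with h | h <;> rw [h] <;> norm_num
  have hbsq : ∀ x, b x ^ 2 = b x := fun x => by rcases hb x with h | h <;> rw [h] <;> norm_num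
  -- half of the right-hand side
  have half : ∀ (R : Finset ι) (q : Finset ι → ℝ) (hq : ∀ v, 0 ≤ q v) (hq1 : ∑ v, q v ≤ 1)
      (hqs : ∀ v, q v = 0 → ∀ y, coef (res b R y) v = 0),
      - E (fun y => ent (res b R y)) + E (fun y => Real.negMulLog (E (res b R y)))
        + ∑ v, Real.negMulLog (∑ S ∈ univ.filter (fun S => S ∩ R = v), (coef b S) ^ 2) - Real.negMulLog (E b)
      ≤ E (fun y => ∑ v, (coef (res b R y) v) ^ 2 * Real.log ((coef (res b R y) v) ^ 2 / (E (res b R y) * q v))) := by
    intro R q hq hq1 hqs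
    have hsum : ∀ y, ∑ v, (coef (res b R y) v) ^ 2 = E (res b R y) := by
      intro y
      rw [parseval]
      apply E_congr
      intro x
      unfold res
      exact hbsq _
    have hpt : ∀ y, ∑ v, (coef (res b R y) v) ^ 2 * Real.log ((coef (res b R y) v) ^ 2 / (E (res b R y) * q v))
        = ((-1) * ent (res b R y) + Real.negMulLog (E (res b R y))) - ∑ v, (coef (res b R y) v) ^ 2 * Real.log (q v) := by
      intro y
      have h1 : ∀ v, (coef (res b R y) v) ^ 2 * Real.log ((coef (res b R y) v) ^ 2 / (E (res b R y) * q v))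
          = (-1) * Real.negMulLog ((coef (res b R y) v) ^ 2) - (coef (res b R y) v) ^ 2 * Real.log (E (res b R y))
            - (coef (res b R y) v) ^ 2 * Real.log (q v) := by
        intro v
        by_cases h0 : coef (res b R y) v = 0
        · simp [h0]
        · have hqv : q v ≠ 0 := fun h => h0 (hqs v h y)
          have hc : (coef (res b R y) v) ^ 2 ≠ 0 := pow_ne_zero 2 h0
          have hE : E (res b R y) ≠ 0 := by
            rw [← hsum y]
            apply ne_of_gt
            exact Finset.sum_pos' (fun v _ => sq_nonneg _) ⟨v, Finset.mem_univ v, lt_of_le_of_ne (sq_nonneg _) hc.symm⟩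
          rw [Real.log_div hc (mul_ne_zero hE hqv), Real.log_mul hE hqv, Real.negMulLog]
          ring
      simp only [h1]
      rw [Finset.sum_sub_distrib, Finset.sum_sub_distrib, ← Finset.mul_sum, ← Finset.sum_mul, hsum]
      unfold ent
      rw [Real.negMulLog]
      ring
    rw [E_congr hpt, E_sub, E_add, E_mul_left]
    have h2 : E (fun y => ∑ v, (coef (res b R y) v) ^ 2 * Real.log (q v))
        = ∑ v, (∑ S ∈ univ.filter (fun S => S ∩ R = v), (coef b S) ^ 2) * Real.log (q v) := by
      rw [E_sum]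
      apply Finset.sum_congr rfl
      intro v _
      rw [E_mul_right, E_coef_res_sq']
    rw [h2]
    have h3 := gibbsQ (fun v => ∑ S ∈ univ.filter (fun S => S ∩ R = v), (coef b S) ^ 2) q
      (fun v => Finset.sum_nonneg fun S _ => sq_nonneg _) hq hq1 (by
        intro v hv
        rw [← E_coef_res_sq']
        have : ∀ z, (coef (res b R z) v) ^ 2 = 0 := fun z => by rw [hqs v hv z]; norm_num
        rw [E_congr this, E_const])
    have h4 : ∑ v, ∑ S ∈ univ.filter (fun S => S ∩ R = v), (coef b S) ^ 2 = E b := by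
      rw [Finset.sum_fiberwise univ (fun S : Finset ι => S ∩ R) (fun S => (coef b S) ^ 2), parseval]
      exact E_congr hbsq
    rw [h4] at h3
    linarith
  have H1 := half A Q hQ hQ1 hQs
  have H2 := half Aᶜ Q' hQ' hQ'1 hQ's
  have H3 := marg_entropy b hb A
  have H4 := subadd (fun T : Finset ι => (coef b T) ^ 2) (fun T => sq_nonneg _) (fun T => T ∩ A) (fun T => T ∩ Aᶜ) (by
    intro S T h
    simp only [Prod.mk.injEq] at h
    rw [← Finset.inter_univ S, ← Finset.inter_univ T, ← Finset.union_compl A, Finset.inter_union_distrib_left,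
      Finset.inter_union_distrib_left, h.1, h.2])
  have h4 : ∑ S : Finset ι, (coef b S) ^ 2 = E b := by
    rw [parseval]
    exact E_congr hbsq
  rw [h4] at H4
  unfold loss
  have H5 : ent b = ∑ T : Finset ι, Real.negMulLog ((coef b T) ^ 2) := rfl
  rw [H5]
  linarith

end cube

end Pool.FEI
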