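import Pool.Agent.FEI.Core
set_option autoImplicit false
set_option linter.unusedSectionVars false
set_option linter.unusedVariables false

namespace Pool.FEI
open Finset

/-! ## Definitions for the second (information potential) argument -/

/-- the profile `H((1-μ)/2) + (1-μ²)` -/
noncomputable def Fp (μ : ℝ) : ℝ :=
  Real.negMulLog ((1 - μ) / 2) + Real.negMulLog ((1 + μ) / 2) + (1 - μ ^ 2)

/-- prefix sets of coordinates -/
def pre (n m : ℕ) : Finset (Fin n) := univ.filter (fun i => (i : ℕ) < m)

section cube
variable {ι : Type} [Fintype ι] [DecidableEq ι]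

/-- total influence -/
noncomputable def infl (g : (ι → Bool) → ℝ) : ℝ := ∑ T : Finset ι, (T.card : ℝ) * (coef g T) ^ 2

/-- drop of the potential at the cut `(A, Aᶜ)` -/
noncomputable def drop (g : (ι → Bool) → ℝ) (A : Finset ι) : ℝ :=
  E (fun y => Fp (E (res g A y))) + E (fun x => Fp (E (res g Aᶜ x))) - Fp (E g)

/-- distance of `g` to the functions of the coordinates in `A` -/
noncomputable def dA (g : (ι → Bool) → ℝ) (A : Finset ι) : ℝ :=
  (1 - E (fun x => |E (res g Aᶜ x)|)) / 2

/-- the information functional (`E b` times the mutual information of the two halves of a uniform point of `b`) -/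
noncomputable def SI (b : (ι → Bool) → ℝ) (A : Finset ι) : ℝ :=
  E (fun y => Real.negMulLog (E (res b A y))) + E (fun x => Real.negMulLog (E (res b Aᶜ x)))
    - Real.negMulLog (E b)

/-- `g` restricted to the cut `(A, Aᶜ)` is a function of `k` greater-than comparisons -/
def GTcut (k : ℕ) (g : (ι → Bool) → ℝ) (A : Finset ι) : Prop :=
  ∃ (X Y : Fin k → (ι → Bool) → ℝ) (Φ : (Fin k → Bool) → ℝ),
    ∀ x y, g (mrg A x y) = Φ (fun i => decide (Y i y ≤ X i x))

end cube
end Pool.FEI
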