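import Pool.Agent.FEI.BoxDefs
set_option autoImplicit false
set_option linter.unusedSectionVars false
set_option linter.unusedVariables false
namespace Pool.FEI
open Finset

theorem geom_le_two (J : ℕ) : ∑ j ∈ range J, (1 / 2 : ℝ) ^ j ≤ 2 := by
  have : ∑ j ∈ range J, (1 / 2 : ℝ) ^ j = 2 - 2 * (1 / 2 : ℝ) ^ J := by
    induction J with
    | zero => simp
    | succ J ih => rw [Finset.sum_range_succ, ih]; ring
  rw [this]
  have : (0 : ℝ) < (1 / 2 : ℝ) ^ J := by positivity
  linarith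

theorem geom_cut (J : ℕ) : ∀ a : ℝ, 0 ≤ a →
    ∑ j ∈ range J, (if (1 / 2 : ℝ) ^ j < a then (1 / 2 : ℝ) ^ j else 0) ≤ 2 * a := by
  induction J with
  | zero => intro a ha; simpa using ha
  | succ J ih =>
    intro a ha
    rw [Finset.sum_range_succ']
    have h1 : ∀ j : ℕ, (if (1 / 2 : ℝ) ^ (j + 1) < a then (1 / 2 : ℝ) ^ (j + 1) else 0)
        = (1 / 2) * (if (1 / 2 : ℝ) ^ j < 2 * a then (1 / 2 : ℝ) ^ j else 0) := by
      intro j
      have hiff : (1 / 2 : ℝ) ^ (j + 1) < a ↔ (1 / 2 : ℝ) ^ j < 2 * a := by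
        rw [pow_succ]
        constructor <;> intro h <;> linarith
      by_cases h : (1 / 2 : ℝ) ^ j < 2 * a
      · rw [if_pos h, if_pos (hiff.mpr h), pow_succ]; ring
      · rw [if_neg h, if_neg (fun h' => h (hiff.mp h'))]; ring
    simp only [h1]
    rw [← Finset.mul_sum]
    rcases le_or_gt a 1 with h | h
    · rw [if_neg (by rw [pow_zero]; linarith)]
      have := ih (2 * a) (by linarith)
      linarith
    · rw [if_pos (by rw [pow_zero]; exact h), pow_zero]
      have h2 : ∑ j ∈ range J, (if (1 / 2 : ℝ) ^ j < 2 * a then (1 / 2 : ℝ) ^ j else 0) ≤ 2 := by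
        refine le_trans (Finset.sum_le_sum ?_) (geom_le_two J)
        intro j _
        split_ifs
        · exact le_refl _
        · positivity
      linarith

section cube
variable {ι : Type} [Fintype ι] [DecidableEq ι]
/-! ### M7  Layer.lean -/
theorem quant (U : Finset (ι → Bool)) (Z : (ι → Bool) → ℝ) (τ : ℝ) (hτ : τ ≤ mu U) :
    τ ≤ mu (U.filter (fun x => mu (U.filter (fun x' => Z x' < Z x)) ≤ τ)) := by
  classical
  by_contra hcon
  push Not at hcon
  set W := U.filter (fun x => mu (U.filter (fun x' => Z x' < Z x)) ≤ τ) with hW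
  have hmono : ∀ {S T : Finset (ι → Bool)}, S ⊆ T → mu S ≤ mu T := by
    intro S T h
    unfold mu
    apply div_le_div_of_nonneg_right _ (by positivity)
    exact_mod_cast Finset.card_le_card h
  have hne : (U \ W).Nonempty := by
    rw [Finset.sdiff_nonempty]
    intro hsub
    have := hmono hsub
    linarith
  obtain ⟨x, hx, hmin⟩ := Finset.exists_min_image (U \ W) Z hne
  rw [Finset.mem_sdiff] at hx
  apply hx.2
  rw [hW, Finset.mem_filter]
  refine ⟨hx.1, ?_⟩
  have hsub : U.filter (fun x' => Z x' < Z x) ⊆ W := by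
    intro x' hx'
    rw [Finset.mem_filter] at hx'
    by_contra hn
    have := hmin x' (Finset.mem_sdiff.mpr ⟨hx'.1, hn⟩)
    linarith [hx'.2]
  have := hmono hsub
  linarith

theorem layer (S : Finset (ι → Bool)) (l : (ι → Bool) → ℝ) (hl : ∀ x, 0 ≤ l x) (c : ℝ) (hc : 0 < c) (hm : 0 < mu S) :
    ∃ Λ : ℕ → ℕ, (∀ j, mu (S.filter (fun x => (Λ j : ℝ) < l x)) ≤ c * (1 / 2) ^ j * mu S / 2) ∧
      ∀ J : ℕ, ∑ j ∈ range J, (1 / 2 : ℝ) ^ j * (Λ j : ℝ)
        ≤ (4 / c) * (1 + (∑ x ∈ S, l x) / 2 ^ Fintype.card ι / mu S) := by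
  classical
  set F : ℕ → ℝ := fun s => mu (S.filter (fun x => (s : ℝ) < l x)) with hF
  have hF0 : ∀ s, 0 ≤ F s := by
    intro s
    simp only [hF]
    unfold mu; positivity
  obtain ⟨M, hM⟩ : ∃ M : ℕ, ∀ x ∈ S, l x ≤ M := by
    refine ⟨S.sup (fun x => ⌈l x⌉₊), fun x hx => ?_⟩
    have h1 : ⌈l x⌉₊ ≤ S.sup (fun x => ⌈l x⌉₊) := Finset.le_sup (f := fun x => ⌈l x⌉₊) hx
    exact (Nat.le_ceil _).trans (by exact_mod_cast h1)
  have hFM : F M = 0 := by
    simp only [hF]
    have : S.filter (fun x => (M : ℝ) < l x) = ∅ := by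
      apply Finset.filter_eq_empty_iff.mpr
      intro x hx h
      linarith [hM x hx]
    rw [this]; simp [mu]
  have hex : ∀ j : ℕ, ∃ s : ℕ, F s ≤ c * (1 / 2) ^ j * mu S / 2 := fun j => ⟨M, by rw [hFM]; positivity⟩
  refine ⟨fun j => Nat.find (hex j), fun j => Nat.find_spec (hex j), ?_⟩
  intro J
  have hΛM : ∀ j, Nat.find (hex j) ≤ M := fun j => Nat.find_min' (hex j) (by rw [hFM]; positivity)
  have hlt : ∀ j s, s < Nat.find (hex j) → (1 / 2 : ℝ) ^ j < 2 * F s / (c * mu S) := by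
    intro j s h
    have := Nat.find_min (hex j) h
    push Not at this
    rw [lt_div_iff₀ (by positivity)]
    linarith
  have h1 : ∀ j, (1 / 2 : ℝ) ^ j * ((Nat.find (hex j) : ℕ) : ℝ)
      ≤ ∑ s ∈ range M, (if (1 / 2 : ℝ) ^ j < 2 * F s / (c * mu S) then (1 / 2 : ℝ) ^ j else 0) := by
    intro j
    have h2 : ∑ s ∈ range (Nat.find (hex j)), (1 / 2 : ℝ) ^ j
        ≤ ∑ s ∈ range M, (if (1 / 2 : ℝ) ^ j < 2 * F s / (c * mu S) then (1 / 2 : ℝ) ^ j else 0) := by
      have h3 : ∑ s ∈ range (Nat.find (hex j)), (1 / 2 : ℝ) ^ j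
          = ∑ s ∈ range (Nat.find (hex j)), (if (1 / 2 : ℝ) ^ j < 2 * F s / (c * mu S) then (1 / 2 : ℝ) ^ j else 0) := by
        apply Finset.sum_congr rfl
        intro s hs
        rw [if_pos (hlt j s (Finset.mem_range.mp hs))]
      rw [h3]
      apply Finset.sum_le_sum_of_subset_of_nonneg
      · intro s hs
        rw [Finset.mem_range] at *
        exact lt_of_lt_of_le hs (hΛM j)
      · intro s _ _
        split_ifs <;> positivity
    rw [Finset.sum_const, Finset.card_range, nsmul_eq_mul] at h2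
    linarith
  have h4 : ∑ s ∈ range M, F s ≤ mu S + (∑ x ∈ S, l x) / 2 ^ Fintype.card ι := by
    have h5 : ∀ s, F s = (∑ x ∈ S, if (s : ℝ) < l x then (1 : ℝ) else 0) / 2 ^ Fintype.card ι := by
      intro s
      simp only [hF]
      unfold mu
      rw [Finset.card_filter]
      push_cast
      rfl
    simp only [h5]
    rw [← Finset.sum_div, Finset.sum_comm]
    unfold mu
    rw [← add_div]
    apply div_le_div_of_nonneg_right _ (by positivity)
    have h6 : ((S.card : ℕ) : ℝ) = ∑ x ∈ S, (1 : ℝ) := by simp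
    rw [h6, ← Finset.sum_add_distrib]
    apply Finset.sum_le_sum
    intro x _
    rw [← Finset.sum_filter, Finset.sum_const, nsmul_eq_mul, mul_one]
    have h7 : ((range M).filter (fun s : ℕ => (s : ℝ) < l x)).card ≤ ⌈l x⌉₊ := by
      have : (range M).filter (fun s : ℕ => (s : ℝ) < l x) ⊆ range ⌈l x⌉₊ := by
        intro s hs
        rw [Finset.mem_filter] at hs
        rw [Finset.mem_range, Nat.lt_ceil]
        exact hs.2
      simpa using Finset.card_le_card this
    have h8 := Nat.ceil_lt_add_one (hl x)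
    have h9 : (((range M).filter (fun s : ℕ => (s : ℝ) < l x)).card : ℝ) ≤ (⌈l x⌉₊ : ℝ) := by exact_mod_cast h7
    linarith
  calc ∑ j ∈ range J, (1 / 2 : ℝ) ^ j * ((Nat.find (hex j) : ℕ) : ℝ)
      ≤ ∑ j ∈ range J, ∑ s ∈ range M, (if (1 / 2 : ℝ) ^ j < 2 * F s / (c * mu S) then (1 / 2 : ℝ) ^ j else 0) :=
        Finset.sum_le_sum (fun j _ => h1 j)
    _ = ∑ s ∈ range M, ∑ j ∈ range J, (if (1 / 2 : ℝ) ^ j < 2 * F s / (c * mu S) then (1 / 2 : ℝ) ^ j else 0) :=
        Finset.sum_comm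
    _ ≤ ∑ s ∈ range M, 2 * (2 * F s / (c * mu S)) :=
        Finset.sum_le_sum (fun s _ => geom_cut J _ (by have := hF0 s; positivity))
    _ = (4 / (c * mu S)) * ∑ s ∈ range M, F s := by
        rw [Finset.mul_sum]
        apply Finset.sum_congr rfl
        intro s _
        ring
    _ ≤ (4 / (c * mu S)) * (mu S + (∑ x ∈ S, l x) / 2 ^ Fintype.card ι) :=
        mul_le_mul_of_nonneg_left h4 (by positivity)
    _ = (4 / c) * (1 + (∑ x ∈ S, l x) / 2 ^ Fintype.card ι / mu S) := by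
        field_simp
end cube
end Pool.FEI
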