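import Mathlib
set_option autoImplicit false
set_option linter.unusedSectionVars false
set_option linter.unusedVariables false

namespace Pool.FEI
open Finset

/-- level selection -/
theorem level_sel {V : Type} [Fintype V] (a Q : V → ℝ) (m : ℝ) (hm : 0 < m) (ha : ∑ v, (a v) ^ 2 ≤ m)
    (J : ℕ) (c : ℕ → ℝ) (hc : ∀ j, 0 ≤ c j) (good : ℕ → V → Prop)
    (hgood : ∀ j v, good j v → (a v) ^ 2 ≤ 4 * Real.exp (c j) * (m * Q v))
    (hQ : ∀ v, 0 ≤ Q v)
    (hbad : ∀ j, ∀ B : Finset V, (∀ v ∈ B, ¬ good j v) → ∑ v ∈ B, (a v) ^ 2 ≤ 8 * (1 / 2 : ℝ) ^ j * m)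
    (hlast : ∀ v, good J v) :
    ∑ v, (a v) ^ 2 * Real.log ((a v) ^ 2 / (m * Q v)) ≤ 2 * m + 16 * m * ∑ j ∈ range (J + 1), (1 / 2 : ℝ) ^ j * c j := by
  classical
  have hex : ∀ v, ∃ j, good j v := fun v => ⟨J, hlast v⟩
  let jv : V → ℕ := fun v => Nat.find (hex v)
  have hjv : ∀ v, good (jv v) v := fun v => Nat.find_spec (hex v)
  have hjvJ : ∀ v, jv v ≤ J := fun v => Nat.find_le (hlast v)
  have hjvmin : ∀ v j, j < jv v → ¬ good j v := fun v j h => Nat.find_min (hex v) h
  have hpt : ∀ v, (a v) ^ 2 * Real.log ((a v) ^ 2 / (m * Q v)) ≤ 2 * (a v) ^ 2 + (a v) ^ 2 * c (jv v) := by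
    intro v
    by_cases h0 : a v = 0
    · simp [h0]
    · have h1 := hgood (jv v) v (hjv v)
      have ha2 : 0 < (a v) ^ 2 := by positivity
      have hQv : 0 < Q v := by
        rcases (hQ v).eq_or_lt with h | h
        · rw [← h] at h1; simp at h1; exact absurd h1 h0
        · exact h
      have h2 : (a v) ^ 2 / (m * Q v) ≤ 4 * Real.exp (c (jv v)) := by
        rw [div_le_iff₀ (by positivity)]; exact h1
      have h3 : Real.log ((a v) ^ 2 / (m * Q v)) ≤ 2 + c (jv v) := by
        refine (Real.log_le_log (by positivity) h2).trans ?_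
        rw [Real.log_mul (by norm_num) (Real.exp_pos _).ne', Real.log_exp]
        have : Real.log 4 ≤ 2 := by
          have h4 : (4 : ℝ) = 2 ^ 2 := by norm_num
          rw [h4, Real.log_pow]
          have := Real.log_two_lt_d9
          push_cast
          linarith
        linarith
      have := mul_le_mul_of_nonneg_left h3 ha2.le
      linarith
  refine (Finset.sum_le_sum fun v _ => hpt v).trans ?_
  rw [Finset.sum_add_distrib, ← Finset.mul_sum]
  have hsplit : ∑ v, (a v) ^ 2 * c (jv v) = ∑ j ∈ range (J + 1), ∑ v ∈ univ.filter (fun v => jv v = j), (a v) ^ 2 * c (jv v) := by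
    rw [Finset.sum_fiberwise_of_maps_to]
    intro v _
    exact Finset.mem_range.mpr (Nat.lt_succ_of_le (hjvJ v))
  rw [hsplit]
  have hj : ∀ j ∈ range (J + 1), ∑ v ∈ univ.filter (fun v => jv v = j), (a v) ^ 2 * c (jv v) ≤ 16 * m * ((1 / 2 : ℝ) ^ j * c j) := by
    intro j _
    have e1 : ∑ v ∈ univ.filter (fun v => jv v = j), (a v) ^ 2 * c (jv v) = (∑ v ∈ univ.filter (fun v => jv v = j), (a v) ^ 2) * c j := by
      rw [Finset.sum_mul]
      apply Finset.sum_congr rfl
      intro v hv
      rw [Finset.mem_filter] at hv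
      rw [hv.2]
    rw [e1]
    have e2 : ∑ v ∈ univ.filter (fun v => jv v = j), (a v) ^ 2 ≤ 16 * (1 / 2 : ℝ) ^ j * m := by
      cases j with
      | zero =>
        have : ∑ v ∈ univ.filter (fun v => jv v = 0), (a v) ^ 2 ≤ ∑ v, (a v) ^ 2 :=
          Finset.sum_le_sum_of_subset_of_nonneg (Finset.filter_subset _ _) (fun v _ _ => sq_nonneg _)
        norm_num
        linarith
      | succ j =>
        have := hbad j (univ.filter (fun v => jv v = j + 1)) (by
          intro v hv
          rw [Finset.mem_filter] at hv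
          exact hjvmin v j (by rw [hv.2]; exact Nat.lt_succ_self j))
        refine this.trans (le_of_eq ?_)
        rw [pow_succ]; ring
    have := mul_le_mul_of_nonneg_right e2 (hc j)
    linarith
  have := Finset.sum_le_sum hj
  rw [← Finset.mul_sum] at this
  linarith

end Pool.FEI
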