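import Pool.Agent.FEI.Rec
set_option autoImplicit false
set_option linter.unusedSectionVars false
set_option linter.unusedVariables false
namespace Pool.FEI
open Finset
section cube
variable {ι : Type} [Fintype ι] [DecidableEq ι]

/-- the sign with value one at zero -/
noncomputable def sg (t : ℝ) : ℝ := if 0 ≤ t then 1 else -1

theorem sg_or (t : ℝ) : sg t = 1 ∨ sg t = -1 := by
  unfold sg; split_ifs
  · exact Or.inl rfl
  · exact Or.inr rfl

theorem mul_sg (t : ℝ) : t * sg t = |t| := by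
  unfold sg
  split_ifs with h
  · rw [abs_of_nonneg h, mul_one]
  · rw [abs_of_neg (not_le.mp h)]; ring

/-- the best approximation of `g` by a function of the coordinates in `A` -/
noncomputable def bst (g : (ι → Bool) → ℝ) (A : Finset ι) : (ι → Bool) → ℝ := fun x => sg (E (res g Aᶜ x))

theorem bst_PM (g : (ι → Bool) → ℝ) (A : Finset ι) : PM (bst g A) := fun x => sg_or _

theorem bst_Dep (g : (ι → Bool) → ℝ) (A : Finset ι) : Dep (bst g A) A := by
  intro u u' h
  unfold bst
  congr 2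
  ext x
  unfold res
  congr 1
  ext i
  unfold mrg
  by_cases hi : i ∈ A
  · simp [hi, h i hi]
  · simp [hi]

theorem E_mul_Dep (g h : (ι → Bool) → ℝ) (A : Finset ι) (hD : Dep h A) :
    E (fun x => g x * h x) = E (fun x => E (res g Aᶜ x) * h x) := by
  rw [← E_E_mrg (fun x => g x * h x) Aᶜ]
  apply E_congr
  intro z
  rw [← E_mul_right]
  apply E_congr
  intro u
  have : h (mrg Aᶜ u z) = h z := by
    apply hD
    intro i hi
    unfold mrg
    simp [hi]
  rw [this]
  rfl

theorem E_mul_bst (g : (ι → Bool) → ℝ) (A : Finset ι) : E (fun x => g x * bst g A x) = 1 - 2 * dA g A := by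
  rw [E_mul_Dep g (bst g A) A (bst_Dep g A)]
  have : ∀ x, E (res g Aᶜ x) * bst g A x = |E (res g Aᶜ x)| := fun x => mul_sg _
  rw [E_congr this]
  unfold dA
  ring

theorem inter_lemma (g : (ι → Bool) → ℝ) (hg : PM g) (A B : Finset ι) (hAB : A ∪ B = univ) :
    dA g (A ∩ B) ≤ 2 * dA g A + dA g B := by
  set h1 := bst g A with hh1
  set h2 := bst g B with hh2
  have e1 : E (fun x => g x * h1 x) = 1 - 2 * dA g A := E_mul_bst g A
  have e2 : E (fun x => g x * h2 x) = 1 - 2 * dA g B := E_mul_bst g B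
  have hPM1 : PM h1 := bst_PM g A
  have hPM2 : PM h2 := bst_PM g B
  have e3 : 1 - 2 * (dA g A + dA g B) ≤ E (fun x => h1 x * h2 x) := by
    have h : ∀ x, g x * h1 x + g x * h2 x - 1 ≤ h1 x * h2 x := by
      intro x
      rcases hg x with a | a <;> rcases hPM1 x with b | b <;> rcases hPM2 x with c | c <;> rw [a, b, c] <;> norm_num
    have := E_mono h
    rw [E_sub, E_add, E_const, e1, e2] at this
    linarith
  have e4 : E (fun x => h1 x * h2 x) ≤ E (fun x => |E (res h1 (A ∩ B)ᶜ x)|) := by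
    rw [E_mul_Dep h1 h2 B (bst_Dep g B)]
    apply E_mono
    intro x
    have h : E (res h1 Bᶜ x) = E (res h1 (A ∩ B)ᶜ x) := by
      apply E_congr
      intro u
      unfold res
      apply bst_Dep g A
      intro i hi
      unfold mrg
      by_cases hb : i ∈ B
      · simp [hi, hb]
      · simp [hi, hb]
    rw [h]
    rcases hPM2 x with c | c <;> rw [c]
    · rw [mul_one]; exact le_abs_self _
    · rw [mul_neg_one]; exact neg_le_abs _
  have e5 : E (fun x => |E (res h1 (A ∩ B)ᶜ x)|) - 2 * dA g A ≤ E (fun x => |E (res g (A ∩ B)ᶜ x)|) := by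
    have h : ∀ x, |E (res h1 (A ∩ B)ᶜ x)| ≤ |E (res g (A ∩ B)ᶜ x)| + E (res (fun x => 1 - g x * h1 x) (A ∩ B)ᶜ x) := by
      intro x
      have hkey : ∀ a b : ℝ, (a = 1 ∨ a = -1) → (b = 1 ∨ b = -1) → (-1) * (1 - a * b) ≤ b - a ∧ b - a ≤ 1 - a * b := by
        intro a b ha hb
        rcases ha with ha | ha <;> rcases hb with hb | hb <;> rw [ha, hb] <;> norm_num
      have h3 : |E (res h1 (A ∩ B)ᶜ x) - E (res g (A ∩ B)ᶜ x)| ≤ E (res (fun x => 1 - g x * h1 x) (A ∩ B)ᶜ x) := by
        rw [← E_sub, abs_le]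
        constructor
        · have : - E (res (fun x => 1 - g x * h1 x) (A ∩ B)ᶜ x) = E (fun u => (-1) * res (fun x => 1 - g x * h1 x) (A ∩ B)ᶜ x u) := by
            rw [E_mul_left]; ring
          rw [this]
          apply E_mono
          intro u
          exact (hkey _ _ (hg _) (hPM1 _)).1
        · apply E_mono
          intro u
          exact (hkey _ _ (hg _) (hPM1 _)).2
      have h4 := abs_sub_abs_le_abs_sub (E (res h1 (A ∩ B)ᶜ x)) (E (res g (A ∩ B)ᶜ x))
      linarith
    have := E_mono h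
    rw [E_add, E_E_res, E_sub, E_const, e1] at this
    linarith
  unfold dA at *
  linarith

theorem dA_nonneg (g : (ι → Bool) → ℝ) (hg : PM g) (A : Finset ι) : 0 ≤ dA g A := by
  unfold dA
  have h : ∀ x, |E (res g Aᶜ x)| ≤ 1 := fun x => abs_E_le_one _ fun u => hg _
  have := E_mono h
  rw [E_const] at this
  linarith

theorem dA_univ (g : (ι → Bool) → ℝ) (hg : PM g) : dA g univ = 0 :=
  dA_of_Dep g hg univ univ (Dep_univ g) (Finset.Subset.refl _)
end cube

theorem path_lemma (n : ℕ) (hn : 0 < n) (g : (Fin n → Bool) → ℝ) (hg : PM g) :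
    ∃ (i : Fin n) (m : ℕ), dA g {i} ≤ 3 * min (dA g (pre n m)) (dA g (pre n m)ᶜ) := by
  classical
  have hpren : pre n n = univ := by
    unfold pre; ext i; simp
  have hex : ∃ m, 1 ≤ m ∧ dA g (pre n m) ≤ dA g (pre n m)ᶜ := by
    refine ⟨n, hn, ?_⟩
    rw [hpren, dA_univ g hg]
    exact dA_nonneg g hg _
  obtain ⟨m, ⟨hm1, hm2⟩, hmin⟩ : ∃ m, (1 ≤ m ∧ dA g (pre n m) ≤ dA g (pre n m)ᶜ) ∧
      ∀ m' < m, ¬ (1 ≤ m' ∧ dA g (pre n m') ≤ dA g (pre n m')ᶜ) :=
    ⟨Nat.find hex, Nat.find_spec hex, fun m' h => Nat.find_min hex h⟩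
  have hmn : m ≤ n := by
    by_contra hlt
    apply hmin n (not_le.mp hlt)
    refine ⟨hn, ?_⟩
    rw [hpren, dA_univ g hg]
    exact dA_nonneg g hg _
  have hi : m - 1 < n := by omega
  have hinter : pre n m ∩ (pre n (m - 1))ᶜ = {⟨m - 1, hi⟩} := by
    ext j
    unfold pre
    simp only [Finset.mem_inter, Finset.mem_filter, Finset.mem_univ, true_and, Finset.mem_compl, not_lt,
      Finset.mem_singleton, Fin.ext_iff]
    omega
  have hunion : pre n m ∪ (pre n (m - 1))ᶜ = univ := by
    ext j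
    unfold pre
    simp only [Finset.mem_union, Finset.mem_filter, Finset.mem_univ, true_and, Finset.mem_compl, not_lt, iff_true]
    omega
  have hI := inter_lemma g hg (pre n m) (pre n (m - 1))ᶜ hunion
  rw [hinter] at hI
  have hq1 : min (dA g (pre n m)) (dA g (pre n m)ᶜ) = dA g (pre n m) := min_eq_left hm2
  have hq2 : min (dA g (pre n (m - 1))) (dA g (pre n (m - 1))ᶜ) = dA g (pre n (m - 1))ᶜ := by
    rcases Nat.eq_or_lt_of_le hm1 with h | h
    · have h0 : m - 1 = 0 := by omega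
      have h1 : (pre n (m - 1))ᶜ = univ := by
        rw [h0]; unfold pre; ext i; simp
      rw [h1, dA_univ g hg]
      exact min_eq_right (dA_nonneg g hg _)
    · have h1 := hmin (m - 1) (by omega)
      push Not at h1
      exact min_eq_right (h1 (by omega)).le
  rcases le_total (dA g (pre n m)) (dA g (pre n (m - 1))ᶜ) with h | h
  · refine ⟨⟨m - 1, hi⟩, m - 1, ?_⟩
    rw [hq2]
    linarith
  · refine ⟨⟨m - 1, hi⟩, m, ?_⟩
    rw [hq1]
    linarith
end Pool.FEI
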