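import Pool.Agent.FEI.Rec
import Pool.Agent.FEI.Block
import Pool.Agent.FEI.Path
import Pool.Agent.FEI.Half
set_option autoImplicit false
set_option linter.unusedSectionVars false
set_option linter.unusedVariables false

namespace Pool.FEI
open Finset

section cube
variable {ι : Type} [Fintype ι] [DecidableEq ι]

/-- `1 - (E g)²` splits with a non-negative cross term -/
theorem var_drop_nonneg (g : (ι → Bool) → ℝ) (hg : PM g) (A : Finset ι) :
    0 ≤ E (fun y => 1 - (E (res g A y)) ^ 2) + E (fun x => 1 - (E (res g Aᶜ x)) ^ 2) - (1 - (E g) ^ 2) := by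
  -- E_y (E g_y)^2 = sum over S with S ∩ A = ∅
  have h1 : ∀ B : Finset ι, E (fun y => 1 - (E (res g B y)) ^ 2)
      = ∑ S : Finset ι, if S ∩ B = ∅ then 0 else (coef g S) ^ 2 := by
    intro B
    have e1 : ∀ y, 1 - (E (res g B y)) ^ 2 = 1 - (coef (res g B y) ∅) ^ 2 := fun y => by rw [coef_empty]
    rw [E_congr e1, E_sub, E_const, E_coef_res_sq g B ∅ (Finset.empty_subset B)]
    have e2 : ∑ S, (coef g S) ^ 2 = 1 := by
      rw [parseval]
      have h3 : ∀ x, g x ^ 2 = 1 := fun x => by rcases hg x with h | h <;> rw [h] <;> norm_num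
      rw [E_congr h3, E_const]
    rw [← e2, ← Finset.sum_sub_distrib]
    apply Finset.sum_congr rfl
    intro S _
    split_ifs <;> simp
  have h2 : 1 - (E g) ^ 2 = ∑ S : Finset ι, if S = ∅ then 0 else (coef g S) ^ 2 := by
    have e2 : ∑ S, (coef g S) ^ 2 = 1 := by
      rw [parseval]
      have h3 : ∀ x, g x ^ 2 = 1 := fun x => by rcases hg x with h | h <;> rw [h] <;> norm_num
      rw [E_congr h3, E_const]
    have e3 : (E g) ^ 2 = ∑ S : Finset ι, if S = ∅ then (coef g S) ^ 2 else 0 := by
      rw [Finset.sum_ite_eq' Finset.univ ∅ (fun S => (coef g S) ^ 2)]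
      simp [coef_empty]
    rw [e3]
    nth_rewrite 1 [← e2]
    rw [← Finset.sum_sub_distrib]
    apply Finset.sum_congr rfl
    intro S _
    split_ifs <;> simp
  rw [h1, h1, h2, ← Finset.sum_add_distrib, ← Finset.sum_sub_distrib]
  apply Finset.sum_nonneg
  intro S _
  have hsq := sq_nonneg (coef g S)
  by_cases hS : S = ∅
  · subst hS; simp
  · by_cases ha : S ∩ A = ∅
    · by_cases hb : S ∩ Aᶜ = ∅
      · exfalso
        apply hS
        rw [← Finset.inter_univ S, ← Finset.union_compl A, Finset.inter_union_distrib_left, ha, hb]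
        simp
      · simp [hS, ha, hb]
    · by_cases hb : S ∩ Aᶜ = ∅
      · simp [hS, ha, hb]
      · simp only [hS, ha, hb, if_false]; linarith

/-- the information functional of either level set is bounded by the drop -/
theorem SI_le_drop (g : (ι → Bool) → ℝ) (hg : PM g) (A : Finset ι) (σ : ℝ) (hσ : σ = 1 ∨ σ = -1) :
    SI (fun x => (1 - σ * g x) / 2) A ≤ drop g A := by
  have hb1 : ∀ (τ : ℝ), (τ = 1 ∨ τ = -1) → ∀ x, (1 - τ * g x) / 2 = 0 ∨ (1 - τ * g x) / 2 = 1 := by
    intro τ hτ x
    rcases hτ with h | h <;> rcases hg x with h' | h' <;> rw [h, h'] <;> norm_num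
  have hσ' : -σ = 1 ∨ -σ = -1 := by rcases hσ with h | h <;> rw [h] <;> norm_num
  have hm := marg_entropy (fun x => (1 - (-σ) * g x) / 2) (hb1 (-σ) hσ') A
  have hv := var_drop_nonneg g hg A
  have hEb : ∀ (τ : ℝ) (f : (ι → Bool) → ℝ), E (fun x => (1 - τ * f x) / 2) = (1 - τ * E f) / 2 := fun τ f => E_beta f τ
  have hres : ∀ (τ : ℝ) (R : Finset ι) (y : ι → Bool),
      E (res (fun x => (1 - τ * g x) / 2) R y) = (1 - τ * E (res g R y)) / 2 := by
    intro τ R y
    exact hEb τ (res g R y)
  have hFp : ∀ μ : ℝ, Fp μ = Real.negMulLog ((1 - σ * μ) / 2) + Real.negMulLog ((1 - (-σ) * μ) / 2) + (1 - μ ^ 2) := by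
    intro μ
    unfold Fp
    rcases hσ with h | h
    · rw [h]; norm_num
    · rw [h]; norm_num; ring
  have hdrop : drop g A = SI (fun x => (1 - σ * g x) / 2) A + SI (fun x => (1 - (-σ) * g x) / 2) A
      + (E (fun y => 1 - (E (res g A y)) ^ 2) + E (fun x => 1 - (E (res g Aᶜ x)) ^ 2) - (1 - (E g) ^ 2)) := by
    unfold drop SI
    simp only [hres, hEb]
    rw [E_congr (fun y => hFp (E (res g A y))), E_congr (fun y => hFp (E (res g Aᶜ y))), hFp (E g)]
    rw [E_add, E_add, E_add, E_add]
    ring
  have hSI : 0 ≤ SI (fun x => (1 - (-σ) * g x) / 2) A := by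
    unfold SI
    linarith
  rw [hdrop]
  linarith

/-- the change of scale, extracted from the first argument -/
theorem loss_affine (g : (ι → Bool) → ℝ) (hg : PM g) (σ : ℝ) (hσ : σ = 1 ∨ σ = -1) (A : Finset ι) :
    loss g A ≤ 4 * loss (fun x => (1 - σ * g x) / 2) A + 36 * E (fun x => (1 - σ * g x) / 2) := by
  set b : (ι → Bool) → ℝ := fun x => (1 - σ * g x) / 2 with hbdef
  have hb : ∀ x, b x = 0 ∨ b x = 1 := by
    intro x
    simp only [hbdef]
    rcases hσ with h | h <;> rcases hg x with h' | h' <;> rw [h, h'] <;> norm_num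
  have hgb : ∀ x, g x = σ * (1 - 2 * b x) := by
    intro x
    simp only [hbdef]
    rcases hσ with h | h <;> rw [h] <;> ring
  have hgeq : g = fun x => σ * (1 - 2 * b x) := funext hgb
  have hres : ∀ (R : Finset ι) (y : ι → Bool), res g R y = fun x => σ * (1 - 2 * res b R y x) := by
    intro R y
    ext x
    exact hgb _
  have hb0 : ∀ x, 0 ≤ b x := fun x => by rcases hb x with h | h <;> rw [h] <;> norm_num
  have hb1 : ∀ x, b x ≤ 1 := fun x => by rcases hb x with h | h <;> rw [h] <;> norm_num
  set β := E b with hβb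
  have hβ0 : 0 ≤ β := E_nonneg hb0
  have hβ1 : β ≤ 1 := E_le_one _ hb1
  have eR : ∀ R : Finset ι, E (fun y => ent (res g R y))
      = 4 * E (fun y => ent (res b R y)) - 4 * Real.log 4 * β + E (fun y => rr (E (res b R y))) := by
    intro R
    have h1 : ∀ y, ent (res g R y) = (4 * ent (res b R y) - 4 * Real.log 4 * E (res b R y)) + rr (E (res b R y)) := by
      intro y
      rw [hres, ent_affine (res b R y) (fun x => hb _) σ hσ]
    rw [E_congr h1, E_add, E_sub, E_mul_left, E_mul_left, E_E_res]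
  have eg : ent g = 4 * ent b - 4 * Real.log 4 * β + rr β := by
    rw [hgeq, ent_affine b hb σ hσ]
  have hlow : ∀ R : Finset ι, - (8 * β) ≤ E (fun y => rr (E (res b R y))) := by
    intro R
    have h1 : ∀ y, (-8) * E (res b R y) ≤ rr (E (res b R y)) := by
      intro y
      have := rr_lower (E (res b R y)) (E_nonneg fun x => hb0 _) (E_le_one _ fun x => hb1 _)
      linarith
    have h2 := E_mono h1
    rw [E_mul_left, E_E_res] at h2
    linarith
  have h1 := hlow A
  have h2 := hlow Aᶜ
  have h3 := rr_upper β hβ0 hβ1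
  have h4 := log_four_le
  unfold loss
  rw [eg, eR A, eR Aᶜ]
  nlinarith

theorem nearJ (K : ℝ) (hK : 0 ≤ K) (g : (ι → Bool) → ℝ) (hg : PM g) (A : Finset ι)
    (hloss : ∀ σ : ℝ, (σ = 1 ∨ σ = -1) → loss (fun x => (1 - σ * g x) / 2) A
      ≤ K * (E (fun x => (1 - σ * g x) / 2) + SI (fun x => (1 - σ * g x) / 2) A)) :
    loss g A ≤ (4 * K + 36) * ((1 - |E g|) / 2 + drop g A) := by
  obtain ⟨σ, hσ, hσE⟩ : ∃ σ : ℝ, (σ = 1 ∨ σ = -1) ∧ σ * E g = |E g| := by
    rcases le_or_gt 0 (E g) with h | h
    · exact ⟨1, Or.inl rfl, by rw [abs_of_nonneg h, one_mul]⟩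
    · exact ⟨-1, Or.inr rfl, by rw [abs_of_neg h]; ring⟩
  have h1 := loss_affine g hg σ hσ A
  have h2 := hloss σ hσ
  have h3 := SI_le_drop g hg A σ hσ
  have h4 : E (fun x => (1 - σ * g x) / 2) = (1 - |E g|) / 2 := by
    rw [E_beta, hσE]
  have hb1 : ∀ x, (1 - σ * g x) / 2 = 0 ∨ (1 - σ * g x) / 2 = 1 := by
    intro x
    rcases hσ with h | h <;> rcases hg x with h' | h' <;> rw [h, h'] <;> norm_num
  have hm := marg_entropy (fun x => (1 - σ * g x) / 2) hb1 A
  have hSI0 : 0 ≤ SI (fun x => (1 - σ * g x) / 2) A := by unfold SI; linarith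
  have hd0 : 0 ≤ drop g A := hSI0.trans h3
  rw [h4] at h1 h2
  have h5 : K * ((1 - |E g|) / 2 + SI (fun x => (1 - σ * g x) / 2) A) ≤ K * ((1 - |E g|) / 2 + drop g A) :=
    mul_le_mul_of_nonneg_left (by linarith) hK
  have h6 := abs_E_le_one g hg
  nlinarith

end cube

theorem Fp_zero_le : Fp 0 ≤ 2 := by
  unfold Fp
  rw [Real.negMulLog]
  have h1 : Real.log ((1 - 0) / 2) = - Real.log 2 := by
    rw [sub_zero, one_div, Real.log_inv]
  have h2 : Real.log ((1 + 0) / 2) = - Real.log 2 := by
    rw [add_zero, one_div, Real.log_inv]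
  rw [Real.negMulLog, h1, h2]
  have := Real.log_two_lt_d9
  norm_num
  linarith

theorem mainJ (n : ℕ) (K : ℝ) (hK : 0 ≤ K) (P : ((Fin n → Bool) → ℝ) → Prop) (hPM : ∀ g, P g → PM g)
    (hres : ∀ g R z, P g → P (res g R z))
    (hloss : ∀ g, P g → ∀ m : ℕ, ∀ σ : ℝ, (σ = 1 ∨ σ = -1) → loss (fun x => (1 - σ * g x) / 2) (pre n m)
      ≤ K * (E (fun x => (1 - σ * g x) / 2) + SI (fun x => (1 - σ * g x) / 2) (pre n m)))
    (g : (Fin n → Bool) → ℝ) (hg : P g) : ent g ≤ 2000000 * (K + 1) * infl g := by
  have hsub : ∀ g i c, P g → P (sub g i c) := by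
    intro g i c h
    have e : sub g i c = res g {i}ᶜ (fun _ => c) := by
      ext x
      unfold sub res
      congr 1
      ext j
      unfold mrg
      by_cases hj : j = i
      · subst hj; simp
      · simp [hj]
    rw [e]
    exact hres g _ _ h
  have hrec := rec_main (1000000 * (K + 1)) (by linarith) P hPM hres (by
    intro g hP
    have hgPM := hPM g hP
    rcases Nat.eq_zero_or_pos n with hn | hn
    · left
      refine ⟨∅, by simp, ?_⟩
      apply dA_of_Dep g hgPM univ ∅ (Dep_univ g)
      intro i _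
      exact absurd i.2 (by omega)
    · obtain ⟨i, m, him⟩ := path_lemma n hn g hgPM
      rcases (dA_nonneg g hgPM {i}).eq_or_lt with h0 | h0
      · left
        exact ⟨{i}, by simp, h0.symm⟩
      · right
        refine ⟨pre n m, ?_, ?_, ?_⟩
        · have := min_le_left (dA g (pre n m)) (dA g (pre n m)ᶜ)
          linarith
        · have := min_le_right (dA g (pre n m)) (dA g (pre n m)ᶜ)
          linarith
        · have hbl := block g hgPM (pre n m)
          have hd : dA g {i} ≤ 1200 * drop g (pre n m) := by linarith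
          have hh := half_loss g hgPM i (pre n m)
          have hdr := half_drop g hgPM i (pre n m)
          have hsg := dA_single g hgPM i
          have n0 := nearJ K hK (sub g i false) (PM_sub g hgPM i false) (pre n m) (fun σ hσ => hloss (sub g i false) (hsub g i false hP) m σ hσ)
          have n1 := nearJ K hK (sub g i true) (PM_sub g hgPM i true) (pre n m) (fun σ hσ => hloss (sub g i true) (hsub g i true hP) m σ hσ)
          have hd0 : 0 ≤ drop g (pre n m) := by linarith
          have h5 : loss g (pre n m) ≤ (4 * K + 36) * (dA g {i} + (drop (sub g i false) (pre n m) + drop (sub g i true) (pre n m)) / 2) + 600 * dA g {i} := by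
            have e : (4 * K + 36) * (dA g {i} + (drop (sub g i false) (pre n m) + drop (sub g i true) (pre n m)) / 2) + 600 * dA g {i}
                = ((4 * K + 36) * ((1 - |E (sub g i false)|) / 2 + drop (sub g i false) (pre n m))
                  + (4 * K + 36) * ((1 - |E (sub g i true)|) / 2 + drop (sub g i true) (pre n m))) / 2 + 600 * dA g {i} := by
              rw [hsg]; ring
            rw [e]
            linarith
          have h6 : (4 * K + 36) * (dA g {i} + (drop (sub g i false) (pre n m) + drop (sub g i true) (pre n m)) / 2)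
              ≤ (4 * K + 36) * (1200 * drop g (pre n m) + drop g (pre n m)) := by
            apply mul_le_mul_of_nonneg_left _ (by linarith)
            linarith
          nlinarith)
    g hg
  have hF0 := Fp_zero_le
  have hI := infl_nonneg g
  have hE := abs_E_le_one g (hPM g hg)
  rw [abs_le] at hE
  have hFE := Fp_nonneg (E g) hE.1 hE.2
  have h1 : Fp 0 * infl g - Fp (E g) ≤ 2 * infl g := by nlinarith
  have h2 : 1000000 * (K + 1) * (Fp 0 * infl g - Fp (E g)) ≤ 1000000 * (K + 1) * (2 * infl g) :=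
    mul_le_mul_of_nonneg_left h1 (by linarith)
  linarith

end Pool.FEI
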