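import Pool.Agent.FEI.JDefs
set_option autoImplicit false
set_option linter.unusedSectionVars false
set_option linter.unusedVariables false

/-! Renaming the variables. -/

namespace Pool.FEI
open Finset
variable {ι : Type} [Fintype ι] [DecidableEq ι]

theorem E_perm (F : (ι → Bool) → ℝ) (σ : Equiv.Perm ι) : E (fun x => F (x ∘ σ)) = E F := by
  unfold E
  congr 1
  exact Equiv.sum_comp (Equiv.arrowCongr σ.symm (Equiv.refl Bool)) F

theorem chi_perm (S : Finset ι) (x : ι → Bool) (σ : Equiv.Perm ι) :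
    chi (S.map σ.symm.toEmbedding) (x ∘ σ) = chi S x := by
  unfold chi
  rw [Finset.prod_map]
  simp

theorem coef_perm (g : (ι → Bool) → ℝ) (σ : Equiv.Perm ι) (S : Finset ι) :
    coef (fun x => g (x ∘ σ)) S = coef g (S.map σ.symm.toEmbedding) := by
  unfold coef
  rw [← E_perm (fun y => g y * chi (S.map σ.symm.toEmbedding) y) σ]
  apply E_congr
  intro x
  rw [chi_perm]

theorem ent_perm (g : (ι → Bool) → ℝ) (σ : Equiv.Perm ι) : ent (fun x => g (x ∘ σ)) = ent g := by
  unfold ent
  simp only [coef_perm]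
  exact Equiv.sum_comp (Equiv.finsetCongr σ.symm) (fun T => Real.negMulLog ((coef g T) ^ 2))

theorem infl_perm (g : (ι → Bool) → ℝ) (σ : Equiv.Perm ι) : infl (fun x => g (x ∘ σ)) = infl g := by
  unfold infl
  simp only [coef_perm]
  rw [← Equiv.sum_comp (Equiv.finsetCongr σ.symm) (fun T => (T.card : ℝ) * (coef g T) ^ 2)]
  apply Finset.sum_congr rfl
  intro T _
  simp [Equiv.finsetCongr_apply]

end Pool.FEI
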