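import Pool.Agent.FEI.JDefs
set_option autoImplicit false
set_option linter.unusedSectionVars false
set_option linter.unusedVariables false

namespace Pool.FEI
open Finset

theorem Fp_one : Fp 1 = 0 := by unfold Fp; norm_num
theorem Fp_neg_one : Fp (-1) = 0 := by unfold Fp; norm_num

theorem Fp_nonneg (μ : ℝ) (h1 : -1 ≤ μ) (h2 : μ ≤ 1) : 0 ≤ Fp μ := by
  unfold Fp
  have a1 : 0 ≤ Real.negMulLog ((1 - μ) / 2) := Real.negMulLog_nonneg (by linarith) (by linarith)
  have a2 : 0 ≤ Real.negMulLog ((1 + μ) / 2) := Real.negMulLog_nonneg (by linarith) (by linarith)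
  nlinarith

section cube
variable {ι : Type} [Fintype ι] [DecidableEq ι]

theorem infl_nonneg (g : (ι → Bool) → ℝ) : 0 ≤ infl g :=
  Finset.sum_nonneg fun T _ => mul_nonneg (Nat.cast_nonneg _) (sq_nonneg _)

theorem E_infl_res (g : (ι → Bool) → ℝ) (A : Finset ι) :
    E (fun y => infl (res g A y)) = ∑ S : Finset ι, ((S ∩ A).card : ℝ) * (coef g S) ^ 2 := by
  unfold infl
  rw [E_sum]
  have h1 : ∀ T : Finset ι, E (fun y => (T.card : ℝ) * (coef (res g A y) T) ^ 2)
      = ∑ S ∈ univ.filter (fun S => S ∩ A = T), ((S ∩ A).card : ℝ) * (coef g S) ^ 2 := by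
    intro T
    rw [E_mul_left, E_coef_res_sq', Finset.mul_sum]
    apply Finset.sum_congr rfl
    intro S hS
    rw [Finset.mem_filter] at hS
    rw [hS.2]
  simp only [h1]
  exact Finset.sum_fiberwise univ (fun S : Finset ι => S ∩ A) (fun S => ((S ∩ A).card : ℝ) * (coef g S) ^ 2)

theorem infl_split (g : (ι → Bool) → ℝ) (A : Finset ι) :
    infl g = E (fun y => infl (res g A y)) + E (fun x => infl (res g Aᶜ x)) := by
  rw [E_infl_res, E_infl_res, ← Finset.sum_add_distrib]
  unfold infl
  apply Finset.sum_congr rfl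
  intro S _
  rw [← add_mul]
  congr 1
  have h : (S ∩ A).card + (S ∩ Aᶜ).card = S.card := by
    have h1 := Finset.card_inter_add_card_sdiff S A
    have h2 : S ∩ Aᶜ = S \ A := by ext i; simp
    rw [h2]; exact h1
  rw [← h]
  push_cast
  ring

/-- `g` depends only on the coordinates in `R` -/
def Dep (g : (ι → Bool) → ℝ) (R : Finset ι) : Prop :=
  ∀ u u' : ι → Bool, (∀ i ∈ R, u i = u' i) → g u = g u'

theorem Dep_univ (g : (ι → Bool) → ℝ) : Dep g univ := by
  intro u u' h
  have : u = u' := funext fun i => h i (Finset.mem_univ i)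
  rw [this]

theorem Dep_res (g : (ι → Bool) → ℝ) (R A : Finset ι) (y : ι → Bool) (h : Dep g R) : Dep (res g A y) (R ∩ A) := by
  intro u u' huu
  unfold res
  apply h
  intro i hi
  unfold mrg
  by_cases hA : i ∈ A
  · simp only [hA, if_true]
    exact huu i (Finset.mem_inter.mpr ⟨hi, hA⟩)
  · simp [hA]

theorem dA_of_Dep (g : (ι → Bool) → ℝ) (hg : PM g) (R A : Finset ι) (h : Dep g R) (hRA : R ⊆ A) : dA g A = 0 := by
  have h1 : ∀ x, |E (res g Aᶜ x)| = 1 := by
    intro x
    have h2 : ∀ u, res g Aᶜ x u = g x := by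
      intro u
      unfold res
      apply h
      intro i hi
      unfold mrg
      simp [hRA hi]
    rw [E_congr h2, E_const]
    rcases hg x with h3 | h3 <;> rw [h3] <;> norm_num
  unfold dA
  rw [E_congr h1, E_const]
  norm_num

theorem abs_E_le_one (g : (ι → Bool) → ℝ) (hg : PM g) : |E g| ≤ 1 := by
  rw [abs_le]
  constructor
  · have h1 : ∀ x, (-1 : ℝ) ≤ g x := fun x => by rcases hg x with h | h <;> rw [h] <;> norm_num
    have := E_mono h1
    rwa [E_const] at this
  · have h1 : ∀ x, g x ≤ (1 : ℝ) := fun x => by rcases hg x with h | h <;> rw [h] <;> norm_num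
    have := E_mono h1
    rwa [E_const] at this

theorem eq_of_E_eq (f : (ι → Bool) → ℝ) (c : ℝ) (hle : ∀ x, f x ≤ c) (hE : E f = c) (x : ι → Bool) : f x = c := by
  by_contra hne
  have hlt : 0 < c - f x := by
    have := lt_of_le_of_ne (hle x) hne
    linarith
  have h1 := E_pos_of (fun x => c - f x) (fun x => by have := hle x; linarith) x hlt
  rw [E_sub, E_const, hE] at h1
  linarith

theorem abs_eq_of_dA_zero (g : (ι → Bool) → ℝ) (hg : PM g) (T : Finset ι) (h : dA g T = 0) (x : ι → Bool) :
    |E (res g Tᶜ x)| = 1 := by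
  unfold dA at h
  have h1 : E (fun x => |E (res g Tᶜ x)|) = 1 := by linarith
  exact eq_of_E_eq (fun x => |E (res g Tᶜ x)|) 1 (fun x => abs_E_le_one _ fun u => hg _) h1 x

/-- if `dA g T = 0` then `g` depends only on `T` -/
theorem Dep_of_dA_zero (g : (ι → Bool) → ℝ) (hg : PM g) (T : Finset ι) (h : dA g T = 0) : Dep g T := by
  have hc : ∀ x u, res g Tᶜ x u = E (res g Tᶜ x) := by
    intro x u
    have h1 := abs_eq_of_dA_zero g hg T h x
    have hPM : PM (res g Tᶜ x) := fun u => hg _
    rcases abs_eq (by norm_num : (0 : ℝ) ≤ 1) |>.mp h1 with h2 | h2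
    · rw [h2]
      exact eq_of_E_eq _ 1 (fun v => by rcases hPM v with h3 | h3 <;> rw [h3]; norm_num) h2 u
    · rw [h2]
      have h4 := eq_of_E_eq (fun v => (-1) * res g Tᶜ x v) 1
        (fun v => by rcases hPM v with h3 | h3 <;> rw [h3] <;> norm_num) (by rw [E_mul_left, h2]; norm_num) u
      linarith
  intro u u' huu
  have e1 : g u = res g Tᶜ u u := by
    unfold res; congr 1; ext i; unfold mrg; simp
  have e2 : g u' = res g Tᶜ u u' := by
    unfold res; congr 1; ext i; unfold mrg
    by_cases hi : i ∈ T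
    · simp [hi, huu i hi]
    · simp [hi]
  rw [e1, e2, hc, hc]

theorem coef_zero_of_Dep (g : (ι → Bool) → ℝ) (R : Finset ι) (h : Dep g R) (T : Finset ι) (hT : ¬ T ⊆ R) : coef g T = 0 := by
  obtain ⟨i, hiT, hiR⟩ := Finset.not_subset.mp hT
  apply coef_eq_zero_of_indep g i _ T hiT
  intro x
  apply h
  intro j hj
  have hne : j ≠ i := fun h' => hiR (h' ▸ hj)
  rw [Function.update_of_ne hne, Function.update_of_ne hne]

theorem base_case (g : (ι → Bool) → ℝ) (hg : PM g) (T : Finset ι) (hT : T.card ≤ 1) (h : dA g T = 0) :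
    ent g = 0 ∧ 0 ≤ Fp 0 * infl g - Fp (E g) := by
  have hD := Dep_of_dA_zero g hg T h
  have hsq := coef_sq_of_card_le_one g hg T hT (coef_zero_of_Dep g T hD)
  constructor
  · unfold ent
    apply Finset.sum_eq_zero
    intro S _
    rcases hsq S with h1 | h1
    · rw [h1, Real.negMulLog_zero]
    · rw [h1, Real.negMulLog_one]
  · have hF0 : 0 ≤ Fp 0 := Fp_nonneg 0 (by norm_num) (by norm_num)
    have hI := infl_nonneg g
    have hE : (E g) ^ 2 = 0 ∨ (E g) ^ 2 = 1 := by
      have := hsq ∅
      rwa [coef_empty] at this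
    rcases hE with h1 | h1
    · have h2 : E g = 0 := pow_eq_zero_iff two_ne_zero |>.mp h1
      rw [h2]
      have h3 : 1 ≤ infl g := by
        have hsum : ∑ S, (coef g S) ^ 2 = 1 := by
          rw [parseval]
          have h3 : ∀ x, g x ^ 2 = 1 := fun x => by rcases hg x with h | h <;> rw [h] <;> norm_num
          rw [E_congr h3, E_const]
        rw [← hsum]
        unfold infl
        apply Finset.sum_le_sum
        intro S _
        by_cases hS : S = ∅
        · subst hS
          rw [coef_empty, h2]; simp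
        · have : (1 : ℝ) ≤ S.card := by
            have : 1 ≤ S.card := Finset.card_pos.mpr (Finset.nonempty_iff_ne_empty.mpr hS)
            exact_mod_cast this
          nlinarith [sq_nonneg (coef g S)]
      nlinarith
    · have h2 : E g = 1 ∨ E g = -1 := by
        have h3 : (E g - 1) * (E g + 1) = 0 := by ring_nf; linarith
        rcases mul_eq_zero.mp h3 with h4 | h4
        · left; linarith
        · right; linarith
      rcases h2 with h3 | h3
      · rw [h3, Fp_one]; nlinarith
      · rw [h3, Fp_neg_one]; nlinarith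

theorem rec_main (K : ℝ) (hK : 0 ≤ K) (P : ((ι → Bool) → ℝ) → Prop) (hPM : ∀ g, P g → PM g)
    (hres : ∀ g R z, P g → P (res g R z))
    (hstep : ∀ g, P g → (∃ T : Finset ι, T.card ≤ 1 ∧ dA g T = 0) ∨
      ∃ A : Finset ι, 0 < dA g A ∧ 0 < dA g Aᶜ ∧ loss g A ≤ K * drop g A)
    (g : (ι → Bool) → ℝ) (hg : P g) : ent g ≤ K * (Fp 0 * infl g - Fp (E g)) := by
  have key : ∀ (r : ℕ) (g : (ι → Bool) → ℝ) (R : Finset ι), R.card ≤ r → Dep g R → P g →
      ent g ≤ K * (Fp 0 * infl g - Fp (E g)) := by
    intro r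
    induction r with
    | zero =>
      intro g R hR hD hP
      have hR0 : R = ∅ := Finset.card_eq_zero.mp (Nat.le_zero.mp hR)
      have h0 : dA g ∅ = 0 := dA_of_Dep g (hPM g hP) R ∅ hD (by rw [hR0])
      obtain ⟨h1, h2⟩ := base_case g (hPM g hP) ∅ (by simp) h0
      rw [h1]
      exact mul_nonneg hK h2
    | succ r ih =>
      intro g R hR hD hP
      rcases hstep g hP with ⟨T, hT, h0⟩ | ⟨A, hA, hAc, hl⟩
      · obtain ⟨h1, h2⟩ := base_case g (hPM g hP) T hT h0
        rw [h1]
        exact mul_nonneg hK h2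
      · have hRA : ¬ R ⊆ A := fun h => by
          have := dA_of_Dep g (hPM g hP) R A hD h
          linarith
        have hRAc : ¬ R ⊆ Aᶜ := fun h => by
          have := dA_of_Dep g (hPM g hP) R Aᶜ hD h
          linarith
        have hc1 : (R ∩ A).card ≤ r := by
          have : (R ∩ A).card < R.card := Finset.card_lt_card
            (Finset.ssubset_iff_subset_ne.mpr ⟨Finset.inter_subset_left, fun h => hRA (Finset.inter_eq_left.mp h)⟩)
          omega
        have hc2 : (R ∩ Aᶜ).card ≤ r := by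
          have : (R ∩ Aᶜ).card < R.card := Finset.card_lt_card
            (Finset.ssubset_iff_subset_ne.mpr ⟨Finset.inter_subset_left, fun h => hRAc (Finset.inter_eq_left.mp h)⟩)
          omega
        have e1 := E_mono (fun y => ih (res g A y) (R ∩ A) hc1 (Dep_res g R A y hD) (hres g A y hP))
        have e2 := E_mono (fun y => ih (res g Aᶜ y) (R ∩ Aᶜ) hc2 (Dep_res g R Aᶜ y hD) (hres g Aᶜ y hP))
        rw [E_mul_left, E_sub, E_mul_left] at e1 e2
        have hs := infl_split g A
        unfold loss drop at hl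
        rw [hs]
        nlinarith
  exact key (Finset.univ : Finset ι).card g univ le_rfl (Dep_univ g) hg

end cube
end Pool.FEI
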