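import Pool.Agent.FEI.BoxPrior
import Pool.Agent.FEI.Layer
import Pool.Agent.FEI.Level
set_option autoImplicit false
set_option linter.unusedSectionVars false
set_option linter.unusedVariables false

namespace Pool.FEI
open Finset

section cube
variable {ι : Type} [Fintype ι] [DecidableEq ι]

theorem mu_nonneg (S : Finset (ι → Bool)) : 0 ≤ mu S := by unfold mu; positivity

theorem mu_mono {S T : Finset (ι → Bool)} (h : S ⊆ T) : mu S ≤ mu T := by
  unfold mu
  apply div_le_div_of_nonneg_right _ (by positivity)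
  exact_mod_cast Finset.card_le_card h

theorem sum_half_le (J : ℕ) : ∑ j ∈ range J, (1 / 2 : ℝ) ^ j ≤ 2 := by
  have : ∑ j ∈ range J, (1 / 2 : ℝ) ^ j = 2 - 2 * (1 / 2 : ℝ) ^ J := by
    induction J with
    | zero => simp
    | succ J ih => rw [Finset.sum_range_succ, ih]; ring
  rw [this]
  have : (0 : ℝ) < (1 / 2 : ℝ) ^ J := by positivity
  linarith

theorem sum_half_mul_le (J : ℕ) : ∑ j ∈ range J, (1 / 2 : ℝ) ^ j * j ≤ 2 := by
  have : ∑ j ∈ range J, (1 / 2 : ℝ) ^ j * j = 2 - (2 * J + 2) * (1 / 2 : ℝ) ^ J := by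
    induction J with
    | zero => simp
    | succ J ih => rw [Finset.sum_range_succ, ih]; push_cast; ring
  rw [this]
  have : (0 : ℝ) ≤ (2 * J + 2) * (1 / 2 : ℝ) ^ J := by positivity
  linarith

/-- coefficient in front of `m` -/
noncomputable def C1 (N k : ℕ) : ℝ :=
  2 + 16 * (2 * (N * Real.log 2) + 2 * (N * k * Real.log (2 * N * k)) + 2 * (N * k * Real.log 2) + 4 * (N * k) ^ 2)
/-- coefficient in front of the integral of the log likelihood ratio -/
noncomputable def C2 (N k : ℕ) : ℝ := 64 * (N * k) ^ 2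

/-- the transfer inequality at one point `y` -/
theorem transfer_point {N k : ℕ} (hN : 1 ≤ N) (hk : 1 ≤ k) (P : (ι → Bool) → ℝ) (hP : ∀ x, 0 ≤ P x) (hP1 : E P = 1)
    (Z : Fin N → Fin k → (ι → Bool) → ℝ) (U : Fin N → Finset (ι → Bool))
    (hdisj : ∀ s s', s ≠ s' → Disjoint (U s) (U s'))
    (hbox : ∀ s (t : Fin k → (ι → Bool)), (∀ i, t i ∈ U s) → Box (Z s) t ⊆ U s)
    (m : ℝ) (hm : 0 < m) (hUm : ∑ s, mu (U s) = m) (hPpos : ∀ s, ∀ x ∈ U s, 0 < P x)
    (B : (ι → Bool) → ℝ) (hB : B = fun x => ∑ s, if x ∈ U s then (1 : ℝ) else 0)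
    (hBm : ∑ v, (coef B v) ^ 2 ≤ m)
    (S : Finset (ι → Bool)) (hS : ∀ s, U s ⊆ S) (hSm : mu S = m) :
    (∀ v, Qs P Z v = 0 → coef B v = 0) ∧
    ∑ v, (coef B v) ^ 2 * Real.log ((coef B v) ^ 2 / (m * Qs P Z v))
      ≤ C1 N k * m + C2 N k * ((∑ x ∈ S, max 0 (-Real.log (m * P x))) / 2 ^ Fintype.card ι) := by
  classical
  have hNr : (1 : ℝ) ≤ N := by exact_mod_cast hN
  have hkr : (1 : ℝ) ≤ k := by exact_mod_cast hk
  have hNk : (1 : ℝ) ≤ (N : ℝ) * k := by nlinarith
  have hNk0 : (0 : ℝ) < (N : ℝ) * k := by linarith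
  set l : (ι → Bool) → ℝ := fun x => max 0 (-Real.log (m * P x)) with hl
  have hl0 : ∀ x, 0 ≤ l x := fun x => le_max_left _ _
  obtain ⟨Λ, hΛ1, hΛ2⟩ := layer S l hl0 (1 / ((N : ℝ) * k)) (by positivity) (by rw [hSm]; exact hm)
  rw [hSm] at hΛ1 hΛ2
  have hlog2 : 0 < Real.log 2 := Real.log_pos (by norm_num)
  have hlogN : 0 ≤ Real.log (2 * N * k) := Real.log_nonneg (by nlinarith)
  -- data at level j
  set π0 : ℕ → ℝ := fun j => (1 / 2 : ℝ) ^ j / (2 * N * k) * Real.exp (-(Λ j : ℝ)) with hπ0def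
  have hπpos : ∀ j, 0 < π0 j := fun j => by
    simp only [hπ0def]; positivity
  have hπle : ∀ j, π0 j ≤ 1 := fun j => by
    simp only [hπ0def]
    have h1 : (1 / 2 : ℝ) ^ j ≤ 1 := pow_le_one₀ (by norm_num) (by norm_num)
    have h2 : (1 / 2 : ℝ) ^ j / (2 * N * k) ≤ 1 := by
      rw [div_le_one (by positivity)]
      nlinarith
    have h3 : Real.exp (-(Λ j : ℝ)) ≤ 1 := by
      rw [Real.exp_le_one_iff]
      have : (0 : ℝ) ≤ (Λ j : ℝ) := Nat.cast_nonneg _
      linarith
    exact mul_le_one₀ h2 (Real.exp_pos _).le h3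
  set c : ℕ → ℝ := fun j => N * Real.log 2 + N * k * (Real.log (2 * N * k) + j * Real.log 2 + Λ j) with hcdef
  have hc0 : ∀ j, 0 ≤ c j := fun j => by
    simp only [hcdef]
    have : (0 : ℝ) ≤ (Λ j : ℝ) := Nat.cast_nonneg _
    positivity
  have hcexp : ∀ j, Real.exp (c j) = 2 ^ N / (π0 j) ^ (N * k) := by
    intro j
    have h1 : Real.log (π0 j) = - (Real.log (2 * N * k) + j * Real.log 2 + Λ j) := by
      simp only [hπ0def]
      rw [Real.log_mul (by positivity) (Real.exp_pos _).ne', Real.log_div (by positivity) (by positivity),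
        Real.log_pow, Real.log_exp, one_div, Real.log_inv]
      ring
    have h2 : c j = Real.log (2 ^ N / (π0 j) ^ (N * k)) := by
      rw [Real.log_div (by positivity) (pow_pos (hπpos j) _).ne', Real.log_pow, Real.log_pow, h1]
      simp only [hcdef]
      push_cast
      ring
    rw [h2, Real.exp_log (div_pos (by positivity) (pow_pos (hπpos j) _))]
  have hlev : ∀ j : ℕ, ∃ ρ : Finset ι → ℝ, (∀ v, 0 ≤ ρ v) ∧ ∑ v, ρ v ≤ 2 * (1 / 2 : ℝ) ^ j * m ∧
      ∀ v, 4 * ρ v ≤ (coef B v) ^ 2 → (coef B v) ^ 2 ≤ 4 * Real.exp (c j) * (m * Qs P Z v) := by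
    intro j
    set τ : ℝ := (1 / 2 : ℝ) ^ j * m / (N * k) with hτ
    have hτ0 : 0 < τ := by positivity
    set Sj : Finset (Fin N) := univ.filter (fun s => (1 / 2 : ℝ) ^ j * m / N ≤ mu (U s)) with hSj
    set Es : Fin N → Fin k → Finset (ι → Bool) := fun s i =>
      (U s).filter (fun x => mu ((U s).filter (fun x' => Z s i x' < Z s i x)) ≤ τ ∧ l x ≤ Λ j) with hEs
    have hmass : ∀ s ∈ Sj, ∀ i, τ / 2 ≤ mu (Es s i) := by
      intro s hs i
      rw [hSj, Finset.mem_filter] at hs
      have h1 : τ ≤ mu (U s) := by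
        refine le_trans ?_ hs.2
        rw [hτ]
        apply div_le_div_of_nonneg_left (by positivity) (by positivity)
        nlinarith
      have h2 := quant (U s) (Z s i) τ h1
      have h3 := hΛ1 j
      have h4 : mu ((U s).filter (fun x => mu ((U s).filter (fun x' => Z s i x' < Z s i x)) ≤ τ))
          ≤ mu (Es s i) + mu (S.filter (fun x => (Λ j : ℝ) < l x)) := by
        have h5 : (U s).filter (fun x => mu ((U s).filter (fun x' => Z s i x' < Z s i x)) ≤ τ)
            ⊆ Es s i ∪ S.filter (fun x => (Λ j : ℝ) < l x) := by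
          intro x hx
          rw [Finset.mem_filter] at hx
          rw [Finset.mem_union]
          rcases le_or_gt (l x) (Λ j) with h | h
          · left
            rw [hEs, Finset.mem_filter]
            exact ⟨hx.1, hx.2, h⟩
          · right
            rw [Finset.mem_filter]
            exact ⟨hS s hx.1, h⟩
        refine (mu_mono h5).trans ?_
        unfold mu
        rw [← add_div]
        apply div_le_div_of_nonneg_right _ (by positivity)
        exact_mod_cast Finset.card_union_le _ _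
      have h6 : 1 / ((N : ℝ) * k) * (1 / 2) ^ j * m / 2 = τ / 2 := by
        rw [hτ]; ring
      rw [h6] at h3
      linarith
    have hπ : ∀ s ∈ Sj, ∀ i, π0 j ≤ (∑ x ∈ Es s i, P x) / 2 ^ Fintype.card ι := by
      intro s hs i
      have h1 := hmass s hs i
      have h2 : ∀ x ∈ Es s i, Real.exp (-(Λ j : ℝ)) / m ≤ P x := by
        intro x hx
        rw [hEs, Finset.mem_filter] at hx
        have hPx := hPpos s x hx.1
        have h3 : -Real.log (m * P x) ≤ Λ j := (le_max_right _ _).trans hx.2.2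
        rw [div_le_iff₀ hm]
        have h4 : Real.exp (-(Λ j : ℝ)) ≤ Real.exp (Real.log (m * P x)) := Real.exp_le_exp.mpr (by linarith)
        rw [Real.exp_log (by positivity)] at h4
        linarith
      have h3 : (Es s i).card • (Real.exp (-(Λ j : ℝ)) / m) ≤ ∑ x ∈ Es s i, P x := Finset.card_nsmul_le_sum _ _ _ h2
      rw [nsmul_eq_mul] at h3
      have h4 : mu (Es s i) * (Real.exp (-(Λ j : ℝ)) / m) ≤ (∑ x ∈ Es s i, P x) / 2 ^ Fintype.card ι := by
        unfold mu
        rw [div_mul_eq_mul_div]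
        exact div_le_div_of_nonneg_right h3 (by positivity)
      refine le_trans ?_ h4
      have h5 : π0 j = τ / 2 * (Real.exp (-(Λ j : ℝ)) / m) := by
        simp only [hπ0def, hτ]
        field_simp
      rw [h5]
      exact mul_le_mul_of_nonneg_right h1 (by positivity)
    obtain ⟨ρ, hρ0, hρ1, hρ2⟩ := prior_step P hP hP1 Z U hdisj hbox m hm hUm Sj Es τ (π0 j) hτ0.le
      (by
        intro s _ i x hx
        rw [hEs, Finset.mem_filter] at hx
        exact ⟨hx.1, hx.2.1⟩) hπ (hπpos j) (hπle j)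
    refine ⟨ρ, hρ0, hρ1.trans ?_, ?_⟩
    · have h1 : ∑ s ∈ Sjᶜ, mu (U s) ≤ (1 / 2 : ℝ) ^ j * m := by
        have h2 : ∀ s ∈ Sjᶜ, mu (U s) ≤ (1 / 2 : ℝ) ^ j * m / N := by
          intro s hs
          rw [Finset.mem_compl, hSj, Finset.mem_filter] at hs
          push Not at hs
          exact (hs (Finset.mem_univ s)).le
        refine (Finset.sum_le_sum h2).trans ?_
        rw [Finset.sum_const, nsmul_eq_mul]
        have h3 : ((Sjᶜ.card : ℕ) : ℝ) ≤ N := by
          have : Sjᶜ.card ≤ N := (Finset.card_le_univ _).trans (by simp)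
          exact_mod_cast this
        have h4 : (N : ℝ) * ((1 / 2 : ℝ) ^ j * m / N) = (1 / 2 : ℝ) ^ j * m := by field_simp
        have h5 : 0 ≤ (1 / 2 : ℝ) ^ j * m / N := by positivity
        exact (mul_le_mul_of_nonneg_right h3 h5).trans h4.le
      have h2 : (N : ℝ) * k * τ = (1 / 2 : ℝ) ^ j * m := by
        rw [hτ]; field_simp
      rw [h2]
      linarith
    · intro v hv
      rw [← hB] at hρ2
      have := hρ2 v hv
      rw [hcexp]
      exact this
  choose ρ hρ0 hρ1 hρ2 using hlev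
  -- the last level
  obtain ⟨J, hJ⟩ : ∃ J : ℕ, ∀ v, coef B v ≠ 0 → 8 * (1 / 2 : ℝ) ^ J * m ≤ (coef B v) ^ 2 := by
    have h1 : ∀ v : Finset ι, ∃ J : ℕ, coef B v ≠ 0 → 8 * (1 / 2 : ℝ) ^ J * m ≤ (coef B v) ^ 2 := by
      intro v
      by_cases h : coef B v = 0
      · exact ⟨0, fun h' => absurd h h'⟩
      · have h2 : 0 < (coef B v) ^ 2 / (8 * m) := by positivity
        obtain ⟨J, hJ⟩ := exists_pow_lt_of_lt_one h2 (by norm_num : (1 / 2 : ℝ) < 1)
        refine ⟨J, fun _ => ?_⟩
        rw [lt_div_iff₀ (by positivity)] at hJ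
        linarith
    choose Jv hJv using h1
    refine ⟨univ.sup Jv, fun v hv => ?_⟩
    refine le_trans ?_ (hJv v hv)
    have h5 : (1 / 2 : ℝ) ^ (univ.sup Jv) ≤ (1 / 2 : ℝ) ^ (Jv v) :=
      pow_le_pow_of_le_one (by norm_num) (by norm_num) (Finset.le_sup (Finset.mem_univ v))
    nlinarith
  have hQ0 : ∀ v, 0 ≤ Qs P Z v := Qs_nonneg P hP Z
  have hlastgood : ∀ v, coef B v ≠ 0 → 4 * ρ J v ≤ (coef B v) ^ 2 := by
    intro v hv
    have h1 : ρ J v ≤ ∑ v, ρ J v := Finset.single_le_sum (fun v _ => hρ0 J v) (Finset.mem_univ v)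
    have h2 := hρ1 J
    have h3 := hJ v hv
    linarith
  constructor
  · intro v hv
    by_contra hne
    have h1 := hρ2 J v (hlastgood v hne)
    rw [hv, mul_zero, mul_zero] at h1
    have h2 : 0 < (coef B v) ^ 2 := by positivity
    linarith
  · have hsel := level_sel (fun v => coef B v) (fun v => Qs P Z v) m hm hBm J c hc0
      (fun j v => coef B v = 0 ∨ 4 * ρ j v ≤ (coef B v) ^ 2)
      (by
        intro j v h
        rcases h with h | h
        · rw [h]
          have := mul_nonneg (mul_nonneg (by norm_num : (0 : ℝ) ≤ 4) (Real.exp_pos (c j)).le) (mul_nonneg hm.le (hQ0 v))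
          simpa using this
        · exact hρ2 j v h)
      hQ0
      (by
        intro j Bd hBd
        have h1 : ∀ v ∈ Bd, (coef B v) ^ 2 ≤ 4 * ρ j v := by
          intro v hv
          have := hBd v hv
          push Not at this
          exact this.2.le
        refine (Finset.sum_le_sum h1).trans ?_
        rw [← Finset.mul_sum]
        have h2 : ∑ v ∈ Bd, ρ j v ≤ ∑ v, ρ j v :=
          Finset.sum_le_sum_of_subset_of_nonneg (Finset.subset_univ _) (fun v _ _ => hρ0 j v)
        have h3 := hρ1 j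
        linarith)
      (by
        intro v
        by_cases h : coef B v = 0
        · exact Or.inl h
        · exact Or.inr (hlastgood v h))
    refine hsel.trans ?_
    have hsumc : ∑ j ∈ range (J + 1), (1 / 2 : ℝ) ^ j * c j
        ≤ 2 * (N * Real.log 2) + 2 * (N * k * Real.log (2 * N * k)) + 2 * (N * k * Real.log 2)
          + N * k * ((4 / (1 / ((N : ℝ) * k))) * (1 + (∑ x ∈ S, l x) / 2 ^ Fintype.card ι / m)) := by
      have e1 : ∑ j ∈ range (J + 1), (1 / 2 : ℝ) ^ j * c j
          = (N * Real.log 2 + N * k * Real.log (2 * N * k)) * ∑ j ∈ range (J + 1), (1 / 2 : ℝ) ^ j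
            + (N * k * Real.log 2) * ∑ j ∈ range (J + 1), (1 / 2 : ℝ) ^ j * j
            + N * k * ∑ j ∈ range (J + 1), (1 / 2 : ℝ) ^ j * (Λ j : ℝ) := by
        rw [Finset.mul_sum, Finset.mul_sum, Finset.mul_sum, ← Finset.sum_add_distrib, ← Finset.sum_add_distrib]
        apply Finset.sum_congr rfl
        intro j _
        simp only [hcdef]
        ring
      rw [e1]
      have h1 := mul_le_mul_of_nonneg_left (sum_half_le (J + 1)) (by positivity : 0 ≤ (N : ℝ) * Real.log 2 + N * k * Real.log (2 * N * k))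
      have h2 := mul_le_mul_of_nonneg_left (sum_half_mul_le (J + 1)) (by positivity : 0 ≤ (N : ℝ) * k * Real.log 2)
      have h3 := mul_le_mul_of_nonneg_left (hΛ2 (J + 1)) hNk0.le
      linarith
    have h1 := mul_le_mul_of_nonneg_left hsumc (by positivity : 0 ≤ 16 * m)
    have h2 : 16 * m * (2 * (N * Real.log 2) + 2 * (N * k * Real.log (2 * N * k)) + 2 * (N * k * Real.log 2)
          + N * k * ((4 / (1 / ((N : ℝ) * k))) * (1 + (∑ x ∈ S, l x) / 2 ^ Fintype.card ι / m)))
        = (C1 N k - 2) * m + C2 N k * ((∑ x ∈ S, l x) / 2 ^ Fintype.card ι) := by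
      unfold C1 C2
      field_simp
      ring
    rw [h2] at h1
    linarith

end cube
end Pool.FEI
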