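import Pool.Agent.FEI.MainJ
set_option autoImplicit false
set_option linter.unusedSectionVars false
set_option linter.unusedVariables false

/-! Cuts along the edges of a binary tree whose leaves are the variables. -/

namespace Pool.FEI
open Finset

/-- `R` is the root of a binary tree of sets all of which satisfy `C` -/
inductive Dec {ι : Type} [DecidableEq ι] (C : Finset ι → Prop) : Finset ι → Prop
  | small (R : Finset ι) (h : R.card ≤ 1) (hC : C R) : Dec C R
  | split (A B : Finset ι) (hAB : Disjoint A B) (hC : C (A ∪ B)) (hA : Dec C A) (hB : Dec C B) : Dec C (A ∪ B)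

section cube
variable {ι : Type} [Fintype ι] [DecidableEq ι]

theorem Dec.root {C : Finset ι → Prop} {R : Finset ι} (h : Dec C R) : C R := by
  cases h with
  | small _ _ hC => exact hC
  | split _ _ _ hC _ _ => exact hC

theorem Dec.mono {C C' : Finset ι → Prop} {R : Finset ι} (h : Dec C R) (hC : ∀ A, A ⊆ R → C A → C' A) : Dec C' R := by
  induction h with
  | small R h hR => exact Dec.small R h (hC R (Finset.Subset.refl R) hR)
  | split A B hAB hR _ _ ihA ihB =>
    exact Dec.split A B hAB (hC _ (Finset.Subset.refl _) hR)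
      (ihA fun D hD => hC D (hD.trans Finset.subset_union_left))
      (ihB fun D hD => hC D (hD.trans Finset.subset_union_right))

theorem tree_lemma (g : (ι → Bool) → ℝ) (hg : PM g) (C : Finset ι → Prop) (R : Finset ι) (h : Dec C R)
    (hR : dA g R ≤ dA g Rᶜ) :
    ∃ T A : Finset ι, T.card ≤ 1 ∧ C A ∧ dA g T ≤ 7 * min (dA g A) (dA g Aᶜ) := by
  induction h with
  | small R h hC =>
    refine ⟨R, R, h, hC, ?_⟩
    rw [min_eq_left hR]
    have := dA_nonneg g hg R
    linarith
  | split A B hAB hC hA hB ihA ihB =>
    rcases le_or_gt (dA g A) (dA g Aᶜ) with h1 | h1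
    · exact ihA h1
    · rcases le_or_gt (dA g B) (dA g Bᶜ) with h2 | h2
      · exact ihB h2
      · have e1 : (A ∪ B) ∩ Aᶜ = B := by
          ext i
          simp only [Finset.mem_inter, Finset.mem_union, Finset.mem_compl]
          constructor
          · rintro ⟨h | h, h'⟩
            · exact absurd h h'
            · exact h
          · intro h
            exact ⟨Or.inr h, fun h' => Finset.disjoint_left.mp hAB h' h⟩
        have i1 := inter_lemma g hg (A ∪ B) Aᶜ (by
          ext i
          simp only [Finset.mem_union, Finset.mem_compl, Finset.mem_univ, iff_true]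
          tauto)
        rw [e1] at i1
        have i2 := inter_lemma g hg B Bᶜ (Finset.union_compl B)
        rw [Finset.inter_compl] at i2
        have q0 : min (dA g (A ∪ B)) (dA g (A ∪ B)ᶜ) = dA g (A ∪ B) := min_eq_left hR
        have q1 : min (dA g A) (dA g Aᶜ) = dA g Aᶜ := min_eq_right h1.le
        have q2 : min (dA g B) (dA g Bᶜ) = dA g Bᶜ := min_eq_right h2.le
        have key : dA g ∅ ≤ 4 * dA g (A ∪ B) + 2 * dA g Aᶜ + dA g Bᶜ := by linarith
        rcases le_total (dA g Aᶜ) (dA g Bᶜ) with h3 | h3
        · rcases le_total (dA g (A ∪ B)) (dA g Bᶜ) with h4 | h4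
          · refine ⟨∅, B, by simp, hB.root, ?_⟩
            rw [q2]; linarith
          · refine ⟨∅, A ∪ B, by simp, hC, ?_⟩
            rw [q0]; linarith
        · rcases le_total (dA g (A ∪ B)) (dA g Aᶜ) with h4 | h4
          · refine ⟨∅, A, by simp, hA.root, ?_⟩
            rw [q1]; linarith
          · refine ⟨∅, A ∪ B, by simp, hC, ?_⟩
            rw [q0]; linarith

theorem dA_empty (g : (ι → Bool) → ℝ) : dA g ∅ = (1 - |E g|) / 2 := by
  unfold dA
  have h : ∀ x, res g (∅ : Finset ι)ᶜ x = g := by
    intro x
    ext u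
    unfold res
    congr 1
    ext i
    unfold mrg
    simp
  simp only [h]
  rw [E_const]

theorem Dep_mono (g : (ι → Bool) → ℝ) (R S : Finset ι) (h : Dep g R) (hRS : R ⊆ S) : Dep g S :=
  fun u u' huu => h u u' fun i hi => huu i (hRS hi)

/-- the recursion along the cuts of a tree -/
theorem mainT (K : ℝ) (hK : 0 ≤ K) (P : ((ι → Bool) → ℝ) → Prop) (hPM : ∀ g, P g → PM g)
    (hres : ∀ g R z, P g → P (res g R z)) (C : Finset ι → Prop) (R : Finset ι) (hDec : Dec C R)
    (hDep : ∀ g, P g → Dep g R)
    (hloss : ∀ g, P g → ∀ A, C A → ∀ σ : ℝ, (σ = 1 ∨ σ = -1) → loss (fun x => (1 - σ * g x) / 2) A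
      ≤ K * (E (fun x => (1 - σ * g x) / 2) + SI (fun x => (1 - σ * g x) / 2) A))
    (g : (ι → Bool) → ℝ) (hg : P g) : ent g ≤ 4000000 * (K + 1) * infl g := by
  have hsub : ∀ g i c, P g → P (sub g i c) := by
    intro g i c h
    have e : sub g i c = res g {i}ᶜ (fun _ => c) := by
      ext x
      unfold sub res
      congr 1
      ext j
      unfold mrg
      by_cases hj : j = i
      · subst hj; simp
      · simp [hj]
    rw [e]
    exact hres g _ _ h
  have hrec := rec_main (2000000 * (K + 1)) (by linarith) P hPM hres (by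
    intro g hP
    have hgPM := hPM g hP
    have hR0 : dA g R = 0 := dA_of_Dep g hgPM R R (hDep g hP) (Finset.Subset.refl R)
    obtain ⟨T, A, hT, hCA, hTA⟩ := tree_lemma g hgPM C R hDec (by rw [hR0]; exact dA_nonneg g hgPM _)
    rcases (dA_nonneg g hgPM T).eq_or_lt with h0 | h0
    · left
      exact ⟨T, hT, h0.symm⟩
    · right
      refine ⟨A, ?_, ?_, ?_⟩
      · have := min_le_left (dA g A) (dA g Aᶜ)
        linarith
      · have := min_le_right (dA g A) (dA g Aᶜ)
        linarith
      · have hbl := block g hgPM A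
        have hd : dA g T ≤ 2800 * drop g A := by linarith
        have hd0 : 0 ≤ drop g A := by linarith
        rcases Finset.eq_empty_or_nonempty T with hTe | hTe
        · rw [hTe, dA_empty] at hd
          have n0 := nearJ K hK g hgPM A (fun σ hσ => hloss g hP A hCA σ hσ)
          have h6 : (4 * K + 36) * ((1 - |E g|) / 2 + drop g A)
              ≤ (4 * K + 36) * (2800 * drop g A + drop g A) := by
            apply mul_le_mul_of_nonneg_left _ (by linarith)
            linarith
          nlinarith
        · obtain ⟨i, hi⟩ : ∃ i, T = {i} := Finset.card_eq_one.mp (le_antisymm hT (Finset.card_pos.mpr hTe))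
          rw [hi] at hd h0
          have hh := half_loss g hgPM i A
          have hdr := half_drop g hgPM i A
          have hsg := dA_single g hgPM i
          have n0 := nearJ K hK (sub g i false) (PM_sub g hgPM i false) A (fun σ hσ => hloss (sub g i false) (hsub g i false hP) A hCA σ hσ)
          have n1 := nearJ K hK (sub g i true) (PM_sub g hgPM i true) A (fun σ hσ => hloss (sub g i true) (hsub g i true hP) A hCA σ hσ)
          have h5 : loss g A ≤ (4 * K + 36) * (dA g {i} + (drop (sub g i false) A + drop (sub g i true) A) / 2) + 600 * dA g {i} := by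
            have e : (4 * K + 36) * (dA g {i} + (drop (sub g i false) A + drop (sub g i true) A) / 2) + 600 * dA g {i}
                = ((4 * K + 36) * ((1 - |E (sub g i false)|) / 2 + drop (sub g i false) A)
                  + (4 * K + 36) * ((1 - |E (sub g i true)|) / 2 + drop (sub g i true) A)) / 2 + 600 * dA g {i} := by
              rw [hsg]; ring
            rw [e]
            linarith
          have h6 : (4 * K + 36) * (dA g {i} + (drop (sub g i false) A + drop (sub g i true) A) / 2)
              ≤ (4 * K + 36) * (2800 * drop g A + drop g A) := by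
            apply mul_le_mul_of_nonneg_left _ (by linarith)
            linarith
          nlinarith)
    g hg
  have hF0 := Fp_zero_le
  have hI := infl_nonneg g
  have hE := abs_E_le_one g (hPM g hg)
  rw [abs_le] at hE
  have hFE := Fp_nonneg (E g) hE.1 hE.2
  have h1 : Fp 0 * infl g - Fp (E g) ≤ 2 * infl g := by nlinarith
  have h2 : 2000000 * (K + 1) * (Fp 0 * infl g - Fp (E g)) ≤ 2000000 * (K + 1) * (2 * infl g) :=
    mul_le_mul_of_nonneg_left h1 (by linarith)
  linarith

/-- the final form: a property of cuts which passes to subfunctions and controls the loss -/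
theorem mainQ (K : ℝ) (hK : 0 ≤ K) (Q : ((ι → Bool) → ℝ) → Finset ι → Prop)
    (hQres : ∀ g A R z, Q g A → Q (res g R z) A)
    (hQloss : ∀ g A, PM g → Q g A → ∀ σ : ℝ, (σ = 1 ∨ σ = -1) → loss (fun x => (1 - σ * g x) / 2) A
      ≤ K * (E (fun x => (1 - σ * g x) / 2) + SI (fun x => (1 - σ * g x) / 2) A))
    (f : (ι → Bool) → ℝ) (hf : PM f) (R : Finset ι) (hDep : Dep f R) (hDec : Dec (Q f) R) :
    ent f ≤ 4000000 * (K + 1) * infl f := by
  refine mainT K hK (fun g => PM g ∧ Dep g R ∧ ∀ A, Q f A → Q g A) (fun g h => h.1) ?_ (Q f) R hDec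
    (fun g h => h.2.1) (fun g h A hA σ hσ => hQloss g A h.1 (h.2.2 A hA) σ hσ) f ⟨hf, hDep, fun A h => h⟩
  intro g S z h
  exact ⟨fun x => h.1 _, Dep_mono _ _ _ (Dep_res g R S z h.2.1) Finset.inter_subset_left,
    fun A hA => hQres g A S z (h.2.2 A hA)⟩

end cube
end Pool.FEI
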