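import Pool.Agent.FEI.TreeJ
import Pool.Agent.FEI.Rows
import Pool.Agent.FEI.GTFinal
set_option autoImplicit false
set_option linter.unusedSectionVars false
set_option linter.unusedVariables false

namespace Pool.FEI
open Finset

section cube
variable {ι : Type} [Fintype ι] [DecidableEq ι]

/-- at most `w` different rows at the cut `A` -/
def RowsLE (w : ℕ) (g : (ι → Bool) → ℝ) (A : Finset ι) : Prop :=
  ∃ κ : (ι → Bool) → Fin w, ∀ x x', κ x = κ x' → ∀ y, g (mrg A x y) = g (mrg A x' y)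

theorem RowsLE_res (w : ℕ) (g : (ι → Bool) → ℝ) (A R : Finset ι) (z : ι → Bool) (h : RowsLE w g A) :
    RowsLE w (res g R z) A := by
  obtain ⟨κ, hκ⟩ := h
  refine ⟨fun x => κ (mrg R x z), fun x x' hx y => ?_⟩
  unfold res
  rw [mrg_mrg_comm A R x y z, mrg_mrg_comm A R x' y z]
  exact hκ _ _ hx _

theorem RowsLE_loss (w : ℕ) (g : (ι → Bool) → ℝ) (A : Finset ι) (hg : PM g) (h : RowsLE w g A) (σ : ℝ)
    (hσ : σ = 1 ∨ σ = -1) : loss (fun x => (1 - σ * g x) / 2) A
      ≤ (2 * Real.log w) * (E (fun x => (1 - σ * g x) / 2) + SI (fun x => (1 - σ * g x) / 2) A) := by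
  have hb : ∀ x, (1 - σ * g x) / 2 = 0 ∨ (1 - σ * g x) / 2 = 1 := by
    intro x
    rcases hσ with h1 | h1 <;> rcases hg x with h2 | h2 <;> rw [h1, h2] <;> norm_num
  obtain ⟨κ, hκ⟩ := h
  have h1 := loss_rows (fun x => (1 - σ * g x) / 2) hb A w κ (fun x x' hx y => by
    show (1 - σ * g (mrg A x y)) / 2 = (1 - σ * g (mrg A x' y)) / 2
    rw [hκ x x' hx y])
  have h2 : 0 ≤ SI (fun x => (1 - σ * g x) / 2) A := by
    have := marg_entropy (fun x => (1 - σ * g x) / 2) hb A
    unfold SI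
    linarith
  have h3 : (0 : ℝ) ≤ Real.log w := Real.log_natCast_nonneg w
  refine h1.trans ?_
  rw [mul_add]
  have : 0 ≤ 2 * Real.log w * SI (fun x => (1 - σ * g x) / 2) A := by positivity
  linarith

/-- third main theorem: few rows at the cuts of a tree -/
theorem mainRows (w : ℕ) (f : (ι → Bool) → ℝ) (hf : PM f) (R : Finset ι) (hDep : Dep f R) (hDec : Dec (RowsLE w f) R) :
    ent f ≤ 4000000 * (2 * Real.log w + 1) * infl f :=
  mainQ (2 * Real.log w) (by have := Real.log_natCast_nonneg w; positivity) (RowsLE w)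
    (fun g A R z h => RowsLE_res w g A R z h) (fun g A hg h σ hσ => RowsLE_loss w g A hg h σ hσ) f hf R hDep hDec

/-- fourth main theorem: `k` comparisons at the cuts of a tree -/
theorem mainGTtree (k : ℕ) (f : (ι → Bool) → ℝ) (hf : PM f) (R : Finset ι) (hDep : Dep f R) (hDec : Dec (GTcut k f) R) :
    ent f ≤ 8260000000 * 16 ^ k * infl f := by
  have h := mainQ (2064 * 16 ^ k) (by positivity) (GTcut k) (fun g A R z h => GTcut_res k g A R z h)
    (fun g A hg h σ hσ => loss_GT k ι (fun x => (1 - σ * g x) / 2) (fun x => by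
      rcases hσ with h1 | h1 <;> rcases hg x with h2 | h2 <;> simp only [h1, h2] <;> norm_num)
      A (GTcut_affine k g _ σ h)) f hf R hDep hDec
  refine h.trans (mul_le_mul_of_nonneg_right ?_ (infl_nonneg f))
  have : (1 : ℝ) ≤ 16 ^ k := one_le_pow₀ (by norm_num)
  linarith

end cube
end Pool.FEI
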